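import Pool.Agent.Lib.MP_d3cc86_co.AM.C2b
import Pool.Agent.Lib.MP_d3cc86_co.RG.A2
import Pool.Agent.Lib.MP_d3cc86_co.AM.P1
import Pool.Agent.Lib.MP_d3cc86_co.AM.S1
import Pool.Agent.Lib.MP_d3cc86_co.RG.N2a

section

set_option autoImplicit false
set_option linter.unusedSectionVars false

open Finset Pointwise

namespace AM

open RG (stb mem_stb)
open Pool.Agent.Lib.MP_d3cc86_co (lam)

variable {G : Type} [AddCommGroup G] [Fintype G]

private lemma exists_sub (μ : G → ℕ) : ∀ d : ℕ, ∀ ν : G → ℕ, (∀ x, ν x ≤ μ x) → d ≤ tot ν →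
    ∃ ν' : G → ℕ, (∀ x, ν' x ≤ μ x) ∧ tot ν' + d = tot ν := by
  intro d
  induction d with
  | zero => intro ν h _; exact ⟨ν, h, rfl⟩
  | succ d ih =>
    intro ν h hd
    obtain ⟨ν', h1, h2⟩ := ih ν h (by omega)
    obtain ⟨x, hx⟩ : ∃ x, ν' x ≠ 0 := by
      by_contra hc
      push Not at hc
      have : tot ν' = 0 := Finset.sum_eq_zero fun x _ => hc x
      omega
    refine ⟨del ν' x, fun y => (del_le ν' x y).trans (h1 y), ?_⟩
    have := tot_del ν' x hx
    omega

/-- Summing the steps.  Claim by induction on `d`: if `ν ≤ μ`, `tot ν = a + d`, `a + d ≤ b` then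
`∑_{i ∈ Ioc a (a+d)} f i ≤ K |SM ν|`.  `d = 0` is trivial; for `d + 1` take `x` from `hstep` and use
`inc` and the induction hypothesis for `del ν x` (`tot_del`, `del_le`).  Finally take any `ν ≤ μ` with
`tot ν = b` (remove elements one by one) and `SM ν ⊆ SM μ` (`SM_mono`). -/
theorem chain [DecidableEq G] (μ : G → ℕ) (a b K : ℕ) (f : ℕ → ℕ)
    (hstep : ∀ ν : G → ℕ, (∀ x, ν x ≤ μ x) → a < tot ν → tot ν ≤ b →
      ∃ x, ν x ≠ 0 ∧ f (tot ν) ≤ K * lam (SM ν) x) (hab : a ≤ b) (hb : b ≤ tot μ) :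
    ∑ i ∈ Finset.Ioc a b, f i ≤ K * (SM μ).card := by
  have key : ∀ d : ℕ, ∀ ν : G → ℕ, (∀ x, ν x ≤ μ x) → tot ν = a + d → a + d ≤ b →
      ∑ i ∈ Finset.Ioc a (a + d), f i ≤ K * (SM ν).card := by
    intro d
    induction d with
    | zero => intro ν _ _ _; simp
    | succ d ih =>
      intro ν h h1 h2
      obtain ⟨x, hx, hx2⟩ := hstep ν h (by omega) (by omega)
      have h3 := inc ν x hx
      have h4 := tot_del ν x hx
      have h5 := ih (del ν x) (fun y => (del_le ν x y).trans (h y)) (by omega) (by omega)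
      have h6 : Finset.Ioc a (a + (d + 1)) = insert (a + (d + 1)) (Finset.Ioc a (a + d)) := by
        ext i
        simp only [Finset.mem_insert, Finset.mem_Ioc]
        omega
      rw [h6, Finset.sum_insert (by simp), ← h1]
      calc f (tot ν) + ∑ i ∈ Finset.Ioc a (a + d), f i
          ≤ K * lam (SM ν) x + K * (SM (del ν x)).card := Nat.add_le_add hx2 h5
        _ = K * ((SM (del ν x)).card + lam (SM ν) x) := by ring
        _ ≤ K * (SM ν).card := Nat.mul_le_mul_left _ h3
  obtain ⟨ν, h1, h2⟩ := exists_sub μ (tot μ - b) μ (fun _ => le_rfl) (by omega)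
  have h3 := key (b - a) ν h1 (by omega) (by omega)
  have h4 : a + (b - a) = b := by omega
  rw [h4] at h3
  exact h3.trans (Nat.mul_le_mul_left _ (Finset.card_le_card (SM_mono h1)))

end AM
end

section

set_option autoImplicit false
set_option linter.unusedSectionVars false

open Finset Pointwise

namespace AM

open RG (stb mem_stb)
open Pool.Agent.Lib.MP_d3cc86_co (Asym subsetSum_union subsetSum_insert')

/-- A half system: embed `Q` into `ℕ` (`Fintype.equivFin` / `Finite`), `e : Q → ℕ` injective,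
`P x := e x < e (-x)`.  If `x + x ≠ 0` then `x ≠ -x`, `e x ≠ e (-x)`. -/
theorem half (Q : Type) [AddCommGroup Q] [Finite Q] :
    ∃ P : Q → Prop, ∀ x, x + x ≠ 0 → (P x ↔ ¬ P (-x)) := by
  classical
  refine ⟨fun x => (Finite.equivFin Q x : ℕ) < (Finite.equivFin Q (-x) : ℕ), fun x hx => ?_⟩
  have h1 : (Finite.equivFin Q x : ℕ) ≠ (Finite.equivFin Q (-x) : ℕ) := by
    intro h
    have h2 : x = -x := (Finite.equivFin Q).injective (Fin.ext h)
    exact hx (by nth_rewrite 1 [h2]; exact neg_add_cancel x)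
  simp only [neg_neg, not_lt]
  omega

variable {G : Type} [AddCommGroup G] [Fintype G] [DecidableEq G]

/-- No involutions: `K = stb (Σ A)`, `a ∈ A`, `a ∉ K`; then `2 a ∉ K`.  Suppose `a + a ∈ K`.
`Σ A = X ∪ (a +ᵥ X)` with `X = Σ (A.erase a)` (`subsetSum_insert'`).  Let us show `a ∈ K`, i.e.
`y ∈ Σ A → y + a ∈ Σ A` (the converse follows by finiteness, or apply it to `y + a` and use
`y + a + a ∈ Σ A → y ∈ Σ A` as `a + a ∈ K`).  If `y ∈ X` then `y + a ∈ a +ᵥ X ⊆ Σ A`.  If
`y = a + x`, `x ∈ X`, then `y + a = x + (a + a)`, and `x ∈ Σ A`, `a + a ∈ K` give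
`x + (a + a) ∈ Σ A`. -/
theorem no_invol (A : Finset G) (a : G) (ha : a ∈ A) (hK : a ∉ stb A.subsetSum) :
    a + a ∉ stb A.subsetSum := by
  intro h2
  apply hK
  have hins : insert a (A.erase a) = A := Finset.insert_erase ha
  have hS : A.subsetSum = (A.erase a).subsetSum ∪ (a +ᵥ (A.erase a).subsetSum) := by
    conv_lhs => rw [← hins]
    exact subsetSum_insert' (Finset.notMem_erase a A)
  have step : ∀ y, y ∈ A.subsetSum → y + a ∈ A.subsetSum := by
    intro y hy
    rw [hS, Finset.mem_union] at hy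
    rcases hy with hy | hy
    · rw [hS, Finset.mem_union]
      right
      rw [Finset.mem_vadd_finset]
      exact ⟨y, hy, by rw [vadd_eq_add, add_comm]⟩
    · rw [Finset.mem_vadd_finset] at hy
      obtain ⟨x, hx, rfl⟩ := hy
      have hxS : x ∈ A.subsetSum := by
        rw [hS, Finset.mem_union]
        exact Or.inl hx
      have := ((mem_stb _ _).1 h2 x).2 hxS
      rw [vadd_eq_add, add_comm a x, add_assoc]
      exact this
  rw [mem_stb]
  intro y
  refine ⟨fun hy => ?_, step y⟩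
  have h3 := step _ hy
  rw [add_assoc] at h3
  exact ((mem_stb _ _).1 h2 y).1 h3

/-- At most `|K|` elements of an asymmetric set lie in a coset `g + K` or in `-g + K`: map `a` with
`mk a = mk g` to `a - g ∈ K` and `a` with `mk a ≠ mk g`, `mk a = -mk g` to `-a - g ∈ K`; this is
injective on these elements since `A` is asymmetric (`a = -a'` is impossible). -/
theorem class_le (A : Finset G) (hA : Asym A) (K : AddSubgroup G) (z : G ⧸ K)
    [DecidableEq (G ⧸ K)] :
    (A.filter (fun a => (QuotientAddGroup.mk a : G ⧸ K) = z ∨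
      (QuotientAddGroup.mk a : G ⧸ K) = - z)).card ≤ Nat.card K := by
  classical
  rw [← card_sf K]
  obtain ⟨g, rfl⟩ := QuotientAddGroup.mk_surjective z
  refine Finset.card_le_card_of_injOn
    (fun a => if (QuotientAddGroup.mk a : G ⧸ K) = QuotientAddGroup.mk g then a - g else -a - g)
    ?_ ?_
  · intro a ha
    rw [Finset.mem_coe, Finset.mem_filter] at ha
    rw [Finset.mem_coe, mem_sf]
    dsimp only
    by_cases h : (QuotientAddGroup.mk a : G ⧸ K) = QuotientAddGroup.mk g
    · rw [if_pos h]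
      have := QuotientAddGroup.eq.1 h
      have h2 := K.neg_mem this
      have e : -(-a + g) = a - g := by abel
      rwa [e] at h2
    · rw [if_neg h]
      have h1 : (QuotientAddGroup.mk a : G ⧸ K) = QuotientAddGroup.mk (-g) := by
        rcases ha.2 with h' | h'
        · exact absurd h' h
        · rw [h']; rfl
      have := QuotientAddGroup.eq.1 h1
      have e : -a + -g = -a - g := by abel
      rwa [e] at this
  · intro a ha a' ha' haa
    rw [Finset.mem_coe, Finset.mem_filter] at ha ha'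
    dsimp only at haa
    by_cases h : (QuotientAddGroup.mk a : G ⧸ K) = QuotientAddGroup.mk g
    · by_cases h' : (QuotientAddGroup.mk a' : G ⧸ K) = QuotientAddGroup.mk g
      · rw [if_pos h, if_pos h'] at haa
        exact sub_left_injective haa
      · rw [if_pos h, if_neg h'] at haa
        have e : a = -a' := sub_left_injective haa
        exact absurd (e ▸ ha.1) (hA a' ha'.1)
    · by_cases h' : (QuotientAddGroup.mk a' : G ⧸ K) = QuotientAddGroup.mk g
      · rw [if_neg h, if_pos h'] at haa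
        have e : -a = a' := sub_left_injective haa
        exact absurd (e ▸ ha'.1) (hA a ha.1)
      · rw [if_neg h, if_neg h'] at haa
        have e : -a = -a' := sub_left_injective haa
        exact neg_injective e

end AM
end

section

set_option autoImplicit false
set_option linter.unusedSectionVars false

open Finset Pointwise

namespace AM

open RG (stb mem_stb)
open Pool.Agent.Lib.MP_d3cc86_co (Asym subsetSum_union subsetSum_insert')

variable {G : Type} [AddCommGroup G] [Fintype G] [DecidableEq G]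

private lemma mem_FS' {Q : Type} [AddCommGroup Q] [Fintype Q] {ι : Type} [Fintype ι] (f : ι → Q)
    (t : Q) : t ∈ FS f ↔ ∃ B : Finset ι, ∑ i ∈ B, f i = t := by
  classical
  unfold FS
  simp

/-- Every set `X` is a union of cosets of its stabilizer `K`: the image `X'` of `X` in `G ⧸ K` has
`|X| = |K| |X'|` (each fibre of `X → X'` is a full coset; `Finset.card_eq_sum_card_fiberwise`), and the
stabilizer of `X'` is trivial: if `mk g` stabilizes `X'` then for every `x`: `x + g ∈ X ↔ mk x + mk g ∈ X'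
↔ mk x ∈ X' ↔ x ∈ X` (`mk y ∈ X' ↔ y ∈ X` by periodicity), so `g ∈ K`. -/
theorem stb_image (X : Finset G) [DecidableEq (G ⧸ stb X)] [Fintype (G ⧸ stb X)] :
    stb (X.image (fun x => (QuotientAddGroup.mk x : G ⧸ stb X))) = ⊥ ∧
      X.card = Nat.card (stb X) * (X.image (fun x => (QuotientAddGroup.mk x : G ⧸ stb X))).card := by
  have hmem : ∀ y, (QuotientAddGroup.mk y : G ⧸ stb X) ∈
      X.image (fun x => (QuotientAddGroup.mk x : G ⧸ stb X)) ↔ y ∈ X := by
    intro y
    constructor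
    · intro h
      obtain ⟨x, hx, hxy⟩ := Finset.mem_image.1 h
      have h1 : -x + y ∈ stb X := (QuotientAddGroup.eq (s := stb X)).mp hxy
      have h2 := (((mem_stb X (-x + y)).mp h1) x).mpr hx
      rwa [add_neg_cancel_left] at h2
    · intro h
      exact Finset.mem_image_of_mem _ h
  constructor
  · rw [eq_bot_iff]
    intro g' hg'
    obtain ⟨g, rfl⟩ := QuotientAddGroup.mk_surjective g'
    rw [mem_stb] at hg'
    have h1 : g ∈ stb X := by
      rw [mem_stb]
      intro x
      rw [← hmem (x + g), ← hmem x]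
      exact hg' (QuotientAddGroup.mk x)
    rw [AddSubgroup.mem_bot]
    exact (QuotientAddGroup.eq_zero_iff g).2 h1
  · rw [Finset.card_eq_sum_card_image (fun x => (QuotientAddGroup.mk x : G ⧸ stb X)) X]
    have h2 : ∀ y ∈ X.image (fun x => (QuotientAddGroup.mk x : G ⧸ stb X)),
        (X.filter fun z => (QuotientAddGroup.mk z : G ⧸ stb X) = y).card = Nat.card (stb X) := by
      intro y hy
      rw [Finset.mem_image] at hy
      obtain ⟨x, hx, rfl⟩ := hy
      classical
      have h3 : (X.filter fun z => (QuotientAddGroup.mk z : G ⧸ stb X) =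
          (QuotientAddGroup.mk x : G ⧸ stb X)) =
          (univ.filter (fun g => g ∈ stb X)).image (fun g => x + g) := by
        ext z
        simp only [Finset.mem_filter, Finset.mem_image, Finset.mem_univ, true_and]
        constructor
        · rintro ⟨hz, hzx⟩
          refine ⟨-x + z, ?_, by simp⟩
          exact (QuotientAddGroup.eq (s := stb X)).mp hzx.symm
        · rintro ⟨g, hg, rfl⟩
          refine ⟨(((mem_stb X g).mp hg) x).mpr hx, ?_⟩
          apply Eq.symm
          rw [QuotientAddGroup.eq]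
          simpa using hg
      have h4 : (univ.filter (fun g => g ∈ stb X)).card = Nat.card (stb X) := by
        rw [Nat.card_eq_fintype_card, Fintype.card_subtype]
      rw [← h4, h3]
      exact Finset.card_image_of_injective _ (add_right_injective x)
    rw [Finset.sum_congr rfl h2, Finset.sum_const, smul_eq_mul, mul_comm]

/-- The image of `Σ A` in `G ⧸ K` is the set of sums of the family `a ↦ mk a`, `a ∈ off A K`
(`mk a = 0` for `a ∈ K`).  `⊆`: for `B ⊆ A` use `{a ∈ off A K : a ∈ B}`.  `⊇`: a subset of `off A K` is a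
subset of `A`.  (`Finset.mem_subsetSum_iff`, `map_sum` for `QuotientAddGroup.mk'`.) -/
theorem image_subsetSum (A : Finset G) (K : AddSubgroup G) [DecidableEq (G ⧸ K)]
    [Fintype (G ⧸ K)] :
    A.subsetSum.image (fun x => (QuotientAddGroup.mk x : G ⧸ K)) =
      FS (fun a : {a // a ∈ off A K} => (QuotientAddGroup.mk a.1 : G ⧸ K)) := by
  classical
  have hsum : ∀ B : Finset G, (QuotientAddGroup.mk (∑ b ∈ B, b) : G ⧸ K) =
      ∑ b ∈ B, (QuotientAddGroup.mk b : G ⧸ K) := by
    intro B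
    exact map_sum (QuotientAddGroup.mk' K) (fun b => b) B
  ext t
  rw [Finset.mem_image, mem_FS']
  constructor
  · rintro ⟨x, hx, rfl⟩
    obtain ⟨B, hB, rfl⟩ := Finset.mem_subsetSum_iff.1 hx
    refine ⟨univ.filter (fun a : {a // a ∈ off A K} => a.1 ∈ B), ?_⟩
    have h1 : (univ.filter (fun a : {a // a ∈ off A K} => a.1 ∈ B)).map
        (Function.Embedding.subtype _) = B.filter (fun x => x ∉ K) := by
      ext x
      simp only [Finset.mem_map, Finset.mem_filter, Finset.mem_univ, true_and,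
        Function.Embedding.subtype_apply, Subtype.exists, exists_and_right, exists_eq_right]
      constructor
      · rintro ⟨h2, h3⟩
        exact ⟨h3, ((mem_off A K x).1 h2).2⟩
      · rintro ⟨h2, h3⟩
        exact ⟨(mem_off A K x).2 ⟨hB h2, h3⟩, h2⟩
    have h2 : ∑ i ∈ univ.filter (fun a : {a // a ∈ off A K} => a.1 ∈ B),
        (QuotientAddGroup.mk i.1 : G ⧸ K) =
        ∑ x ∈ B.filter (fun x => x ∉ K), (QuotientAddGroup.mk x : G ⧸ K) := by
      rw [← h1, Finset.sum_map]
      rfl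
    rw [h2, hsum, Finset.sum_filter]
    refine Finset.sum_congr rfl fun x _ => ?_
    by_cases hx' : x ∈ K
    · rw [if_neg (fun h => h hx')]
      exact ((QuotientAddGroup.eq_zero_iff x).2 hx').symm
    · rw [if_pos hx']
  · rintro ⟨C, rfl⟩
    refine ⟨∑ b ∈ C.map (Function.Embedding.subtype _), b, ?_, ?_⟩
    · rw [Finset.mem_subsetSum_iff]
      refine ⟨_, ?_, rfl⟩
      intro x hx
      obtain ⟨a, _, rfl⟩ := Finset.mem_map.1 hx
      exact ((mem_off A K a.1).1 a.2).1
    · rw [hsum, Finset.sum_map]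
      rfl

end AM
end

section

set_option autoImplicit false
set_option linter.unusedSectionVars false

open Finset Pointwise

namespace AM

open RG (stb mem_stb)
open Pool.Agent.Lib.MP_d3cc86_co (Asym)

private theorem cnt_eq {Q : Type} [AddCommGroup Q] [Fintype Q] {ι : Type} [Fintype ι]
    [DecidableEq Q] (f : ι → Q) (x : Q) :
    cnt f x = (Finset.univ.filter (fun i => f i = x)).card := by
  unfold cnt
  refine congrArg Finset.card (Finset.ext fun i => ?_)
  simp only [Finset.mem_filter]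

private theorem flip_exists {G : Type} [AddCommGroup G] [Fintype G] [DecidableEq G] (A : Finset G)
    (hA : Asym A) (K : AddSubgroup G) (hinv : ∀ a ∈ A, a ∉ K → a + a ∉ K) [DecidableEq (G ⧸ K)]
    [Fintype (G ⧸ K)] :
    ∃ μ : G ⧸ K → ℕ, AS μ ∧ (∀ x, μ x ≤ Nat.card K) ∧ tot μ = (off A K).card ∧
      ∃ c : G ⧸ K, SM μ = c +ᵥ FS (fun a : {a // a ∈ off A K} => (QuotientAddGroup.mk a.1 : G ⧸ K)) := by
  classical
  obtain ⟨P, hP⟩ := half (G ⧸ K)
  obtain ⟨f, hf⟩ : ∃ f : {a // a ∈ off A K} → G ⧸ K,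
      f = fun a => (QuotientAddGroup.mk a.1 : G ⧸ K) := ⟨_, rfl⟩
  obtain ⟨f', hf'⟩ : ∃ f' : {a // a ∈ off A K} → G ⧸ K,
      f' = fun a => if P (f a) then f a else - f a := ⟨_, rfl⟩
  have hff : ∀ a, f a + f a ≠ 0 := by
    intro a h0
    have h1 := (mem_off A K a.1).1 a.2
    apply hinv a.1 h1.1 h1.2
    have h2 : (QuotientAddGroup.mk (a.1 + a.1) : G ⧸ K) = 0 := by
      rw [QuotientAddGroup.mk_add]
      rw [hf] at h0
      exact h0
    exact (QuotientAddGroup.eq_zero_iff _).1 h2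
  have hor : ∀ a, f' a = f a ∨ f' a = - f a := by
    intro a
    rw [hf']
    dsimp only
    by_cases h : P (f a)
    · left; rw [if_pos h]
    · right; rw [if_neg h]
  have hPf : ∀ a, P (f' a) := by
    intro a
    rw [hf']
    dsimp only
    by_cases h : P (f a)
    · rw [if_pos h]; exact h
    · rw [if_neg h]
      by_contra h2
      exact h ((hP _ (hff a)).2 h2)
  have hff' : ∀ a, f' a + f' a ≠ 0 := by
    intro a h0
    rcases hor a with h | h
    · rw [h] at h0; exact hff a h0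
    · rw [h] at h0
      apply hff a
      have h3 : -(f a + f a) = 0 := by rw [neg_add]; exact h0
      exact neg_eq_zero.1 h3
  have hcnt : ∀ x, cnt f' x ≠ 0 → ∃ a, f' a = x := by
    intro x hx
    rw [cnt_eq] at hx
    obtain ⟨a, ha⟩ := Finset.card_pos.1 (Nat.pos_of_ne_zero hx)
    exact ⟨a, (Finset.mem_filter.1 ha).2⟩
  refine ⟨cnt f', ?_, ?_, ?_, ?_⟩
  · intro x hx
    by_contra hx'
    obtain ⟨a, ha⟩ := hcnt x hx
    obtain ⟨b, hb⟩ := hcnt (-x) hx'
    have h1 := hPf a
    have h2 := hPf b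
    have h3 := hff' a
    rw [ha] at h1 h3
    rw [hb] at h2
    exact (hP x h3).1 h1 h2
  · intro x
    refine le_trans ?_ (class_le A hA K x)
    rw [cnt_eq]
    refine Finset.card_le_card_of_injOn (fun i => i.1) ?_ ?_
    · intro i hi
      have h1 := (Finset.mem_filter.1 (Finset.mem_coe.1 hi)).2
      rw [Finset.mem_coe, Finset.mem_filter]
      refine ⟨((mem_off A K i.1).1 i.2).1, ?_⟩
      have h2 : f i = (QuotientAddGroup.mk i.1 : G ⧸ K) := by rw [hf]
      rcases hor i with h | h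
      · left
        rw [← h1, h, h2]
      · right
        rw [← h1, h, neg_neg, h2]
    · intro i _ j _ hij
      exact Subtype.ext hij
  · have h1 := Finset.card_eq_sum_card_fiberwise (f := f') (s := Finset.univ) (t := Finset.univ)
      (fun _ _ => Finset.mem_coe.2 (Finset.mem_univ _))
    have h2 : (Finset.univ : Finset {a // a ∈ off A K}).card = (off A K).card := by
      rw [Finset.card_univ, Fintype.card_coe]
    unfold tot
    rw [← h2, h1]
    exact Finset.sum_congr rfl fun x _ => cnt_eq f' x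
  · obtain ⟨c, hc⟩ := FS_flip f f' hor
    refine ⟨c, ?_⟩
    rw [SM_cnt, hc, hf]

/-- The reduction to aperiodic multisets.  `K = stb (Σ A)`, `Q = G ⧸ K`, `π = QuotientAddGroup.mk`,
`ι = {a // a ∈ off A K}`, `f a = π a`, `P` from `half Q`, `f' a = π a` if `P (π a)`, `= - π a`
otherwise, `μ = cnt f'`.
* `|K| |Q| = |G|`: Lagrange (`AddSubgroup.card_eq_card_quotient_mul_card_addSubgroup`).
* `f' a + f' a ≠ 0` (`no_invol`: `π (a + a) = 0` iff `a + a ∈ K`) and `P (f' a)` holds (`half`).
* `AS μ`: if `μ x ≠ 0` and `μ (-x) ≠ 0` then `x = f' a`, `-x = f' b`, so `x + x ≠ 0`, `P x` and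
  `P (-x)`: contradiction with `half`.
* `μ x ≤ |K|`: the `a` with `f' a = x` have `π a = x` or `π a = -x`; `class_le`.
* `tot μ = |ι| = |off A K|` (`Finset.sum_card_fiberwise_eq_card_univ`-like).
* `SM μ = FS f'` (`SM_cnt`), a translate of `FS f` (`FS_flip`), which is the image of `Σ A`
  (`image_subsetSum`); so it has trivial stabilizer (`stb_image`, `stb_vadd`) and
  `|Σ A| = |K| |SM μ|` (`stb_image`, `Finset.card_vadd_finset`). -/
theorem quot (G : Type) [AddCommGroup G] [Fintype G] [DecidableEq G] (A : Finset G)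
    (hA : Asym A) :
    ∃ (Q : Type) (_ : AddCommGroup Q) (_ : Fintype Q) (μ : Q → ℕ),
      Nat.card (stb A.subsetSum) * Nat.card Q = Nat.card G ∧ AS μ ∧
      (∀ x, μ x ≤ Nat.card (stb A.subsetSum)) ∧ stb (SM μ) = ⊥ ∧
      tot μ = (off A (stb A.subsetSum)).card ∧
      A.subsetSum.card = Nat.card (stb A.subsetSum) * (SM μ).card := by
  classical
  letI : Fintype (G ⧸ stb A.subsetSum) := Fintype.ofFinite _
  obtain ⟨μ, h1, h2, h3, c, hc⟩ := flip_exists A hA (stb A.subsetSum)
    (fun a ha hK => no_invol A a ha hK)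
  have hs := stb_image A.subsetSum
  rw [image_subsetSum A (stb A.subsetSum)] at hs
  refine ⟨G ⧸ stb A.subsetSum, inferInstance, inferInstance, μ, ?_, h1, h2, ?_, h3, ?_⟩
  · rw [AddSubgroup.card_eq_card_quotient_mul_card_addSubgroup (stb A.subsetSum), mul_comm]
  · rw [hc, stb_vadd]
    exact hs.1
  · rw [hc, Finset.card_vadd_finset]
    exact hs.2

end AM
end

section

set_option autoImplicit false
set_option linter.unusedSectionVars false

open Finset Pointwise

namespace AM

open RG (stb mem_stb gg)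
open Pool.Agent.Lib.MP_d3cc86_co (Asym subsetSum_union)

variable {G : Type} [AddCommGroup G] [Fintype G]

/-- Induction on `|V|`.  `|V| = 0, 1, 2, 3`: `0 ≤ 1`, `single_two`, `pair`, `triple`.  `|V| ≥ 4`: choose
`F ⊆ V` with three elements; `Σ V = Σ (V \ F) + Σ F` (`subsetSum_union`), aperiodic; Kneser
(`RG.kneser`): `|Σ V| + 1 ≥ |Σ (V \ F)| + |Σ F| ≥ 2 (|V| - 3) + 7` (`Σ (V \ F)` is aperiodic:
`SM_ind`, `ind_mono`, `ap_mono`). -/
theorem two_card_le [DecidableEq G] (V : Finset G) (hV : Asym V) (hst : stb V.subsetSum = ⊥) :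
    2 * V.card ≤ V.subsetSum.card := by
  induction hn : V.card using Nat.strong_induction_on generalizing V with
  | _ n ih =>
    rcases Nat.lt_or_ge n 4 with h4 | h4
    · interval_cases n
      · omega
      · exact single_two V hV hn
      · exact pair V hV hn
      · exact le_trans (by norm_num) (triple V hV hn)
    · obtain ⟨F, hF, hF3⟩ := Finset.exists_subset_card_eq (s := V) (n := 3) (by omega)
      have hU : V \ F ∪ F = V := Finset.sdiff_union_of_subset hF
      have hS : V.subsetSum = (V \ F).subsetSum + F.subsetSum := by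
        rw [← subsetSum_union Finset.sdiff_disjoint, hU]
      have hc : (V \ F).card = n - 3 := by
        rw [Finset.card_sdiff_of_subset hF, hn, hF3]
      have hst1 : stb (V \ F).subsetSum = ⊥ := by
        rw [← SM_ind]
        exact ap_mono (ind_mono Finset.sdiff_subset) (by rw [SM_ind]; exact hst)
      have h1 := ih (n - 3) (by omega) (V \ F) (hV.mono Finset.sdiff_subset) hst1 hc
      have h2 := triple F (hV.mono hF) hF3
      have hne : ∀ W : Finset G, W.subsetSum.Nonempty := fun W => by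
        rw [← SM_ind]; exact SM_nonempty _
      have h3 := RG.kneser (V \ F).subsetSum F.subsetSum (hne _) (hne _) (by rw [← hS]; exact hst)
      rw [← hS] at h3
      omega

/-- Induction on `w`.  `w = 0`: `μ = 0`, `tot μ = 0`, `|SM μ| = 1`.  `w + 1`: `V = sp μ`,
`μ' x = μ x - ind V x ≤ w`, `μ = μ' + ind V`, `SM μ = SM μ' + Σ V` (`SM_add`, `SM_ind`), aperiodic, so
`RG.kneser`: `|SM μ'| + |Σ V| ≤ |SM μ| + 1`.  `2 |V| ≤ |Σ V|` (`two_card_le`; `AS.asym`) and the
induction hypothesis `2 tot μ' + 1 ≤ |SM μ'| + w` give the claim (`tot_add`, `tot_ind`). -/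
theorem levels (w : ℕ) (μ : G → ℕ) (hAS : AS μ) (hb : ∀ x, μ x ≤ w) (hst : stb (SM μ) = ⊥) :
    2 * tot μ + 1 ≤ (SM μ).card + w := by
  classical
  induction w generalizing μ with
  | zero =>
    have h0 : μ = 0 := by
      funext x
      exact Nat.le_zero.1 (hb x)
    rw [h0, SM_zero]
    simp [tot]
  | succ w ih =>
    set V := sp μ with hV
    have hle : ∀ x, ind V x ≤ μ x := ind_le_sp
    set μ' : G → ℕ := fun x => μ x - ind V x with hμ'
    have hμ : μ = μ' + ind V := by
      funext x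
      rw [Pi.add_apply]
      have := hle x
      show μ x = μ x - ind V x + ind V x
      omega
    have hle' : ∀ x, μ' x ≤ μ x := fun x => Nat.sub_le _ _
    have hb' : ∀ x, μ' x ≤ w := by
      intro x
      show μ x - ind V x ≤ w
      have h1 := hb x
      unfold ind
      by_cases hx : x ∈ V
      · rw [if_pos hx]; omega
      · rw [if_neg hx]
        rw [hV, mem_sp, not_not] at hx
        omega
    have h1 := ih μ' (hAS.mono hle') hb' (ap_mono hle' hst)
    have hS : SM μ = SM μ' + V.subsetSum := by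
      rw [← SM_ind, ← SM_add, ← hμ]
    have hst1 : stb V.subsetSum = ⊥ := by
      rw [← SM_ind]
      exact ap_mono hle hst
    have h2 := two_card_le V hAS.asym hst1
    have hne : V.subsetSum.Nonempty := by rw [← SM_ind]; exact SM_nonempty _
    have h3 := RG.kneser (SM μ') V.subsetSum (SM_nonempty _) hne (by rw [← hS]; exact hst)
    rw [← hS] at h3
    have h4 : tot μ = tot μ' + V.card := by
      rw [← tot_ind, ← tot_add, ← hμ]
    omega

/-- `s = tot μ`.  If `s < w`: `gg w s = 1 + s` (`s / w = 0`, `s % w = s`), use `one_add_tot_le`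
(`AS.zero`).  If `w ≤ s ≤ 2 w`: `gg w s = 2 s - w + 1` (`s = w + r`, `r < w`: `gg = 1 + w T 1 + 2 r`;
`s = 2 w`: `1 + w T 2 = 1 + 3 w`), use `levels`. -/
theorem exact2 (w : ℕ) (hw : 1 ≤ w) (μ : G → ℕ) (hAS : AS μ) (hb : ∀ x, μ x ≤ w)
    (hst : stb (SM μ) = ⊥) (h2 : tot μ ≤ 2 * w) : gg w (tot μ) ≤ (SM μ).card := by
  unfold gg
  rcases Nat.lt_or_ge (tot μ) w with h3 | h3
  · have h4 := one_add_tot_le μ hAS.zero hst
    rw [Nat.div_eq_of_lt h3, Nat.mod_eq_of_lt h3]
    simpa [SPR.T] using h4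
  · have h4 := levels w μ hAS hb hst
    rcases Nat.lt_or_ge (tot μ) (2 * w) with h5 | h5
    · have h6 : tot μ / w = 1 := by
        rw [Nat.div_eq_iff (by omega)]
        omega
      have h7 : tot μ % w = tot μ - w := by
        have := Nat.div_add_mod (tot μ) w
        rw [h6] at this
        omega
      rw [h6, h7]
      simp only [SPR.T]
      omega
    · have h5' : tot μ = 2 * w := le_antisymm h2 h5
      have h6 : tot μ / w = 2 := by
        rw [h5']
        exact Nat.mul_div_cancel _ (by omega)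
      have h7 : tot μ % w = 0 := by
        rw [h5']
        exact Nat.mul_mod_left _ _
      rw [h6, h7]
      simp only [SPR.T]
      omega

end AM
end

section

set_option autoImplicit false
set_option linter.unusedSectionVars false

open Finset Pointwise

namespace AM

open RG (stb mem_stb)

variable {G : Type} [AddCommGroup G] [Fintype G]

/-- Let `V = sp ν`, `D = |V|`, `j = tot ν`, `q = qq (100 L^2) w j = ⌈(j - 100 L^2) / w⌉`.
`j ≤ w D` (`tot_le_sp`) so `q ≤ D`; and `L g ≤ (L-1) q + (L-1) < L q + L` gives `g ≤ q ≤ D`.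
Let `H` be a subgroup with `|H| < 2 D`, `D' = |off V H|`.  (`V` is asymmetric, `AS.asym`, and
`V.subsetSum` is aperiodic: `SM_ind`, `ind_le_sp`, `ap_mono`.)
Case `D ≥ 50 L^2`.  `sparse_in`: `(D - D')^2 < 25 |H| < 50 D`, so `L^2 (D - D')^2 < 50 L^2 D ≤ D^2`,
i.e. `L (D - D') < D`, `L D' > (L-1) D ≥ (L-1) q`.  So
`L g ≤ (L-1) q + L - 1 ≤ L D' - 1 + L - 1 < L (D' + 1)`, `g ≤ D'`.
Case `D < 50 L^2`.  `mass`: `tot (res H ν) < |H| < 2 D < 100 L^2 =: C`, and `tot_le_off`:
`j ≤ tot (res H ν) + w D'`, so `w D' ≥ j - C`, i.e. `D' ≥ q ≥ g` (`q = ⌈(j - C)/w⌉`, natural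
subtraction). -/
theorem thick_of (ν : G → ℕ) (w L : ℕ) (hw : 1 ≤ w) (hL : 1 ≤ L) (hAS : AS ν)
    (hb : ∀ x, ν x ≤ w) (hst : stb (SM ν) = ⊥) (g : ℕ)
    (hg : L * g ≤ (L - 1) * qq (100 * L ^ 2) w (tot ν) + (L - 1)) : Thick (sp ν) g := by
  classical
  obtain ⟨l, rfl⟩ : ∃ l, L = l + 1 := ⟨L - 1, by omega⟩
  have hqle : ∀ E : ℕ, tot ν - 100 * (l + 1) ^ 2 ≤ w * E →
      qq (100 * (l + 1) ^ 2) w (tot ν) ≤ E := by
    intro E hE
    unfold qq
    apply Nat.le_of_lt_succ
    rw [Nat.div_lt_iff_lt_mul (by omega)]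
    have h1 : E.succ * w = w * E + w := by rw [Nat.succ_mul, Nat.mul_comm]
    omega
  set q := qq (100 * (l + 1) ^ 2) w (tot ν) with hq
  set D := (sp ν).card with hD
  rw [Nat.add_sub_cancel] at hg
  have hgq : g ≤ q := by
    by_contra h
    have h1 : q + 1 ≤ g := by omega
    have h2 : (l + 1) * (q + 1) ≤ (l + 1) * g := Nat.mul_le_mul_left _ h1
    nlinarith
  have hqD : q ≤ D := hqle D ((Nat.sub_le _ _).trans (tot_le_sp ν w hb))
  refine ⟨hgq.trans hqD, fun H hH _ => ?_⟩
  have hsub : (off (sp ν) H).card ≤ D := Finset.card_le_card (Finset.filter_subset _ _)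
  by_cases hc : 50 * (l + 1) ^ 2 ≤ D
  · have hst' : stb (sp ν).subsetSum = ⊥ := by
      rw [← SM_ind]
      exact ap_mono ind_le_sp hst
    have h1 := sparse_in (sp ν) hAS.asym hst' H
    rw [← hD] at h1
    set D' := (off (sp ν) H).card with hD'
    obtain ⟨e, he⟩ : ∃ e, D = D' + e := ⟨D - D', by omega⟩
    have h2 : D - D' = e := by omega
    rw [h2] at h1
    have h3 : e ^ 2 < 50 * D := by omega
    have h4 : ((l + 1) * e) ^ 2 < D ^ 2 := by
      calc ((l + 1) * e) ^ 2 = (l + 1) ^ 2 * e ^ 2 := by ring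
        _ < (l + 1) ^ 2 * (50 * D) := Nat.mul_lt_mul_of_pos_left h3 (by positivity)
        _ = 50 * (l + 1) ^ 2 * D := by ring
        _ ≤ D * D := Nat.mul_le_mul_right _ hc
        _ = D ^ 2 := by ring
    have h5 : (l + 1) * e < D := lt_of_pow_lt_pow_left₀ 2 (Nat.zero_le _) h4
    have h6 : l * q ≤ l * D := Nat.mul_le_mul_left _ hqD
    by_contra hlt
    have h7 : D' + 1 ≤ g := by omega
    have h8 : (l + 1) * (D' + 1) ≤ (l + 1) * g := Nat.mul_le_mul_left _ h7
    nlinarith
  · have h1 := mass H ν hAS.zero hst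
    have h2 := tot_le_off H ν w hb
    refine hgq.trans (hqle _ ?_)
    rw [Nat.sub_le_iff_le_add]
    have h3 : tot (res H ν) ≤ 100 * (l + 1) ^ 2 := by
      rw [← hD] at hH
      omega
    omega

end AM
end

section

set_option autoImplicit false
set_option linter.unusedSectionVars false

open Finset Pointwise

namespace AM

open RG (stb mem_stb)
open Pool.Agent.Lib.MP_d3cc86_co (Asym lam subsetSum_insert' card_union_vadd)

private lemma del_ind {G : Type} [AddCommGroup G] [Fintype G] [DecidableEq G] (V : Finset G)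
    (x : G) : del (ind V) x = ind (V.erase x) := by
  funext y
  unfold del ind
  by_cases hyx : y = x
  · subst hyx
    rw [if_pos rfl, if_neg (Finset.notMem_erase y V)]
    split_ifs <;> rfl
  · rw [if_neg hyx]
    by_cases hy : y ∈ V
    · rw [if_pos hy, if_pos (Finset.mem_erase.2 ⟨hyx, hy⟩)]
    · rw [if_neg hy, if_neg (fun h => hy (Finset.mem_of_mem_erase h))]

private lemma setgrow_step {G : Type} [AddCommGroup G] [Fintype G] [DecidableEq G]
    (L : ℕ) (V : Finset G) (hV : Asym V) (hst : stb V.subsetSum = ⊥)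
    (hD : 100 * (L + 1) + 400 ≤ V.card) (hle : V.subsetSum.card ≤ L * V.card) :
    ∀ k : ℕ, ∀ V' ⊆ V, V'.card = (V.card + 1) / 2 + k → k * V.card ≤ 16 * V'.subsetSum.card := by
  intro k
  induction k with
  | zero =>
    intro V' _ _
    rw [zero_mul]
    exact Nat.zero_le _
  | succ k ih =>
    intro V' hsub hcard
    set d := V.card with hd
    set g := d / 8 with hg
    have hg8 : 8 * g ≤ d := Nat.mul_div_le d 8
    have hg8' : d < 8 * g + 8 := by omega
    set i := V'.card with hi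
    have hi2 : d + 2 ≤ 2 * i := by omega
    have hid : i ≤ d := Finset.card_le_card hsub
    have hV' : Asym V' := hV.mono hsub
    have h00 : stb (SM (ind V)) = ⊥ := by
      rw [SM_ind]
      exact hst
    have hst1 : stb (SM (ind V')) = ⊥ := ap_mono (ind_mono hsub) h00
    have hst' : stb V'.subsetSum = ⊥ := by
      rw [← SM_ind]
      exact hst1
    have h0 : (0 : G) ∉ V' := by
      intro h
      have h1 := hV' 0 h
      rw [neg_zero] at h1
      exact h1 h
    have hB : ∀ x ∈ V'.subsetSum, x ∈ AddSubgroup.closure (V' : Set G) := by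
      rw [← SM_ind]
      refine SM_sub ?_
      intro x hx
      refine AddSubgroup.subset_closure ?_
      rw [Finset.mem_coe]
      by_contra hc
      apply hx
      unfold ind
      rw [if_neg hc]
    have hThick : Thick V' g := by
      refine ⟨by omega, ?_⟩
      intro H hH _
      by_contra hcon
      push Not at hcon
      have h1 := sparse_in V' hV' hst' H
      have h2 : 3 * i ≤ 4 * (V'.card - (off V' H).card) := by omega
      have h3 : i ^ 2 * 9 ≤ 16 * (V'.card - (off V' H).card) ^ 2 := by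
        have := Nat.pow_le_pow_left h2 2
        calc i ^ 2 * 9 = (3 * i) ^ 2 := by ring
          _ ≤ (4 * (V'.card - (off V' H).card)) ^ 2 := this
          _ = 16 * (V'.card - (off V' H).card) ^ 2 := by ring
      have h4 : i ^ 2 * 9 < 800 * i := by
        have h5 : Nat.card H < 2 * i := hH
        omega
      have h6 : 200 ≤ i := by omega
      nlinarith
    have hBcard : 1 + i ≤ V'.subsetSum.card := by
      have h1 := one_add_tot_le (ind V') (by
        unfold ind
        rw [if_neg h0]) hst1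
      rw [tot_ind, SM_ind] at h1
      exact h1
    have hBle : V'.subsetSum.card ≤ L * d := by
      refine le_trans ?_ hle
      rw [← SM_ind, ← SM_ind]
      exact Finset.card_le_card (SM_mono (ind_mono hsub))
    have hH := sparse V' hV' hst' (AddSubgroup.closure (V' : Set G))
      (fun v hv => AddSubgroup.subset_closure (Finset.mem_coe.2 hv))
    have hH2 : (L + 5) * d < Nat.card (AddSubgroup.closure (V' : Set G)) := by
      have h1 : d ^ 2 ≤ 4 * i ^ 2 := by
        have : d ≤ 2 * i := by omega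
        calc d ^ 2 ≤ (2 * i) ^ 2 := Nat.pow_le_pow_left this 2
          _ = 4 * i ^ 2 := by ring
      have h2 : (100 * (L + 5)) * d ≤ d ^ 2 := by
        rw [sq]
        exact Nat.mul_le_mul_right d (by omega)
      have h3 : i ^ 2 < 25 * Nat.card (AddSubgroup.closure (V' : Set G)) := hH
      nlinarith
    obtain ⟨x, hx, hx2⟩ := stage V' V'.subsetSum hV' hB g 2 (by omega) (by omega) hThick
      (by omega) (by
        have h1 : (L + 5) * d = L * d + 5 * d := by ring
        rw [h1] at hH2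
        omega)
    have hxne : ind V' x ≠ 0 := by
      unfold ind
      rw [if_pos hx]
      exact one_ne_zero
    have hinc := inc (ind V') x hxne
    rw [del_ind, SM_ind, SM_ind] at hinc
    have hih := ih (V'.erase x) ((Finset.erase_subset x V').trans hsub) (by
      rw [Finset.card_erase_of_mem hx]
      omega)
    have h1 : (k + 1) * d = k * d + d := by ring
    rw [h1]
    omega

/-- Superlinear growth for sets.  Take the bound `D1 = 100 (L+1) + 400 + ...` (any large constant).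
Let `D = |V| ≥ D1` and suppose `|Σ V| ≤ L D`.  Claim: for all `V' ⊆ V` with `|V'| = i`,
`⌈D/2⌉ ≤ i ≤ D`: `16 |Σ V'| ≥ (i - ⌈D/2⌉) D`; induction on `i`.  Base: trivial.  Step: `|V'| = i > ⌈D/2⌉`.
`B = Σ V' = SM (ind V')`, `H = closure V'`, `g = D / 8`.  Apply `stage` with `L := 2`:
* `Thick V' g`: `g ≤ i`; if `|H'| < 2 i` then by `sparse_in` `(i - |off V' H'|)^2 < 25 |H'| < 50 i ≤ i^2/4`
  (`i ≥ 200`), so `|off V' H'| ≥ i / 2 ≥ D/4 ≥ g`;
* `2 g + 1 ≤ |B|`: `|B| ≥ 1 + i` (`one_add_tot_le`, `tot_ind`; `0 ∉ V'`) and `i ≥ D/2`;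
* `|B| + 2 g + 1 ≤ |H|`: `B ⊆ Σ V`, so `|B| ≤ L D`; by `sparse` `D^2/4 ≤ i^2 < 25 |H|`, so
  `|H| > D^2/100 ≥ (L+1) D ≥ L D + D/4 + 2`;
* `B ⊆ closure V'` (`SM_sub`).
It gives `x ∈ V'` with `2 g + 1 ≤ 2 lam B x + g`, so `16 lam B x ≥ 8 (g + 1) ≥ D`, and by `inc`
(`μ = ind V'`, `del (ind V') x = ind (V'.erase x)`) `|Σ V'| ≥ |Σ (V'.erase x)| + lam B x`.
For `V' = V`: `16 L D ≥ 16 |Σ V| ≥ (D - ⌈D/2⌉) D ≥ (D-1) D / 2`, so `D ≤ 32 L + 1`: contradiction. -/
theorem setgrow (L : ℕ) : ∃ D : ℕ, ∀ (G : Type) [AddCommGroup G] [Fintype G] [DecidableEq G]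
    (V : Finset G), Asym V → stb V.subsetSum = ⊥ → D ≤ V.card →
      L * V.card + 1 ≤ V.subsetSum.card := by
  refine ⟨100 * (L + 1) + 400, ?_⟩
  intro G _ _ _ V hV hst hD
  by_contra hcon
  have hle : V.subsetSum.card ≤ L * V.card := by omega
  have h1 := setgrow_step L V hV hst hD hle (V.card / 2) V (le_refl _) (by omega)
  have h2 : V.card / 2 * V.card ≤ (16 * L) * V.card := by
    refine h1.trans ?_
    rw [mul_assoc]
    exact Nat.mul_le_mul_left 16 hle
  have h3 : V.card / 2 ≤ 16 * L := Nat.le_of_mul_le_mul_right h2 (by omega)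
  omega

end AM
end

section

set_option autoImplicit false
set_option linter.unusedSectionVars false

open Finset Pointwise

namespace AM

open RG (stb mem_stb)

/-- `qq 0 w j = ⌈j / w⌉`.  Take `J = 2 L (D + 1) + 2` with `D` from `setgrow L`.  Let `j = tot ν`.
Case `w ≥ 2 L`: `L ⌈j/w⌉ ≤ L (j + w - 1) / w ≤ j / 2 + L ≤ j` for `j ≥ 2 L`, and `1 + j ≤ |SM ν|`
(`one_add_tot_le`).  (`L = 0` is included.)
Case `w < 2 L`: `V = sp ν`; `j ≤ w |V|` (`tot_le_sp`), so `|V| ≥ D` and `⌈j/w⌉ ≤ |V|`; `V` is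
asymmetric (`AS.asym`) and aperiodic (`SM_ind`, `ind_le_sp`, `ap_mono`), and `Σ V ⊆ SM ν`
(`SM_mono`), so `L ⌈j/w⌉ + 1 ≤ L |V| + 1 ≤ |Σ V| ≤ |SM ν|`. -/
theorem need2 (L : ℕ) : ∃ J : ℕ, ∀ (G : Type) [AddCommGroup G] [Fintype G] (w : ℕ) (ν : G → ℕ),
    1 ≤ w → AS ν → (∀ x, ν x ≤ w) → stb (SM ν) = ⊥ → J ≤ tot ν →
      L * qq 0 w (tot ν) + 1 ≤ (SM ν).card := by
  obtain ⟨D, hD⟩ := setgrow L
  refine ⟨2 * L * (D + 1) + 2, ?_⟩
  intro G _ _ w ν hw hAS hb hst hJ
  classical
  set j := tot ν with hj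
  have hq : w * qq 0 w j ≤ j + w - 1 := by
    unfold qq
    rw [Nat.sub_zero]
    exact Nat.mul_div_le _ _
  by_cases hwL : 2 * L ≤ w
  · have h1 := one_add_tot_le ν hAS.zero hst
    have h2 : L * qq 0 w j ≤ j := by
      set q := qq 0 w j with hqd
      have h3 : 2 * L ≤ j := by nlinarith [Nat.zero_le (2 * L * D)]
      have h4 : w * q ≤ j + w := by omega
      have h5 : w * (2 * (L * q)) ≤ w * (2 * j) := by
        calc w * (2 * (L * q)) = 2 * L * (w * q) := by ring
          _ ≤ 2 * L * (j + w) := Nat.mul_le_mul_left _ h4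
          _ = 2 * L * j + w * (2 * L) := by ring
          _ ≤ w * j + w * j := Nat.add_le_add (Nat.mul_le_mul_right _ hwL) (Nat.mul_le_mul_left _ h3)
          _ = w * (2 * j) := by ring
      have h6 := Nat.le_of_mul_le_mul_left h5 hw
      omega
    omega
  · rw [not_le] at hwL
    have h1 := tot_le_sp ν w hb
    rw [← hj] at h1
    have h2 : D ≤ (sp ν).card := by
      by_contra hc
      rw [not_le] at hc
      have h3 : w * (sp ν).card ≤ 2 * L * (D + 1) :=
        Nat.mul_le_mul hwL.le (by omega)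
      omega
    have h3 : qq 0 w j ≤ (sp ν).card := by
      unfold qq
      rw [Nat.sub_zero]
      rw [← Nat.lt_succ_iff, Nat.div_lt_iff_lt_mul hw, Nat.succ_eq_add_one, add_mul, one_mul,
        Nat.mul_comm]
      omega
    have h4 : stb (sp ν).subsetSum = ⊥ := by
      rw [← SM_ind]
      exact ap_mono ind_le_sp hst
    have h5 := hD G (sp ν) hAS.asym h4 h2
    have h6 : (sp ν).subsetSum.card ≤ (SM ν).card := by
      rw [← SM_ind]
      exact Finset.card_le_card (SM_mono ind_le_sp)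
    have h7 : L * qq 0 w j ≤ L * (sp ν).card := Nat.mul_le_mul_left _ h3
    omega

end AM
end

section

set_option autoImplicit false
set_option linter.unusedSectionVars false

open Finset Pointwise

namespace AM

open RG (stb mem_stb)

/-- The sums of `ν` do not nearly fill the subgroup `H` generated by its support.
Let `J1` from `need2 L`, `J2` from `need2 (2 L^2)`, `M = 400 L^3 + L (J1 + J2) + 1` (or larger).
`s = tot μ`, `j = tot ν`, `B = SM ν`, `H = closure (sp ν)`; note `j ≥ s / L ≥ J1`, `s - j ≥ s / L ≥ J2`,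
`ν` is asymmetric (`AS.mono`), `≤ w`, aperiodic (`ap_mono`).
Suppose `|H| ≤ |B| + g L`.  `need2 L`: `g L + 1 ≤ L ⌈j/w⌉ + 1 ≤ |B|`, so `|H| < 2 |B|`.

Case 1: some `x` with `μ x ≠ 0` is not in `H`.  `coset_double`: `|H| ≤ 2 |B| ≤ |SM μ|`, so the last
hypothesis gives `w |H| < 4 s`.  `sparse` for `V = sp ν` (asymmetric, aperiodic, in `H`):
`|V|^2 < 25 |H|`; `j ≤ w |V|` (`tot_le_sp`).  First `w j < w |B| ≤ w |H| < 4 s` (`one_add_tot_le`,
`B ⊆ H`), so `w s ≤ L w j < 4 L s` and `w < 4 L`.  Then `j^2 ≤ w^2 |V|^2 < 25 w^2 |H| ≤ 100 w s` and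
`s^2 ≤ L^2 j^2 < 100 L^2 w s < 400 L^3 s`, so `s < 400 L^3`: contradiction.

Case 2: the support of `μ` is in `H`.  Let `ρ = μ - ν` (pointwise), `μ = ν + ρ`, `tot ρ = s - j`.
`H ≠ ⊥` (`j ≥ 1`, so `sp ν` is nonempty, and `ν 0 = 0`).  `pigeon`: `|B| + |SM ρ| ≤ |H| ≤ |B| + g L`,
so `|SM ρ| ≤ g L ≤ L ⌈j/w⌉` and `w |SM ρ| ≤ L (j + w - 1) ≤ 2 L s`.
`need2 (2 L^2)` for `ρ`: `w |SM ρ| ≥ w (2 L^2 ⌈(s-j)/w⌉ + 1) ≥ 2 L^2 (s - j) + w > 2 L s`:
contradiction. -/
theorem nearfull (L : ℕ) (hL : 1 ≤ L) : ∃ M : ℕ, ∀ (G : Type) [AddCommGroup G] [Fintype G] (w : ℕ)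
    (μ ν : G → ℕ) (g : ℕ), 1 ≤ w → AS μ → (∀ x, μ x ≤ w) → stb (SM μ) = ⊥ → M ≤ tot μ →
    w ≤ tot μ → (∀ x, ν x ≤ μ x) → tot μ ≤ L * tot ν → tot μ ≤ L * (tot μ - tot ν) →
    g ≤ qq 0 w (tot ν) →
    (¬ ∃ H : AddSubgroup G, Nat.card H ≤ (SM μ).card ∧ 4 * tot μ ≤ w * Nat.card H) →
    (SM ν).card + g * L + 1 ≤ Nat.card (AddSubgroup.closure (sp ν : Set G)) := by
  classical
  obtain ⟨J1, hJ1⟩ := need2 L
  obtain ⟨J2, hJ2⟩ := need2 (2 * L ^ 2)
  refine ⟨400 * L ^ 3 + L * (J1 + J2) + 1, ?_⟩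
  intro G _ _ w μ ν g hw hAS hb hst hM hws hle h1 h2 hg hno
  have hASν : AS ν := hAS.mono hle
  have hbν : ∀ x, ν x ≤ w := fun x => (hle x).trans (hb x)
  have hstν : stb (SM ν) = ⊥ := ap_mono hle hst
  have hjs : tot ν ≤ tot μ := tot_mono hle
  have hJν : J1 ≤ tot ν := by
    by_contra hc
    push Not at hc
    have : L * tot ν ≤ L * (J1 + J2) := Nat.mul_le_mul_left L (by omega)
    omega
  have hn1 := hJ1 G w ν hw hASν hbν hstν hJν
  have hgL : g * L ≤ L * qq 0 w (tot ν) := by
    rw [mul_comm]; exact Nat.mul_le_mul_left L hg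
  by_contra hcon
  push Not at hcon
  set H : AddSubgroup G := AddSubgroup.closure (sp ν : Set G) with hHdef
  have hνH : ∀ x, ν x ≠ 0 → x ∈ H := by
    intro x hx
    exact AddSubgroup.subset_closure (by
      rw [Finset.mem_coe, mem_sp]; exact hx)
  have hBH : (SM ν).card ≤ Nat.card H := by
    rw [← card_sf H]
    exact Finset.card_le_card fun t ht => (mem_sf H t).2 (SM_sub hνH t ht)
  have hone : 1 + tot ν ≤ (SM ν).card := one_add_tot_le ν hASν.zero hstν
  have hspos : 0 < tot μ := by omega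
  have hjpos : 0 < tot ν := by
    rcases Nat.eq_zero_or_pos (tot ν) with h0 | h0
    · rw [h0, mul_zero] at h1; omega
    · exact h0
  by_cases hcase : ∃ x, μ x ≠ 0 ∧ x ∉ H
  · obtain ⟨x, hx1, hx2⟩ := hcase
    have hcd := coset_double H ν μ hνH hle x hx2 hx1
    have hlt : w * Nat.card H < 4 * tot μ := by
      by_contra hc
      push Not at hc
      exact hno ⟨H, by omega, hc⟩
    have hsp : (sp ν).card ^ 2 < 25 * Nat.card H := by
      apply sparse (sp ν) hASν.asym _ H
      · intro v hv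
        exact hνH v ((mem_sp ν v).1 hv)
      · rw [← SM_ind]
        exact ap_mono ind_le_sp hstν
    have htot := tot_le_sp ν w hbν
    have hw4 : w < 4 * L := by
      have e1 : w * (1 + tot ν) ≤ w * Nat.card H := Nat.mul_le_mul_left w (hone.trans hBH)
      have e2 : w * tot ν ≤ w * (1 + tot ν) := Nat.mul_le_mul_left w (by omega)
      have e3 : w * tot ν < (4 * L) * tot ν := by
        calc w * tot ν ≤ w * Nat.card H := e2.trans e1
          _ < 4 * tot μ := hlt
          _ ≤ 4 * (L * tot ν) := Nat.mul_le_mul_left 4 h1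
          _ = (4 * L) * tot ν := by ring
      exact lt_of_mul_lt_mul_right e3 (Nat.zero_le _)
    have e4 : tot ν * tot ν ≤ 100 * w * tot μ := by
      calc tot ν * tot ν ≤ (w * (sp ν).card) * (w * (sp ν).card) := Nat.mul_le_mul htot htot
        _ = (w * w) * (sp ν).card ^ 2 := by ring
        _ ≤ (w * w) * (25 * Nat.card H) := Nat.mul_le_mul_left _ hsp.le
        _ = (25 * w) * (w * Nat.card H) := by ring
        _ ≤ (25 * w) * (4 * tot μ) := Nat.mul_le_mul_left _ hlt.le
        _ = 100 * w * tot μ := by ring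
    have e5 : tot μ * tot μ ≤ (400 * L ^ 3) * tot μ := by
      calc tot μ * tot μ ≤ (L * tot ν) * (L * tot ν) := Nat.mul_le_mul h1 h1
        _ = (L * L) * (tot ν * tot ν) := by ring
        _ ≤ (L * L) * (100 * w * tot μ) := Nat.mul_le_mul_left _ e4
        _ = (100 * (L * L) * tot μ) * w := by ring
        _ ≤ (100 * (L * L) * tot μ) * (4 * L) := Nat.mul_le_mul_left _ hw4.le
        _ = (400 * L ^ 3) * tot μ := by ring
    have e6 : tot μ ≤ 400 * L ^ 3 := le_of_mul_le_mul_right e5 hspos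
    omega
  · push Not at hcase
    set ρ : G → ℕ := fun x => μ x - ν x with hρ
    have hρle : ∀ x, ρ x ≤ μ x := fun x => Nat.sub_le _ _
    have hsum : ν + ρ = μ := by
      funext x
      have := hle x
      simp only [Pi.add_apply, hρ]
      omega
    have htρ : tot ν + tot ρ = tot μ := by rw [← tot_add, hsum]
    have hρtot : tot ρ = tot μ - tot ν := by omega
    have hH : H ≠ ⊥ := by
      intro hbot
      have : ∃ x, ν x ≠ 0 := by
        by_contra hc
        push Not at hc
        have : tot ν = 0 := Finset.sum_eq_zero fun x _ => hc x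
        omega
      obtain ⟨x, hx⟩ := this
      have hxH := hνH x hx
      rw [hbot, AddSubgroup.mem_bot] at hxH
      rw [hxH] at hx
      exact hx hASν.zero
    have hρH : ∀ x, ρ x ≠ 0 → x ∈ H := by
      intro x hx
      refine hcase x ?_
      have := hρle x
      omega
    have hpig := pigeon H hH ν ρ hνH hρH (by rw [hsum]; exact hst)
    have hJρ : J2 ≤ tot ρ := by
      by_contra hc
      push Not at hc
      have h3 : L * (tot μ - tot ν) ≤ L * (J1 + J2) := Nat.mul_le_mul_left L (by omega)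
      omega
    have hn2 := hJ2 G w ρ hw (hAS.mono hρle) (fun x => (hρle x).trans (hb x)) (ap_mono hρle hst) hJρ
    have hq1 : w * qq 0 w (tot ν) ≤ tot ν + w - 1 := by
      unfold qq
      rw [Nat.sub_zero]
      exact Nat.mul_div_le _ _
    have hq2 : tot ρ ≤ w * qq 0 w (tot ρ) := by
      unfold qq
      rw [Nat.sub_zero]
      have h4 := Nat.div_add_mod (tot ρ + w - 1) w
      have h5 := Nat.mod_lt (tot ρ + w - 1) (show 0 < w by omega)
      omega
    have hρc : (SM ρ).card ≤ g * L := by omega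
    have u1 : w * (SM ρ).card ≤ 2 * L * tot μ := by
      calc w * (SM ρ).card ≤ w * (L * qq 0 w (tot ν)) := Nat.mul_le_mul_left w (hρc.trans hgL)
        _ = L * (w * qq 0 w (tot ν)) := by ring
        _ ≤ L * (tot ν + w - 1) := Nat.mul_le_mul_left L hq1
        _ ≤ L * (2 * tot μ) := Nat.mul_le_mul_left L (by omega)
        _ = 2 * L * tot μ := by ring
    have u2 : 2 * L * tot μ + w ≤ w * (SM ρ).card := by
      calc 2 * L * tot μ + w ≤ 2 * L * (L * (tot μ - tot ν)) + w := by
            have := Nat.mul_le_mul_left (2 * L) h2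
            omega
        _ = 2 * L ^ 2 * tot ρ + w := by rw [hρtot]; ring
        _ ≤ 2 * L ^ 2 * (w * qq 0 w (tot ρ)) + w := by
            have := Nat.mul_le_mul_left (2 * L ^ 2) hq2
            omega
        _ = w * (2 * L ^ 2 * qq 0 w (tot ρ) + 1) := by ring
        _ ≤ w * (SM ρ).card := Nat.mul_le_mul_left w hn2
    omega

end AM
end

section

set_option autoImplicit false
set_option linter.unusedSectionVars false

open Finset Pointwise

namespace AM

open RG (stb mem_stb)
open Pool.Agent.Lib.MP_d3cc86_co (lam Asym)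

/-- One step.  `M = ` max of the bound of `nearfull L` and `L (J + 1)`, `J` from `need2 L`.
`V = sp ν`, `B = SM ν`, `j = tot ν ≥ s / L ≥ J`, `C = 100 L^2`, `q = qq C w j ≤ qq 0 w j`,
`g = ((L-1) q + (L-1)) / L`; so `(L-1) q ≤ L g ≤ (L-1) q + (L-1)`, `g ≤ q`.
If `g = 0` then `(L-1) q = 0`, the claim is trivial with any `x ∈ V` (`j ≥ 1`).
If `g ≥ 1` apply `stage` to `V`, `B`: `Thick V g` is `thick_of`, `g L + 1 ≤ |B|` is `need2 L`,
`|B| + g L + 1 ≤ |closure V|` is `nearfull L`, `B ⊆ closure V` is `SM_sub`.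
Result: `g L + 1 ≤ L lam B x + g`, so `L lam B x ≥ (L-1) g` and
`L^2 lam B x ≥ (L-1) L g ≥ (L-1)^2 q`. -/
theorem step (L : ℕ) (hL : 2 ≤ L) : ∃ M : ℕ, ∀ (G : Type) [AddCommGroup G] [Fintype G]
    [DecidableEq G] (w : ℕ) (μ ν : G → ℕ), 1 ≤ w → AS μ → (∀ x, μ x ≤ w) → stb (SM μ) = ⊥ →
    M ≤ tot μ → w ≤ tot μ → (∀ x, ν x ≤ μ x) → tot μ ≤ L * tot ν →
    tot μ ≤ L * (tot μ - tot ν) →
    (¬ ∃ H : AddSubgroup G, Nat.card H ≤ (SM μ).card ∧ 4 * tot μ ≤ w * Nat.card H) →
    ∃ x, ν x ≠ 0 ∧ (L - 1) ^ 2 * qq (100 * L ^ 2) w (tot ν) ≤ L ^ 2 * lam (SM ν) x := by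
  obtain ⟨k, rfl⟩ : ∃ k, L = k + 1 := ⟨L - 1, by omega⟩
  have hk : 1 ≤ k := by omega
  obtain ⟨M1, hM1⟩ := nearfull (k + 1) (by omega)
  obtain ⟨J, hJ⟩ := need2 (k + 1)
  refine ⟨max M1 ((k + 1) * (J + 1)), ?_⟩
  intro G _ _ _ w μ ν hw hAS hb hst hM hws hle hL1 hL2 hno
  have hMa : M1 ≤ tot μ := le_trans (le_max_left _ _) hM
  have hMb : (k + 1) * (J + 1) ≤ tot μ := le_trans (le_max_right _ _) hM
  have hj : J + 1 ≤ tot ν := Nat.le_of_mul_le_mul_left (hMb.trans hL1) (Nat.succ_pos k)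
  have hASν : AS ν := AS.mono hAS hle
  have hbν : ∀ x, ν x ≤ w := fun x => (hle x).trans (hb x)
  have hstν : stb (SM ν) = ⊥ := ap_mono hle hst
  have hqq : qq (100 * (k + 1) ^ 2) w (tot ν) ≤ qq 0 w (tot ν) := by
    unfold qq
    exact Nat.div_le_div_right (by omega)
  have hneed := hJ G w ν hw hASν hbν hstν (by omega)
  generalize hq : qq (100 * (k + 1) ^ 2) w (tot ν) = q at *
  generalize hq0 : qq 0 w (tot ν) = q0 at *
  have hk1 : k + 1 - 1 = k := by omega
  rw [hk1]
  obtain ⟨g, hgdef⟩ : ∃ g, g = (k * q + k) / (k + 1) := ⟨_, rfl⟩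
  have hg1 : (k + 1) * g ≤ k * q + k := by
    rw [hgdef]; exact Nat.mul_div_le _ _
  have hg2 : k * q ≤ (k + 1) * g := by
    have h1 := Nat.div_add_mod (k * q + k) (k + 1)
    have h2 := Nat.mod_lt (k * q + k) (Nat.succ_pos k)
    rw [← hgdef] at h1
    generalize (k * q + k) % (k + 1) = r at h1 h2
    simp only [Nat.succ_eq_add_one] at h2
    generalize (k + 1) * g = t at *
    generalize k * q = u at *
    omega
  have hgq : g ≤ q := by
    have h1 : (k + 1) * g < (k + 1) * (q + 1) := by nlinarith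
    have := Nat.lt_of_mul_lt_mul_left h1
    omega
  rcases Nat.eq_zero_or_pos g with h0 | hpos
  · have hq00 : q = 0 := by
      rw [h0, Nat.mul_zero, Nat.le_zero, Nat.mul_eq_zero] at hg2
      rcases hg2 with h | h
      · omega
      · exact h
    have hex : ∃ x, ν x ≠ 0 := by
      by_contra hcon
      push Not at hcon
      have : tot ν = 0 := Finset.sum_eq_zero fun x _ => hcon x
      omega
    obtain ⟨x, hx⟩ := hex
    refine ⟨x, hx, ?_⟩
    rw [hq00, Nat.mul_zero]
    exact Nat.zero_le _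
  · have hT : Thick (sp ν) g := by
      apply thick_of ν w (k + 1) hw (by omega) hASν hbν hstν g
      rw [hq, hk1]
      exact hg1
    have hB : ∀ x ∈ SM ν, x ∈ AddSubgroup.closure (sp ν : Set G) := by
      apply SM_sub
      intro x hx
      exact AddSubgroup.subset_closure (Finset.mem_coe.2 ((mem_sp ν x).2 hx))
    have hgq0 : g ≤ q0 := hgq.trans hqq
    have h1 : g * (k + 1) + 1 ≤ (SM ν).card := by
      refine le_trans ?_ hneed
      have : g * (k + 1) ≤ (k + 1) * q0 := by
        rw [Nat.mul_comm]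
        exact Nat.mul_le_mul_left _ hgq0
      omega
    have h2 := hM1 G w μ ν g hw hAS hb hst hMa hws hle hL1 hL2 (by rw [hq0]; exact hgq0) hno
    obtain ⟨x, hx, hx2⟩ := stage (sp ν) (SM ν) (AS.asym hASν) hB g (k + 1) hpos (by omega) hT h1 h2
    refine ⟨x, (mem_sp ν x).1 hx, ?_⟩
    generalize lam (SM ν) x = l at *
    have h3 : k * g ≤ (k + 1) * l := by nlinarith
    calc k ^ 2 * q = k * (k * q) := by ring
      _ ≤ k * ((k + 1) * g) := Nat.mul_le_mul_left _ hg2
      _ = (k + 1) * (k * g) := by ring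
      _ ≤ (k + 1) * ((k + 1) * l) := Nat.mul_le_mul_left _ h3
      _ = (k + 1) ^ 2 * l := by ring

end AM
end

section

set_option autoImplicit false
set_option linter.unusedSectionVars false

open Finset Pointwise

namespace AM

open RG (stb mem_stb gg)
open Pool.Agent.Lib.MP_d3cc86_co (lam)

/-- The asymptotic lower bound for aperiodic multisets.  Let `C = 100 L^2`, `s = tot μ` large
(`M ≥` the bound of `step L`, `M ≥ L C + 4 L`).  Suppose the first alternative fails.  Let
`j0 = (s + L - 1) / L` (so `s ≤ L j0`, `L j0 ≤ s + L - 1`, `C ≤ j0`; `2 j0 ≤ s` if `L ≥ 3`, and for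
`L = 2` see below), `b = s - j0`.  For `j0 < j ≤ b`: `s ≤ L j` and `s ≤ L (s - j)`, so `step L` and
`chain` (`K = L^2`, `f i = (L-1)^2 qq C w i`) give `(L-1)^2 Σ ≤ L^2 |SM μ|`,
`Σ = ∑_{i ∈ Ioc j0 (s-j0)} qq C w i`.  `sumqq`: `w gg w s ≤ w + w Σ + 4 j0 s`.
`(L-1)^2 ≥ L^2 - 2 L`, so `L w |SM μ| ≥ (L - 2) w Σ ≥ (L-2) (w gg w s - w - 4 j0 s)`
`≥ L w gg w s - 2 (w + 2 s^2) - L w - 4 L j0 s` (`gg_le`), and
`2 w + 4 s^2 + L w + 4 L j0 s ≤ 2 s + 4 s^2 + L s + 4 (s + L) s ≤ 13 s^2` for `s ≥ 5 L + 2`.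
`L = 2`: `L w gg w s ≤ 2 (w + 2 s^2) ≤ 6 s^2`, so the second alternative holds trivially. -/
theorem thmB (L : ℕ) (hL : 2 ≤ L) : ∃ M : ℕ, ∀ (G : Type) [AddCommGroup G] [Fintype G] (w : ℕ)
    (μ : G → ℕ), 1 ≤ w → AS μ → (∀ x, μ x ≤ w) → stb (SM μ) = ⊥ → M ≤ tot μ → w ≤ tot μ →
    (∃ H : AddSubgroup G, Nat.card H ≤ (SM μ).card ∧ 4 * tot μ ≤ w * Nat.card H) ∨
      L * (w * gg w (tot μ)) ≤ L * (w * (SM μ).card) + 13 * tot μ ^ 2 := by
  obtain ⟨M0, hM0⟩ := step L hL
  refine ⟨M0 + L * (100 * L ^ 2) + 2 * L + 1, ?_⟩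
  intro G _ _ w μ hw hAS hle hap hM hws
  classical
  by_cases hH : ∃ H : AddSubgroup G, Nat.card H ≤ (SM μ).card ∧ 4 * tot μ ≤ w * Nat.card H
  · exact Or.inl hH
  right
  have hgg := gg_le w (tot μ) hw hws
  rcases Nat.lt_or_ge L 3 with hL3 | hL3
  · have hL2 : L = 2 := by omega
    subst hL2
    have h1 : 1 ≤ tot μ := by omega
    nlinarith [Nat.zero_le (w * (SM μ).card)]
  · -- the main case
    set j0 := (tot μ + L - 1) / L with hj0
    have hLpos : 0 < L := by omega
    have hd := Nat.div_add_mod (tot μ + L - 1) L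
    have hm := Nat.mod_lt (tot μ + L - 1) hLpos
    rw [← hj0] at hd
    have ha : tot μ ≤ L * j0 := by omega
    have hb : L * j0 ≤ tot μ + L - 1 := by omega
    have hC : 100 * L ^ 2 ≤ j0 := by
      have h1 : L * (100 * L ^ 2) ≤ L * j0 := by omega
      exact Nat.le_of_mul_le_mul_left h1 hLpos
    have h2j : 2 * j0 ≤ tot μ := by
      have h1 : 3 * j0 ≤ L * j0 := Nat.mul_le_mul_right j0 hL3
      omega
    have hchain := chain μ j0 (tot μ - j0) (L ^ 2)
      (fun i => (L - 1) ^ 2 * qq (100 * L ^ 2) w i) (fun ν hν h1 h2 => by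
        refine hM0 G w μ ν hw hAS hle hap (by omega) hws hν ?_ ?_ hH
        · exact ha.trans (Nat.mul_le_mul_left L h1.le)
        · exact ha.trans (Nat.mul_le_mul_left L (by omega))) (by omega) (by omega)
    rw [← Finset.mul_sum] at hchain
    have hsum := sumqq (100 * L ^ 2) w (tot μ) j0 hw hws hC h2j
    generalize (∑ i ∈ Finset.Ioc j0 (tot μ - j0), qq (100 * L ^ 2) w i) = S at hchain hsum
    generalize (SM μ).card = N at hchain hH ⊢
    generalize tot μ = s at *
    generalize gg w s = g at *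
    obtain ⟨k, rfl⟩ : ∃ k, L = k + 3 := ⟨L - 3, by omega⟩
    have e1 : k + 3 - 1 = k + 2 := by omega
    rw [e1] at hchain
    have h1 : (k + 1) * S ≤ (k + 3) * N := by
      have h2 : (k + 3) * ((k + 1) * S) ≤ (k + 3) * ((k + 3) * N) := by
        nlinarith [Nat.zero_le S]
      exact Nat.le_of_mul_le_mul_left h2 (by omega)
    have h2 : (k + 1) * (w * S) ≤ (k + 3) * (w * N) := by
      have := Nat.mul_le_mul_left w h1
      nlinarith
    have h3 : (k + 1) * (w * g) ≤ (k + 1) * (w + w * S + 4 * j0 * s) :=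
      Nat.mul_le_mul_left _ hsum
    have h4 : (k + 3) * j0 ≤ s + (k + 2) := by omega
    have h5 : (k + 3) * j0 * s ≤ (s + (k + 2)) * s := Nat.mul_le_mul_right s h4
    have h6 : (k + 3) * w ≤ (k + 3) * s := Nat.mul_le_mul_left _ hws
    have h7 : k + 3 ≤ s := by omega
    have h8 : (k + 3) * s ≤ s * s := Nat.mul_le_mul_right s h7
    have h9 : 0 ≤ j0 * s := Nat.zero_le _
    nlinarith

end AM
end

section

set_option autoImplicit false
set_option linter.unusedSectionVars false

open Finset Pointwise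

namespace AM

open RG (stb mem_stb gg gg_mono gg_quad)
open SPR (phi)
open Pool.Agent.Lib.MP_d3cc86_co (Asym)

/-- `|A ∩ K| ≤ (|K| - 1)/2`, i.e. `2 |A| + 1 ≤ 2 |off A K| + |K|`: the elements of `A` in `K` form an
asymmetric subset of the group `K` (`Asym.card_le`; see `hin` in the proof of `lower_bound`,
`Lower.lean`). -/
theorem card_le_off {G : Type} [AddCommGroup G] [Fintype G] [DecidableEq G] (A : Finset G)
    (hA : Asym A) (K : AddSubgroup G) : 2 * A.card + 1 ≤ 2 * (off A K).card + Nat.card K := by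
  classical
  have hin : 2 * (A.filter (fun x => x ∈ K)).card + 1 ≤ Nat.card K := by
    set A' : Finset K := A.subtype (fun x => x ∈ K) with hA'
    have hA'asym : Asym A' := by
      intro a ha hna
      rw [hA', Finset.mem_subtype] at ha hna
      exact hA _ ha (by simpa using hna)
    have h5 := hA'asym.card_le
    rw [hA', Finset.card_subtype, ← Nat.card_eq_fintype_card] at h5
    exact h5
  have hsplit : (A.filter (fun x => x ∈ K)).card + (A.filter (fun x => x ∉ K)).card = A.card :=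
    Finset.card_filter_add_card_filter_not (fun x => x ∈ K)
  have hoff : (off A K).card = (A.filter (fun x => x ∉ K)).card := by
    congr 1
  omega

/-- The lower bound in `ℤ/n`.  `K = stb (Σ A)`, `k = |K|`, `Q`, `μ` from `quot`, `s = tot μ = |off A K|`,
`m = |A|`; `2 m + 1 ≤ 2 s + k` (`card_le_off`), `s ≤ m`; `k ∣ n` (`k |Q| = n`);
`phi k m = k gg k (m - (k-1)/2) ≤ k gg k s` (`gg_mono`; `phi` and `gg` unfold to the same expression, see
`RG.ph_one_eq`).
Case `s ≤ 2 k`: `exact2` gives `phi k m ≤ k |SM μ| = |Σ A|`, first alternative with `h = k`.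
Case `s > 2 k`: then `4 m < 5 s` (`2 m + 1 ≤ 2 s + k < 2 s + s / 2`), so `s` is as large as we want
(`M = 2 M0`, `M0` from `thmB L`), `k ≤ s`, and `thmB` with `w = k`:
* there is `H ≤ Q` with `|H| ≤ |SM μ|`, `4 s ≤ k |H|`: `h = k |H|` divides `n = k |Q|`, and
  `m ≤ (h-1)/2` (`2 m + 1 ≤ 4 s`), so `phi h m = h` (`SPR.phi_small`) `≤ k |SM μ| = |Σ A|`.
* `L (k gg k s) ≤ L |Σ A| + 13 s^2`: second alternative with `h = k`, `X = k gg k s`:
  `25 X ≥ (25/2) (s^2 + k s)` (`gg_quad`), `4 m^2 ≤ (2 s + k)^2`, so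
  `12 m^2 ≤ 12 (s^2 + s k) + 3 k^2` and `6 k^2 ≤ s^2 + k s` (`s ≥ 2 k`). -/
theorem lowerAM (L : ℕ) (hL : 2 ≤ L) : ∃ M : ℕ, ∀ (n : ℕ) [NeZero n] (A : Finset (ZMod n)),
    (∀ a ∈ A, -a ∉ A) → M ≤ A.card →
      (∃ h, h ∣ n ∧ phi h A.card ≤ A.subsetSum.card) ∨
      (∃ h X : ℕ, h ∣ n ∧ phi h A.card ≤ X ∧
        L * X ≤ L * A.subsetSum.card + 13 * A.card ^ 2 ∧ 12 * A.card ^ 2 ≤ 25 * X) := by
  obtain ⟨M0, hM0⟩ := thmB L hL
  refine ⟨2 * M0, fun n _ A hA hM => ?_⟩
  obtain ⟨Q, iQ, fQ, μ, hQ, hAS, hb, hst, htot, hcard⟩ := quot (ZMod n) A hA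
  have hoff := card_le_off A hA (stb A.subsetSum)
  rw [← htot] at hoff
  have hk1 : 1 ≤ Nat.card (stb A.subsetSum) := Nat.card_pos
  have hsm : tot μ ≤ A.card := by
    rw [htot]
    apply Finset.card_le_card
    intro x hx
    exact ((mem_off _ _ _).1 hx).1
  rw [Nat.card_zmod] at hQ
  generalize hk : Nat.card (stb A.subsetSum) = k at *
  generalize hs : tot μ = s at *
  generalize hm : A.card = m at *
  have hphi : phi k m ≤ k * gg k s := by
    rw [← RG.ph_one_eq]
    unfold RG.ph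
    rw [one_mul, one_mul]
    exact Nat.mul_le_mul_left _ (gg_mono k hk1 (by omega))
  have hkn : k ∣ n := Dvd.intro _ hQ
  rcases Nat.lt_or_ge (2 * k) s with h2 | h2
  · have hM0s : M0 ≤ s := by omega
    rcases hM0 Q k μ hk1 hAS hb hst (by omega) (by omega) with ⟨H, h3, h4⟩ | h3
    · left
      rw [hs] at h4
      refine ⟨k * Nat.card H, ?_, ?_⟩
      · rw [← hQ]
        exact Nat.mul_dvd_mul_left k (AddSubgroup.card_addSubgroup_dvd_card H)
      · rw [SPR.phi_small _ _ (by omega), hcard]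
        exact Nat.mul_le_mul_left k h3
    · right
      rw [hs] at h3
      refine ⟨k, k * gg k s, hkn, hphi, ?_, ?_⟩
      · rw [hcard]
        refine h3.trans (Nat.add_le_add_left ?_ _)
        exact Nat.mul_le_mul_left 13 (Nat.pow_le_pow_left hsm 2)
      · have h4 := gg_quad k s hk1
        have h5 : (2 * m) ^ 2 ≤ (2 * s + k) ^ 2 := Nat.pow_le_pow_left (by omega) 2
        have h6 : 6 * (k * k) ≤ s * s + k * s := by
          have h7 : 2 * k * s ≤ s * s := Nat.mul_le_mul_right s h2.le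
          have h8 : 2 * k * k ≤ s * k := Nat.mul_le_mul_right k h2.le
          nlinarith
        nlinarith
  · left
    refine ⟨k, hkn, hphi.trans ?_⟩
    rw [hcard]
    refine Nat.mul_le_mul_left k ?_
    rw [← hs]
    exact exact2 k hk1 μ hAS hb hst (by omega)

end AM
end

section

/-!
Exact formula for all moduli (MP_d3cc86_co).  Definitions.  Multisets are functions `μ : G → ℕ`
as in `AM/Defs.lean`; `SM μ` is the set of their subset sums, `tot μ` the number of elements.
-/

set_option autoImplicit false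
set_option linter.unusedSectionVars false

open Finset Pointwise

namespace FX

open RG (stb mem_stb gg ph)
open SPR (T)
open AM
open Pool.Agent.Lib.MP_d3cc86_co (lam Asym symz)

section
variable {G : Type} [AddCommGroup G] [Fintype G]

/-- The conclusion of the main theorem: `|SM μ|` is at least one of the values `ph w h (tot μ)`,
`h ∣ |G|`, or (`w = 1`) at least `T (tot μ)` and one of the two exceptional congruences holds. -/
def Concl (G : Type) [AddCommGroup G] [Fintype G] (w : ℕ) (μ : G → ℕ) : Prop :=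
  (∃ h, h ∣ Nat.card G ∧ ph w h (tot μ) ≤ (SM μ).card) ∨
  (w = 1 ∧ ((3 ∣ Nat.card G ∧ tot μ % 3 = 1) ∨ (5 ∣ Nat.card G ∧ tot μ % 5 = 2)) ∧
    T (tot μ) ≤ (SM μ).card)

/-- Standing assumptions in the aperiodic case (a counterexample to the easy bounds). -/
structure Hyp (w : ℕ) (μ : G → ℕ) : Prop where
  w1 : 1 ≤ w
  as : AS μ
  cap : ∀ x, μ x ≤ w
  ap : stb (SM μ) = ⊥
  small : (SM μ).card < gg w (tot μ)
  nosub : ¬ ∃ H : AddSubgroup G, Nat.card H ≤ (SM μ).card ∧ 4 * tot μ ≤ w * Nat.card H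

/-- A set `C` on which all elements of `V` act almost trivially. -/
structure Ctx [DecidableEq G] (V C : Finset G) (q : ℕ) : Prop where
  asym : Asym V
  big : q ≤ V.card
  wide : q * V.card ≤ C.card
  sub : ∀ x ∈ C, x ∈ AddSubgroup.closure (V : Set G)
  half : 2 * C.card ≤ Nat.card (AddSubgroup.closure (V : Set G))
  flat : ∀ x ∈ V, q * lam C x ≤ (q + 1) * V.card
  sparse : ∀ H : AddSubgroup G, (V.card - (off V H).card) ^ 2 < 25 * Nat.card H

lemma Ctx.mono [DecidableEq G] {V C : Finset G} {q q' : ℕ} (h : Ctx V C q) (hq' : 1 ≤ q')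
    (hqq : q' ≤ q) : Ctx V C q' where
  asym := h.asym
  big := hqq.trans h.big
  wide := (Nat.mul_le_mul_right _ hqq).trans h.wide
  sub := h.sub
  half := h.half
  flat := by
    intro x hx
    have h1 := h.flat x hx
    have h2 : 1 ≤ q := hq'.trans hqq
    have h3 : q * (q' * lam C x) ≤ q * ((q' + 1) * V.card) := by
      calc q * (q' * lam C x) = q' * (q * lam C x) := by ring
        _ ≤ q' * ((q + 1) * V.card) := Nat.mul_le_mul_left _ h1
        _ = (q' * q + q') * V.card := by ring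
        _ ≤ (q' * q + q) * V.card := Nat.mul_le_mul_right _ (by omega)
        _ = q * ((q' + 1) * V.card) := by ring
    exact Nat.le_of_mul_le_mul_left h3 h2
  sparse := h.sparse

open Classical in
/-- the part of `μ` outside `H` -/
noncomputable def out (H : AddSubgroup G) (μ : G → ℕ) : G → ℕ := fun x => if x ∈ H then 0 else μ x

open Classical in
/-- the mass of `ν` in the two cosets `x + M` and `-x + M` -/
noncomputable def cm (M : AddSubgroup G) (ν : G → ℕ) (x : G) : ℕ :=
  ∑ y, if (y - x ∈ M ∨ y + x ∈ M) then ν y else 0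

/-- Reduction to a proper quotient: there are a finite cyclic group `Q` with `k |Q| = |G|`, `k ≥ 2`,
and an asymmetric multiset `ν` in `Q`, bounded by `w k`, which has lost at most `w ⌊(k-1)/2⌋`
elements, with `k |SM ν| ≤ |SM μ|`. -/
def Red (w : ℕ) (μ : G → ℕ) : Prop :=
  ∃ (Q : Type) (_ : AddCommGroup Q) (_ : Fintype Q) (k : ℕ) (ν : Q → ℕ), 2 ≤ k ∧ IsAddCyclic Q ∧
    k * Nat.card Q = Nat.card G ∧ AS ν ∧ (∀ z, ν z ≤ w * k) ∧
    tot μ ≤ tot ν + w * ((k - 1) / 2) ∧ k * (SM ν).card ≤ (SM μ).card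

lemma res_add_out (H : AddSubgroup G) (μ : G → ℕ) : res H μ + out H μ = μ := by
  funext x
  unfold res out
  rw [Pi.add_apply]
  by_cases h : x ∈ H
  · simp [h]
  · simp [h]

lemma out_le (H : AddSubgroup G) (μ : G → ℕ) : ∀ x, out H μ x ≤ μ x := by
  intro x
  unfold out
  split_ifs
  · exact Nat.zero_le _
  · exact le_rfl

lemma out_ne {H : AddSubgroup G} {μ : G → ℕ} {x : G} (h : out H μ x ≠ 0) : x ∉ H ∧ μ x ≠ 0 := by
  unfold out at h
  by_cases hx : x ∈ H
  · simp [hx] at h
  · rw [if_neg hx] at h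
    exact ⟨hx, h⟩

lemma res_ne {H : AddSubgroup G} {μ : G → ℕ} {x : G} (h : res H μ x ≠ 0) : x ∈ H ∧ μ x ≠ 0 := by
  unfold res at h
  by_cases hx : x ∈ H
  · rw [if_pos hx] at h
    exact ⟨hx, h⟩
  · simp [hx] at h

lemma tot_split (H : AddSubgroup G) (μ : G → ℕ) : tot μ = tot (res H μ) + tot (out H μ) := by
  rw [← tot_add, res_add_out]

end

end FX
end
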