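import Pool.Agent.Lib.MP_d3cc86_co.FX.Defs
import Pool.Agent.Lib.MP_d3cc86_co.AM.S1

section

set_option autoImplicit false
set_option linter.unusedSectionVars false

open Finset Pointwise

namespace FX

open RG (stb mem_stb gg ph)
open SPR (T)
open AM
open Pool.Agent.Lib.MP_d3cc86_co (lam Asym symz)

variable {G : Type} [AddCommGroup G] [Fintype G] [DecidableEq G]

/-- `g ≤ |V|` is clear (`L g ≤ (L-1) |V| ≤ L |V|`).  Let `H` be a subgroup of order `< 2 |V|`.  With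
`r = |V| - |off V H|` we have `r^2 < 25 · 2 |V| = 50 |V|`.  If `|off V H| < g` then `r > |V| - g ≥ |V| / L`, i.e.
`L r ≥ |V|`, so `|V|^2 ≤ L^2 r^2 < 50 L^2 |V|`, contradicting `50 L^2 ≤ |V|`. -/
theorem thick_rel (V : Finset G)
    (hsp : ∀ H : AddSubgroup G, (V.card - (off V H).card) ^ 2 < 25 * Nat.card H) (L g : ℕ)
    (hL : 1 ≤ L) (hv : 50 * L ^ 2 ≤ V.card) (hg : L * g ≤ (L - 1) * V.card) : Thick V g := by
  obtain ⟨k, rfl⟩ : ∃ k, L = k + 1 := ⟨L - 1, by omega⟩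
  rw [Nat.add_sub_cancel] at hg
  refine ⟨?_, ?_⟩
  · have h1 : (k + 1) * g ≤ (k + 1) * V.card :=
      hg.trans (Nat.mul_le_mul_right _ (Nat.le_succ k))
    exact Nat.le_of_mul_le_mul_left h1 (Nat.succ_pos k)
  · intro H hH _
    by_contra hcon
    push Not at hcon
    have h2 := hsp H
    have hoff : (off V H).card ≤ V.card := by
      classical
      exact Finset.card_le_card (Finset.filter_subset _ _)
    obtain ⟨r, hr⟩ : ∃ r, V.card = (off V H).card + r := ⟨V.card - (off V H).card, by omega⟩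
    have hr2 : V.card - (off V H).card = r := by omega
    rw [hr2] at h2
    have h3 : r ^ 2 < 50 * V.card := by omega
    have h4 : V.card ≤ (k + 1) * r := by
      have h5 : (k + 1) * (off V H).card ≤ (k + 1) * g := Nat.mul_le_mul_left _ hcon.le
      have h6 : (k + 1) * V.card = (k + 1) * (off V H).card + (k + 1) * r := by
        rw [hr]; ring
      have h7 : (k + 1) * V.card = k * V.card + V.card := by ring
      omega
    have h8 : V.card ^ 2 ≤ ((k + 1) * r) ^ 2 := Nat.pow_le_pow_left h4 2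
    have h9 : ((k + 1) * r) ^ 2 < V.card ^ 2 := by
      calc ((k + 1) * r) ^ 2 = (k + 1) ^ 2 * r ^ 2 := by ring
        _ < (k + 1) ^ 2 * (50 * V.card) := Nat.mul_lt_mul_of_pos_left h3 (by positivity)
        _ = (50 * (k + 1) ^ 2) * V.card := by ring
        _ ≤ V.card * V.card := Nat.mul_le_mul_right _ hv
        _ = V.card ^ 2 := by ring
    exact absurd (h8.trans_lt h9) (lt_irrefl _)

/-- `AM.stage` for `V = sp ν`, `B = SM ν ⊆ closure V` (`SM_sub`): `g L + 1 ≤ 2 L qq 0 w τ + 1 ≤ |SM ν|`, similarly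
for `h2`.  It gives `x ∈ sp ν` with `g L + 1 ≤ L lam (SM ν) x + g`, so `(L-1) g + 1 ≤ L lam (SM ν) x`; multiply by
`w q'` and use `hf`. -/
theorem claimK (w L q' g : ℕ) (ν : G → ℕ) (hw : 1 ≤ w) (hL : 1 ≤ L) (hq' : 1 ≤ q') (hAS : AS ν)
    (hg : 1 ≤ g) (hT : Thick (sp ν) g) (hg2 : g ≤ 2 * qq 0 w (tot ν))
    (h1 : 2 * L * qq 0 w (tot ν) + 1 ≤ (SM ν).card)
    (h2 : (SM ν).card + 2 * L * qq 0 w (tot ν) + 1 ≤
      Nat.card (AddSubgroup.closure (sp ν : Set G)))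
    (hf : ∀ x, ν x ≠ 0 → q' * (w * lam (SM ν) x) ≤ (q' + 1) * tot ν) :
    w * q' * ((L - 1) * g) < L * ((q' + 1) * tot ν) := by
  obtain ⟨k, rfl⟩ : ∃ k, L = k + 1 := ⟨L - 1, by omega⟩
  rw [Nat.add_sub_cancel]
  have hgL : g * (k + 1) ≤ 2 * (k + 1) * qq 0 w (tot ν) := by
    calc g * (k + 1) ≤ (2 * qq 0 w (tot ν)) * (k + 1) := Nat.mul_le_mul_right _ hg2
      _ = 2 * (k + 1) * qq 0 w (tot ν) := by ring
  have hB : ∀ x ∈ SM ν, x ∈ AddSubgroup.closure (sp ν : Set G) := by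
    apply SM_sub
    intro x hx
    exact AddSubgroup.subset_closure (Finset.mem_coe.2 ((mem_sp ν x).2 hx))
  have hV : Asym (sp ν) := by
    intro a ha hna
    exact (mem_sp ν (-a)).1 hna (hAS a ((mem_sp ν a).1 ha))
  obtain ⟨x, hx, hx2⟩ := stage (sp ν) (SM ν) hV hB g (k + 1) hg hL hT (by omega) (by omega)
  have h3 := hf x ((mem_sp ν x).1 hx)
  have h4 : k * g + 1 ≤ (k + 1) * lam (SM ν) x := by
    have : g * (k + 1) = k * g + g := by ring
    omega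
  have h5 : 1 ≤ w * q' := Nat.mul_pos hw hq'
  calc w * q' * (k * g) < w * q' * (k * g + 1) := Nat.mul_lt_mul_of_pos_left (by omega) h5
    _ ≤ w * q' * ((k + 1) * lam (SM ν) x) := Nat.mul_le_mul_left _ h4
    _ = (k + 1) * (q' * (w * lam (SM ν) x)) := by ring
    _ ≤ (k + 1) * ((q' + 1) * tot ν) := Nat.mul_le_mul_left _ h3

end FX
end

section

section

set_option autoImplicit false
set_option linter.unusedSectionVars false

open Finset Pointwise

namespace FX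

open RG (stb mem_stb gg ph)
open SPR (T)
open AM
open Pool.Agent.Lib.MP_d3cc86_co (lam Asym symz)

variable {N : ℕ} [NeZero N]

/-- the Fourier transform of a function on `ℤ/N` -/
noncomputable def fh (f : ZMod N → ℂ) (k : ZMod N) : ℂ := ∑ x, f x * ZMod.stdAddChar (k * x)

/-- the Fourier transform of the indicator function of `C` -/
noncomputable def hh (C : Finset (ZMod N)) (k : ZMod N) : ℂ := ∑ x ∈ C, ZMod.stdAddChar (k * x)

private theorem mulconj (a b k : ZMod N) :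
    (ZMod.stdAddChar (k * a) : ℂ) * (starRingEnd ℂ) (ZMod.stdAddChar (k * b)) =
      ZMod.stdAddChar (k * (a - b)) := by
  rw [← AddChar.map_neg_eq_conj, ← AddChar.map_add_eq_mul]
  congr 1
  ring

private theorem normsq (z : ℂ) : ((‖z‖ ^ 2 : ℝ) : ℂ) = z * (starRingEnd ℂ) z := by
  rw [Complex.mul_conj, Complex.normSq_eq_norm_sq]

/-- Parseval: `∑_k |f̂ k|^2 = ∑_{x,y} f x conj (f y) ∑_k ψ(k (x - y)) = N ∑ |f x|^2`
(`AddChar.sum_mulShift` or orthogonality: `∑_k ψ(k d) = N` if `d = 0` and `0` otherwise; `conj ψ(t) = ψ(-t)`). -/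
theorem parseval (f : ZMod N → ℂ) : ∑ k, ‖fh f k‖ ^ 2 = N * ∑ x, ‖f x‖ ^ 2 := by
  have h : ((∑ k, ‖fh f k‖ ^ 2 : ℝ) : ℂ) = ((N * ∑ x, ‖f x‖ ^ 2 : ℝ) : ℂ) := by
    rw [Complex.ofReal_sum, Complex.ofReal_mul, Complex.ofReal_sum, Complex.ofReal_natCast]
    have h1 : ∀ k : ZMod N, ((‖fh f k‖ ^ 2 : ℝ) : ℂ) =
        ∑ x, ∑ y, f x * (starRingEnd ℂ) (f y) * ZMod.stdAddChar (k * (x - y)) := by
      intro k
      rw [normsq]
      unfold fh
      rw [map_sum, Finset.sum_mul_sum]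
      refine Finset.sum_congr rfl fun x _ => Finset.sum_congr rfl fun y _ => ?_
      rw [map_mul (starRingEnd ℂ), ← mulconj]
      ring
    rw [Finset.sum_congr rfl fun k _ => h1 k, Finset.sum_comm, Finset.mul_sum]
    refine Finset.sum_congr rfl fun x _ => ?_
    rw [Finset.sum_comm, Finset.sum_eq_single x]
    · rw [← Finset.mul_sum, sub_self]
      simp only [mul_zero, AddChar.map_zero_eq_one, Finset.sum_const, Finset.card_univ,
        ZMod.card, nsmul_eq_mul, mul_one]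
      rw [← normsq]
      ring
    · intro y _ hyx
      rw [← Finset.mul_sum]
      have := AddChar.sum_mulShift (x - y) (ZMod.isPrimitive_stdAddChar N)
      rw [this, if_neg (sub_ne_zero.mpr (Ne.symm hyx))]
      simp
    · intro hx
      exact absurd (Finset.mem_univ x) hx
  exact_mod_cast h

/-- `hh C = fh 1_C`, `parseval`. -/
theorem parseval2 (C : Finset (ZMod N)) : ∑ k, ‖hh C k‖ ^ 2 = (N : ℝ) * C.card := by
  classical
  have h1 : ∀ k : ZMod N, hh C k = fh (fun x => if x ∈ C then 1 else 0) k := by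
    intro k
    unfold hh fh
    simp only [ite_mul, one_mul, zero_mul]
    rw [Finset.sum_ite_mem, Finset.univ_inter]
  simp only [h1]
  rw [parseval]
  congr 1
  have h2 : ∀ x : ZMod N, ‖(if x ∈ C then (1 : ℂ) else 0)‖ ^ 2 = if x ∈ C then (1 : ℝ) else 0 := by
    intro x
    split_ifs <;> simp
  simp only [h2]
  rw [Finset.sum_ite_mem, Finset.univ_inter]
  simp

/-- `|hh C k|^2 = hh C k · conj (hh C k) = ∑_{x, z ∈ C} ψ(k (x - z)) = ∑_y |C ∩ (y + C)| ψ(k y) = fh r k` with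
`r y = |C ∩ (y + C)|` (the pairs `(x, z)` with `x - z = y` correspond to `x ∈ C ∩ (y + C)`); `parseval` for `r`. -/
theorem parseval4 (C : Finset (ZMod N)) :
    ∑ k, ‖hh C k‖ ^ 4 = (N : ℝ) * ∑ y : ZMod N, ((C ∩ (y +ᵥ C)).card : ℝ) ^ 2 := by
  classical
  have h1 : ∀ k : ZMod N, ((‖hh C k‖ ^ 2 : ℝ) : ℂ) =
      fh (fun y => ((C ∩ (y +ᵥ C)).card : ℂ)) k := by
    intro k
    rw [normsq]
    unfold hh fh
    rw [map_sum, Finset.sum_mul_sum]
    have h2 : ∀ y : ZMod N, ((C ∩ (y +ᵥ C)).card : ℂ) * ZMod.stdAddChar (k * y) =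
        ∑ x ∈ C, if x - y ∈ C then (ZMod.stdAddChar (k * y) : ℂ) else 0 := by
      intro y
      rw [← Finset.sum_filter, Finset.sum_const, nsmul_eq_mul]
      congr 3
      ext x
      rw [Finset.mem_inter, Finset.mem_filter, Finset.mem_vadd_finset]
      constructor
      · rintro ⟨hx, z, hz, rfl⟩
        refine ⟨hx, ?_⟩
        rw [vadd_eq_add, add_sub_cancel_left]
        exact hz
      · rintro ⟨hx, hz⟩
        exact ⟨hx, x - y, hz, by rw [vadd_eq_add, add_sub_cancel]⟩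
    rw [Finset.sum_congr rfl fun y _ => h2 y,
      Finset.sum_comm (s := (Finset.univ : Finset (ZMod N))) (t := C)]
    refine Finset.sum_congr rfl fun x _ => ?_
    have h3 : ∑ y : ZMod N, (if x - y ∈ C then (ZMod.stdAddChar (k * y) : ℂ) else 0) =
        ∑ z : ZMod N, (if z ∈ C then (ZMod.stdAddChar (k * (x - z)) : ℂ) else 0) := by
      refine Fintype.sum_equiv (Equiv.subLeft x) _ _ fun y => ?_
      simp only [Equiv.subLeft_apply]
      rw [sub_sub_cancel]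
    rw [h3, ← Finset.sum_filter]
    have h5 : (Finset.univ.filter fun z : ZMod N => z ∈ C) = C := by
      ext z
      simp
    rw [h5]
    exact Finset.sum_congr rfl fun z _ => mulconj x z k
  have h4 : ∀ k : ZMod N, ‖hh C k‖ ^ 4 = ‖fh (fun y => ((C ∩ (y +ᵥ C)).card : ℂ)) k‖ ^ 2 := by
    intro k
    rw [← h1 k, Complex.norm_real, Real.norm_of_nonneg (by positivity)]
    ring
  rw [Finset.sum_congr rfl fun k _ => h4 k, parseval]
  congr 1
  refine Finset.sum_congr rfl fun y _ => ?_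
  rw [Complex.norm_natCast]

end FX
end

section

set_option autoImplicit false
set_option linter.unusedSectionVars false

open Finset Pointwise

namespace FX

open RG (stb mem_stb gg ph)
open SPR (T)
open AM
open Pool.Agent.Lib.MP_d3cc86_co (lam Asym symz)

/-- the lower bounds for the increments: `a < i ≤ b` is the range where a good stage is missing -/
def ff (q L C w a b i : ℕ) : ℕ :=
  if a < i ∧ i ≤ b then L ^ 2 * ((q + 1) * i) else q * (w * ((L - 1) ^ 2 * qq C w i))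

private lemma wqq_le (C w i : ℕ) : w * qq C w i ≤ i + w := by
  unfold qq
  have := Nat.mul_div_le (i - C + w - 1) w
  omega

/-- For every `i`: `w qq C w i ≤ i + w` (`qq C w i = (i - C + w - 1) / w`, `Nat.mul_div_le`).  For
`a < i ≤ b`: `L^2 (q+1) i = q L^2 (i + w) + L^2 (i - q w)` (over `ℤ`) `≥ q (L-1)^2 w qq C w i + L^2 (a - q w)`
(natural subtraction; if `a ≤ q w` this summand is `0`, and then use only
`L^2 (q+1) i ≥ L^2 (q i + i)`; careful: if `a ≤ q w` we still need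
`L^2 (q+1) i ≥ q (L-1)^2 w qq C w i`, so the hypothesis `q w ≤ a` is assumed).  Sum over `Ioc j0 (s - j0)`; the `i`
with `a < i ≤ b` all lie in this interval and there are `b - a` of them. -/
theorem gsum (q L C w j0 s a b : ℕ) (hL : 1 ≤ L) (hw : 1 ≤ w) (h0 : q * w ≤ a) (h1 : j0 ≤ a)
    (h2 : a ≤ b) (h3 : b ≤ s - j0) :
    q * ((L - 1) ^ 2 * (w * ∑ i ∈ Ioc j0 (s - j0), qq C w i)) + L ^ 2 * ((b - a) * (a - q * w)) ≤
      ∑ i ∈ Ioc j0 (s - j0), ff q L C w a b i := by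
  have hterm : ∀ i, q * ((L - 1) ^ 2 * (w * qq C w i)) +
      (if a < i ∧ i ≤ b then L ^ 2 * (a - q * w) else 0) ≤ ff q L C w a b i := by
    intro i
    unfold ff
    by_cases hc : a < i ∧ i ≤ b
    · rw [if_pos hc, if_pos hc]
      have h4 : w * qq C w i ≤ i + w := wqq_le C w i
      have h5 : (L - 1) ^ 2 ≤ L ^ 2 := Nat.pow_le_pow_left (Nat.sub_le L 1) 2
      have h6 : q * ((L - 1) ^ 2 * (w * qq C w i)) ≤ q * (L ^ 2 * (i + w)) :=
        Nat.mul_le_mul_left _ (Nat.mul_le_mul h5 h4)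
      have h7 : q * w + (a - q * w) = a := by omega
      have h8 : q * (L ^ 2 * (i + w)) + L ^ 2 * (a - q * w) =
          L ^ 2 * (q * i + (q * w + (a - q * w))) := by ring
      calc q * ((L - 1) ^ 2 * (w * qq C w i)) + L ^ 2 * (a - q * w)
          ≤ q * (L ^ 2 * (i + w)) + L ^ 2 * (a - q * w) := Nat.add_le_add_right h6 _
        _ = L ^ 2 * (q * i + a) := by rw [h8, h7]
        _ ≤ L ^ 2 * (q * i + i) := Nat.mul_le_mul_left _ (by omega)
        _ = L ^ 2 * ((q + 1) * i) := by ring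
    · rw [if_neg hc, if_neg hc, Nat.add_zero]
      exact le_of_eq (by ring)
  have hsub : (Ioc j0 (s - j0)).filter (fun i => a < i ∧ i ≤ b) = Ioc a b := by
    ext i
    simp only [Finset.mem_filter, Finset.mem_Ioc]
    omega
  have hind : ∑ i ∈ Ioc j0 (s - j0), (if a < i ∧ i ≤ b then L ^ 2 * (a - q * w) else 0) =
      L ^ 2 * ((b - a) * (a - q * w)) := by
    rw [← Finset.sum_filter, hsub, Finset.sum_const, Nat.card_Ioc, smul_eq_mul]
    ring
  rw [← hind, Finset.mul_sum, Finset.mul_sum, Finset.mul_sum, ← Finset.sum_add_distrib]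
  exact Finset.sum_le_sum fun i _ => hterm i

/-- `w qq C w i ≤ i + w ≤ 2 s` for `i ≤ s`, and there are at most `s` indices. -/
theorem zbound (C w j0 s : ℕ) (hw : 1 ≤ w) (hws : w ≤ s) :
    w * ∑ i ∈ Ioc j0 (s - j0), qq C w i ≤ 2 * s ^ 2 := by
  rw [Finset.mul_sum]
  have h1 : ∀ i ∈ Ioc j0 (s - j0), w * qq C w i ≤ 2 * s := by
    intro i hi
    rw [Finset.mem_Ioc] at hi
    have h4 : w * qq C w i ≤ i + w := wqq_le C w i
    omega
  have h2 := Finset.sum_le_card_nsmul _ _ _ h1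
  rw [Nat.card_Ioc, smul_eq_mul] at h2
  calc ∑ i ∈ Ioc j0 (s - j0), w * qq C w i ≤ (s - j0 - j0) * (2 * s) := h2
    _ ≤ s * (2 * s) := Nat.mul_le_mul_right _ (by omega)
    _ = 2 * s ^ 2 := by ring

/-- The numerical contradiction.  `L = 256 q^2`, `a = s - s/q`, `b = s - s/(2q)`.  From `hX` and `h1`
`L^2 q w (X + 1) ≤ L^2 q (w + Z + 4 j0 s)`; with `h2`
`q (L-1)^2 Z + L^2 (b - a)(a - q w) ≤ L^2 q (w + Z + 4 j0 s)`.
As `L^2 - (L-1)^2 ≤ 2 L` and `Z ≤ 2 s^2`, `q L^2 Z - q (L-1)^2 Z ≤ 4 L q s^2`.  So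
`L^2 (b - a)(a - q w) ≤ 4 L q s^2 + L^2 q w + 4 L^2 q j0 s`.  `L j0 ≤ s + L`, so the last summand is
`≤ 4 L q s^2 + 4 L^2 q s`.  On the other side `b - a ≥ s/(2q) - 1 ≥ s/(4q)` for `s` large, `a ≥ s/2`
(`q ≥ 2`), `q w ≤ s/4`, so `a - q w ≥ s/4`, and `L^2 (b-a)(a-qw) ≥ L^2 s^2/(16 q) = 16 q L s^2` (`L = 256 q^2`).
Hence `16 q L s^2 ≤ 8 L q s^2 + L^2 q w + 4 L^2 q s ≤ 8 L q s^2 + 5 L^2 q s`, i.e. `8 s ≤ 5 L`: false for
`s ≥ M` (`M = 10000 q^2` or larger). -/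
theorem gnum (q : ℕ) (hq : 2 ≤ q) : ∃ M : ℕ, ∀ w s X Z j0 : ℕ, 1 ≤ w → M ≤ s → 4 * q * w ≤ s →
    j0 = s / (256 * q ^ 2) + 1 → X < gg w s → w * gg w s ≤ w + Z + 4 * j0 * s → Z ≤ 2 * s ^ 2 →
    q * ((256 * q ^ 2 - 1) ^ 2 * Z) +
      (256 * q ^ 2) ^ 2 * ((s - s / (2 * q) - (s - s / q)) * (s - s / q - q * w)) ≤
        (256 * q ^ 2) ^ 2 * (q * (w * X)) → False := by
  refine ⟨1000 * q ^ 2, ?_⟩
  intro w s X Z j0 hw hs hws hj hX h1 hZ h2
  have hq2 : q ≤ q ^ 2 := by nlinarith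
  have hqpos : 0 < q := by omega
  have hw1 : w * (X + 1) ≤ w * gg w s := Nat.mul_le_mul_left _ hX
  have hwX : w * X ≤ Z + 4 * j0 * s := by
    have : w * (X + 1) = w * X + w := by ring
    omega
  -- natural number facts
  obtain ⟨A, hA⟩ : ∃ A, A = s - s / (2 * q) - (s - s / q) := ⟨_, rfl⟩
  obtain ⟨B, hB⟩ : ∃ B, B = s - s / q - q * w := ⟨_, rfl⟩
  rw [← hA, ← hB] at h2
  have hsq : s / q ≤ s / 2 := Nat.div_le_div_left hq (by norm_num)
  have hdq1 : q * (s / q) + s % q = s := Nat.div_add_mod s q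
  have hmq : s % q < q := Nat.mod_lt _ hqpos
  have hdq2 : 2 * q * (s / (2 * q)) ≤ s := Nat.mul_div_le s (2 * q)
  have hle : s / (2 * q) ≤ s / q := Nat.div_le_div_left (by omega) hqpos
  have hles : s / q ≤ s := Nat.div_le_self s q
  have hA' : A + s / (2 * q) = s / q := by omega
  have hA4 : s ≤ 4 * q * A := by
    have e1 : 2 * q * A + 2 * q * (s / (2 * q)) = 2 * (q * (s / q)) := by
      rw [← Nat.mul_add, hA']; ring
    have e2 : 1000 * q ≤ s := by nlinarith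
    nlinarith
  have hB4 : s ≤ 4 * B := by
    have e3 : 4 * (q * w) ≤ s := by
      calc 4 * (q * w) = 4 * q * w := by ring
        _ ≤ s := hws
    omega
  have hAB : s ^ 2 ≤ 16 * q * (A * B) := by
    calc s ^ 2 = s * s := by ring
      _ ≤ (4 * q * A) * (4 * B) := Nat.mul_le_mul hA4 hB4
      _ = 16 * q * (A * B) := by ring
  have hj' : 256 * q ^ 2 * j0 ≤ s + 256 * q ^ 2 := by
    rw [hj, Nat.mul_add, Nat.mul_one]
    exact Nat.add_le_add_right (Nat.mul_div_le s (256 * q ^ 2)) _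
  obtain ⟨L, hL⟩ : ∃ L, L = 256 * q ^ 2 := ⟨_, rfl⟩
  rw [← hL] at h2 hj'
  have hLpos : 1 ≤ L := by
    have : 1 ≤ q ^ 2 := Nat.one_le_pow _ _ hqpos
    omega
  have hLL : (L - 1) ^ 2 + 2 * L = L ^ 2 + 1 := by
    obtain ⟨l, rfl⟩ : ∃ l, L = l + 1 := ⟨L - 1, by omega⟩
    rw [Nat.add_sub_cancel]
    ring
  -- main chain
  have h3 : L ^ 2 * (q * (w * X)) ≤ L ^ 2 * (q * (Z + 4 * j0 * s)) :=
    Nat.mul_le_mul_left _ (Nat.mul_le_mul_left _ hwX)
  have h4 : q * ((L - 1) ^ 2 * Z) + L ^ 2 * (A * B) ≤ L ^ 2 * (q * (Z + 4 * j0 * s)) :=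
    h2.trans h3
  have h5 : q * (L ^ 2 * Z) ≤ q * ((L - 1) ^ 2 * Z) + q * (2 * L * (2 * s ^ 2)) := by
    rw [← Nat.mul_add]
    refine Nat.mul_le_mul_left _ ?_
    have e1 : (L - 1) ^ 2 * Z + 2 * L * Z = L ^ 2 * Z + Z := by
      rw [← Nat.add_mul, hLL]; ring
    have e2 : 2 * L * Z ≤ 2 * L * (2 * s ^ 2) := Nat.mul_le_mul_left _ hZ
    omega
  have h6 : L ^ 2 * (A * B) ≤ q * (2 * L * (2 * s ^ 2)) + 4 * q * L * s * (L * j0) := by
    have e3 : L ^ 2 * (q * (Z + 4 * j0 * s)) = q * (L ^ 2 * Z) + 4 * q * L * s * (L * j0) := by ring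
    rw [e3] at h4
    omega
  have h7 : L ^ 2 * (A * B) ≤ q * (2 * L * (2 * s ^ 2)) + 4 * q * L * s * (s + L) :=
    h6.trans (Nat.add_le_add_left (Nat.mul_le_mul_left _ hj') _)
  have h8 : L ^ 2 * s ^ 2 ≤ 16 * q * (q * (2 * L * (2 * s ^ 2)) + 4 * q * L * s * (s + L)) := by
    calc L ^ 2 * s ^ 2 ≤ L ^ 2 * (16 * q * (A * B)) := Nat.mul_le_mul_left _ hAB
      _ = 16 * q * (L ^ 2 * (A * B)) := by ring
      _ ≤ 16 * q * (q * (2 * L * (2 * s ^ 2)) + 4 * q * L * s * (s + L)) :=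
          Nat.mul_le_mul_left (16 * q) h7
  have hspos : 0 < s := by
    have e4 : 1 ≤ q ^ 2 := Nat.one_le_pow _ _ hqpos
    omega
  have h9 : L * s * (L * s) ≤ L * s * (16 * q * (q * 8 * s + 4 * q * L)) := by
    calc L * s * (L * s) = L ^ 2 * s ^ 2 := by ring
      _ ≤ 16 * q * (q * (2 * L * (2 * s ^ 2)) + 4 * q * L * s * (s + L)) := h8
      _ = L * s * (16 * q * (q * 8 * s + 4 * q * L)) := by ring
  have h10 : L * s ≤ 16 * q * (q * 8 * s + 4 * q * L) :=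
    Nat.le_of_mul_le_mul_left h9 (Nat.mul_pos (by omega) hspos)
  clear h9 h8 h7 h6 h5 h4 h3 hAB hLL
  rw [hL] at h10
  have h11 : q ^ 2 * (256 * s) ≤ q ^ 2 * (128 * s + 16384 * q ^ 2) := by
    calc q ^ 2 * (256 * s) = 256 * q ^ 2 * s := by ring
      _ ≤ 16 * q * (q * 8 * s + 4 * q * (256 * q ^ 2)) := h10
      _ = q ^ 2 * (128 * s + 16384 * q ^ 2) := by ring
  have h12 : 256 * s ≤ 128 * s + 16384 * q ^ 2 :=
    Nat.le_of_mul_le_mul_left h11 (Nat.pow_pos hqpos)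
  have hq1 : 1 ≤ q ^ 2 := Nat.one_le_pow _ _ hqpos
  omega

end FX
end

section

set_option autoImplicit false
set_option linter.unusedSectionVars false

open Finset Pointwise

namespace FX

open RG (stb mem_stb gg ph)
open SPR (T)
open AM
open Pool.Agent.Lib.MP_d3cc86_co (lam Asym symz)

variable {G : Type} [AddCommGroup G] [Fintype G] [DecidableEq G]

private lemma le_mul_qq (w t : ℕ) (hw : 1 ≤ w) : t ≤ w * qq 0 w t := by
  unfold qq
  rw [Nat.sub_zero]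
  have h1 := Nat.div_add_mod (t + w - 1) w
  have h2 := Nat.mod_lt (t + w - 1) (show 0 < w by omega)
  omega


/-- `w |V| ≤ 2 τ`, `V = sp ν`, `τ = tot ν`.  Suppose `w |V| > 2 τ`.  Let `g = (3 τ) / (2 w) + 1`; `2 w g > 3 τ`.
`g ≤ 2 qq 0 w τ` (`w qq 0 w τ ≥ τ`, so `w (2 qq 0 w τ) ≥ 2 τ`; `g - 1 ≤ 3 τ / (2 w) `; use `τ ≥ 10000 w`).
`8 g ≤ 12 τ / w + 8 ≤ 6 |V| + 8 ≤ 7 |V|` (multiply by `w`), so `thick_rel` with `L = 8` (`|V| ≥ 2 τ / w ≥ 3200`) gives
`Thick V g`.  `claimK`: `w q' (L-1) g < L (q'+1) τ`; but `2 w g > 3 τ`, so `3 q' (L-1) τ < 2 L (q'+1) τ`, which is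
false for `q' ≥ 8`, `L ≥ 8` (`3 q' (L-1) ≥ 2 L (q'+1)` iff `q' L ≥ 3 q' + 2 L`). -/
theorem claimA (w L q' : ℕ) (ν : G → ℕ) (hw : 1 ≤ w) (hL : 8 ≤ L) (hq' : 8 ≤ q') (hAS : AS ν)
    (ht : 10000 * w ≤ tot ν)
    (hsp : ∀ H : AddSubgroup G, ((sp ν).card - (off (sp ν) H).card) ^ 2 < 25 * Nat.card H)
    (h1 : 2 * L * qq 0 w (tot ν) + 1 ≤ (SM ν).card)
    (h2 : (SM ν).card + 2 * L * qq 0 w (tot ν) + 1 ≤
      Nat.card (AddSubgroup.closure (sp ν : Set G)))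
    (hf : ∀ x, ν x ≠ 0 → q' * (w * lam (SM ν) x) ≤ (q' + 1) * tot ν) :
    w * (sp ν).card ≤ 2 * tot ν := by
  by_contra hcon
  push Not at hcon
  obtain ⟨t, ht0⟩ : ∃ t, t = tot ν := ⟨_, rfl⟩
  obtain ⟨v, hv0⟩ : ∃ v, v = (sp ν).card := ⟨_, rfl⟩
  rw [← ht0] at ht h1 h2 hcon
  rw [← hv0] at hcon
  obtain ⟨Q, hQ⟩ : ∃ Q, Q = qq 0 w t := ⟨_, rfl⟩
  rw [← hQ] at h1 h2
  have hQ1 : t ≤ w * Q := hQ ▸ le_mul_qq w t hw
  obtain ⟨g, hg⟩ : ∃ g, g = 3 * t / (2 * w) + 1 := ⟨_, rfl⟩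
  have hg1 : 3 * t < 2 * w * g := by
    rw [hg]; exact Nat.lt_mul_div_succ _ (by omega)
  have hg2 : 2 * w * (g - 1) ≤ 3 * t := by
    rw [hg, Nat.add_sub_cancel]; exact Nat.mul_div_le _ _
  have hg3 : 1 ≤ g := by rw [hg]; exact Nat.succ_le_succ (Nat.zero_le _)
  have hg4 : 2 * w * g ≤ 3 * t + 2 * w := by
    obtain ⟨g', rfl⟩ : ∃ g', g = g' + 1 := ⟨g - 1, by omega⟩
    rw [Nat.add_sub_cancel] at hg2
    nlinarith
  have hgQ : g ≤ 2 * Q := by
    by_contra hc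
    push Not at hc
    have h3 : 2 * w * (2 * Q) ≤ 2 * w * (g - 1) := Nat.mul_le_mul_left _ (by omega)
    have h4 : 2 * w * (2 * Q) = 4 * (w * Q) := by ring
    omega
  have h8 : 8 * g ≤ (8 - 1) * v := by
    have h3 : w * (8 * g) ≤ w * (7 * v) := by
      have e1 : w * (8 * g) = 4 * (2 * w * g) := by ring
      have e2 : w * (7 * v) = 7 * (w * v) := by ring
      rw [e1, e2]
      omega
    exact Nat.le_of_mul_le_mul_left h3 (by omega)
  have hv : 50 * 8 ^ 2 ≤ v := by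
    have h3 : w * 20000 ≤ w * v := by omega
    have := Nat.le_of_mul_le_mul_left h3 (by omega)
    omega
  have hT : Thick (sp ν) g := thick_rel (sp ν) hsp 8 g (by norm_num) (hv0 ▸ hv) (hv0 ▸ h8)
  have hK := claimK w L q' g ν hw (by omega) (by omega) hAS hg3 hT (by rw [← ht0, ← hQ]; exact hgQ)
    (by rw [← ht0, ← hQ]; exact h1) (by rw [← ht0, ← hQ]; exact h2) hf
  rw [← ht0] at hK
  obtain ⟨L', rfl⟩ : ∃ L', L = L' + 8 := ⟨L - 8, by omega⟩
  obtain ⟨p, rfl⟩ : ∃ p, q' = p + 8 := ⟨q' - 8, by omega⟩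
  have e0 : L' + 8 - 1 = L' + 7 := by omega
  rw [e0] at hK
  have h5 : (p + 8) * (L' + 7) * (3 * t) ≤ (p + 8) * (L' + 7) * (2 * w * g) :=
    Nat.mul_le_mul_left _ hg1.le
  have h6 : (p + 8) * (L' + 7) * (3 * t) < 2 * ((L' + 8) * ((p + 8 + 1) * t)) := by
    calc _ ≤ (p + 8) * (L' + 7) * (2 * w * g) := h5
      _ = 2 * (w * (p + 8) * ((L' + 7) * g)) := by ring
      _ < _ := by omega
  have h7 : 2 * ((L' + 8) * ((p + 8 + 1) * t)) ≤ (p + 8) * (L' + 7) * (3 * t) := by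
    have : 2 * ((L' + 8) * (p + 8 + 1)) ≤ (p + 8) * (L' + 7) * 3 := by nlinarith
    calc 2 * ((L' + 8) * ((p + 8 + 1) * t)) = 2 * ((L' + 8) * (p + 8 + 1)) * t := by ring
      _ ≤ (p + 8) * (L' + 7) * 3 * t := Nat.mul_le_mul_right _ this
      _ = _ := by ring
  omega

/-- `q w |V| ≤ (q+1) τ`.  Suppose `q w |V| > (q+1) τ`.  Let `L1 = 8 q`, `g = |V| - (|V| / L1 + 1)`.
`L1 g ≤ (L1 - 1) |V|`; `|V| ≥ τ / w ≥ 50 L1^2`; `thick_rel` gives `Thick V g`; `g ≤ |V|`, and `w |V| ≤ 2 τ` (`claimA`) gives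
`|V| ≤ 2 qq 0 w τ` (`w qq 0 w τ ≥ τ`).  `claimK`: `w q' (L-1) g < L (q'+1) τ`.
On the other hand `8 q w g ≥ (8 q - 1) w |V| - 8 q w`, so `8 q^2 w g ≥ (8 q - 1)(q+1) τ - 8 q^2 w ≥
(8 q^2 + 6 q) τ` (using `8 q^2 w ≤ τ`, and `(8q-1)(q+1) = 8 q^2 + 7 q - 1`, so the result is
`8 q^2 + 7 q - 2 ≥ 8 q^2 + 6 q`).  With `L ≥ 8 q` and `q' ≥ 8 q`:
`8 q^2 · w q' (L-1) g ≥ q' (L-1) (8 q^2 + 6 q) τ ≥ 8 q^2 L (q'+1) τ` because
`(1 - 1/L)(1 + 3/(4q)) ≥ 1 + 1/(2q) ≥ 1 + 1/q'` (`(8q-1)(4q+3) ≥ 8 q (4 q + 2)`).  Contradiction. -/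
theorem claimB (q w L q' : ℕ) (ν : G → ℕ) (hq : 2 ≤ q) (hw : 1 ≤ w) (hL : 8 * q ≤ L)
    (hq' : 8 * q ≤ q') (hAS : AS ν) (ht : 10000 * q ^ 2 * w ≤ tot ν)
    (hsp : ∀ H : AddSubgroup G, ((sp ν).card - (off (sp ν) H).card) ^ 2 < 25 * Nat.card H)
    (h1 : 2 * L * qq 0 w (tot ν) + 1 ≤ (SM ν).card)
    (h2 : (SM ν).card + 2 * L * qq 0 w (tot ν) + 1 ≤
      Nat.card (AddSubgroup.closure (sp ν : Set G)))
    (hf : ∀ x, ν x ≠ 0 → q' * (w * lam (SM ν) x) ≤ (q' + 1) * tot ν) :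
    q * (w * (sp ν).card) ≤ (q + 1) * tot ν := by
  by_contra hcon
  push Not at hcon
  have hqq : q ≤ q ^ 2 := by nlinarith
  have hq4 : 4 ≤ q ^ 2 := by nlinarith
  have hA : w * (sp ν).card ≤ 2 * tot ν := by
    refine claimA w L q' ν hw (by omega) (by omega) hAS (le_trans ?_ ht) hsp h1 h2 hf
    exact Nat.mul_le_mul_right _ (by omega)
  obtain ⟨t, ht0⟩ : ∃ t, t = tot ν := ⟨_, rfl⟩
  obtain ⟨v, hv0⟩ : ∃ v, v = (sp ν).card := ⟨_, rfl⟩
  rw [← ht0] at ht h1 h2 hcon hA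
  rw [← hv0] at hcon hA
  obtain ⟨Q, hQ⟩ : ∃ Q, Q = qq 0 w t := ⟨_, rfl⟩
  rw [← hQ] at h1 h2
  have hQ1 : t ≤ w * Q := hQ ▸ le_mul_qq w t hw
  have hvQ : v ≤ 2 * Q := by
    have h3 : w * v ≤ w * (2 * Q) := by
      have : w * (2 * Q) = 2 * (w * Q) := by ring
      omega
    exact Nat.le_of_mul_le_mul_left h3 (by omega)
  have hv : 10000 * q ^ 2 ≤ v := by
    have h3 : (q * w) * (10000 * q ^ 2) ≤ (q * w) * v := by
      have e1 : (q * w) * (10000 * q ^ 2) = q * (10000 * q ^ 2 * w) := by ring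
      have e2 : (q * w) * v = q * (w * v) := by ring
      rw [e1, e2]
      have h4 : q * (10000 * q ^ 2 * w) ≤ q * t := Nat.mul_le_mul_left _ ht
      have h5 : q * t ≤ (q + 1) * t := Nat.mul_le_mul_right _ (by omega)
      omega
    exact Nat.le_of_mul_le_mul_left h3 (Nat.mul_pos (by omega) (by omega))
  obtain ⟨d, hd⟩ : ∃ d, d = v / (8 * q) := ⟨_, rfl⟩
  have hd1 : 8 * q * d ≤ v := by rw [hd]; exact Nat.mul_div_le _ _
  have hd2 : v < 8 * q * (d + 1) := by rw [hd]; exact Nat.lt_mul_div_succ _ (by omega)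
  have hd3 : d + 1 ≤ v := by
    have : 16 * d ≤ v := le_trans (Nat.mul_le_mul_right _ (by omega)) hd1
    omega
  obtain ⟨g, hg⟩ : ∃ g, v = g + (d + 1) := ⟨v - (d + 1), by omega⟩
  have hg1 : 1 ≤ g := by
    have : 16 * d ≤ v := le_trans (Nat.mul_le_mul_right _ (by omega)) hd1
    omega
  have hg2 : 8 * q * g + v ≤ 8 * q * v := by
    have : 8 * q * v = 8 * q * g + 8 * q * (d + 1) := by rw [hg]; ring
    omega
  have hg3 : 8 * q * v ≤ 8 * q * g + v + 8 * q := by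
    have e1 : 8 * q * v = 8 * q * g + 8 * q * (d + 1) := by rw [hg]; ring
    have e2 : 8 * q * (d + 1) = 8 * q * d + 8 * q := by ring
    omega
  have hT : Thick (sp ν) g := by
    refine thick_rel (sp ν) hsp (8 * q) g (by omega) ?_ ?_
    · rw [← hv0]
      have : 50 * (8 * q) ^ 2 = 3200 * q ^ 2 := by ring
      omega
    · rw [← hv0, Nat.sub_mul, one_mul]
      omega
  have hK := claimK w L q' g ν hw (by omega) (by omega) hAS hg1 hT
    (by rw [← ht0, ← hQ]; omega)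
    (by rw [← ht0, ← hQ]; exact h1) (by rw [← ht0, ← hQ]; exact h2) hf
  rw [← ht0] at hK
  -- `8 q^2 w g ≥ (8 q^2 + 6 q) t`
  have h3 : (8 * q ^ 2 + 6 * q) * t ≤ 8 * q ^ 2 * (w * g) := by
    have a1 : q * w * (8 * q * v) ≤ q * w * (8 * q * g + v + 8 * q) := Nat.mul_le_mul_left _ hg3
    have a2 : (8 * q - 1) * ((q + 1) * t) ≤ (8 * q - 1) * (q * (w * v)) :=
      Nat.mul_le_mul_left _ hcon.le
    have a3 : 8 * q ^ 2 * w ≤ t := le_trans (Nat.mul_le_mul_right _ (by omega)) ht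
    obtain ⟨r, hr⟩ : ∃ r, 8 * q = r + 1 := ⟨8 * q - 1, by omega⟩
    have a4 : 8 * q - 1 = r := by omega
    rw [a4] at a2
    have a5 : q * w * (8 * q * v) = (r + 1) * (q * (w * v)) := by rw [hr]; ring
    have a6 : q * w * (8 * q * g + v + 8 * q) = 8 * q ^ 2 * (w * g) + q * (w * v) + 8 * q ^ 2 * w := by
      ring
    rw [a5, a6] at a1
    have a7 : (r + 1) * (q * (w * v)) = r * (q * (w * v)) + q * (w * v) := by ring
    have a8 : r * ((q + 1) * t) ≤ 8 * q ^ 2 * (w * g) + 8 * q ^ 2 * w := by omega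
    have a9 : r * ((q + 1) * t) + (q + 1) * t = (8 * q ^ 2 + 8 * q) * t := by
      have : r * ((q + 1) * t) + (q + 1) * t = (r + 1) * ((q + 1) * t) := by ring
      rw [this, ← hr]; ring
    have b1 : (8 * q ^ 2 + 8 * q) * t = (8 * q ^ 2 + 6 * q) * t + 2 * q * t := by ring
    have b2 : (q + 1) * t + t ≤ 2 * q * t := by
      have : (q + 1) * t + t = (q + 2) * t := by ring
      rw [this]; exact Nat.mul_le_mul_right _ (by omega)
    omega
  have hl1 : 1 ≤ L := by omega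
  obtain ⟨M, rfl⟩ : ∃ M, L = M + 1 := ⟨L - 1, by omega⟩
  rw [Nat.add_sub_cancel] at hK
  have ht1 : 0 < t := by
    have : 0 < 10000 * q ^ 2 * w := Nat.mul_pos (by omega) (by omega)
    omega
  have h4 : q' * M * ((8 * q ^ 2 + 6 * q) * t) < 8 * q ^ 2 * ((M + 1) * ((q' + 1) * t)) := by
    calc _ ≤ q' * M * (8 * q ^ 2 * (w * g)) := Nat.mul_le_mul_left _ h3
      _ = 8 * q ^ 2 * (w * q' * (M * g)) := by ring
      _ < _ := Nat.mul_lt_mul_of_pos_left hK (by omega)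
  have h5 : 8 * q ^ 2 * ((M + 1) * (q' + 1)) ≤ q' * M * (8 * q ^ 2 + 6 * q) := by
    have c1 : 4 * q * ((M + 1) * (q' + 1)) ≤ q' * M * (4 * q + 3) := by
      have c2 : 8 * q * q' ≤ (M + 1) * q' := Nat.mul_le_mul_right _ hL
      have c3 : 8 * q * (M + 1) ≤ q' * (M + 1) := Nat.mul_le_mul_right _ hq'
      have c4 : 15 * q' ≤ M * q' := Nat.mul_le_mul_right _ (by omega)
      have c5 : 16 * (M + 1) ≤ q' * (M + 1) := Nat.mul_le_mul_right _ (by omega)
      nlinarith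
    calc 8 * q ^ 2 * ((M + 1) * (q' + 1)) = 2 * q * (4 * q * ((M + 1) * (q' + 1))) := by ring
      _ ≤ 2 * q * (q' * M * (4 * q + 3)) := Nat.mul_le_mul_left _ c1
      _ = _ := by ring
  have h6 : 8 * q ^ 2 * ((M + 1) * ((q' + 1) * t)) ≤ q' * M * ((8 * q ^ 2 + 6 * q) * t) := by
    calc _ = 8 * q ^ 2 * ((M + 1) * (q' + 1)) * t := by ring
      _ ≤ q' * M * (8 * q ^ 2 + 6 * q) * t := Nat.mul_le_mul_right _ h5
      _ = _ := by ring
  omega

end FX
end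

section

set_option autoImplicit false
set_option linter.unusedSectionVars false

open Finset Pointwise

namespace FX

open RG (stb mem_stb gg ph)
open SPR (T)
open AM
open Pool.Agent.Lib.MP_d3cc86_co (lam Asym symz)

variable {G : Type} [AddCommGroup G] [Fintype G] [DecidableEq G]

/-- Summation by parts for an antitone sequence. -/
private lemma layer2_parts (ρ : ℕ → ℕ) (g : ℕ) (hmono : ∀ i, ρ (i + 1) ≤ ρ i) (m : ℕ) :
    ∑ i ∈ range m, (1 + 2 * g * i) * (ρ i ^ 2 - ρ (i + 1) ^ 2) + (1 + 2 * g * m) * ρ m ^ 2 =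
      ρ 0 ^ 2 + 2 * g * ∑ i ∈ range m, ρ (i + 1) ^ 2 := by
  induction m with
  | zero => simp
  | succ m ih =>
    rw [Finset.sum_range_succ, Finset.sum_range_succ]
    have h1 : ρ (m + 1) ^ 2 ≤ ρ m ^ 2 := Nat.pow_le_pow_left (hmono m) 2
    obtain ⟨d, hd⟩ := Nat.exists_eq_add_of_le h1
    have h2 : ρ m ^ 2 - ρ (m + 1) ^ 2 = d := by omega
    rw [h2]
    rw [hd] at ih
    generalize (∑ i ∈ range m, (1 + 2 * g * i) * (ρ i ^ 2 - ρ (i + 1) ^ 2)) = X at *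
    generalize (∑ i ∈ range m, ρ (i + 1) ^ 2) = Y at *
    generalize ρ (m + 1) ^ 2 = t at *
    calc X + (1 + 2 * g * m) * d + (1 + 2 * g * (m + 1)) * t
        = X + (1 + 2 * g * m) * (t + d) + 2 * g * t := by ring
      _ = ρ 0 ^ 2 + 2 * g * Y + 2 * g * t := by rw [ih]
      _ = ρ 0 ^ 2 + 2 * g * (Y + t) := by ring

private lemma layer2_cube (ρ : ℕ → ℕ) (l : ℕ) (hmono : ∀ i, ρ (i + 1) ≤ ρ i)
    (hstep : ∀ i, ρ i ≤ ρ (i + 1) + l) (m : ℕ) :
    ρ 1 ^ 3 ≤ 3 * l * ∑ i ∈ range m, ρ (i + 1) ^ 2 + ρ (m + 1) ^ 3 := by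
  induction m with
  | zero => simp
  | succ m ih =>
    rw [Finset.sum_range_succ, mul_add]
    have h1 := hmono (m + 1)
    have h2 := hstep (m + 1)
    have h3 : ρ (m + 1) ^ 3 ≤ 3 * l * ρ (m + 1) ^ 2 + ρ (m + 1 + 1) ^ 3 := by
      obtain ⟨d, hd⟩ := Nat.exists_eq_add_of_le h1
      have hdl : d ≤ l := by omega
      generalize ρ (m + 1 + 1) = t at *
      generalize ρ (m + 1) = s at *
      subst hd
      have h4 : 3 * d * (t + d) ^ 2 ≤ 3 * l * (t + d) ^ 2 :=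
        Nat.mul_le_mul_right _ (Nat.mul_le_mul_left 3 hdl)
      have h5 : (t + d) ^ 3 ≤ 3 * d * (t + d) ^ 2 + t ^ 3 := by
        have h6 : 3 * d * (t + d) ^ 2 + t ^ 3 = (t + d) ^ 3 + (3 * t * d ^ 2 + 2 * d ^ 3) := by
          ring
        omega
      omega
    omega

/-- Layers.  Let `c = |B|`, `r y = |B ∩ (y + B)| = c - lam B y` (`lam_add_inter`, `inter_comm`), `ρ_i = c - i l` (natural
subtraction); `ρ_{J+1} = 0`.  For `y ∈ i • S`: `lam B y ≤ i l` (`lam_nsmul_le`), so `r y ≥ ρ_i`.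
`∑_y r y^2 ≥ ∑_{i=0}^{J} |i • S| (ρ_i^2 - ρ_{i+1}^2)`: for each `y`, `r y^2 ≥ ∑_{i ≤ J, y ∈ i • S} (ρ_i^2 - ρ_{i+1}^2)`,
because `i • S` increases (`nsmul_mono_zero`), so the sum is over `i ≥ i0`, and telescopes to `ρ_{i0}^2`; exchange the
sums.  With `|i • S| ≥ 1 + 2 g i` and summation by parts, `∑_{i=0}^{J} (1 + 2 g i)(ρ_i^2 - ρ_{i+1}^2) = c^2 + 2 g ∑_{i=1}^{J} ρ_i^2`.
Finally `3 l ρ_i^2 ≥ ρ_i^3 - ρ_{i+1}^3` (`ρ_{i+1} ≤ ρ_i ≤ ρ_{i+1} + l`), so
`3 l ∑_{i=1}^{J} ρ_i^2 ≥ ρ_1^3 - ρ_{J+1}^3 = (c - l)^3`. -/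
theorem layer2 (B S : Finset G) (h0 : (0 : G) ∈ S) (g J l : ℕ) (h1 : B.card ≤ (J + 1) * l)
    (hS : ∀ i, i ≤ J → 1 + 2 * g * i ≤ (i • S).card) (hl : ∀ s ∈ S, lam B s ≤ l) :
    2 * g * (B.card - l) ^ 3 ≤ 3 * l * ∑ y : G, (B ∩ (y +ᵥ B)).card ^ 2 := by
  set ρ : ℕ → ℕ := fun i => B.card - i * l with hρ
  have hmono : ∀ i, ρ (i + 1) ≤ ρ i := by
    intro i
    show B.card - (i + 1) * l ≤ B.card - i * l
    have : (i + 1) * l = i * l + l := by ring
    omega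
  have hstep : ∀ i, ρ i ≤ ρ (i + 1) + l := by
    intro i
    show B.card - i * l ≤ B.card - (i + 1) * l + l
    have : (i + 1) * l = i * l + l := by ring
    omega
  have hz : ρ (J + 1) = 0 := by
    show B.card - (J + 1) * l = 0
    omega
  have hz2 : ρ (J + 1 + 1) = 0 := by
    have := hmono (J + 1)
    omega
  have hr : ∀ i, ∀ y ∈ i • S, ρ i ≤ (B ∩ (y +ᵥ B)).card := by
    intro i y hy
    have h2 := Pool.Agent.Lib.MP_d3cc86_co.lam_nsmul_le hl i y hy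
    have h3 := Pool.Agent.Lib.MP_d3cc86_co.lam_add_inter B y
    rw [Finset.inter_comm] at h3
    show B.card - i * l ≤ _
    omega
  -- per-element bound
  have hy : ∀ y : G, ∀ m : ℕ, (y ∉ m • S →
      ∑ i ∈ range (m + 1), (if y ∈ i • S then ρ i ^ 2 - ρ (i + 1) ^ 2 else 0) = 0) ∧
      ∑ i ∈ range m, (if y ∈ i • S then ρ i ^ 2 - ρ (i + 1) ^ 2 else 0) +
        (if y ∈ m • S then ρ m ^ 2 else 0) ≤ (B ∩ (y +ᵥ B)).card ^ 2 := by
    intro y m
    have hzero : ∀ m : ℕ, y ∉ m • S →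
        ∑ i ∈ range (m + 1), (if y ∈ i • S then ρ i ^ 2 - ρ (i + 1) ^ 2 else 0) = 0 := by
      intro m hm
      apply Finset.sum_eq_zero
      intro i hi
      rw [if_neg]
      intro hyi
      exact hm (Pool.Agent.Lib.MP_d3cc86_co.nsmul_mono_zero h0
        (Nat.lt_succ_iff.1 (Finset.mem_range.1 hi)) hyi)
    refine ⟨hzero m, ?_⟩
    induction m with
    | zero =>
      rw [Finset.sum_range_zero, zero_add]
      split_ifs with hy0
      · exact Nat.pow_le_pow_left (hr 0 y hy0) 2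
      · exact Nat.zero_le _
    | succ m ih =>
      by_cases hym : y ∈ m • S
      · have hym1 : y ∈ (m + 1) • S :=
          Pool.Agent.Lib.MP_d3cc86_co.nsmul_mono_zero h0 (Nat.le_succ m) hym
        rw [Finset.sum_range_succ, if_pos hym, if_pos hym1]
        rw [if_pos hym] at ih
        have h5 : ρ (m + 1) ^ 2 ≤ ρ m ^ 2 := Nat.pow_le_pow_left (hmono m) 2
        omega
      · rw [hzero m hym, zero_add]
        split_ifs with hy0
        · exact Nat.pow_le_pow_left (hr (m + 1) y hy0) 2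
        · exact Nat.zero_le _
  have hsum : ∑ i ∈ range (J + 1), (i • S).card * (ρ i ^ 2 - ρ (i + 1) ^ 2) ≤
      ∑ y : G, (B ∩ (y +ᵥ B)).card ^ 2 := by
    calc ∑ i ∈ range (J + 1), (i • S).card * (ρ i ^ 2 - ρ (i + 1) ^ 2)
        = ∑ i ∈ range (J + 1), ∑ y : G, (if y ∈ i • S then ρ i ^ 2 - ρ (i + 1) ^ 2 else 0) := by
          apply Finset.sum_congr rfl
          intro i _
          rw [← Finset.sum_filter, Finset.sum_const, smul_eq_mul]
          congr 2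
          ext y
          simp
      _ = ∑ y : G, ∑ i ∈ range (J + 1), (if y ∈ i • S then ρ i ^ 2 - ρ (i + 1) ^ 2 else 0) :=
          Finset.sum_comm
      _ ≤ ∑ y : G, (B ∩ (y +ᵥ B)).card ^ 2 := by
          apply Finset.sum_le_sum
          intro y _
          exact le_trans (Nat.le_add_right _ _) ((hy y (J + 1)).2)
  have hA : ∑ i ∈ range (J + 1), (1 + 2 * g * i) * (ρ i ^ 2 - ρ (i + 1) ^ 2) ≤
      ∑ y : G, (B ∩ (y +ᵥ B)).card ^ 2 := by
    refine le_trans (Finset.sum_le_sum ?_) hsum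
    intro i hi
    exact Nat.mul_le_mul_right _ (hS i (Nat.lt_succ_iff.1 (Finset.mem_range.1 hi)))
  have hB := layer2_parts ρ g hmono (J + 1)
  rw [hz] at hB
  have hC := layer2_cube ρ l hmono hstep (J + 1)
  rw [hz2] at hC
  have h1' : ρ 1 = B.card - l := by
    show B.card - 1 * l = _
    rw [one_mul]
  rw [h1'] at hC
  set X := ∑ i ∈ range (J + 1), ρ (i + 1) ^ 2 with hX
  set Y := ∑ i ∈ range (J + 1), (1 + 2 * g * i) * (ρ i ^ 2 - ρ (i + 1) ^ 2) with hY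
  set W := ∑ y : G, (B ∩ (y +ᵥ B)).card ^ 2 with hW
  have hD : 2 * g * X ≤ Y := by
    have : (1 + 2 * g * (J + 1)) * 0 ^ 2 = 0 := by simp
    omega
  calc 2 * g * (B.card - l) ^ 3 ≤ 2 * g * (3 * l * X) := by
        apply Nat.mul_le_mul_left
        have : (0 : ℕ) ^ 3 = 0 := by norm_num
        omega
    _ = 3 * l * (2 * g * X) := by ring
    _ ≤ 3 * l * Y := Nat.mul_le_mul_left _ hD
    _ ≤ 3 * l * W := Nat.mul_le_mul_left _ hA

end FX
end

section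

set_option autoImplicit false
set_option linter.unusedSectionVars false

open Finset Pointwise

namespace FX

open RG (stb mem_stb gg ph)
open SPR (T)
open AM
open Pool.Agent.Lib.MP_d3cc86_co (lam Asym symz)

variable {N : ℕ} [NeZero N]

/-- A large coefficient.  `c = |C| > 0`.  Suppose `10 ‖hh C k‖^2 < c^2` for all `k ≠ 0`.  `hh C 0 = c`.  Then
`N ∑ r^2 = ∑_k ‖hh C k‖^4 ≤ c^4 + (c^2/10) (N c - c^2)` (`parseval2`, `parseval4`), while `N ∑ r^2 ≥ (3/5) N c^3`.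
Divide by `c^3`: `(3/5) N ≤ c + (N - c)/10`, i.e. `N/2 ≤ (9/10) c`, but `2 c ≤ N` and `c > 0`. -/
theorem bigcoef (C : Finset (ZMod N)) (h0 : 1 ≤ C.card) (h2 : 2 * C.card ≤ N)
    (h : 3 * C.card ^ 3 ≤ 5 * ∑ y : ZMod N, (C ∩ (y +ᵥ C)).card ^ 2) :
    ∃ k : ZMod N, k ≠ 0 ∧ (C.card : ℝ) ^ 2 ≤ 10 * ‖hh C k‖ ^ 2 := by
  by_contra hcon
  push Not at hcon
  set c : ℝ := (C.card : ℝ) with hc
  have hc1 : 1 ≤ c := by rw [hc]; exact_mod_cast h0
  have hN : 2 * c ≤ (N : ℝ) := by rw [hc]; exact_mod_cast h2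
  have hz : ‖hh C 0‖ = c := by
    unfold hh
    simp [hc]
  have h4 := parseval4 C
  have h5 := parseval2 C
  rw [← Finset.add_sum_erase _ _ (Finset.mem_univ (0 : ZMod N)), hz] at h4 h5
  have h6 : ∑ k ∈ Finset.univ.erase (0 : ZMod N), ‖hh C k‖ ^ 4 ≤
      ∑ k ∈ Finset.univ.erase (0 : ZMod N), c ^ 2 / 10 * ‖hh C k‖ ^ 2 := by
    refine Finset.sum_le_sum fun k hk => ?_
    have h7 := hcon k (Finset.ne_of_mem_erase hk)
    have h8 : ‖hh C k‖ ^ 4 = ‖hh C k‖ ^ 2 * ‖hh C k‖ ^ 2 := by ring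
    rw [h8]
    exact mul_le_mul_of_nonneg_right (by linarith) (by positivity)
  rw [← Finset.mul_sum] at h6
  have h9 : 3 * c ^ 3 ≤ 5 * ∑ y : ZMod N, ((C ∩ (y +ᵥ C)).card : ℝ) ^ 2 := by
    rw [hc]; exact_mod_cast h
  set S := ∑ k ∈ Finset.univ.erase (0 : ZMod N), ‖hh C k‖ ^ 2 with hS
  set Q := ∑ y : ZMod N, ((C ∩ (y +ᵥ C)).card : ℝ) ^ 2 with hQ
  have hSv : S = (N : ℝ) * c - c ^ 2 := by linarith
  rw [hSv] at h6
  have h10 : (N : ℝ) * (3 * c ^ 3) ≤ 5 * ((N : ℝ) * Q) := by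
    have := mul_le_mul_of_nonneg_left h9 (Nat.cast_nonneg (α := ℝ) N)
    linarith
  have h11 : (N : ℝ) * (3 * c ^ 3) ≤ 5 * (c ^ 4 + c ^ 2 / 10 * ((N : ℝ) * c - c ^ 2)) := by
    linarith
  have h12 : 0 < c ^ 3 := by positivity
  have h13 : c ^ 3 * ((N : ℝ) * 3) ≤ c ^ 3 * (5 * (c + ((N : ℝ) - c) / 10)) := by
    nlinarith
  have h14 := le_of_mul_le_mul_left h13 h12
  linarith

end FX
end

section

set_option autoImplicit false
set_option linter.unusedSectionVars false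

open Finset Pointwise

namespace FX

open RG (stb mem_stb gg ph)
open SPR (T)
open AM
open Pool.Agent.Lib.MP_d3cc86_co (lam Asym symz)

variable {N : ℕ} [NeZero N]

private lemma norm_sum_char_le (S : Finset (ZMod N)) (k : ZMod N) :
    ‖∑ z ∈ S, (ZMod.stdAddChar (k * z) : ℂ)‖ ≤ S.card := by
  have h := norm_sum_le S (fun z => (ZMod.stdAddChar (k * z) : ℂ))
  have h2 : ∑ z ∈ S, ‖(ZMod.stdAddChar (k * z) : ℂ)‖ = (S.card : ℝ) := by
    rw [Finset.sum_congr rfl (fun z _ => AddChar.norm_apply ZMod.stdAddChar (k * z))]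
    simp
  rw [h2] at h
  exact h

/-- `ψ(k x) hh C k = ∑_{y ∈ C} ψ(k (x + y)) = ∑_{z ∈ x + C} ψ(k z)`.  So
`(ψ(k x) - 1) hh C k = ∑_{z ∈ (x + C) \ C} ψ(k z) - ∑_{z ∈ C \ (x + C)} ψ(k z)`, and both sums have `lam C x` terms of
absolute value `1` (`|C \ (x + C)| = |(x + C) \ C|` since `|x + C| = |C|`). -/
theorem lamchar (C : Finset (ZMod N)) (k x : ZMod N) :
    ‖hh C k‖ * ‖1 - (ZMod.stdAddChar (k * x) : ℂ)‖ ≤ 2 * lam C x := by
  have h1 : (ZMod.stdAddChar (k * x) : ℂ) * hh C k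
      = ∑ z ∈ x +ᵥ C, (ZMod.stdAddChar (k * z) : ℂ) := by
    unfold hh
    have himg : (x +ᵥ C) = C.image (fun y => x + y) := by
      ext z
      rw [Finset.mem_vadd_finset, Finset.mem_image]
      rfl
    rw [Finset.mul_sum, himg, Finset.sum_image (by
      intro a _ b _ hab
      simpa using hab)]
    refine Finset.sum_congr rfl (fun y _ => ?_)
    rw [mul_add, AddChar.map_add_eq_mul]
  have h2 : ∑ z ∈ x +ᵥ C, (ZMod.stdAddChar (k * z) : ℂ)
      = ∑ z ∈ (x +ᵥ C) \ C, (ZMod.stdAddChar (k * z) : ℂ)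
        + ∑ z ∈ (x +ᵥ C) ∩ C, (ZMod.stdAddChar (k * z) : ℂ) := by
    rw [add_comm, Finset.sum_inter_add_sum_sdiff]
  have h3 : hh C k = ∑ z ∈ C \ (x +ᵥ C), (ZMod.stdAddChar (k * z) : ℂ)
        + ∑ z ∈ (x +ᵥ C) ∩ C, (ZMod.stdAddChar (k * z) : ℂ) := by
    unfold hh
    rw [add_comm, Finset.inter_comm, Finset.sum_inter_add_sum_sdiff]
  have hcard : (C \ (x +ᵥ C)).card = lam C x := by
    unfold lam
    have e1 := Finset.card_sdiff_add_card_inter C (x +ᵥ C)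
    have e2 := Finset.card_sdiff_add_card_inter (x +ᵥ C) C
    have e3 : (x +ᵥ C).card = C.card := Finset.card_vadd_finset x C
    rw [Finset.inter_comm] at e1
    omega
  have h4 : hh C k * (1 - (ZMod.stdAddChar (k * x) : ℂ))
      = ∑ z ∈ C \ (x +ᵥ C), (ZMod.stdAddChar (k * z) : ℂ)
        - ∑ z ∈ (x +ᵥ C) \ C, (ZMod.stdAddChar (k * z) : ℂ) := by
    have : hh C k * (1 - (ZMod.stdAddChar (k * x) : ℂ))
        = hh C k - (ZMod.stdAddChar (k * x) : ℂ) * hh C k := by ring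
    rw [this, h1, h2]
    nth_rewrite 1 [h3]
    ring
  rw [← norm_mul, h4]
  refine (norm_sub_le _ _).trans ?_
  have n1 := norm_sum_char_le (C \ (x +ᵥ C)) k
  have n2 := norm_sum_char_le ((x +ᵥ C) \ C) k
  rw [hcard] at n1
  have n3 : (((x +ᵥ C) \ C).card : ℝ) = lam C x := rfl
  rw [n3] at n2
  linarith

end FX
end

section

set_option autoImplicit false
set_option linter.unusedSectionVars false

open Finset Pointwise

namespace FX

open RG (stb mem_stb gg ph)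
open SPR (T)
open AM
open Pool.Agent.Lib.MP_d3cc86_co (lam Asym symz)

variable {N : ℕ} [NeZero N]

/-- `ψ(j) = exp(2 π i a / N)` with `a = valMinAbs j`, `|a| ≤ N / 2` (`ZMod.stdAddChar_coe`, `ZMod.coe_valMinAbs`), so
`‖1 - ψ(j)‖ = 2 |sin (π a / N)| ≥ 2 · (2/π) · π |a| / N = 4 |a| / N` (Jordan's inequality `Real.mul_le_sin`:
`2/π x ≤ sin x` for `0 ≤ x ≤ π/2`; `‖1 - exp(i θ)‖ = 2 |sin (θ/2)|`). -/
theorem vma (j : ZMod N) :
    4 * |(j.valMinAbs : ℝ)| ≤ N * ‖1 - (ZMod.stdAddChar j : ℂ)‖ := by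
  have hN : (0 : ℝ) < N := Nat.cast_pos.2 (Nat.pos_of_ne_zero (NeZero.ne N))
  have hj : (ZMod.stdAddChar j : ℂ) =
      Complex.exp (Complex.I * ((2 * Real.pi * (j.valMinAbs : ℝ) / N : ℝ) : ℂ)) := by
    conv_lhs => rw [← ZMod.coe_valMinAbs j]
    rw [ZMod.stdAddChar_coe]
    congr 1
    push_cast
    ring
  rw [hj, norm_sub_rev, Complex.norm_exp_I_mul_ofReal_sub_one]
  have ha : |(j.valMinAbs : ℝ)| * 2 ≤ N := by
    have h1 := ZMod.valMinAbs_mem_Ioc j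
    have h2 : |j.valMinAbs| * 2 ≤ (N : ℤ) := by
      rcases abs_cases j.valMinAbs with h | h <;> linarith [h1.1, h1.2, h.1]
    have h3 : ((|j.valMinAbs| * 2 : ℤ) : ℝ) ≤ ((N : ℤ) : ℝ) := Int.cast_le.2 h2
    push_cast at h3
    exact h3
  have hx : |2 * Real.pi * (j.valMinAbs : ℝ) / N / 2| = Real.pi * |(j.valMinAbs : ℝ)| / N := by
    rw [show 2 * Real.pi * (j.valMinAbs : ℝ) / N / 2 = Real.pi * (j.valMinAbs : ℝ) / N by ring,
      abs_div, abs_mul, abs_of_pos Real.pi_pos, abs_of_pos hN]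
  have hx' : |2 * Real.pi * (j.valMinAbs : ℝ) / N / 2| ≤ Real.pi / 2 := by
    rw [hx, div_le_div_iff₀ hN two_pos]
    nlinarith [Real.pi_pos]
  have h4 := Real.mul_abs_le_abs_sin hx'
  rw [hx] at h4
  have h6 : 2 / Real.pi * (Real.pi * |(j.valMinAbs : ℝ)| / N) = 2 * |(j.valMinAbs : ℝ)| / N := by
    field_simp
  rw [h6, div_le_iff₀ hN] at h4
  rw [norm_mul, Real.norm_ofNat, Real.norm_eq_abs]
  nlinarith [h4]

end FX
end

section

set_option autoImplicit false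
set_option linter.unusedSectionVars false

open Finset Pointwise

namespace FX

open RG (stb mem_stb gg ph)
open SPR (T)
open AM
open Pool.Agent.Lib.MP_d3cc86_co (lam Asym symz)

private lemma g2arith (q s : ℕ) (hq : 2 ≤ q) (hs1 : 256 * q ^ 2 * (100 * (256 * q ^ 2) ^ 2) ≤ s)
    (hs2 : 4 * q ≤ s) (hs3 : 8 ≤ s) :
    100 * (256 * q ^ 2) ^ 2 ≤ s / (256 * q ^ 2) + 1 ∧ 2 * (s / (256 * q ^ 2) + 1) ≤ s ∧
      s / (256 * q ^ 2) + 1 ≤ s / (2 * q) ∧ s / q ≤ s / 2 ∧ s / (2 * q) ≤ s / q ∧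
      s < 256 * q ^ 2 * (s / (256 * q ^ 2) + 1) ∧ q * (s / q) ≤ s ∧ s ≤ 4 * q * (s / (2 * q)) ∧
      s / (2 * q) ≤ s := by
  have hL0 : 0 < 256 * q ^ 2 := by positivity
  have hL4 : 4 ≤ 256 * q ^ 2 := by nlinarith
  refine ⟨?_, ?_, ?_, ?_, ?_, ?_, ?_, ?_, ?_⟩
  · have : 100 * (256 * q ^ 2) ^ 2 ≤ s / (256 * q ^ 2) := by
      rw [Nat.le_div_iff_mul_le hL0]
      calc 100 * (256 * q ^ 2) ^ 2 * (256 * q ^ 2) = 256 * q ^ 2 * (100 * (256 * q ^ 2) ^ 2) := by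
            ring
        _ ≤ s := hs1
    omega
  · have : s / (256 * q ^ 2) ≤ s / 4 := Nat.div_le_div_left hL4 (by norm_num)
    omega
  · have e : 256 * q ^ 2 = (2 * q) * (128 * q) := by ring
    rw [e, ← Nat.div_div_eq_div_mul]
    have h1 : s / (2 * q) / (128 * q) ≤ s / (2 * q) / 2 :=
      Nat.div_le_div_left (by omega) (by norm_num)
    have h2 : 2 ≤ s / (2 * q) := by
      rw [Nat.le_div_iff_mul_le (by omega)]
      omega
    omega
  · exact Nat.div_le_div_left hq (by norm_num)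
  · exact Nat.div_le_div_left (by omega) (by omega)
  · have := Nat.lt_mul_div_succ s hL0
    exact this
  · exact Nat.mul_div_le s q
  · have h1 := Nat.lt_mul_div_succ s (show 0 < 2 * q by omega)
    have h2 : 2 * q * (s / (2 * q) + 1) = 2 * q * (s / (2 * q)) + 2 * q := by ring
    have h3 : 4 * q * (s / (2 * q)) = 2 * (2 * q * (s / (2 * q))) := by ring
    rw [h2] at h1
    rw [h3]
    generalize 2 * q * (s / (2 * q)) = X at *
    omega
  · exact Nat.div_le_self _ _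

/-- A good stage.  `L = 256 q^2`, `t = 4 q`, `s = tot μ`, `a = s - s/q`, `b = s - s/(2q)`, `j0 = s/L + 1`,
`C = 100 L^2`; `M` is large enough for `AM.step L`, `gnum q`, `C ≤ j0`, `2 j0 ≤ s` and `j0 ≤ s/(2q)`.
Suppose that no `ν` as claimed exists.  If `ν ≤ μ` and `a < tot ν ≤ b` then `q s ≤ q tot ν + s` (`s - tot ν < s/q`) and
`s ≤ 4 q (s - tot ν)` (`s - tot ν ≥ s/(2q)` (floor) `≥ s/(4q)`), so there is `x` with `ν x ≠ 0` and
`q (w lam (SM ν) x) > (q+1) tot ν`, hence `L^2 ((q+1) tot ν) ≤ L^2 q w lam (SM ν) x`.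
If `ν ≤ μ` and `j0 < tot ν ≤ s - j0` then `s ≤ L tot ν` and `s ≤ L (s - tot ν)` (`L j0 ≥ s`), and `AM.step L` gives `x` with
`(L-1)^2 qq C w (tot ν) ≤ L^2 lam (SM ν) x`; multiply by `q w`.
So `AM.chain` with `a := j0`, `b := s - j0`, `K = L^2 (q w)`, `f = ff q L C w a b` applies:
`∑_{i ∈ Ioc j0 (s - j0)} ff … i ≤ L^2 (q w) |SM μ|`.  With `gsum` (`q w ≤ a` as `4 q w ≤ s`), `AM.sumqq`
(`w gg w s ≤ w + w ∑ qq + 4 j0 s`), `zbound` and `gnum` (`X = |SM μ|`, `Z = w ∑ qq`) we get `False`. -/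
theorem goodstage (q : ℕ) (hq : 2 ≤ q) : ∃ t M : ℕ, ∀ (G : Type) [AddCommGroup G] [Fintype G]
    [DecidableEq G] (w : ℕ) (μ : G → ℕ), Hyp w μ → M ≤ tot μ → t * w ≤ tot μ →
    ∃ ν : G → ℕ, (∀ x, ν x ≤ μ x) ∧ q * tot μ ≤ q * tot ν + tot μ ∧
      tot μ ≤ 4 * q * (tot μ - tot ν) ∧
      ∀ x, ν x ≠ 0 → q * (w * lam (SM ν) x) ≤ (q + 1) * tot ν := by
  have hL4 : 4 ≤ 256 * q ^ 2 := by nlinarith
  obtain ⟨M0, hM0⟩ := AM.step (256 * q ^ 2) (by omega)
  obtain ⟨M1, hM1⟩ := gnum q hq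
  refine ⟨4 * q, M0 + M1 + 256 * q ^ 2 * (100 * (256 * q ^ 2) ^ 2) + 4 * q + 8, ?_⟩
  intro G _ _ _ w μ hyp hM ht
  by_contra hcon
  have hw := hyp.w1
  have hws : w ≤ tot μ := by
    have : 1 * w ≤ 4 * q * w := Nat.mul_le_mul_right w (by omega)
    omega
  obtain ⟨c1, c2, c3, c4, c5, c6, c7, c8, c9⟩ := g2arith q (tot μ) hq (by omega) (by omega) (by omega)
  have hqw : 4 * (q * w) ≤ tot μ := by
    have : 4 * q * w = 4 * (q * w) := by ring
    omega
  generalize hLL : 256 * q ^ 2 = L at *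
  generalize hj0 : tot μ / L + 1 = j0 at *
  set a := tot μ - tot μ / q with ha
  set b := tot μ - tot μ / (2 * q) with hb
  have hqa : q * w ≤ a := by omega
  have hja : j0 ≤ a := by omega
  have hab : a ≤ b := by omega
  have hbj : b ≤ tot μ - j0 := by omega
  have hchain := chain μ j0 (tot μ - j0) (L ^ 2 * (q * w)) (ff q L (100 * L ^ 2) w a b) (by
    intro ν hν h1 h2
    by_cases hcase : a < tot ν ∧ tot ν ≤ b
    · have e1 : q * tot μ ≤ q * tot ν + tot μ := by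
        have h3 : tot μ ≤ tot ν + tot μ / q := by omega
        have h4 : q * tot μ ≤ q * (tot ν + tot μ / q) := Nat.mul_le_mul_left q h3
        rw [Nat.mul_add] at h4
        omega
      have e2 : tot μ ≤ 4 * q * (tot μ - tot ν) := by
        have h3 : tot μ / (2 * q) ≤ tot μ - tot ν := by omega
        exact c8.trans (Nat.mul_le_mul_left _ h3)
      have e3 : ∃ x, ν x ≠ 0 ∧ (q + 1) * tot ν < q * (w * lam (SM ν) x) := by
        by_contra hx
        push Not at hx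
        exact hcon ⟨ν, hν, e1, e2, hx⟩
      obtain ⟨x, hx0, hx⟩ := e3
      refine ⟨x, hx0, ?_⟩
      unfold ff
      rw [if_pos hcase]
      calc L ^ 2 * ((q + 1) * tot ν) ≤ L ^ 2 * (q * (w * lam (SM ν) x)) :=
            Nat.mul_le_mul_left _ hx.le
        _ = L ^ 2 * (q * w) * lam (SM ν) x := by ring
    · have e1 : tot μ ≤ L * tot ν := c6.le.trans (Nat.mul_le_mul_left L h1.le)
      have e2 : tot μ ≤ L * (tot μ - tot ν) := c6.le.trans (Nat.mul_le_mul_left L (by omega))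
      obtain ⟨x, hx0, hx⟩ := hM0 G w μ ν hw hyp.as hyp.cap hyp.ap (by omega) hws hν e1 e2 hyp.nosub
      refine ⟨x, hx0, ?_⟩
      unfold ff
      rw [if_neg hcase]
      calc q * (w * ((L - 1) ^ 2 * qq (100 * L ^ 2) w (tot ν)))
          ≤ q * (w * (L ^ 2 * lam (SM ν) x)) :=
            Nat.mul_le_mul_left _ (Nat.mul_le_mul_left _ hx)
        _ = L ^ 2 * (q * w) * lam (SM ν) x := by ring) (by omega) (by omega)
  have hg := gsum q L (100 * L ^ 2) w j0 (tot μ) a b (by omega) hw hqa hja hab hbj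
  have hz := zbound (100 * L ^ 2) w j0 (tot μ) hw hws
  have hsq := sumqq (100 * L ^ 2) w (tot μ) j0 hw hws c1 c2
  refine hM1 w (tot μ) (SM μ).card _ j0 hw (by omega) (by
    have : 4 * q * w = 4 * (q * w) := by ring
    omega) hj0.symm hyp.small hsq hz ?_
  refine (hg.trans hchain).trans (le_of_eq ?_)
  ring

end FX
end

section

set_option autoImplicit false
set_option linter.unusedSectionVars false

open Finset Pointwise

namespace FX

open RG (stb mem_stb gg ph)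
open SPR (T)
open AM
open Pool.Agent.Lib.MP_d3cc86_co (lam Asym symz)

variable {G : Type} [AddCommGroup G] [Fintype G] [DecidableEq G]

private lemma energy_num (v c l g : ℝ) (hv : 0 < v) (hc : 0 < c) (hg : 0.98 * v ≤ g)
    (hl : l ≤ 1.001 * v) (hcl : 0.999 * c ≤ c - l) : 9 * l * c ^ 3 ≤ 10 * g * (c - l) ^ 3 := by
  have h1 : (0.999 * c) ^ 3 ≤ (c - l) ^ 3 := by
    apply pow_le_pow_left₀ _ hcl
    positivity
  have h2 : 10 * (0.98 * v) * (0.999 * c) ^ 3 ≤ 10 * g * (c - l) ^ 3 := by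
    apply mul_le_mul _ h1 (by positivity)
    · have : 0 < g := lt_of_lt_of_le (by positivity) hg
      positivity
    · linarith
  have hc3 : 0 < c ^ 3 := by positivity
  have h3 : 9 * l * c ^ 3 ≤ 9 * (1.001 * v) * c ^ 3 := by
    apply mul_le_mul_of_nonneg_right _ hc3.le
    linarith
  have h4 : 9 * (1.001 * v) * c ^ 3 ≤ 10 * (0.98 * v) * (0.999 * c) ^ 3 := by
    have hvc : 0 < v * c ^ 3 := by positivity
    nlinarith [hvc]
  linarith

/-- The energy.  `v = |V| ≥ q ≥ 10^6`, `c = |C| ≥ q v`, `l = (q+1) v / q` (`v ≤ l ≤ v + 1 + v / q`), `g = v - (v / 100 + 1)`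
(`Thick V g` by `thick_rel` with `L = 100`), `J = c / l` (`J l ≤ c ≤ (J+1) l`).  `AM.growth`: for `i ≤ J` either
`|i • symz V| ≥ 1 + 2 g i`, or `i • symz V ⊇ closure V`, and then `|i • symz V| ≥ 2 c ≥ 1 + 2 g i` because
`g i < l i ≤ c` for `i ≥ 1` (and the case `i = 0` is trivial).  `lam C s ≤ l` for `s ∈ symz V` (`flat`, `lam_neg`,
`lam_zero`; `lam` is an integer).  `layer2` gives `2 g (c - l)^3 ≤ 3 l ∑ r^2`.  As `l ≤ 1.0001 v`, `g ≥ 0.989 v`,
`c - l ≥ c (1 - 2/q)`, `(c - l)^3 ≥ 0.9999 c^3`: `∑ r^2 ≥ (2/3)(0.988) c^3 ≥ (3/5) c^3`. -/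
theorem energy (V C : Finset G) (q : ℕ) (hq : 1000000 ≤ q) (h : Ctx V C q) :
    3 * C.card ^ 3 ≤ 5 * ∑ y : G, (C ∩ (y +ᵥ C)).card ^ 2 := by
  obtain ⟨v, hv⟩ : ∃ v, v = V.card := ⟨_, rfl⟩
  obtain ⟨c, hc⟩ : ∃ c, c = C.card := ⟨_, rfl⟩
  have hbig : q ≤ v := by rw [hv]; exact h.big
  have hwide : q * v ≤ c := by rw [hv, hc]; exact h.wide
  obtain ⟨g, hg⟩ : ∃ g, g = v - (v / 100 + 1) := ⟨_, rfl⟩
  obtain ⟨l, hl⟩ : ∃ l, l = (q + 1) * v / q := ⟨_, rfl⟩
  have hq0 : 0 < q := by omega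
  have hlq : q * l ≤ (q + 1) * v := by
    rw [hl]; exact Nat.mul_div_le _ _
  have hvl : v ≤ l := by
    rw [hl, Nat.le_div_iff_mul_le hq0]
    nlinarith
  have hl0 : 0 < l := by omega
  have hgv : g + 1 ≤ v := by omega
  have hT : Thick V g := by
    apply thick_rel V h.sparse 100 g (by norm_num)
    · rw [← hv]; norm_num; omega
    · rw [← hv]; omega
  have h0 : (0 : G) ∈ symz V := by simp [symz]
  have hflat : ∀ x ∈ V, lam C x ≤ l := by
    intro x hx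
    rw [hl, Nat.le_div_iff_mul_le hq0, mul_comm, hv]
    exact h.flat x hx
  have hlam : ∀ s ∈ symz V, lam C s ≤ l := by
    intro s hs
    simp only [symz, Finset.mem_insert, Finset.mem_union, Finset.mem_neg'] at hs
    rcases hs with rfl | hs | hs
    · rw [Pool.Agent.Lib.MP_d3cc86_co.lam_zero]; exact Nat.zero_le _
    · exact hflat s hs
    · rw [← Pool.Agent.Lib.MP_d3cc86_co.lam_neg]; exact hflat _ hs
  have hS : ∀ i, i ≤ c / l → 1 + 2 * g * i ≤ (i • symz V).card := by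
    intro i hi
    rcases growth V h.asym g hT i with h1 | h1
    · rcases Nat.eq_zero_or_pos i with rfl | hi0
      · rw [zero_nsmul, mul_zero, add_zero]
        exact Finset.one_le_card.2 ⟨0, Finset.zero_mem_zero⟩
      · have h2 : (sf (AddSubgroup.closure (V : Set G))).card ≤ (i • symz V).card := by
          apply Finset.card_le_card
          intro x hx
          exact h1 x ((mem_sf _ x).1 hx)
        rw [card_sf] at h2
        have h3 := h.half
        rw [← hc] at h3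
        have h4 : i * l ≤ c := by
          calc i * l ≤ (c / l) * l := Nat.mul_le_mul_right _ hi
            _ ≤ c := Nat.div_mul_le_self _ _
        have h5 : (g + 1) * i ≤ l * i := Nat.mul_le_mul_right _ (by omega)
        have h6 : (g + 1) * i = g * i + i := by ring
        have h7 : 2 * g * i = 2 * (g * i) := by ring
        rw [mul_comm l i] at h5
        omega
    · exact h1
  have hJ : C.card ≤ (c / l + 1) * l := by
    rw [← hc]
    have h1 := Nat.lt_div_mul_add hl0 (a := c)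
    rw [add_mul, one_mul]
    exact h1.le
  have hmain := layer2 C (symz V) h0 g (c / l) l hJ hS hlam
  rw [← hc] at hmain ⊢
  obtain ⟨E, hE⟩ : ∃ E, E = ∑ y : G, (C ∩ (y +ᵥ C)).card ^ 2 := ⟨_, rfl⟩
  rw [← hE] at hmain ⊢
  have hl2 : q * l ≤ 2 * c := by nlinarith
  have hlc : l ≤ c := by nlinarith
  have hvR : (1000000 : ℝ) ≤ v := by exact_mod_cast hq.trans hbig
  have hqR : (1000000 : ℝ) ≤ q := by exact_mod_cast hq
  have hvlR : (v : ℝ) ≤ l := by exact_mod_cast hvl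
  have hlqR : (q : ℝ) * l ≤ (q + 1) * v := by exact_mod_cast hlq
  have hl2R : (q : ℝ) * l ≤ 2 * c := by exact_mod_cast hl2
  have hlR : (l : ℝ) ≤ 1.001 * v := by nlinarith
  have hgR : 0.98 * (v : ℝ) ≤ g := by
    have h1 : 98 * v ≤ 100 * g := by omega
    have h2 : (98 : ℝ) * v ≤ 100 * g := by exact_mod_cast h1
    linarith
  have hl0R : (0 : ℝ) < l := by exact_mod_cast hl0
  have hclR : 0.999 * (c : ℝ) ≤ c - l := by nlinarith
  have hcR : (0 : ℝ) < c := by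
    have : (0 : ℝ) < v := by linarith
    have h2 : (l : ℝ) ≤ c := by exact_mod_cast hlc
    linarith
  have hnum := energy_num v c l g (by linarith) hcR hgR hlR hclR
  have hmainR : 2 * (g : ℝ) * ((c : ℝ) - l) ^ 3 ≤ 3 * l * E := by
    have h1 : ((2 * g * (c - l) ^ 3 : ℕ) : ℝ) ≤ ((3 * l * E : ℕ) : ℝ) := by exact_mod_cast hmain
    push_cast [Nat.cast_sub hlc] at h1
    exact h1
  have hfin : (3 * l : ℝ) * (3 * c ^ 3) ≤ (3 * l : ℝ) * (5 * E) := by nlinarith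
  have h9 : (3 : ℝ) * c ^ 3 ≤ 5 * E := le_of_mul_le_mul_left hfin (by positivity)
  exact_mod_cast h9

end FX
end

section

set_option autoImplicit false
set_option linter.unusedSectionVars false

open Finset Pointwise

namespace FX

open RG (stb mem_stb gg ph)
open SPR (T)
open AM
open Pool.Agent.Lib.MP_d3cc86_co (lam Asym symz)

/-- The context.  Let `q' = 8 q`, `L = 8 q'` and take `t0, M0` from `goodstage q'`; `ν` from `goodstage`; `V = sp ν`,
`τ = tot ν`.  `ν ≤ μ`, so `AS ν`, `ν ≤ w`, `stb (SM ν) = ⊥` (`ap_mono`).  `q' s ≤ q' τ + s` gives `2 τ ≥ s`, and so `q s ≤ q τ + s`.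
`s ≤ 4 q' (s - τ) ≤ L (s - τ)`, `s ≤ L τ`.
`AM.need2 (2 L)` (with `ν`; `τ` large): `2 L qq 0 w τ + 1 ≤ |SM ν|`.
`AM.nearfull (2 L)` (with `μ`, `ν`, `g = qq 0 w τ`; its hypotheses hold with `2 L`):
`|SM ν| + 2 L qq 0 w τ + 1 ≤ |closure V|`.
Sparse: `stb V.subsetSum = ⊥` (`V.subsetSum = SM (ind V)`, `ind V ≤ ν`, `SM_ind`, `ind_le_sp`, `ap_mono`) and
`AM.sparse_in`.  `claimA`, `claimB q` (`t` large in terms of `q`).
`C = SM ν` if `2 |SM ν| ≤ |closure V|`, otherwise `C = closure V \ SM ν` (`sf (closure V) \ SM ν`); then in both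
cases `|C| ≥ 2 L qq 0 w τ ≥ q |V|` (`w qq 0 w τ ≥ τ ≥ w |V| / 2`, so `2 qq 0 w τ ≥ |V|`), `2 |C| ≤ |closure V|`,
`lam C x = lam (SM ν) x` for `x ∈ V` (`lam_compl`; `x` fixes `closure V`, `SM ν ⊆ closure V` by `SM_sub`), and
`q' w lam C x ≤ (q'+1) τ ≤ (q'+1) w |V|` (`tot_le_sp`), so `q' lam C x ≤ (q'+1) |V|` and `q lam C x ≤ (q+1) |V|`
(`q ≤ q'`).  `q ≤ |V|`: `w |V| ≥ τ ≥ q w`. -/
theorem context (q : ℕ) (hq : 2 ≤ q) : ∃ t M : ℕ, ∀ (G : Type) [AddCommGroup G] [Fintype G]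
    [DecidableEq G] (w : ℕ) (μ : G → ℕ), Hyp w μ → M ≤ tot μ → t * w ≤ tot μ →
    ∃ (ν : G → ℕ) (C : Finset G), (∀ x, ν x ≤ μ x) ∧ q * tot μ ≤ q * tot ν + tot μ ∧
      q * (w * (sp ν).card) ≤ (q + 1) * tot ν ∧ Ctx (sp ν) C q := by
  obtain ⟨t0, M0, hgs⟩ := goodstage (8 * q) (by omega)
  obtain ⟨J, hJ⟩ := AM.need2 (2 * (64 * q))
  obtain ⟨M1, hM1⟩ := AM.nearfull (2 * (64 * q)) (by omega)
  refine ⟨t0 + 20000 * q ^ 2, M0 + M1 + 2 * J + 1, ?_⟩
  intro G _ _ _ w μ hyp hM ht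
  have hw := hyp.w1
  have hq2 : q ≤ q ^ 2 := by nlinarith
  have hq1 : 1 ≤ q ^ 2 := by omega
  have ht1 : t0 * w ≤ tot μ := (Nat.mul_le_mul_right w (Nat.le_add_right _ _)).trans ht
  have ht2 : 20000 * q ^ 2 * w ≤ tot μ := (Nat.mul_le_mul_right w (Nat.le_add_left _ _)).trans ht
  obtain ⟨ν, hle, hA, hB, hf⟩ := hgs G w μ hyp (by omega) ht1
  obtain ⟨s, hs⟩ : ∃ s, s = tot μ := ⟨_, rfl⟩
  obtain ⟨τ, hτ⟩ : ∃ τ, τ = tot ν := ⟨_, rfl⟩
  rw [← hs] at hA hB hM ht1 ht2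
  rw [← hτ] at hA hB
  have hqs : 8 * (q * s) ≤ 8 * (q * τ) + s := by
    calc 8 * (q * s) = 8 * q * s := by ring
      _ ≤ 8 * q * τ + s := hA
      _ = _ := by ring
  have hqs2 : 2 * s ≤ q * s := Nat.mul_le_mul_right s hq
  have h2τ : s ≤ 2 * τ := by
    by_contra hc
    push Not at hc
    have h1 : q * (2 * τ) ≤ q * s := Nat.mul_le_mul_left q hc.le
    have h2 : q * (2 * τ) = 2 * (q * τ) := by ring
    omega
  have hASν : AS ν := hyp.as.mono hle
  have hbν : ∀ x, ν x ≤ w := fun x => (hle x).trans (hyp.cap x)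
  have hstν : stb (SM ν) = ⊥ := ap_mono hle hyp.ap
  have hwq : w ≤ q ^ 2 * w := Nat.le_mul_of_pos_left w (by omega)
  have h20 : 20000 * q ^ 2 * w = 20000 * (q ^ 2 * w) := by ring
  have hws : w ≤ s := by omega
  have h10 : 10000 * q ^ 2 * w ≤ τ := by
    have : 10000 * q ^ 2 * w = 10000 * (q ^ 2 * w) := by ring
    omega
  obtain ⟨g, hg⟩ : ∃ g, g = qq 0 w τ := ⟨_, rfl⟩
  have hn2 := hJ G w ν hw hASν hbν hstν (by rw [← hτ]; omega)
  have hnf := hM1 G w μ ν g hw hyp.as hyp.cap hyp.ap (by omega) (by omega) hle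
    (by
      rw [← hs, ← hτ]
      have h3 : 1 * τ ≤ q * τ := Nat.mul_le_mul_right τ (by omega)
      have h4 : 2 * (64 * q) * τ = 128 * (q * τ) := by ring
      omega)
    (by
      rw [← hs, ← hτ]
      have h4 : 2 * (64 * q) * (s - τ) = 128 * (q * (s - τ)) := by ring
      have h5 : 4 * (8 * q) * (s - τ) = 32 * (q * (s - τ)) := by ring
      omega)
    (by rw [← hτ, hg]) hyp.nosub
  have h1 : 2 * (64 * q) * qq 0 w (tot ν) + 1 ≤ (SM ν).card := hn2
  have h2 : (SM ν).card + 2 * (64 * q) * qq 0 w (tot ν) + 1 ≤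
      Nat.card (AddSubgroup.closure (sp ν : Set G)) := by
    rw [← hτ, ← hg]
    calc _ = (SM ν).card + g * (2 * (64 * q)) + 1 := by ring
      _ ≤ _ := hnf
  have hasym : Asym (sp ν) := hASν.asym
  have hst2 : stb (sp ν).subsetSum = ⊥ := by
    rw [← SM_ind]
    exact ap_mono ind_le_sp hstν
  have hsp : ∀ H : AddSubgroup G, ((sp ν).card - (off (sp ν) H).card) ^ 2 < 25 * Nat.card H :=
    AM.sparse_in (sp ν) hasym hst2
  have hcB := claimB q w (64 * q) (8 * q) ν hq hw (by omega) le_rfl hASν (by rw [← hτ]; exact h10)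
    hsp h1 h2 hf
  have hcA := claimA w (64 * q) (8 * q) ν hw (by omega) (by omega) hASν
    (by
      rw [← hτ]
      have : 10000 * q ^ 2 * w = 10000 * (q ^ 2 * w) := by ring
      omega) hsp h1 h2 hf
  have htl : tot ν ≤ w * (sp ν).card := tot_le_sp ν w hbν
  rw [← hτ] at h1 h2 hcA htl
  rw [← hg] at h1 h2
  -- `τ ≤ w g`
  have hwg : τ ≤ w * g := by
    rw [hg]
    unfold qq
    rw [Nat.sub_zero]
    have := Nat.lt_mul_div_succ (τ + w - 1) (show 0 < w by omega)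
    have h6 : w * ((τ + w - 1) / w + 1) = w * ((τ + w - 1) / w) + w := by ring
    omega
  have hVg : (sp ν).card ≤ 2 * g := by
    have : w * (sp ν).card ≤ w * (2 * g) := by
      calc w * (sp ν).card ≤ 2 * τ := hcA
        _ ≤ 2 * (w * g) := Nat.mul_le_mul_left 2 hwg
        _ = _ := by ring
    exact Nat.le_of_mul_le_mul_left this hw
  have hwide : q * (sp ν).card ≤ 2 * (64 * q) * g := by
    calc q * (sp ν).card ≤ q * (2 * g) := Nat.mul_le_mul_left q hVg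
      _ = 2 * (q * g) := by ring
      _ ≤ 128 * (q * g) := by omega
      _ = _ := by ring
  have hbig : q ≤ (sp ν).card := by
    have h7 : w * q ≤ w * (sp ν).card := by
      have h8 : w * q ≤ w * q ^ 2 := Nat.mul_le_mul_left w hq2
      have h9 : w * q ^ 2 = q ^ 2 * w := by ring
      have h11 : 10000 * q ^ 2 * w = 10000 * (q ^ 2 * w) := by ring
      omega
    exact Nat.le_of_mul_le_mul_left h7 hw
  have hflat : ∀ x ∈ sp ν, q * lam (SM ν) x ≤ (q + 1) * (sp ν).card := by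
    intro x hx
    have h3 := hf x ((mem_sp ν x).1 hx)
    rw [← hτ] at h3
    have h4 : w * (8 * q * lam (SM ν) x) ≤ w * ((8 * q + 1) * (sp ν).card) := by
      calc w * (8 * q * lam (SM ν) x) = 8 * q * (w * lam (SM ν) x) := by ring
        _ ≤ (8 * q + 1) * τ := h3
        _ ≤ (8 * q + 1) * (w * (sp ν).card) := Nat.mul_le_mul_left _ htl
        _ = _ := by ring
    have h5 := Nat.le_of_mul_le_mul_left h4 hw
    have h6 : 8 * q * lam (SM ν) x = 8 * (q * lam (SM ν) x) := by ring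
    have h7 : (8 * q + 1) * (sp ν).card = 8 * (q * (sp ν).card) + (sp ν).card := by ring
    have h8 : (q + 1) * (sp ν).card = q * (sp ν).card + (sp ν).card := by ring
    omega
  -- subgroup facts
  have hsub : ∀ x ∈ SM ν, x ∈ AddSubgroup.closure (sp ν : Set G) := by
    refine SM_sub ?_
    intro x hx
    exact AddSubgroup.subset_closure (by rw [Finset.mem_coe, mem_sp]; exact hx)
  obtain ⟨K, hKd⟩ : ∃ K : AddSubgroup G, K = AddSubgroup.closure (sp ν : Set G) := ⟨_, rfl⟩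
  rw [← hKd] at hsub h2
  have hKc : (sf K).card = Nat.card K := card_sf K
  have hBK : SM ν ⊆ sf K := fun y hy => (mem_sf K y).2 (hsub y hy)
  have hinv : ∀ x ∈ sp ν, x +ᵥ sf K = sf K := by
    intro x hx
    have hxK : x ∈ K := by
      rw [hKd]
      exact AddSubgroup.subset_closure hx
    ext z
    rw [Finset.mem_vadd_finset, mem_sf]
    constructor
    · rintro ⟨y, hy, rfl⟩
      exact K.add_mem hxK ((mem_sf K y).1 hy)
    · intro hz
      exact ⟨-x + z, (mem_sf K _).2 (K.add_mem (K.neg_mem hxK) hz), by simp⟩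
  have hfin1 : q * tot μ ≤ q * tot ν + tot μ := by
    rw [← hs, ← hτ]
    omega
  by_cases hcase : 2 * (SM ν).card ≤ Nat.card K
  · refine ⟨ν, SM ν, hle, hfin1, hcB, ?_⟩
    exact
      { asym := hasym
        big := hbig
        wide := by omega
        sub := by rw [← hKd]; exact hsub
        half := by rw [← hKd]; exact hcase
        flat := hflat
        sparse := hsp }
  · have hcd : (sf K \ SM ν).card = (sf K).card - (SM ν).card := Finset.card_sdiff_of_subset hBK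
    refine ⟨ν, sf K \ SM ν, hle, hfin1, hcB, ?_⟩
    exact
      { asym := hasym
        big := hbig
        wide := by omega
        sub := by
          rw [← hKd]
          intro x hx
          exact (mem_sf K x).1 (Finset.mem_sdiff.1 hx).1
        half := by rw [← hKd]; omega
        flat := by
          intro x hx
          rw [Pool.Agent.Lib.MP_d3cc86_co.lam_compl hBK (hinv x hx)]
          exact hflat x hx
        sparse := hsp }

end FX
end

section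

set_option autoImplicit false
set_option linter.unusedSectionVars false

open Finset Pointwise

namespace FX

open RG (stb mem_stb gg ph)
open SPR (T)
open AM
open Pool.Agent.Lib.MP_d3cc86_co (lam Asym symz)

/-- The character.  `energy`, `bigcoef` (`2 |C| ≤ |closure V| = N`) give `k ≠ 0` with `c^2 ≤ 10 ‖hh C k‖^2`, so
`c ≤ 3.17 ‖hh C k‖`.  For `x ∈ V`: `lamchar`: `c ‖1 - ψ(k x)‖ ≤ 3.17 · 2 lam C x`; `q lam C x ≤ (q+1) v ≤ 2 q v`… more precisely
`lam C x ≤ 1.01 v` (`q ≥ 10^6`), `c ≥ q v`, so `q v ‖1 - ψ‖ ≤ 6.41 v`, `q ‖1 - ψ(k x)‖ ≤ 6.41`, and by `vma`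
`4 q |valMinAbs (k x)| ≤ N q ‖1 - ψ(k x)‖ ≤ 6.41 N`. -/
theorem charex {N : ℕ} [NeZero N] (V C : Finset (ZMod N)) (q : ℕ) (hq : 1000000 ≤ q)
    (h : Ctx V C q) (hcl : AddSubgroup.closure (V : Set (ZMod N)) = ⊤) :
    ∃ k : ZMod N, k ≠ 0 ∧ ∀ x ∈ V, (q : ℤ) * |(k * x).valMinAbs| ≤ 4 * N := by
  classical
  have hv : q ≤ V.card := h.big
  have hc : q * V.card ≤ C.card := h.wide
  have hN : 2 * C.card ≤ N := by
    have h1 := h.half
    rw [hcl] at h1
    have h2 : Nat.card ((⊤ : AddSubgroup (ZMod N))) = N := by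
      rw [Nat.card_congr AddSubgroup.topEquiv.toEquiv, Nat.card_zmod]
    omega
  have hv0 : 1 ≤ V.card := le_trans (by omega) hv
  have hc0 : 1 ≤ C.card := by
    have : 1 * 1 ≤ q * V.card := Nat.mul_le_mul (by omega) hv0
    omega
  obtain ⟨k, hk, hkc⟩ := bigcoef C hc0 hN (energy V C q hq h)
  refine ⟨k, hk, fun x hx => ?_⟩
  have hl := lamchar C k x
  have hf := h.flat x hx
  have hm := vma (k * x)
  set s : ℝ := ‖hh C k‖ with hs
  set t : ℝ := ‖1 - (ZMod.stdAddChar (k * x) : ℂ)‖ with ht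
  have hs0 : 0 ≤ s := norm_nonneg _
  have ht0 : 0 ≤ t := norm_nonneg _
  have hcR : (q : ℝ) * V.card ≤ C.card := by exact_mod_cast hc
  have hfR : (q : ℝ) * lam C x ≤ (q + 1) * V.card := by exact_mod_cast hf
  have hqR : (1000000 : ℝ) ≤ q := by exact_mod_cast hq
  have hvR : (1 : ℝ) ≤ V.card := by exact_mod_cast hv0
  have hl0 : (0 : ℝ) ≤ lam C x := Nat.cast_nonneg _
  -- `c t ≤ 8 lam`
  have h1 : (C.card : ℝ) * t ≤ 8 * lam C x := by
    have h2 : ((C.card : ℝ) * t) ^ 2 ≤ (8 * lam C x) ^ 2 := by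
      have h3 : (s * t) ^ 2 ≤ (2 * (lam C x : ℝ)) ^ 2 := pow_le_pow_left₀ (by positivity) hl 2
      have h4 : (C.card : ℝ) ^ 2 * t ^ 2 ≤ 10 * s ^ 2 * t ^ 2 :=
        mul_le_mul_of_nonneg_right hkc (by positivity)
      nlinarith [sq_nonneg (lam C x : ℝ)]
    exact (abs_le_of_sq_le_sq' h2 (by positivity)).2
  have h2 : (q : ℝ) * t ≤ 16 := by
    have h3 : (q : ℝ) * V.card * t ≤ 8 * lam C x :=
      le_trans (mul_le_mul_of_nonneg_right hcR ht0) h1
    have h4 : (q : ℝ) * (q * V.card * t) ≤ 8 * ((q + 1) * V.card) := by nlinarith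
    have h5 : (q : ℝ) * V.card * (q * t) ≤ q * V.card * 16 := by nlinarith
    exact le_of_mul_le_mul_left h5 (by positivity)
  have h3 : (q : ℝ) * |((k * x).valMinAbs : ℝ)| ≤ 4 * N := by
    have hN0 : (0 : ℝ) ≤ N := Nat.cast_nonneg _
    have h4 : (q : ℝ) * (4 * |((k * x).valMinAbs : ℝ)|) ≤ q * (N * t) :=
      mul_le_mul_of_nonneg_left hm (by positivity)
    have h5 : (N : ℝ) * (q * t) ≤ N * 16 := mul_le_mul_of_nonneg_left h2 hN0
    nlinarith
  exact_mod_cast h3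

end FX
end
end
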