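import Mathlib
import Pool.Agent.Lib.MP_d3cc86_co.AM.U1
import Pool.Agent.Lib.MP_d3cc86_co.FX.Defs
import Pool.Agent.Lib.MP_d3cc86_co.Fill

section

set_option autoImplicit false
set_option linter.unusedSectionVars false

open Finset Pointwise

namespace FX

open RG (stb mem_stb gg ph)
open SPR (T)
open AM
open Pool.Agent.Lib.MP_d3cc86_co (lam Asym symz)

variable {G : Type} [AddCommGroup G] [Fintype G] [DecidableEq G]

/-- The multiset `ν` pushed to `G ⧸ M`, with the signs chosen so that it becomes asymmetric.  Let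
`κ = pf (QuotientAddGroup.mk' M) ν`, `P` from `half (G ⧸ M)`, `ν' = orient P κ`.  `κ z ≠ 0` implies
`z = mk x` with `ν x ≠ 0`, so `z + z = mk (x + x) ≠ 0` by `h1`.  `AS_orient`, `tot_orient`, `tot_pf`,
`SM_orient`, `SM_pf`, `Finset.card_vadd_finset`.  Bound: let `ν' z ≠ 0`; then `κ z ≠ 0` or `κ (-z) ≠ 0`, so
there is `x` with `ν x ≠ 0`, `mk x = z` or `mk x = -z`, and `ν' z ≤ κ z + κ (-z) = ∑_{mk y = z} ν y +
∑_{mk y = -z} ν y ≤ cm M ν x ≤ c`: the two index sets are disjoint when `z ≠ -z` (true since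
`mk (x + x) ≠ 0`), and `mk y = ± mk x` iff `y - x ∈ M` or `y + x ∈ M`. -/
theorem push (M : AddSubgroup G) [Fintype (G ⧸ M)] [DecidableEq (G ⧸ M)] (ν : G → ℕ) (c : ℕ)
    (h1 : ∀ x, ν x ≠ 0 → x + x ∉ M) (h2 : ∀ x, ν x ≠ 0 → cm M ν x ≤ c) :
    ∃ ν' : G ⧸ M → ℕ, AS ν' ∧ (∀ z, ν' z ≤ c) ∧ tot ν' = tot ν ∧
      (SM ν').card = ((SM ν).image (fun x => (QuotientAddGroup.mk x : G ⧸ M))).card := by
  classical
  obtain ⟨P, hP⟩ := half (G ⧸ M)
  have hmk : ∀ a b : G, (QuotientAddGroup.mk' M a = QuotientAddGroup.mk' M b) ↔ a - b ∈ M := by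
    intro a b
    rw [← sub_eq_zero, ← map_sub]
    exact QuotientAddGroup.eq_zero_iff _
  have hmk2 : ∀ a b : G, (QuotientAddGroup.mk' M a = - QuotientAddGroup.mk' M b) ↔ a + b ∈ M := by
    intro a b
    rw [← map_neg, hmk, sub_neg_eq_add]
  set κ : G ⧸ M → ℕ := pf (QuotientAddGroup.mk' M) ν with hκd
  have hκ : ∀ z, κ z = ∑ x, (if QuotientAddGroup.mk' M x = z then ν x else 0) := by
    intro z
    rw [hκd]
    unfold pf
    rw [Finset.sum_filter]
    congr!
  have hex : ∀ z, κ z ≠ 0 → ∃ x, QuotientAddGroup.mk' M x = z ∧ ν x ≠ 0 := by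
    intro z hz
    rw [hκ] at hz
    obtain ⟨x, -, hx⟩ := Finset.exists_ne_zero_of_sum_ne_zero hz
    by_cases h : QuotientAddGroup.mk' M x = z
    · rw [if_pos h] at hx
      exact ⟨x, h, hx⟩
    · rw [if_neg h] at hx
      exact absurd rfl hx
  have h0 : ∀ z, κ z ≠ 0 → z + z ≠ 0 := by
    intro z hz h
    obtain ⟨x, rfl, hx⟩ := hex z hz
    rw [← map_add] at h
    exact h1 x hx ((QuotientAddGroup.eq_zero_iff _).1 h)
  obtain ⟨t, ht⟩ := SM_orient P κ hP h0
  refine ⟨orient P κ, AS_orient P κ hP h0, ?_, ?_, ?_⟩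
  · intro z
    by_cases hz : κ z + κ (-z) = 0
    · unfold orient
      split_ifs <;> omega
    · have hle : orient P κ z ≤ κ z + κ (-z) := by
        unfold orient
        split_ifs <;> omega
      refine hle.trans ?_
      have hx : ∃ x, ν x ≠ 0 ∧ (QuotientAddGroup.mk' M x = z ∨ QuotientAddGroup.mk' M x = -z) := by
        by_cases h3 : κ z = 0
        · have h4 : κ (-z) ≠ 0 := by omega
          obtain ⟨x, h5, h6⟩ := hex _ h4
          exact ⟨x, h6, Or.inr h5⟩
        · obtain ⟨x, h5, h6⟩ := hex _ h3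
          exact ⟨x, h6, Or.inl h5⟩
      have hzz : z ≠ -z := by
        intro h
        have h4 : z + z = 0 := by
          nth_rewrite 1 [h]
          exact neg_add_cancel z
        by_cases h3 : κ z = 0
        · rw [← h] at hz
          omega
        · exact h0 z h3 h4
      obtain ⟨x, hx1, hx2⟩ := hx
      refine le_trans ?_ (h2 x hx1)
      unfold cm
      rw [hκ, hκ, ← Finset.sum_add_distrib]
      refine Finset.sum_le_sum fun y _ => ?_
      have key : (QuotientAddGroup.mk' M y = z ∨ QuotientAddGroup.mk' M y = -z) →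
          (y - x ∈ M ∨ y + x ∈ M) := by
        intro h3
        rw [← hmk y x, ← hmk2 y x]
        rcases hx2 with h4 | h4
        · rw [h4]
          exact h3
        · rw [h4, neg_neg]
          exact h3.symm
      by_cases h3 : QuotientAddGroup.mk' M y = z
      · rw [if_pos h3, if_neg (fun h4 => hzz (h3.symm.trans h4)), if_pos (key (Or.inl h3)), add_zero]
      · rw [if_neg h3, zero_add]
        by_cases h4 : QuotientAddGroup.mk' M y = -z
        · rw [if_pos h4, if_pos (key (Or.inr h4))]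
        · rw [if_neg h4]
          exact Nat.zero_le _
  · rw [tot_orient P κ hP h0, tot_pf]
  · rw [ht, Finset.card_vadd_finset, hκd, SM_pf]
    rfl

/-- The class `x + M ∪ -x + M` has mass `≤ w |M|`.  The cosets `x + M` and `-x + M` are disjoint
(`x + x ∉ M`) and `y ↦ -y` maps the first onto the second, so
`cm M ν x = ∑_{y - x ∈ M} ν y + ∑_{y + x ∈ M} ν y = ∑_{y - x ∈ M} (ν y + ν (-y)) ≤ ∑_{y - x ∈ M} w = w |M|`
(`ν y ≠ 0` implies `ν (-y) = 0`). -/
theorem class_mass (M : AddSubgroup G) (ν : G → ℕ) (w : ℕ) (hAS : AS ν) (hb : ∀ x, ν x ≤ w) (x : G)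
    (hx : x + x ∉ M) : cm M ν x ≤ w * Nat.card M := by
  classical
  have hfib : (univ.filter (fun y => y - x ∈ M)).card = Nat.card M := by
    rw [← card_sf M]
    refine Finset.card_nbij' (fun y => y - x) (fun y => y + x) ?_ ?_ ?_ ?_
    · intro y hy
      have h := (Finset.mem_filter.1 hy).2
      exact (mem_sf M _).2 h
    · intro y hy
      have h := (mem_sf M y).1 hy
      refine Finset.mem_coe.2 (Finset.mem_filter.2 ⟨Finset.mem_univ _, ?_⟩)
      dsimp only
      rw [add_sub_cancel_right]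
      exact h
    · intro y _
      exact sub_add_cancel y x
    · intro y _
      exact add_sub_cancel_right y x
  have e1 : cm M ν x ≤ ∑ y, ((if y - x ∈ M then ν y else 0) + (if y + x ∈ M then ν y else 0)) := by
    unfold cm
    refine Finset.sum_le_sum fun y _ => ?_
    by_cases h1 : y - x ∈ M
    · rw [if_pos (Or.inl h1), if_pos h1]
      exact Nat.le_add_right _ _
    · by_cases h2 : y + x ∈ M
      · rw [if_pos (Or.inr h2), if_neg h1, if_pos h2, zero_add]
      · rw [if_neg (fun h => h.elim h1 h2)]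
        exact Nat.zero_le _
  refine e1.trans ?_
  rw [Finset.sum_add_distrib]
  have e2 : ∑ y, (if y + x ∈ M then ν y else 0) = ∑ y, (if y - x ∈ M then ν (-y) else 0) := by
    rw [← Equiv.sum_comp (Equiv.neg G)]
    refine Finset.sum_congr rfl fun y _ => ?_
    have h3 : (Equiv.neg G) y + x ∈ M ↔ y - x ∈ M := by
      rw [Equiv.neg_apply, ← M.neg_mem_iff]
      have : -(-y + x) = y - x := by abel
      rw [this]
    by_cases h4 : y - x ∈ M
    · rw [if_pos h4, if_pos (h3.2 h4), Equiv.neg_apply]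
    · rw [if_neg h4, if_neg (fun h => h4 (h3.1 h))]
  rw [e2, ← Finset.sum_add_distrib]
  calc ∑ y, ((if y - x ∈ M then ν y else 0) + (if y - x ∈ M then ν (-y) else 0))
      ≤ ∑ y, (if y - x ∈ M then w else 0) := by
        refine Finset.sum_le_sum fun y _ => ?_
        by_cases h4 : y - x ∈ M
        · rw [if_pos h4, if_pos h4, if_pos h4]
          by_cases h5 : ν y = 0
          · rw [h5, zero_add]
            exact hb _
          · rw [hAS y h5, add_zero]
            exact hb _
        · rw [if_neg h4, if_neg h4, if_neg h4]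
    _ = w * Nat.card M := by
        rw [← Finset.sum_filter, Finset.sum_const, hfib, smul_eq_mul, mul_comm]

/-- For every class in the image of `SM ν` choose a representative `r ∈ SM ν`.  The elements
`z + x + r`, `x ∈ X`, `r` a representative, lie in `SM U + SM ν = SM (U + ν) ⊆ SM μ`, and they are
pairwise distinct: their class modulo `M` is `mk z + mk r` (as `X ⊆ M`), which determines `r`, and then
`x`. -/
theorem star_count (M : AddSubgroup G) [DecidableEq (G ⧸ M)] (U ν μ : G → ℕ)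
    (h : ∀ x, U x + ν x ≤ μ x) (X : Finset G) (hX : ∀ x ∈ X, x ∈ M) (z : G)
    (hz : ∀ x ∈ X, z + x ∈ SM U) :
    X.card * ((SM ν).image (fun x => (QuotientAddGroup.mk x : G ⧸ M))).card ≤ (SM μ).card := by
  classical
  set I := (SM ν).image (fun x => (QuotientAddGroup.mk x : G ⧸ M)) with hI
  have hr : ∀ c : G ⧸ M, ∃ r : G, c ∈ I → (r ∈ SM ν ∧ (QuotientAddGroup.mk r : G ⧸ M) = c) := by
    intro c
    by_cases h1 : c ∈ I
    · obtain ⟨r, h2, h3⟩ := Finset.mem_image.1 h1
      exact ⟨r, fun _ => ⟨h2, h3⟩⟩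
    · exact ⟨0, fun h2 => absurd h2 h1⟩
  choose r hr using hr
  rw [← Finset.card_product]
  refine Finset.card_le_card_of_injOn (fun p : G × (G ⧸ M) => z + p.1 + r p.2) ?_ ?_
  · rintro ⟨x, c⟩ hxc
    obtain ⟨h1, h2⟩ := Finset.mem_product.1 (Finset.mem_coe.1 hxc)
    have h3 : SM (U + ν) ⊆ SM μ := SM_mono fun x => h x
    refine Finset.mem_coe.2 (h3 ?_)
    rw [SM_add]
    exact Finset.add_mem_add (hz x h1) (hr c h2).1
  · rintro ⟨x, c⟩ hxc ⟨x', c'⟩ hxc' heq
    obtain ⟨h1, h2⟩ := Finset.mem_product.1 (Finset.mem_coe.1 hxc)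
    obtain ⟨h1', h2'⟩ := Finset.mem_product.1 (Finset.mem_coe.1 hxc')
    dsimp only at heq h1 h2 h1' h2'
    have h5 : (QuotientAddGroup.mk (z + x + r c) : G ⧸ M) = QuotientAddGroup.mk (z + x' + r c') := by
      rw [heq]
    rw [QuotientAddGroup.mk_add, QuotientAddGroup.mk_add, QuotientAddGroup.mk_add,
      QuotientAddGroup.mk_add, (hr c h2).2, (hr c' h2').2,
      (QuotientAddGroup.eq_zero_iff x).2 (hX x h1), (QuotientAddGroup.eq_zero_iff x').2 (hX x' h1'),
      add_zero] at h5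
    have h6 : c = c' := add_left_cancel h5
    subst h6
    have h7 : x = x' := add_left_cancel (add_right_cancel heq)
    rw [h7]

/-- The elements of `μ` in `M`: at most `w ⌊(|M|-1)/2⌋`.  Let `P` be from `half G` and
`A = {x ∈ M : x + x ≠ 0, P x}`, an asymmetric set; `2 |A| + 1 ≤ |M|` (`AM.card_le_off` with `K = M`, where
`off A M = ∅`).  `tot (res M μ) = ∑_{x ∈ M} μ x`, and `μ x ≠ 0` implies `x + x ≠ 0` (`x = -x` would
contradict `AS`); so exactly one of `x, -x` is in `A`, `tot (res M μ) = ∑_{x ∈ A} (μ x + μ (-x)) ≤ w |A|`. -/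
theorem in_mass (M : AddSubgroup G) (μ : G → ℕ) (w : ℕ) (hAS : AS μ) (hb : ∀ x, μ x ≤ w) :
    tot (res M μ) ≤ w * ((Nat.card M - 1) / 2) := by
  classical
  obtain ⟨P, hP⟩ := half G
  have hρ : ∀ x, res M μ x ≠ 0 → x ∈ M ∧ x + x ≠ 0 := by
    intro x hx
    obtain ⟨h1, h2⟩ := res_ne hx
    refine ⟨h1, fun h3 => ?_⟩
    have h4 : -x = x := by
      rw [neg_eq_iff_add_eq_zero]
      exact h3
    have h5 := hAS x h2
    rw [h4] at h5
    exact h2 h5
  set A : Finset G := univ.filter (fun x => x ∈ M ∧ x + x ≠ 0 ∧ P x) with hAd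
  have hmem : ∀ x, x ∈ A ↔ (x ∈ M ∧ x + x ≠ 0 ∧ P x) := by
    intro x
    rw [hAd, Finset.mem_filter]
    exact ⟨fun h => h.2, fun h => ⟨Finset.mem_univ _, h⟩⟩
  have hAsym : Asym A := by
    intro a ha hna
    obtain ⟨-, h2, h3⟩ := (hmem a).1 ha
    obtain ⟨-, -, h4⟩ := (hmem (-a)).1 hna
    exact (hP a h2).1 h3 h4
  have hoff : off A M = ∅ := by
    rw [Finset.eq_empty_iff_forall_notMem]
    intro x hx
    obtain ⟨h1, h2⟩ := (mem_off _ _ _).1 hx
    exact h2 ((hmem x).1 h1).1
  have hcard := card_le_off A hAsym M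
  rw [hoff, Finset.card_empty, mul_zero, zero_add] at hcard
  have hA2 : A.card ≤ (Nat.card M - 1) / 2 := by omega
  rw [← tot_orient P (res M μ) hP (fun x hx => (hρ x hx).2)]
  refine le_trans ?_ (Nat.mul_le_mul_left w hA2)
  calc tot (orient P (res M μ)) ≤ ∑ x, (if x ∈ A then w else 0) := by
        unfold tot
        refine Finset.sum_le_sum fun x _ => ?_
        have hor : orient P (res M μ) x = if P x then res M μ x + res M μ (-x) else 0 := by
          unfold orient
          congr!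
        rw [hor]
        by_cases hPx : P x
        · rw [if_pos hPx]
          by_cases h1 : res M μ x = 0
          · by_cases h2 : res M μ (-x) = 0
            · rw [h1, h2]
              exact Nat.zero_le _
            · obtain ⟨h3, h4⟩ := hρ _ h2
              have h5 : x ∈ A := by
                rw [hmem]
                refine ⟨(M.neg_mem_iff).1 h3, fun h6 => h4 ?_, hPx⟩
                rw [← neg_add, h6, neg_zero]
              rw [if_pos h5, h1, zero_add]
              exact (res_le M μ _).trans (hb _)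
          · obtain ⟨h3, h4⟩ := hρ _ h1
            have h5 : x ∈ A := (hmem x).2 ⟨h3, h4, hPx⟩
            have h6 : μ x ≠ 0 := (res_ne h1).2
            have h7 : res M μ (-x) = 0 := by
              have := res_le M μ (-x)
              have h8 := hAS x h6
              omega
            rw [if_pos h5, h7, add_zero]
            exact (res_le M μ _).trans (hb _)
        · rw [if_neg hPx]
          exact Nat.zero_le _
    _ = w * A.card := by
        rw [Finset.sum_ite_mem, Finset.univ_inter, Finset.sum_const, smul_eq_mul, mul_comm]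

end FX
end

section

section

set_option autoImplicit false

open Finset

namespace FX

/-- The iteration.  `P j x` means that size `x` can be reached in `j` steps.  While `2 x ≤ m` a step multiplies
`x` by at least `25/24` (`x (m - x) ≥ x m / 2`, so `24 x' ≥ 25 x`), so after `24` steps `x` has at least doubled
(`(25/24)^24 ≥ 2`; or `x' ≥ x + ⌈x/24⌉`), unless `2 x > m` is reached before.  After `24 a` steps, `2^a ≥ m`, `a = Nat.log 2 m + 1`,
`2 x > m`.  Then `y = m - x` satisfies `y' ≤ y (1 - x/(12 m)) ≤ (23/24) y` and after `24` further steps `y` has at least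
halved; after `24 a` further steps `y < 1`, `y = 0`.  If `x = m` before, stop.  Total number of steps `j ≤ 48 a`, and
`64 · 48 (Nat.log 2 m + 1) ≤ m` for `m ≥ k` (`k = 10^6`: `2^a ≤ 2 m` …).  It is convenient to prove: for all `i` there is
`j ≤ 24 i`-many steps with (`2 x > m` or `x ≥ 2^i`), by induction on `i`, and similarly for `y`. -/
theorem iter : ∃ k : ℕ, ∀ (m : ℕ) (P : ℕ → ℕ → Prop), k ≤ m → P 0 1 →
    (∀ j x, P j x → 1 ≤ x → x ≤ m → 64 * (j + 1) ≤ m →
      ∃ x', x' ≤ m ∧ x * (m - x) + 12 * (m * x) ≤ 12 * (m * x') ∧ P (j + 1) x') →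
    ∃ j, 64 * j ≤ m ∧ P j m := by
  refine ⟨65536, fun m P hm h0 hstep => ?_⟩
  obtain ⟨a, ha⟩ : ∃ a, a = Nat.log 2 m + 1 := ⟨_, rfl⟩
  have h1 : m < 2 ^ a := by
    rw [ha]
    exact Nat.lt_pow_succ_log_self (by norm_num) m
  have hb : 64 * (48 * a) ≤ m := by
    have h2 : 16 ≤ Nat.log 2 m := Nat.le_log_of_pow_le (by norm_num) (by simpa using hm)
    have h3 : 2 ^ Nat.log 2 m ≤ m := Nat.pow_log_le_self 2 (by omega)
    have h4 : ∀ e, 16 ≤ e → 64 * (48 * (e + 1)) ≤ 2 ^ e := by
      intro e he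
      induction e, he using Nat.le_induction with
      | base => norm_num
      | succ e he ih =>
        rw [pow_succ]
        omega
    have h5 := h4 _ h2
    rw [← ha] at h5
    omega
  have hp1 : ∀ s, s ≤ 24 * a → ∃ j, j ≤ s ∧ ∃ x, P j x ∧ 1 ≤ x ∧ x ≤ m ∧
      (m < 2 * x ∨ 25 ^ s ≤ 24 ^ s * x) := by
    intro s
    induction s with
    | zero => intro _; exact ⟨0, le_rfl, 1, h0, le_rfl, by omega, Or.inr (by norm_num)⟩
    | succ s ih =>
      intro hs
      obtain ⟨j, hj, x, hP, hx1, hxm, hx⟩ := ih (by omega)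
      rcases hx with hx | hx
      · exact ⟨j, by omega, x, hP, hx1, hxm, Or.inl hx⟩
      · by_cases h2 : m < 2 * x
        · exact ⟨j, by omega, x, hP, hx1, hxm, Or.inl h2⟩
        · push Not at h2
          obtain ⟨x', hx'm, hx', hP'⟩ := hstep j x hP hx1 hxm (by omega)
          have h3 : 25 * x ≤ 24 * x' := by
            obtain ⟨y, hy⟩ : ∃ y, m = x + y := ⟨m - x, by omega⟩
            rw [show m - x = y by omega] at hx'
            have h4 : m * (25 * x) ≤ m * (24 * x') := by nlinarith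
            exact Nat.le_of_mul_le_mul_left h4 (by omega)
          refine ⟨j + 1, by omega, x', hP', by omega, hx'm, Or.inr ?_⟩
          calc 25 ^ (s + 1) = 25 ^ s * 25 := pow_succ _ _
            _ ≤ 24 ^ s * x * 25 := Nat.mul_le_mul_right _ hx
            _ = 24 ^ s * (25 * x) := by ring
            _ ≤ 24 ^ s * (24 * x') := Nat.mul_le_mul_left _ h3
            _ = 24 ^ (s + 1) * x' := by ring
  obtain ⟨j0, hj0, x0, hP0, hx01, hx0m, hx0⟩ := hp1 (24 * a) le_rfl
  have hhalf : m < 2 * x0 := by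
    rcases hx0 with hx0 | hx0
    · exact hx0
    · exfalso
      have h2 : (2 * 24 ^ 24) ^ a ≤ (25 ^ 24) ^ a := Nat.pow_le_pow_left (by norm_num) a
      rw [← pow_mul, mul_pow, ← pow_mul] at h2
      have h3 : 24 ^ (24 * a) * 2 ^ a ≤ 24 ^ (24 * a) * x0 := by
        calc 24 ^ (24 * a) * 2 ^ a = 2 ^ a * 24 ^ (24 * a) := by ring
          _ ≤ 25 ^ (24 * a) := h2
          _ ≤ _ := hx0
      have h4 : 2 ^ a ≤ x0 := Nat.le_of_mul_le_mul_left h3 (by positivity)
      omega
  have hp2 : ∀ s, s ≤ 24 * a → ∃ x, P (j0 + s) x ∧ x ≤ m ∧ m < 2 * x ∧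
      24 ^ s * (m - x) ≤ 23 ^ s * m := by
    intro s
    induction s with
    | zero =>
      intro _
      refine ⟨x0, hP0, hx0m, hhalf, ?_⟩
      rw [pow_zero, pow_zero, one_mul, one_mul]
      omega
    | succ s ih =>
      intro hs
      obtain ⟨x, hP, hxm, hx2, hx⟩ := ih (by omega)
      obtain ⟨x', hx'm, hx', hP'⟩ := hstep (j0 + s) x hP (by omega) hxm (by omega)
      obtain ⟨y, hy⟩ : ∃ y, m = x + y := ⟨m - x, by omega⟩
      obtain ⟨y', hy'⟩ : ∃ y', m = x' + y' := ⟨m - x', by omega⟩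
      rw [show m - x = y by omega] at hx' hx
      have h3 : 24 * y' ≤ 23 * y := by
        have h4 : m * (24 * y') ≤ m * (23 * y) := by
          have h5 : 2 * (x * y) + 24 * (m * x) ≤ 24 * (m * x') := by linarith
          have h6 : m * y ≤ 2 * (x * y) := by nlinarith
          have h7 : m * x' + m * y' = m * m := by
            rw [← mul_add, ← hy']
          have h8 : m * x + m * y = m * m := by
            rw [← mul_add, ← hy]
          nlinarith
        exact Nat.le_of_mul_le_mul_left h4 (by omega)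
      refine ⟨x', hP', hx'm, by omega, ?_⟩
      rw [show m - x' = y' by omega]
      calc 24 ^ (s + 1) * y' = 24 ^ s * (24 * y') := by ring
        _ ≤ 24 ^ s * (23 * y) := Nat.mul_le_mul_left _ h3
        _ = 23 * (24 ^ s * y) := by ring
        _ ≤ 23 * (23 ^ s * m) := Nat.mul_le_mul_left _ hx
        _ = 23 ^ (s + 1) * m := by ring
  obtain ⟨x, hP, hxm, hx2, hx⟩ := hp2 (24 * a) le_rfl
  have hx0' : m - x = 0 := by
    by_contra hcon
    have h2 : (2 * 23 ^ 24) ^ a ≤ (24 ^ 24) ^ a := Nat.pow_le_pow_left (by norm_num) a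
    rw [← pow_mul, mul_pow, ← pow_mul] at h2
    have h3 : 23 ^ (24 * a) * 2 ^ a ≤ 23 ^ (24 * a) * m := by
      calc 23 ^ (24 * a) * 2 ^ a = 2 ^ a * 23 ^ (24 * a) * 1 := by ring
        _ ≤ 24 ^ (24 * a) * (m - x) := Nat.mul_le_mul h2 (by omega)
        _ ≤ _ := hx
    have h4 : 2 ^ a ≤ m := Nat.le_of_mul_le_mul_left h3 (by positivity)
    omega
  have hxe : x = m := by omega
  rw [hxe] at hP
  exact ⟨j0 + 24 * a, by omega, hP⟩

end FX
end

section

set_option autoImplicit false
set_option linter.unusedSectionVars false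

open Finset Pointwise

namespace FX

open RG (stb mem_stb gg ph)
open SPR (T)
open AM
open Pool.Agent.Lib.MP_d3cc86_co (lam Asym symz)

variable {G : Type} [AddCommGroup G] [Fintype G] [DecidableEq G]

open Classical in
/-- Localization.  Among all pairs `(M, y)`, `M ≤ K1` a subgroup, `y ∈ G`, choose one maximizing the rational
number `|E ∩ (y + M)|^2 / |M|` (finitely many pairs; `Finset.exists_max_image` with values in `ℚ`).  Let
`e = |E ∩ (y + M)|`.  Comparing with `(K1, x)`: `e^2 / |M| ≥ |E|^2 / |K1| ≥ |K1| / 9`.  As `e ≤ |M|`: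
`|M| ≥ e^2/|M| ≥ |K1| / 9`; and `e^2 ≥ |M| |K1| / 9 ≥ |M|^2 / 9` (`|M| ≤ |K1|`), `e ≥ |M| / 3`.  For a proper subgroup
`M' < M` and `y'`: `E ∩ (y' + M')` contains `E' ∩ (y' + M')`, and `|M'| ≤ |M| / 2`, so
`|E' ∩ (y' + M')|^2 ≤ |M'| e^2 / |M| ≤ e^2 / 2`. -/
theorem localize (E : Finset G) (K1 : AddSubgroup G) (x : G) (hE : ∀ e ∈ E, e - x ∈ K1)
    (hd : Nat.card K1 ≤ 3 * E.card) :
    ∃ (M : AddSubgroup G) (y : G), Nat.card K1 ≤ 9 * Nat.card M ∧
      Nat.card M ≤ 3 * (E.filter (fun e => e - y ∈ M)).card ∧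
      ∀ M' : AddSubgroup G, M' < M → ∀ y' : G,
        2 * ((E.filter (fun e => e - y ∈ M)).filter (fun e => e - y' ∈ M')).card ^ 2 ≤
          (E.filter (fun e => e - y ∈ M)).card ^ 2 := by
  let S := {p : AddSubgroup G × G // p.1 ≤ K1}
  let f : S → ℚ := fun p => ((E.filter (fun e => e - p.1.2 ∈ p.1.1)).card : ℚ) ^ 2 /
    (Nat.card p.1.1 : ℚ)
  have hne : Nonempty S := ⟨⟨(K1, x), le_rfl⟩⟩
  have hfin : Finite S := inferInstance
  obtain ⟨⟨⟨M, y⟩, hM⟩, hmax⟩ := Finite.exists_max f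
  simp only at hM
  have hpos : ∀ H : AddSubgroup G, 0 < Nat.card H := fun H => Nat.card_pos
  -- comparison
  have hcmp : ∀ (H : AddSubgroup G) (z : G), H ≤ K1 →
      (E.filter (fun e => e - z ∈ H)).card ^ 2 * Nat.card M ≤
        (E.filter (fun e => e - y ∈ M)).card ^ 2 * Nat.card H := by
    intro H z hH
    have h1 := hmax ⟨(H, z), hH⟩
    simp only [f] at h1
    have p1 : (0 : ℚ) < (Nat.card H : ℚ) := by exact_mod_cast hpos H
    have p2 : (0 : ℚ) < (Nat.card M : ℚ) := by exact_mod_cast hpos M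
    rw [div_le_div_iff₀ p1 p2] at h1
    exact_mod_cast h1
  set e := (E.filter (fun e => e - y ∈ M)).card with he
  have hx : E.filter (fun e => e - x ∈ K1) = E := Finset.filter_true_of_mem hE
  have h1 := hcmp K1 x le_rfl
  rw [hx] at h1
  have heM : e ≤ Nat.card M := by
    rw [he, ← card_sf M]
    refine Finset.card_le_card_of_injOn (fun a => a - y) ?_ ?_
    · intro a ha
      rw [Finset.mem_coe, Finset.mem_filter] at ha
      rw [Finset.mem_coe, mem_sf]
      exact ha.2
    · intro a _ b _ hab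
      exact sub_left_injective hab
  have hMK : Nat.card M ≤ Nat.card K1 := AddSubgroup.card_le_of_le hM
  have hK := hpos K1
  have hMp := hpos M
  -- `|K1| |M| ≤ 9 e²`
  have h2 : Nat.card K1 * Nat.card M ≤ 9 * e ^ 2 := by
    have h3 : Nat.card K1 ^ 2 ≤ 9 * E.card ^ 2 := by
      calc Nat.card K1 ^ 2 ≤ (3 * E.card) ^ 2 := Nat.pow_le_pow_left hd 2
        _ = 9 * E.card ^ 2 := by ring
    have h4 : Nat.card K1 * (Nat.card K1 * Nat.card M) ≤ Nat.card K1 * (9 * e ^ 2) := by
      calc Nat.card K1 * (Nat.card K1 * Nat.card M) = Nat.card K1 ^ 2 * Nat.card M := by ring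
        _ ≤ 9 * E.card ^ 2 * Nat.card M := Nat.mul_le_mul_right _ h3
        _ = 9 * (E.card ^ 2 * Nat.card M) := by ring
        _ ≤ 9 * (e ^ 2 * Nat.card K1) := Nat.mul_le_mul_left _ h1
        _ = Nat.card K1 * (9 * e ^ 2) := by ring
    exact Nat.le_of_mul_le_mul_left h4 hK
  refine ⟨M, y, ?_, ?_, ?_⟩
  · have h5 : Nat.card K1 * Nat.card M ≤ (9 * Nat.card M) * Nat.card M := by
      calc Nat.card K1 * Nat.card M ≤ 9 * e ^ 2 := h2
        _ ≤ 9 * Nat.card M ^ 2 := Nat.mul_le_mul_left _ (Nat.pow_le_pow_left heM 2)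
        _ = (9 * Nat.card M) * Nat.card M := by ring
    exact Nat.le_of_mul_le_mul_right h5 hMp
  · have h6 : Nat.card M ^ 2 ≤ (3 * e) ^ 2 := by
      calc Nat.card M ^ 2 = Nat.card M * Nat.card M := by ring
        _ ≤ Nat.card K1 * Nat.card M := Nat.mul_le_mul_right _ hMK
        _ ≤ 9 * e ^ 2 := h2
        _ = (3 * e) ^ 2 := by ring
    exact (Nat.pow_le_pow_iff_left (by norm_num)).1 h6
  · intro M' hM' y'
    have h7 := hcmp M' y' (hM'.le.trans hM)
    set c := (E.filter (fun e => e - y' ∈ M')).card with hc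
    have h8 : ((E.filter (fun e => e - y ∈ M)).filter (fun e => e - y' ∈ M')).card ≤ c := by
      rw [hc]
      exact Finset.card_le_card (Finset.filter_subset_filter _ (Finset.filter_subset _ _))
    have h9 : 2 * Nat.card M' ≤ Nat.card M := by
      obtain ⟨k, hk⟩ := AddSubgroup.card_dvd_of_le hM'.le
      have hk2 : 2 ≤ k := by
        by_contra hcon
        have hk1 : k = 0 ∨ k = 1 := by omega
        rcases hk1 with rfl | rfl
        · rw [mul_zero] at hk; omega
        · rw [mul_one] at hk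
          exact hM'.ne (AddSubgroup.eq_of_le_of_card_ge hM'.le hk.le)
      rw [hk, mul_comm 2]
      exact Nat.mul_le_mul_left _ hk2
    have h10 : (2 * c ^ 2) * Nat.card M ≤ e ^ 2 * Nat.card M := by
      calc (2 * c ^ 2) * Nat.card M = 2 * (c ^ 2 * Nat.card M) := by ring
        _ ≤ 2 * (e ^ 2 * Nat.card M') := Nat.mul_le_mul_left _ h7
        _ = e ^ 2 * (2 * Nat.card M') := by ring
        _ ≤ e ^ 2 * Nat.card M := Nat.mul_le_mul_left _ h9
    have h11 : 2 * c ^ 2 ≤ e ^ 2 := Nat.le_of_mul_le_mul_right h10 hMp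
    exact (Nat.mul_le_mul_left _ (Nat.pow_le_pow_left h8 2)).trans h11

end FX
end

section

set_option autoImplicit false
set_option linter.unusedSectionVars false

open Finset Pointwise

namespace FX

open RG (stb mem_stb gg ph)
open SPR (T)
open AM
open Pool.Agent.Lib.MP_d3cc86_co (lam Asym symz lam_nsmul_le nsmul_mono_zero two_mul_card_nsmul_ge
  card_mul_le_sum_lam)

variable {G : Type} [AddCommGroup G] [Fintype G] [DecidableEq G]

/-- In the group `M` (as a type), `D` generates and is symmetric, `0 ∈ D`.  If `7 • D` is not everything then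
`two_mul_card_nsmul_ge` (file `Iso.lean`) gives `8 |D| ≤ 2 |7 • D|`, so `|7 • D| ≥ 4 |D| ≥ |M|`, a contradiction.  So
`7 • D` is everything, and `7 • D ⊆ 12 • D` (`nsmul_mono_zero`).  (Pass to the type `M` via
`D.subtype (· ∈ M)`/`preimage` of `M.subtype`, and `Finset.image` back.) -/
theorem twelve (M : AddSubgroup G) (D : Finset G) (h0 : (0 : G) ∈ D) (hs : ∀ d ∈ D, -d ∈ D)
    (hcl : AddSubgroup.closure (D : Set G) = M) (hc : Nat.card M ≤ 4 * D.card) :
    ∀ m ∈ M, m ∈ 12 • D := by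
  classical
  have hDM : ∀ d ∈ D, d ∈ M := by
    intro d hd
    rw [← hcl]
    exact AddSubgroup.subset_closure hd
  set S : Finset M := D.subtype (fun x => x ∈ M) with hS
  have hmemS : ∀ x : M, x ∈ S ↔ (x : G) ∈ D := by
    intro x
    rw [hS, Finset.mem_subtype]
  have himg : S.image (M.subtype) = D := by
    ext x
    rw [Finset.mem_image]
    constructor
    · rintro ⟨y, hy, rfl⟩
      exact (hmemS y).1 hy
    · intro hx
      exact ⟨⟨x, hDM x hx⟩, (hmemS _).2 hx, rfl⟩
  have hScard : S.card = D.card := by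
    rw [← himg]
    exact (Finset.card_image_of_injective _ M.subtype_injective).symm
  have hS0 : (0 : M) ∈ S := (hmemS 0).2 (by simpa using h0)
  have hSs : ∀ s ∈ S, -s ∈ S := by
    intro s hs'
    rw [hmemS] at hs' ⊢
    simpa using hs _ hs'
  have hgen : AddSubgroup.closure (S : Set M) = ⊤ := by
    apply AddSubgroup.map_injective M.subtype_injective
    rw [AddMonoidHom.map_closure]
    have h1 : (M.subtype '' (S : Set M)) = (D : Set G) := by
      rw [← himg, Finset.coe_image]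
    rw [h1, hcl]
    ext x
    simp
  have h7 : 7 • S = univ := by
    by_contra hne
    have h1 := two_mul_card_nsmul_ge hS0 hSs hgen 7 (by norm_num) hne
    have h2 : (7 • S).card < Fintype.card M := by
      rw [← Finset.card_univ]
      exact Finset.card_lt_card (Finset.ssubset_univ_iff.2 hne)
    rw [← Nat.card_eq_fintype_card] at h2
    omega
  intro m hm
  have h1 : (⟨m, hm⟩ : M) ∈ 7 • S := by rw [h7]; exact Finset.mem_univ _
  have h2 : M.subtype ⟨m, hm⟩ ∈ (7 • S).image M.subtype := Finset.mem_image_of_mem _ h1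
  have h3 : (7 • S).image M.subtype = 7 • D := by
    rw [← himg]
    exact Finset.image_nsmul M.subtype S 7
  rw [h3] at h2
  exact nsmul_mono_zero h0 (by norm_num) h2

/-- `∑_{m ∈ M} lam X m = |X| |M| - |X|^2` for `X ⊆ M` (or `≥`: `card_mul_le_sum_lam X (sf M)`:
`|X| |M| ≤ ∑_{m ∈ sf M} lam X m + |X| |X|`).  So some `m ∈ M` has `|M| lam X m ≥ |X| (|M| - |X|)`.  `m ∈ 12 • D`; if `lam X d ≤ l` for all
`d ∈ D` then `lam X m ≤ 12 l` (`lam_nsmul_le`); take `d ∈ D` with `lam X d` maximal. -/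
theorem gooddiff (M : AddSubgroup G) (D : Finset G) (hD : D.Nonempty) (h12 : ∀ m ∈ M, m ∈ 12 • D)
    (X : Finset G) (hX : ∀ x ∈ X, x ∈ M) :
    ∃ d ∈ D, X.card * (Nat.card M - X.card) ≤ 12 * (Nat.card M * lam X d) := by
  classical
  obtain ⟨d, hd, hmax⟩ := Finset.exists_max_image D (fun d => lam X d) hD
  refine ⟨d, hd, ?_⟩
  have h1 := card_mul_le_sum_lam X (sf M)
  have h2 : ∑ c ∈ sf M, lam X c ≤ ∑ _c ∈ sf M, 12 * lam X d := by
    refine Finset.sum_le_sum fun c hc => ?_
    exact lam_nsmul_le hmax 12 c (h12 c ((mem_sf M c).1 hc))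
  rw [Finset.sum_const, smul_eq_mul, card_sf] at h2
  rw [card_sf] at h1
  rw [Nat.mul_sub]
  have h3 : Nat.card M * (12 * lam X d) = 12 * (Nat.card M * lam X d) := by ring
  omega

end FX
end

section

set_option autoImplicit false
set_option linter.unusedSectionVars false

open Finset Pointwise

namespace FX

open RG (stb mem_stb gg ph)
open SPR (T)
open AM
open Pool.Agent.Lib.MP_d3cc86_co (lam Asym symz)

/-- `M` is filled by few elements of `μ`. -/
def Good {G : Type} [AddCommGroup G] [Fintype G] (μ : G → ℕ) (M : AddSubgroup G) : Prop :=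
  ∃ (U : G → ℕ) (z : G), (∀ x, U x ≤ μ x) ∧ (∀ m ∈ M, z + m ∈ SM U) ∧ 32 * tot U ≤ Nat.card M

/-- If `M` is good with `U`, `|M| ≥ 32` and `U x < μ x`, `x ∉ M`, `x + x ∈ M`, then `M' = M ∪ (x + M)` (for instance
`M ⊔ zmultiples x`, of order `2 |M|`) is good: `U' = U + Pi.single x 1`, the same `z`: `z + m ∈ SM U ⊆ SM U'` and
`z + (x + m) = x + (z + m) ∈ SM U'` (`SM_add`, `SM_single`); `32 (tot U + 1) ≤ |M| + 32 ≤ 2 |M|`. -/
theorem good_invol {G : Type} [AddCommGroup G] [Fintype G] [DecidableEq G] (μ U : G → ℕ)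
    (M : AddSubgroup G) (z : G) (hU : ∀ x, U x ≤ μ x) (hz : ∀ m ∈ M, z + m ∈ SM U)
    (hc : 32 * tot U ≤ Nat.card M) (hM : 32 ≤ Nat.card M) (x : G) (hx : U x < μ x) (hxM : x ∉ M)
    (h2 : x + x ∈ M) : ∃ M' : AddSubgroup G, Good μ M' ∧ Nat.card M < Nat.card M' := by
  classical
  let M' : AddSubgroup G :=
    { carrier := {y | y ∈ M ∨ y - x ∈ M}
      zero_mem' := Or.inl M.zero_mem
      add_mem' := by
        rintro a b (ha | ha) (hb | hb)
        · exact Or.inl (M.add_mem ha hb)
        · refine Or.inr ?_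
          have h : a + b - x = a + (b - x) := by abel
          rw [h]
          exact M.add_mem ha hb
        · refine Or.inr ?_
          have h : a + b - x = (a - x) + b := by abel
          rw [h]
          exact M.add_mem ha hb
        · refine Or.inl ?_
          have h : a + b = (a - x) + (b - x) + (x + x) := by abel
          rw [h]
          exact M.add_mem (M.add_mem ha hb) h2
      neg_mem' := by
        rintro a (ha | ha)
        · exact Or.inl (M.neg_mem ha)
        · refine Or.inr ?_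
          have h : -a - x = -(a - x) - (x + x) := by abel
          rw [h]
          exact M.sub_mem (M.neg_mem ha) h2 }
  have hmem : ∀ y, y ∈ M' ↔ (y ∈ M ∨ y - x ∈ M) := fun y => Iff.rfl
  have hxM' : x ∈ M' := by
    rw [hmem, sub_self]
    exact Or.inr M.zero_mem
  have hle : M ≤ M' := fun y hy => (hmem y).2 (Or.inl hy)
  have hlt : Nat.card M < Nat.card M' := by
    by_contra hcon
    have heq : M = M' := AddSubgroup.eq_of_le_of_card_ge hle (not_lt.1 hcon)
    exact hxM (heq ▸ hxM')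
  have hdvd : Nat.card M ∣ Nat.card M' := AddSubgroup.card_dvd_of_le hle
  have h2M : 2 * Nat.card M ≤ Nat.card M' := by
    obtain ⟨c, hc'⟩ := hdvd
    have hc2 : 2 ≤ c := by
      rcases c with _ | _ | c
      · omega
      · omega
      · omega
    rw [hc', mul_comm 2]
    exact Nat.mul_le_mul_left _ hc2
  refine ⟨M', ⟨U + Pi.single x 1, z, ?_, ?_, ?_⟩, hlt⟩
  · intro y
    rw [Pi.add_apply]
    by_cases hy : y = x
    · rw [hy, Pi.single_eq_same]
      omega
    · rw [Pi.single_eq_of_ne hy, add_zero]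
      exact hU y
  · intro m hm
    rw [SM_add, SM_single]
    rcases (hmem m).1 hm with h | h
    · rw [Finset.mem_add]
      exact ⟨z + m, hz m h, 0, by simp, by simp⟩
    · rw [Finset.mem_add]
      exact ⟨z + (m - x), hz _ h, x, by simp, by abel⟩
  · rw [tot_add, tot_single]
    omega

end FX
end

section

set_option autoImplicit false
set_option linter.unusedSectionVars false

open Finset Pointwise

namespace FX

open RG (stb mem_stb gg ph)
open SPR (T)
open AM
open Pool.Agent.Lib.MP_d3cc86_co (lam Asym symz)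

variable {G : Type} [AddCommGroup G] [Fintype G] [DecidableEq G]

/-- One step.  `E'' = E' \ U`, `D = E'' - E''`, symmetric, contains `0` (`E''` is nonempty), `D ⊆ M`.  `|U| ≤ |M| / 32` so
`|E''| ≥ |M| / 3 - |M| / 32 ≥ |M| / 4` (`96 |E''| ≥ 29 |M|`) and `|D| ≥ |E''|`.  `D` generates `M`: let
`M' = closure D ≤ M`; `E''` lies in a coset `y' + M'` (`y' ∈ E''`), so if `M' < M`, `hnc` gives
`2 |E''|^2 ≤ |E'|^2`; but `|E''| ≥ |E'| - |M|/32 ≥ |E'| (1 - 3/32)`, and `2 (29/32)^2 > 1`: a contradiction (`|E'| > 0`).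
`twelve`, `gooddiff`: there are `a, b ∈ E''` with `d = a - b`,
`|X| (|M| - |X|) ≤ 12 |M| lam X d`.  If `a = b` (`d = 0`) then `lam X d = 0`, so `|X| (|M| - |X|) = 0`; take `U' = U`, `X' = X`.
Otherwise `U' = U ∪ {a, b}`, `z' = z + b`, `X' = X ∪ (d +ᵥ X) ⊆ M`, `|X'| = |X| + lam X d` (`card_union_vadd`), and
`z' + X' ⊆ ΣU'`: `z + x + b` and `z + x + d + b = z + x + a` with `z + x ∈ ΣU`, `a, b ∉ U`
(`subsetSum_union`/`mem_subsetSum_iff`). -/
theorem fillstep (M : AddSubgroup G) (E' U X : Finset G) (y z : G) (hE : ∀ e ∈ E', e - y ∈ M)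
    (hM : 1 ≤ Nat.card M) (hd : Nat.card M ≤ 3 * E'.card)
    (hnc : ∀ M' : AddSubgroup G, M' < M → ∀ y' : G, ∀ F ⊆ E', (∀ e ∈ F, e - y' ∈ M') →
      2 * F.card ^ 2 ≤ E'.card ^ 2)
    (hU : U ⊆ E') (hU32 : 32 * U.card ≤ Nat.card M) (hX : ∀ x ∈ X, x ∈ M)
    (hXU : ∀ x ∈ X, z + x ∈ U.subsetSum) :
    ∃ (U' X' : Finset G) (z' : G), U' ⊆ E' ∧ U'.card ≤ U.card + 2 ∧ (∀ x ∈ X', x ∈ M) ∧
      (∀ x ∈ X', z' + x ∈ U'.subsetSum) ∧
      X.card * (Nat.card M - X.card) + 12 * (Nat.card M * X.card) ≤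
        12 * (Nat.card M * X'.card) := by
  set E2 : Finset G := E' \ U with hE2
  have hE2sub : E2 ⊆ E' := Finset.sdiff_subset
  have hcE2 : E2.card = E'.card - U.card := Finset.card_sdiff_of_subset hU
  have hUc : U.card ≤ E'.card := Finset.card_le_card hU
  have h29 : 29 * E'.card ≤ 32 * E2.card := by omega
  have hE'pos : 1 ≤ E'.card := by omega
  have hE2pos : 0 < E2.card := by omega
  obtain ⟨y0, hy0⟩ := Finset.card_pos.mp hE2pos
  set D : Finset G := E2 - E2 with hD
  have hD0 : (0 : G) ∈ D := by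
    rw [hD, Finset.mem_sub]
    exact ⟨y0, hy0, y0, hy0, sub_self y0⟩
  have hDs : ∀ d ∈ D, -d ∈ D := by
    intro d hd'
    rw [hD, Finset.mem_sub] at hd' ⊢
    obtain ⟨a, ha, b, hb, rfl⟩ := hd'
    exact ⟨b, hb, a, ha, by abel⟩
  have hDM : ∀ d ∈ D, d ∈ M := by
    intro d hd'
    rw [hD, Finset.mem_sub] at hd'
    obtain ⟨a, ha, b, hb, rfl⟩ := hd'
    have h1 := M.sub_mem (hE a (hE2sub ha)) (hE b (hE2sub hb))
    rwa [sub_sub_sub_cancel_right] at h1
  have hDc : E2.card ≤ D.card := by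
    rw [hD]
    exact Finset.card_le_card_sub_right ⟨y0, hy0⟩
  have hcl : AddSubgroup.closure (D : Set G) = M := by
    by_contra hne
    have hle : AddSubgroup.closure (D : Set G) ≤ M := by
      rw [AddSubgroup.closure_le]
      intro d hd'
      exact hDM d (Finset.mem_coe.mp hd')
    have hlt : AddSubgroup.closure (D : Set G) < M := lt_of_le_of_ne hle hne
    have h1 := hnc _ hlt y0 E2 hE2sub (by
      intro e he
      apply AddSubgroup.subset_closure
      rw [Finset.mem_coe, hD, Finset.mem_sub]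
      exact ⟨e, he, y0, hy0, rfl⟩)
    nlinarith [Nat.mul_le_mul h29 h29]
  have h12 := twelve M D hD0 hDs hcl (by omega)
  obtain ⟨d, hdD, hdX⟩ := gooddiff M D ⟨0, hD0⟩ h12 X hX
  have hdM := hDM d hdD
  rw [hD, Finset.mem_sub] at hdD
  obtain ⟨a, ha, b, hb, rfl⟩ := hdD
  by_cases hab : a = b
  · subst hab
    rw [sub_self, Pool.Agent.Lib.MP_d3cc86_co.lam_zero] at hdX
    refine ⟨U, X, z, hU, by omega, hX, hXU, ?_⟩
    simp only [mul_zero, Nat.le_zero] at hdX
    rw [hdX]
    omega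
  · have haU : a ∉ U := (Finset.mem_sdiff.mp ha).2
    have hbU : b ∉ U := (Finset.mem_sdiff.mp hb).2
    refine ⟨insert a (insert b U), X ∪ ((a - b) +ᵥ X), z + b, ?_, ?_, ?_, ?_, ?_⟩
    · intro x hx
      rw [Finset.mem_insert, Finset.mem_insert] at hx
      rcases hx with rfl | rfl | hx
      · exact hE2sub ha
      · exact hE2sub hb
      · exact hU hx
    · have h1 := Finset.card_insert_le a (insert b U)
      have h2 := Finset.card_insert_le b U
      omega
    · intro x hx
      rw [Finset.mem_union] at hx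
      rcases hx with hx | hx
      · exact hX x hx
      · rw [Finset.mem_vadd_finset] at hx
        obtain ⟨x', hx', rfl⟩ := hx
        exact M.add_mem hdM (hX x' hx')
    · intro x hx
      rw [Finset.mem_union] at hx
      rcases hx with hx | hx
      · obtain ⟨B, hB, hBs⟩ := Finset.mem_subsetSum_iff.mp (hXU x hx)
        rw [Finset.mem_subsetSum_iff]
        refine ⟨insert b B, ?_, ?_⟩
        · intro t ht
          rw [Finset.mem_insert] at ht ⊢
          rw [Finset.mem_insert]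
          rcases ht with ht | ht
          · exact Or.inr (Or.inl ht)
          · exact Or.inr (Or.inr (hB ht))
        · rw [Finset.sum_insert (fun h => hbU (hB h)), hBs]
          abel
      · rw [Finset.mem_vadd_finset] at hx
        obtain ⟨x', hx', rfl⟩ := hx
        obtain ⟨B, hB, hBs⟩ := Finset.mem_subsetSum_iff.mp (hXU x' hx')
        rw [Finset.mem_subsetSum_iff]
        refine ⟨insert a B, ?_, ?_⟩
        · intro t ht
          rw [Finset.mem_insert] at ht ⊢
          rw [Finset.mem_insert]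
          rcases ht with ht | ht
          · exact Or.inl ht
          · exact Or.inr (Or.inr (hB ht))
        · rw [Finset.sum_insert (fun h => haU (hB h)), hBs, vadd_eq_add]
          abel
    · rw [Pool.Agent.Lib.MP_d3cc86_co.card_union_vadd]
      have h3 : Nat.card M * (X.card + lam X (a - b)) =
          Nat.card M * X.card + Nat.card M * lam X (a - b) := by ring
      rw [h3]
      omega

end FX
end

section

set_option autoImplicit false
set_option linter.unusedSectionVars false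

open Finset Pointwise

namespace FX

open RG (stb mem_stb gg ph)
open SPR (T)
open AM
open Pool.Agent.Lib.MP_d3cc86_co (lam Asym symz)

variable {G : Type} [AddCommGroup G] [Fintype G] [DecidableEq G]

/-- As `AM.no_invol` (file `AM/Q1.lean`), for multisets: `μ = del μ a + Pi.single a 1`
(`del_add_single`), so `SM μ = SM (del μ a) + {0, a} = X ∪ (a +ᵥ X)` (`SM_add`, `SM_single`); then the
proof is the same. -/
theorem no_invol_m (μ : G → ℕ) (a : G) (ha : μ a ≠ 0) (hK : a ∉ stb (SM μ)) :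
    a + a ∉ stb (SM μ) := by
  intro h2
  apply hK
  have hS : SM μ = SM (del μ a) + {0, a} := by
    conv_lhs => rw [← del_add_single μ a ha]
    rw [SM_add, SM_single]
  have hsub : ∀ y ∈ SM (del μ a), y ∈ SM μ := fun y hy => SM_mono (del_le μ a) hy
  have step : ∀ y, y ∈ SM μ → y + a ∈ SM μ := by
    intro y hy
    rw [hS, Finset.mem_add] at hy
    obtain ⟨x, hx, z, hz, rfl⟩ := hy
    rw [Finset.mem_insert, Finset.mem_singleton] at hz
    rcases hz with hz | hz
    · rw [hS, Finset.mem_add]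
      refine ⟨x, hx, a, by simp, ?_⟩
      rw [hz, add_zero]
    · have := ((mem_stb _ _).1 h2 x).2 (hsub x hx)
      rw [hz, add_assoc]
      exact this
  rw [mem_stb]
  intro y
  refine ⟨fun hy => ?_, step y⟩
  have h3 := step _ hy
  rw [add_assoc] at h3
  exact ((mem_stb _ _).1 h2 y).1 h3

/-- The image of `SM μ` in `G ⧸ M` is the image of `SM (out M μ)`: `μ = res M μ + out M μ`
(`res_add_out`), `SM_add`, and `SM (res M μ) ⊆ M` (`SM_sub`) maps to `{0}`. -/
theorem image_out (M : AddSubgroup G) [DecidableEq (G ⧸ M)] (μ : G → ℕ) :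
    (SM μ).image (fun x => (QuotientAddGroup.mk x : G ⧸ M)) =
      (SM (out M μ)).image (fun x => (QuotientAddGroup.mk x : G ⧸ M)) := by
  ext t
  rw [Finset.mem_image, Finset.mem_image]
  constructor
  · rintro ⟨x, hx, rfl⟩
    rw [← res_add_out M μ, SM_add, Finset.mem_add] at hx
    obtain ⟨u, hu, v, hv, rfl⟩ := hx
    refine ⟨v, hv, ?_⟩
    have huM : u ∈ M := SM_sub (fun x hx => (res_ne hx).1) u hu
    rw [QuotientAddGroup.eq]
    have e : -v + (u + v) = u := by abel
    rwa [e]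
  · rintro ⟨x, hx, rfl⟩
    exact ⟨x, SM_mono (out_le M μ) hx, rfl⟩

/-- Let `M = stb (SM μ)`, `k = |M| ≥ 2`.  `ν0 = out M μ`; by `no_invol_m` `ν0 x ≠ 0 → x + x ∉ M`; so
`push` with `c = w |M|` (`class_mass` for `ν0`, which is `≤ μ`, `AS.mono`) gives `ν'` on `Q = G ⧸ M`.
`k |Q| = |G|` (`AddSubgroup.card_eq_card_quotient_mul_card_addSubgroup`), `Q` is cyclic
(`isAddCyclic_of_surjective (QuotientAddGroup.mk' M)`), `tot μ = tot (res M μ) + tot ν0` (`tot_split`) and
`in_mass`; `|SM μ| = |M| |image|` by `stb_image`, and the image is that of `SM ν0` (`image_out`). -/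
theorem periodic_step (hG : IsAddCyclic G) (w : ℕ) (μ : G → ℕ) (hAS : AS μ) (hb : ∀ x, μ x ≤ w)
    (hst : stb (SM μ) ≠ ⊥) : Red w μ := by
  classical
  have : Fintype (G ⧸ stb (SM μ)) := Fintype.ofFinite _
  have h1 : ∀ x, out (stb (SM μ)) μ x ≠ 0 → x + x ∉ stb (SM μ) := by
    intro x hx
    obtain ⟨h3, h4⟩ := out_ne hx
    exact no_invol_m μ x h4 h3
  obtain ⟨ν', hA, hB, hC, hD⟩ := push (stb (SM μ)) (out (stb (SM μ)) μ)
    (w * Nat.card (stb (SM μ))) h1 (fun x hx =>
      class_mass (stb (SM μ)) (out (stb (SM μ)) μ) w (AS.mono hAS (out_le _ _))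
        (fun y => (out_le _ _ y).trans (hb y)) x (h1 x hx))
  have hk : 1 < Nat.card (stb (SM μ)) := (AddSubgroup.one_lt_card_iff_ne_bot _).2 hst
  refine ⟨G ⧸ stb (SM μ), inferInstance, inferInstance, Nat.card (stb (SM μ)), ν', hk, ?_, ?_, hA,
    hB, ?_, ?_⟩
  · exact isAddCyclic_of_surjective (QuotientAddGroup.mk' (stb (SM μ)))
      (QuotientAddGroup.mk'_surjective (stb (SM μ)))
  · rw [AddSubgroup.card_eq_card_quotient_mul_card_addSubgroup (stb (SM μ)), mul_comm]
  · have h5 := in_mass (stb (SM μ)) μ w hAS hb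
    have h6 := tot_split (stb (SM μ)) μ
    omega
  · rw [hD, ← image_out, ← (stb_image (SM μ)).2]

end FX
end

section

set_option autoImplicit false
set_option linter.unusedSectionVars false

open Finset Pointwise

namespace FX

open RG (stb mem_stb gg ph)
open SPR (T)
open AM
open Pool.Agent.Lib.MP_d3cc86_co (lam Asym symz)

variable {G : Type} [AddCommGroup G] [Fintype G] [DecidableEq G]

/-- `k = max (9 k0, 10)` with `k0` from `iter`.  `localize` gives `M, y`, `E' = E.filter (e - y ∈ M)`;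
`|M| ≥ |K1| / 9 ≥ k0`.  Apply `iter` with `m = |M|` and `P j x`: there are `U ⊆ E'`, `|U| ≤ 2 j`, `X ⊆ M`, `|X| = x`, `z` with
`z + X ⊆ ΣU`.  `P 0 1`: `U = ∅`, `X = {0}`, `z = 0`.  The step is `fillstep` (`32 |U| ≤ 64 j ≤ m`; `|X'| ≤ |M|` since `X' ⊆ M`; the
hypothesis `hnc` follows from the last property in `localize`, since `F ⊆ E'.filter (e - y' ∈ M')`).
The result `P j |M|` with `64 j ≤ |M|`: `X = M`, `|U| ≤ 2 j`, `32 |U| ≤ 64 j ≤ |M|`. -/
theorem fill : ∃ k : ℕ, ∀ (G : Type) [AddCommGroup G] [Fintype G] [DecidableEq G] (E : Finset G)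
    (K1 : AddSubgroup G) (x : G), (∀ e ∈ E, e - x ∈ K1) → Nat.card K1 ≤ 3 * E.card →
    k ≤ Nat.card K1 → ∃ (M : AddSubgroup G) (U : Finset G) (z : G), U ⊆ E ∧
      (∀ m ∈ M, z + m ∈ U.subsetSum) ∧ 32 * U.card ≤ Nat.card M ∧ Nat.card K1 ≤ 9 * Nat.card M := by
  classical
  obtain ⟨k0, hk0⟩ := iter
  refine ⟨9 * k0, fun G _ _ _ E K1 x hE hd hk => ?_⟩
  obtain ⟨M, y, h9, h3, hnc⟩ := localize E K1 x hE hd
  obtain ⟨E', hE'⟩ : ∃ E' : Finset G, E' = E.filter (fun e => e - y ∈ M) := ⟨_, rfl⟩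
  rw [← hE'] at h3
  have hE'E : E' ⊆ E := by rw [hE']; exact Finset.filter_subset _ _
  have hE'M : ∀ e ∈ E', e - y ∈ M := by
    intro e he
    rw [hE', Finset.mem_filter] at he
    exact he.2
  have hM1 : 1 ≤ Nat.card M := Nat.card_pos
  have hnc' : ∀ M' : AddSubgroup G, M' < M → ∀ y' : G, ∀ F ⊆ E', (∀ e ∈ F, e - y' ∈ M') →
      2 * F.card ^ 2 ≤ E'.card ^ 2 := by
    intro M' hM' y' F hF hFy
    have h1 := hnc M' hM' y'
    rw [← hE'] at h1
    refine le_trans ?_ h1
    have h2 : F.card ≤ (E'.filter (fun e => e - y' ∈ M')).card := by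
      apply Finset.card_le_card
      intro e he
      rw [Finset.mem_filter]
      exact ⟨hF he, hFy e he⟩
    exact Nat.mul_le_mul_left _ (Nat.pow_le_pow_left h2 2)
  have hcard : ∀ X : Finset G, (∀ x ∈ X, x ∈ M) → X.card ≤ Nat.card M := by
    intro X hX
    rw [← card_sf M]
    exact Finset.card_le_card fun x hx => (mem_sf M x).2 (hX x hx)
  obtain ⟨j, hj, U, X, z, hU, hUc, hX, hXc, hXU⟩ := hk0 (Nat.card M)
    (fun j x => ∃ (U X : Finset G) (z : G), U ⊆ E' ∧ U.card ≤ 2 * j ∧ (∀ x ∈ X, x ∈ M) ∧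
      X.card = x ∧ ∀ x ∈ X, z + x ∈ U.subsetSum)
    (by omega)
    ⟨∅, {0}, 0, Finset.empty_subset _, by simp, by
        intro x hx
        rw [Finset.mem_singleton.1 hx]
        exact M.zero_mem, by simp, by
        intro x hx
        rw [Finset.mem_singleton.1 hx, Finset.mem_subsetSum_iff]
        exact ⟨∅, Finset.empty_subset _, by simp⟩⟩
    (by
      rintro j x ⟨U, X, z, hU, hUc, hX, hXc, hXU⟩ hx1 hxm hj
      obtain ⟨U', X', z', hU', hUc', hX', hXU', hineq⟩ := fillstep M E' U X y z hE'M hM1 h3 hnc' hU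
        (by omega) hX hXU
      rw [hXc] at hineq
      exact ⟨X'.card, hcard X' hX', hineq, U', X', z', hU', by omega, hX', rfl, hXU'⟩)
  have hXM : X = sf M := by
    apply Finset.eq_of_subset_of_card_le
    · intro x hx
      exact (mem_sf M x).2 (hX x hx)
    · rw [card_sf, hXc]
  refine ⟨M, U, z, hU.trans hE'E, ?_, by omega, h9⟩
  intro m hm
  apply hXU
  rw [hXM]
  exact (mem_sf M m).2 hm

end FX
end

section

set_option autoImplicit false
set_option linter.unusedSectionVars false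

open Finset Pointwise

namespace FX

open RG (stb mem_stb gg ph)
open SPR (T)
open AM
open Pool.Agent.Lib.MP_d3cc86_co (lam Asym symz)

private lemma numer (N s t w : ℕ) (hN : 10000 ≤ N) (hs : s ^ 2 < 25 * N) (ht : 32 * t ≤ N)
    (hw : 1 ≤ w) : t + w * s ≤ w * ((N - 1) / 2) := by
  have h1 : 20 * s ≤ N := by
    by_contra hc
    push Not at hc
    nlinarith
  have h2 : t ≤ w * (N / 32) := by
    have h3 : t ≤ N / 32 := by omega
    calc t ≤ N / 32 := h3
      _ = 1 * (N / 32) := (one_mul _).symm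
      _ ≤ w * (N / 32) := Nat.mul_le_mul_right _ hw
  have h4 : N / 32 + s ≤ (N - 1) / 2 := by omega
  calc t + w * s ≤ w * (N / 32) + w * s := by omega
    _ = w * (N / 32 + s) := by ring
    _ ≤ _ := Nat.mul_le_mul_left _ h4

private lemma tot_res_le {G : Type} [AddCommGroup G] [Fintype G] (M : AddSubgroup G) (μ : G → ℕ)
    (w : ℕ) (hb : ∀ x, μ x ≤ w) :
    tot (res M μ) ≤ w * ((sp μ).card - (off (sp μ) M).card) := by
  classical
  have h4 : ((sp μ).filter (fun x => x ∈ M)).card + (off (sp μ) M).card = (sp μ).card := by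
    have := Finset.card_filter_add_card_filter_not (s := sp μ) (fun x => x ∈ M)
    unfold off
    convert this
  have h5 : (sp μ).card - (off (sp μ) M).card = ((sp μ).filter (fun x => x ∈ M)).card := by omega
  rw [h5]
  unfold tot
  have h6 : ∀ x, res M μ x ≤ if x ∈ (sp μ).filter (fun x => x ∈ M) then w else 0 := by
    intro x
    by_cases h0 : res M μ x = 0
    · rw [h0]; exact Nat.zero_le _
    · obtain ⟨h7, h8⟩ := res_ne h0
      rw [if_pos (Finset.mem_filter.2 ⟨(mem_sp _ _).2 h8, h7⟩)]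
      exact (res_le M μ x).trans (hb x)
  refine (Finset.sum_le_sum fun x _ => h6 x).trans ?_
  rw [Finset.sum_ite_mem, Finset.univ_inter, Finset.sum_const, smul_eq_mul, mul_comm]

/-- `k = max (k1, 9 · 10000)` with `k1` from `fill`.  `E = (sp μ).filter (y - x ∈ K1)`; `fill` gives `M1, U1 ⊆ E`, `z`, and
`U = ind U1 ≤ μ` (`ind_le_sp`, `ind_mono`, `SM_ind`, `tot_ind`) shows that `M1` is good, `|M1| ≥ 10000`.  Let `M` be a good subgroup
with `|M|` maximal (finitely many subgroups), `|M| ≥ 10000`, with `U, z`.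
Let `ρ = μ - U` (pointwise), `ν0 = out M ρ`.  If `ν0 x ≠ 0` then `x ∉ M`, `U x < μ x`, so `x + x ∉ M` by `good_invol` and
maximality.  `push M ν0 (w |M|)` with `class_mass` (`ν0 ≤ μ`): `ν'` on `Q = G ⧸ M`.  `star_count` with `X = sf M`
(`U + ν0 ≤ μ`): `|M| |SM ν'| ≤ |SM μ|`.
`tot μ = tot U + tot (res M ρ) + tot ν0`.  `tot (res M ρ) ≤ tot (res M μ) ≤ w |sp μ ∩ M|` and
`|sp μ ∩ M|^2 < 25 |M|` (`sparse_in` for `V = sp μ`; `stb V.subsetSum = ⊥` by `SM_ind`, `ind_le_sp`, `ap_mono`; `|sp μ ∩ M| = |V| - |off V M|`).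
So `tot U + tot (res M ρ) ≤ |M| / 32 + 5 w √|M| ≤ w ⌊(|M| - 1)/2⌋` as `|M| ≥ 10000` (`5 √|M| ≤ |M| / 20`).
`Q` is cyclic, `|M| |Q| = |G|`. -/
theorem fillmain : ∃ k : ℕ, ∀ (G : Type) [AddCommGroup G] [Fintype G] [DecidableEq G] (w : ℕ)
    (μ : G → ℕ) (K1 : AddSubgroup G) (x : G), IsAddCyclic G → 1 ≤ w → AS μ → (∀ x, μ x ≤ w) →
    stb (SM μ) = ⊥ → k ≤ Nat.card K1 →
    Nat.card K1 ≤ 3 * (Set.ncard {y | μ y ≠ 0 ∧ y - x ∈ K1}) → Red w μ := by
  obtain ⟨k1, hfill⟩ := fill
  refine ⟨max k1 90000, ?_⟩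
  intro G _ _ _ w μ K1 x hcyc hw hAS hb hap hk hd
  classical
  -- the filled subgroup from `fill`
  have hE : {y | μ y ≠ 0 ∧ y - x ∈ K1}.ncard = ((sp μ).filter (fun y => y - x ∈ K1)).card := by
    rw [← Set.ncard_coe_finset]
    congr 1
    ext y
    simp [mem_sp]
  rw [hE] at hd
  obtain ⟨M1, U1, z1, hU1, hz1, hc1, hcard1⟩ := hfill G ((sp μ).filter (fun y => y - x ∈ K1)) K1 x
    (fun e he => (Finset.mem_filter.1 he).2) hd ((le_max_left _ _).trans hk)
  have hN1 : 10000 ≤ Nat.card M1 := by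
    have := (le_max_right k1 90000).trans hk
    omega
  have hgood1 : Good μ M1 := by
    refine ⟨ind U1, z1, fun y => ?_, fun m hm => ?_, ?_⟩
    · exact (ind_mono (hU1.trans (Finset.filter_subset _ _)) y).trans (ind_le_sp y)
    · have h := hz1 m hm
      rw [SM_ind]
      exact h
    · rw [tot_ind]; exact hc1
  -- a maximal good subgroup
  obtain ⟨M, hM, hmax⟩ := Set.exists_max_image {M | Good μ M} (fun M => Nat.card M)
    (Set.toFinite _) ⟨M1, hgood1⟩
  obtain ⟨U, z, hU, hz, hc⟩ := hM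
  have hNM : 10000 ≤ Nat.card M := hN1.trans (hmax M1 hgood1)
  -- the rest
  set ρ : G → ℕ := fun y => μ y - U y with hρ
  have hUρ : U + ρ = μ := by
    funext y
    rw [Pi.add_apply, hρ]
    have := hU y
    show U y + (μ y - U y) = μ y
    omega
  have hρμ : ∀ y, ρ y ≤ μ y := fun y => Nat.sub_le _ _
  have hν0 : ∀ y, out M ρ y ≤ μ y := fun y => (out_le M ρ y).trans (hρμ y)
  have h1 : ∀ y, out M ρ y ≠ 0 → y + y ∉ M := by
    intro y hy hyy
    obtain ⟨h3, h4⟩ := out_ne hy
    have h5 : U y < μ y := by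
      have h6 : μ y - U y ≠ 0 := h4
      omega
    obtain ⟨M', hM', hlt⟩ := good_invol μ U M z hU hz hc (by omega) y h5 h3 hyy
    have := hmax M' hM'
    omega
  have : Fintype (G ⧸ M) := Fintype.ofFinite _
  have hAS0 : AS (out M ρ) := AS.mono hAS hν0
  obtain ⟨ν', hA, hB, hC, hD⟩ := push M (out M ρ) (w * Nat.card M) h1 (fun y hy =>
      class_mass M (out M ρ) w hAS0 (fun y => (hν0 y).trans (hb y)) y (h1 y hy))
  have hle : ∀ y, U y + out M ρ y ≤ μ y := by
    intro y
    have h3 := out_le M ρ y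
    have h4 : U y + ρ y = μ y := congrFun hUρ y
    omega
  have hstar := star_count M U (out M ρ) μ hle (sf M) (fun y hy => (mem_sf M y).1 hy) z
    (fun y hy => hz y ((mem_sf M y).1 hy))
  rw [card_sf] at hstar
  refine ⟨G ⧸ M, inferInstance, inferInstance, Nat.card M, ν', by omega, ?_, ?_, hA, hB, ?_, ?_⟩
  · exact isAddCyclic_of_surjective (QuotientAddGroup.mk' M) (QuotientAddGroup.mk'_surjective M)
  · rw [AddSubgroup.card_eq_card_quotient_mul_card_addSubgroup M, mul_comm]
  · have h5 : tot μ = tot U + tot ρ := by rw [← tot_add, hUρ]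
    have h6 := tot_split M ρ
    have h7 : tot (res M ρ) ≤ tot (res M μ) := by
      apply tot_mono
      intro y
      unfold res
      split_ifs
      · exact hρμ y
      · exact le_rfl
    have h8 := tot_res_le M μ w hb
    have hst : stb (sp μ).subsetSum = ⊥ := by
      rw [← SM_ind]
      exact ap_mono ind_le_sp hap
    have h9 := sparse_in (sp μ) hAS.asym hst M
    have h10 := numer (Nat.card M) _ (tot U) w hNM h9 hc hw
    omega
  · rw [hD]
    exact hstar

end FX
end
end
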