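import Mathlib
import Pool.Agent.Lib.MP_d3cc86_co.AM.U1
import Pool.Agent.Lib.MP_d3cc86_co.Fill
import Pool.Agent.Lib.MP_d3cc86_co.FX.Defs

section

set_option autoImplicit false
set_option linter.unusedSectionVars false

open Finset Pointwise

namespace FX

open RG (stb mem_stb gg ph)
open SPR (T)
open AM
open Pool.Agent.Lib.MP_d3cc86_co (lam Asym symz)

variable {G : Type} [AddCommGroup G] [Fintype G] (K : AddSubgroup G) (l : G)

open Classical in
/-- the column `i` -/
private noncomputable def colm (i : ℕ) : Finset G :=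
  univ.filter (fun x => x ∈ Dd K l ∧ ps K l x = i)

private theorem colm_card (i : ℕ) : (colm K l i).card ≤ Nat.card K := by
  classical
  rw [← card_sf]
  refine Finset.card_le_card_of_injOn (fun x => x - i • l) ?_ ?_
  · intro x hx
    have hx' : x ∈ Dd K l ∧ ps K l x = i := by
      simpa [colm] using hx
    have h1 := ps_spec K l hx'.1
    rw [hx'.2] at h1
    simpa [mem_sf] using h1
  · intro x _ y _ hxy
    exact sub_left_injective hxy

private theorem colm_sum_le (μ : G → ℕ) (w i : ℕ) (hb : ∀ x, μ x ≤ w) :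
    ∑ x ∈ colm K l i, μ x ≤ w * Nat.card K := by
  calc ∑ x ∈ colm K l i, μ x ≤ ∑ _x ∈ colm K l i, w := Finset.sum_le_sum fun x _ => hb x
    _ = (colm K l i).card * w := by rw [Finset.sum_const, smul_eq_mul]
    _ ≤ Nat.card K * w := Nat.mul_le_mul_right _ (colm_card K l i)
    _ = w * Nat.card K := Nat.mul_comm _ _

private theorem colm_sum_bad (μ : G → ℕ) (w i : ℕ) (hb : ∀ x, μ x ≤ w) (hi : i < per K l)
    (hg : ¬ gc K l μ i) : ∑ x ∈ colm K l i, μ x + w ≤ w * Nat.card K := by
  classical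
  unfold gc at hg
  push Not at hg
  obtain ⟨κ, hκ, h0⟩ := hg
  have h1 : (κ + i • l) - i • l ∈ K := by
    rw [add_sub_cancel_right]
    exact hκ
  have hmem : κ + i • l ∈ colm K l i := by
    unfold colm
    rw [Finset.mem_filter]
    exact ⟨Finset.mem_univ _, mem_Dd_of K l h1, ps_eq K l h1 hi⟩
  have h2 := Finset.add_sum_erase (colm K l i) μ hmem
  rw [h0, zero_add] at h2
  have h3 : ∑ x ∈ (colm K l i).erase (κ + i • l), μ x ≤
      ((colm K l i).erase (κ + i • l)).card * w := by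
    calc ∑ x ∈ (colm K l i).erase (κ + i • l), μ x
        ≤ ∑ _x ∈ (colm K l i).erase (κ + i • l), w := Finset.sum_le_sum fun x _ => hb x
      _ = ((colm K l i).erase (κ + i • l)).card * w := by rw [Finset.sum_const, smul_eq_mul]
  have h4 : ((colm K l i).erase (κ + i • l)).card + 1 = (colm K l i).card :=
    Finset.card_erase_add_one hmem
  calc ∑ x ∈ colm K l i, μ x + w ≤ ((colm K l i).erase (κ + i • l)).card * w + w := by omega
    _ = (((colm K l i).erase (κ + i • l)).card + 1) * w := by ring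
    _ = (colm K l i).card * w := by rw [h4]
    _ ≤ Nat.card K * w := Nat.mul_le_mul_right _ (colm_card K l i)
    _ = w * Nat.card K := Nat.mul_comm _ _

private theorem tot_low (μ : G → ℕ) (T : ℕ) :
    tot (low K l μ T) = ∑ i ∈ range (T + 1), ∑ x ∈ colm K l i, μ x := by
  classical
  unfold tot low
  rw [← Finset.sum_filter]
  rw [← Finset.sum_fiberwise_of_maps_to (t := range (T + 1)) (g := fun x => ps K l x)]
  · refine Finset.sum_congr rfl fun i hi => ?_
    refine Finset.sum_congr ?_ fun _ _ => rfl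
    ext x
    unfold colm
    simp only [Finset.mem_filter, Finset.mem_univ, true_and]
    have hi' : i < T + 1 := Finset.mem_range.1 hi
    constructor
    · rintro ⟨⟨h1, _⟩, h3⟩
      exact ⟨h1, h3⟩
    · rintro ⟨h1, h3⟩
      exact ⟨⟨h1, by omega⟩, h3⟩
  · intro x hx
    rw [Finset.mem_filter] at hx
    rw [Finset.mem_range]
    omega

/-- Column masses.  `{x ∈ Dd : ps x ≤ T}` is the disjoint union of the columns `{κ + i l : κ ∈ K}`, `0 ≤ i ≤ T`
(`T < per`; `ps_eq`, `ps_spec`).  A column has `h = |K|` elements, so mass `≤ w h`; a column `i ≥ 1` which is not `gc` has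
an element with `μ = 0`, so mass `≤ w (h - 1)`.  Sum up. -/
theorem low_mass (μ : G → ℕ) (w T : ℕ) (hb : ∀ x, μ x ≤ w) (hT : T < per K l) :
    tot (low K l μ T) + w * nb K l μ T ≤ w * (Nat.card K * (T + 1)) := by
  classical
  have h1 : w * nb K l μ T = ∑ i ∈ range (T + 1),
      (if i ∈ (Icc 1 T).filter (fun i => ¬ gc K l μ i) then w else 0) := by
    rw [← Finset.sum_filter, Finset.sum_const, smul_eq_mul]
    have h2 : (range (T + 1)).filter (fun i => i ∈ (Icc 1 T).filter (fun i => ¬ gc K l μ i)) =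
        (Icc 1 T).filter (fun i => ¬ gc K l μ i) := by
      ext i
      simp only [Finset.mem_filter, Finset.mem_range, Finset.mem_Icc]
      constructor
      · rintro ⟨_, h⟩
        exact h
      · rintro ⟨⟨h1, h2⟩, h3⟩
        exact ⟨by omega, ⟨h1, h2⟩, h3⟩
    rw [h2]
    unfold nb
    rw [Nat.mul_comm]
  rw [h1, tot_low, ← Finset.sum_add_distrib]
  calc ∑ i ∈ range (T + 1), (∑ x ∈ colm K l i, μ x +
        (if i ∈ (Icc 1 T).filter (fun i => ¬ gc K l μ i) then w else 0))
      ≤ ∑ _i ∈ range (T + 1), w * Nat.card K := by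
        refine Finset.sum_le_sum fun i hi => ?_
        have hi' : i < T + 1 := Finset.mem_range.1 hi
        by_cases hB : i ∈ (Icc 1 T).filter (fun i => ¬ gc K l μ i)
        · rw [if_pos hB]
          exact colm_sum_bad K l μ w i hb (by omega) (Finset.mem_filter.1 hB).2
        · rw [if_neg hB, add_zero]
          exact colm_sum_le K l μ w i hb
    _ = w * (Nat.card K * (T + 1)) := by
        rw [Finset.sum_const, Finset.card_range, smul_eq_mul]
        ring

/-- `h = |K| ≥ 1`.  `(p - 1) s ≤ p · tot low ≤ p (w h (T+1) - w β)` (`low_mass`, `β = nb`), and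
`p w T h ≤ (p+1) s`.  So `(p-1) p w T h ≤ (p+1) p (w h (T+1) - w β)`, `(p+1) β ≤ (p+1) h (T+1) - (p-1) h T =
2 h T + (p+1) h`.  Multiply by `64`: `64 (p+1) β ≤ 128 h T + 64 (p+1) h ≤ (p+1) T` since `p + 1 ≥ 256 h`, `T ≥ 128 h`. -/
theorem bad_le (μ : G → ℕ) (w T p : ℕ) (hw : 1 ≤ w) (hb : ∀ x, μ x ≤ w) (hT : T < per K l)
    (hp : 1000 * Nat.card K ≤ p) (hT1 : 1000 * Nat.card K ≤ T)
    (hm : p * tot μ ≤ p * tot (low K l μ T) + tot μ)
    (hc : p * (w * (T * Nat.card K)) ≤ (p + 1) * tot μ) : 64 * nb K l μ T ≤ T := by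
  have hlow := low_mass K l μ w T hb hT
  have hh : 0 < Nat.card K := Nat.card_pos
  generalize Nat.card K = h at *
  generalize tot μ = s at *
  generalize tot (low K l μ T) = L at *
  generalize nb K l μ T = β at *
  have hp0 : 1 ≤ p := by omega
  have hp1 : (1 : ℤ) ≤ p := by exact_mod_cast hp0
  have hw1 : (1 : ℤ) ≤ w := by exact_mod_cast hw
  have hh1 : (1 : ℤ) ≤ h := by exact_mod_cast hh
  have a1 : (p : ℤ) * s ≤ p * L + s := by exact_mod_cast hm
  have a2 : (p : ℤ) * (w * (T * h)) ≤ (p + 1) * s := by exact_mod_cast hc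
  have a3 : (L : ℤ) + w * β ≤ w * (h * (T + 1)) := by exact_mod_cast hlow
  have a4 : (1000 : ℤ) * h ≤ p := by exact_mod_cast hp
  have a5 : (1000 : ℤ) * h ≤ T := by exact_mod_cast hT1
  have hT0 : (0 : ℤ) ≤ T := Int.natCast_nonneg T
  have b1 := mul_le_mul_of_nonneg_left a1 (show (0 : ℤ) ≤ p + 1 by linarith)
  have b2 := mul_le_mul_of_nonneg_left a2 (show (0 : ℤ) ≤ p - 1 by linarith)
  have b3 := mul_le_mul_of_nonneg_left a3
    (show (0 : ℤ) ≤ (p + 1) * p from mul_nonneg (by linarith) (by linarith))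
  have c1 : (p * w : ℤ) * ((p + 1) * β) ≤ (p * w) * (2 * h * T + (p + 1) * h) := by
    linarith [b1, b2, b3]
  have c2 : ((p : ℤ) + 1) * β ≤ 2 * h * T + (p + 1) * h :=
    le_of_mul_le_mul_left c1 (mul_pos (by linarith) (by linarith))
  have d1 := mul_le_mul_of_nonneg_right a4 hT0
  have d2 := mul_le_mul_of_nonneg_left a5 (show (0 : ℤ) ≤ p + 1 by linarith)
  have d3 : (0 : ℤ) ≤ (p + 1) * T := mul_nonneg (by linarith) hT0
  have c3 : ((p : ℤ) + 1) * (64 * β) ≤ (p + 1) * T := by
    linarith [c2, d1, d2, d3]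
  have c4 : (64 : ℤ) * β ≤ T := le_of_mul_le_mul_left c3 (by linarith)
  exact_mod_cast c4

end FX
end

section

section

set_option autoImplicit false
set_option linter.unusedSectionVars false

open Finset Pointwise

namespace FX

variable {Γ Δ : Type} [AddCommGroup Γ] [AddCommGroup Δ] [DecidableEq Γ] [DecidableEq Δ]

/-- `ker π = ⟨2 z⟩`.  For every class `c ∈ π((k+1) • S)` let `F_c` be its fibre in `(k+1) • S` and
`B_c = {b ∈ k • S : π b + π z = c}`; note `π z = π (-z)` (`π (z + z) = 0`).  `B_c` lies in one coset of `⟨2 z⟩`, and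
`(z + B_c) ∪ (-z + B_c) ⊆ F_c`.  If `B_c` is nonempty let `b` be its element of largest height `ht`; `b + z` is in
`z + B_c` but not in `-z + B_c` (its height is larger than all heights there), so `|F_c| ≥ |B_c| + 1`.  If `B_c` is
empty, `|F_c| ≥ 1`.  Sum over `c`: `|(k+1) • S| = ∑ |F_c| ≥ ∑_c |B_c| + |π((k+1) • S)|`, and `∑_c |B_c| = |k • S|` because
every `b ∈ k • S` is in `B_c` for `c = π (b + z) ∈ π((k+1) • S)`.  (`Finset.card_eq_sum_card_fiberwise`.) -/
theorem s1 (S : Finset Γ) (z : Γ) (hz : z ∈ S) (hz' : -z ∈ S) (ht : Γ →+ ℤ) (hpos : 0 < ht z)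
    (π : Γ →+ Δ) (hπ : ∀ x, π x = 0 ↔ x ∈ AddSubgroup.zmultiples (z + z)) (k : ℕ) :
    (k • S).card + (((k + 1) • S).image π).card ≤ ((k + 1) • S).card := by
  have hzz : π z + π z = 0 := by
    rw [← map_add]
    exact (hπ _).2 (AddSubgroup.mem_zmultiples _)
  have hadd : ∀ b ∈ k • S, ∀ y ∈ S, b + y ∈ (k + 1) • S := by
    intro b hb y hy
    rw [succ_nsmul]
    exact Finset.add_mem_add hb hy
  have h1 : (k • S).card = ∑ c ∈ ((k + 1) • S).image π, ((k • S).filter fun b => π b + π z = c).card := by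
    refine Finset.card_eq_sum_card_fiberwise fun b hb => ?_
    have h2 := Finset.mem_image_of_mem π (hadd b hb z hz)
    rw [map_add] at h2
    exact h2
  have h2 : ((k + 1) • S).card =
      ∑ c ∈ ((k + 1) • S).image π, (((k + 1) • S).filter fun b => π b = c).card :=
    Finset.card_eq_sum_card_fiberwise fun b hb => Finset.mem_image_of_mem π hb
  rw [h1, h2, Finset.card_eq_sum_ones, ← Finset.sum_add_distrib]
  refine Finset.sum_le_sum fun c hc => ?_
  rcases Finset.eq_empty_or_nonempty ((k • S).filter fun b => π b + π z = c) with he | hne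
  · rw [he, Finset.card_empty, zero_add]
    obtain ⟨a, ha, rfl⟩ := Finset.mem_image.1 hc
    exact Finset.card_pos.2 ⟨a, Finset.mem_filter.2 ⟨ha, rfl⟩⟩
  · obtain ⟨b, hb, hmax⟩ := Finset.exists_max_image _ (fun x => ht x) hne
    have hb' := Finset.mem_filter.1 hb
    set B := (k • S).filter fun b => π b + π z = c with hB
    have hnot : b + z ∉ B.image fun x => x + -z := by
      intro h
      obtain ⟨b', hb1, hb2⟩ := Finset.mem_image.1 h
      have h3 := hmax b' hb1
      have h4 : ht b' + -ht z = ht b + ht z := by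
        rw [← map_neg, ← map_add, hb2, map_add]
      have h5 : ht b' ≤ ht b := h3
      linarith
    have hcard : (B.image fun x => x + -z).card = B.card :=
      Finset.card_image_of_injective _ (add_left_injective (-z))
    rw [← hcard, ← Finset.card_insert_of_notMem hnot]
    refine Finset.card_le_card ?_
    intro x hx
    rw [Finset.mem_insert] at hx
    rcases hx with rfl | hx
    · refine Finset.mem_filter.2 ⟨hadd b hb'.1 z hz, ?_⟩
      rw [map_add]
      exact hb'.2
    · obtain ⟨b', hb1, rfl⟩ := Finset.mem_image.1 hx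
      have hb2 := Finset.mem_filter.1 hb1
      refine Finset.mem_filter.2 ⟨hadd b' hb2.1 (-z) hz', ?_⟩
      rw [map_add, map_neg, ← hb2.2, neg_eq_of_add_eq_zero_left hzz]

/-- Every fibre of `π` on `S` has at most two elements: if `x, y ∈ S`, `π x = π y` then `x - y = j (2 z)`,
`|ht x - ht y| = 2 |j| ht z ≤ 2 ht z`, so `|j| ≤ 1`; three different elements `x, y, w` of a fibre would have
pairwise differences `± 2 z`, but `x - w = (x - y) + (y - w) ∈ {0, ± 4 z}`, a contradiction.
(`Finset.card_le_mul_card_image`.) -/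
theorem s2 (S : Finset Γ) (z : Γ) (ht : Γ →+ ℤ) (hpos : 0 < ht z) (hmax : ∀ x ∈ S, |ht x| ≤ ht z)
    (π : Γ →+ Δ) (hπ : ∀ x, π x = 0 ↔ x ∈ AddSubgroup.zmultiples (z + z)) :
    S.card ≤ 2 * (S.image π).card := by
  refine Finset.card_le_mul_card_image S 2 fun c _ => ?_
  by_contra hc
  rw [not_le, Finset.two_lt_card] at hc
  obtain ⟨x, hx, y, hy, w, hw, hxy, hxw, hyw⟩ := hc
  have key : ∀ a ∈ S, ∀ b ∈ S, π a = π b → a ≠ b →
      ht a - ht b = 2 * ht z ∨ ht a - ht b = -(2 * ht z) := by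
    intro a ha b hb hab hne
    have h1 : π (a - b) = 0 := by rw [map_sub, hab, sub_self]
    obtain ⟨j, hj⟩ := AddSubgroup.mem_zmultiples_iff.1 ((hπ _).1 h1)
    have h2 : ht a - ht b = j * (2 * ht z) := by
      rw [← map_sub, ← hj, map_zsmul, map_add, smul_eq_mul]
      ring
    have h3 := abs_le.1 (hmax a ha)
    have h4 := abs_le.1 (hmax b hb)
    have h5 : j ≠ 0 := by
      rintro rfl
      rw [zero_smul] at hj
      exact hne (sub_eq_zero.1 hj.symm)
    have h6 : j ≤ 1 := by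
      by_contra h
      have : 2 ≤ j := by omega
      nlinarith
    have h7 : -1 ≤ j := by
      by_contra h
      have : j ≤ -2 := by omega
      nlinarith
    have h8 : j = 1 ∨ j = -1 := by omega
    rcases h8 with rfl | rfl
    · left; rw [h2]; ring
    · right; rw [h2]; ring
  rw [Finset.mem_filter] at hx hy hw
  have e1 := key x hx.1 y hy.1 (hx.2.trans hy.2.symm) hxy
  have e2 := key y hy.1 w hw.1 (hy.2.trans hw.2.symm) hyw
  have e3 := key x hx.1 w hw.1 (hx.2.trans hw.2.symm) hxw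
  omega

end FX
end

section

set_option autoImplicit false
set_option linter.unusedSectionVars false

open Finset Pointwise

namespace FX

variable {Γ Δ : Type} [AddCommGroup Γ] [AddCommGroup Δ] [DecidableEq Γ] [DecidableEq Δ]

/-- For `a, b ∈ X` the sets `a + X`, `b + X` are subsets of `X + X` with `|X|` elements, so
`|(a + X) ∩ (b + X)| ≥ 2 |X| - |X + X| > |X| / 2`.  Hence for `d = a + b ∈ X + X`, `-b ∈ X`: the set
`P_d = {y ∈ X : y + d ∈ X}` has more than `|X| / 2` elements (`y + a = x + (-b)`: the common elements of `a + X` and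
`-b + X` are `a + y = -b + x`, so `y + d = x`).  For `d, d' ∈ X + X` also `-d' ∈ X + X` (symmetry), so `P_d` and `P_{-d'}` have
a common element `y`: `y + d ∈ X`, `y - d' ∈ X`, and `d + d' = (y + d) + (-(y - d')) ∈ X + X`. -/
theorem s3 (X : Finset Δ) (hs : ∀ x ∈ X, -x ∈ X) (h : 2 * (X + X).card < 3 * X.card) :
    ∀ a ∈ X + X, ∀ b ∈ X + X, a + b ∈ X + X := by
  have key : ∀ d ∈ X + X, X.card < 2 * (X.filter (fun y => y + d ∈ X)).card := by
    intro d hd
    obtain ⟨a, ha, b, hb, rfl⟩ := Finset.mem_add.1 hd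
    have h1 : (a +ᵥ X) ∪ (-b +ᵥ X) ⊆ X + X := by
      intro u hu
      rw [Finset.mem_union, Finset.mem_vadd_finset, Finset.mem_vadd_finset] at hu
      rcases hu with ⟨y, hy, rfl⟩ | ⟨y, hy, rfl⟩
      · exact Finset.add_mem_add ha hy
      · exact Finset.add_mem_add (hs b hb) hy
    have h2 := Finset.card_union_add_card_inter (a +ᵥ X) (-b +ᵥ X)
    rw [Finset.card_vadd_finset, Finset.card_vadd_finset] at h2
    have h3 := Finset.card_le_card h1
    have h4 : ((a +ᵥ X) ∩ (-b +ᵥ X)).card ≤ (X.filter (fun y => y + (a + b) ∈ X)).card := by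
      refine Finset.card_le_card_of_injOn (fun u => u - a) ?_ ?_
      · intro u hu
        rw [Finset.mem_coe, Finset.mem_inter, Finset.mem_vadd_finset, Finset.mem_vadd_finset] at hu
        obtain ⟨⟨y, hy, h5⟩, ⟨x, hx, h6⟩⟩ := hu
        rw [vadd_eq_add] at h5 h6
        rw [Finset.mem_coe, Finset.mem_filter]
        dsimp only
        constructor
        · have h7 : u - a = y := by rw [← h5]; abel
          rw [h7]; exact hy
        · have h7 : u - a + (a + b) = x := by
            have h8 : u - a + (a + b) = u + b := by abel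
            rw [h8, ← h6]; abel
          rw [h7]; exact hx
      · intro u _ v _ huv
        exact sub_left_injective huv
    omega
  intro d hd e he
  have he' : -e ∈ X + X := by
    obtain ⟨a, ha, b, hb, rfl⟩ := Finset.mem_add.1 he
    have : -(a + b) = -a + -b := by abel
    rw [this]
    exact Finset.add_mem_add (hs a ha) (hs b hb)
  have h1 := key d hd
  have h2 := key (-e) he'
  have h3 : ((X.filter (fun y => y + d ∈ X)) ∩ (X.filter (fun y => y + -e ∈ X))).Nonempty := by
    rw [← Finset.card_pos]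
    have h4 := Finset.card_union_add_card_inter (X.filter (fun y => y + d ∈ X))
      (X.filter (fun y => y + -e ∈ X))
    have h5 : ((X.filter (fun y => y + d ∈ X)) ∪ (X.filter (fun y => y + -e ∈ X))).card ≤ X.card :=
      Finset.card_le_card (Finset.union_subset (Finset.filter_subset _ _) (Finset.filter_subset _ _))
    omega
  obtain ⟨y, hy⟩ := h3
  rw [Finset.mem_inter, Finset.mem_filter, Finset.mem_filter] at hy
  have h4 : d + e = (y + d) + -(y + -e) := by abel
  rw [h4]
  exact Finset.add_mem_add hy.1.2 (hs _ hy.2.2)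

/-- Let `Y = S.image π`, `a_i = |i • Y|`; `(i • S).image π = i • Y` (`Finset.image_nsmul`-like); `a_i` is increasing
(`0 ∈ Y`).  By `s1`, summed over `k = 8, …, K - 1`: `|K • S| ≥ |8 • S| + (K - 8) a_8 ≥ (K - 8) a_8`.  Suppose that
`2 a_{2i} ≥ 3 a_i` for `i = 1, 2, 4`.  Then `8 a_8 ≥ 27 a_1`, and `|S| ≤ 2 a_1` (`s2`), so `16 a_8 ≥ 27 |S|` and
`27 (K - 8) |S| ≤ 16 (K-8) a_8 ≤ 16 (K+1) |S|`: false for `K ≥ 32`.  So for some `i ∈ {1,2,4}`
`2 |X + X| < 3 |X|`, `X = i • Y`, and `X + X = (2 i) • Y` is closed under addition (`s3`), symmetric, contains `0`: it is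
(the carrier of) a subgroup `H`, finite, it contains `Y` (`Y ⊆ (2i) • Y` as `0 ∈ Y`), and `|H| = a_{2i} ≤ a_8`,
so `(K - 8) |H| ≤ |K • S| ≤ (K+1) |S|`. -/
theorem s4 (S : Finset Γ) (z : Γ) (hz : z ∈ S) (h0 : (0 : Γ) ∈ S) (hs : ∀ x ∈ S, -x ∈ S)
    (ht : Γ →+ ℤ) (hpos : 0 < ht z) (hmax : ∀ x ∈ S, |ht x| ≤ ht z) (π : Γ →+ Δ)
    (hπ : ∀ x, π x = 0 ↔ x ∈ AddSubgroup.zmultiples (z + z)) (K : ℕ) (hK : 32 ≤ K)
    (h : (K • S).card ≤ (K + 1) * S.card) :
    ∃ H : AddSubgroup Δ, Finite H ∧ (∀ x ∈ S, π x ∈ H) ∧ (K - 8) * Nat.card H ≤ (K + 1) * S.card := by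
  set Y := S.image π with hY
  have hi : ∀ i : ℕ, (i • S).image π = i • Y := fun i => Finset.image_nsmul π S i
  have h0Y : (0 : Δ) ∈ Y := Finset.mem_image.2 ⟨0, h0, map_zero π⟩
  have hsY : ∀ y ∈ Y, -y ∈ Y := by
    intro y hy
    obtain ⟨x, hx, rfl⟩ := Finset.mem_image.1 hy
    exact Finset.mem_image.2 ⟨-x, hs x hx, map_neg π x⟩
  have hmono : ∀ {i j : ℕ}, i ≤ j → (i • Y).card ≤ (j • Y).card := fun hij =>
    Finset.card_le_card (Pool.Agent.Lib.MP_d3cc86_co.nsmul_mono_zero h0Y hij)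
  have hsum : ∀ k, (k - 8) * (8 • Y).card ≤ (k • S).card := by
    intro k
    induction k with
    | zero => simp
    | succ k ih =>
      have h1 := s1 S z hz (hs z hz) ht hpos π hπ k
      rw [hi] at h1
      rcases Nat.lt_or_ge k 8 with h8 | h8
      · have : k + 1 - 8 = 0 := by omega
        rw [this, Nat.zero_mul]; exact Nat.zero_le _
      · have h2 := hmono (i := 8) (j := k + 1) (by omega)
        have h3 : k + 1 - 8 = (k - 8) + 1 := by omega
        rw [h3, Nat.add_mul, Nat.one_mul]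
        omega
  have hK8 := hsum K
  have hS2 := s2 S z ht hpos hmax π hπ
  rw [← hY] at hS2
  have hsn : ∀ (i : ℕ), ∀ y ∈ i • Y, -y ∈ i • Y := by
    intro i
    induction i with
    | zero =>
      intro y hy
      rw [zero_nsmul, Finset.mem_zero] at hy ⊢
      rw [hy, neg_zero]
    | succ i ih =>
      intro y hy
      rw [succ_nsmul] at hy ⊢
      obtain ⟨a, ha, b, hb, rfl⟩ := Finset.mem_add.1 hy
      have : -(a + b) = -a + -b := by abel
      rw [this]
      exact Finset.add_mem_add (ih a ha) (hsY b hb)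
  have h0n : ∀ i : ℕ, (0 : Δ) ∈ i • Y := by
    intro i
    exact Pool.Agent.Lib.MP_d3cc86_co.nsmul_mono_zero h0Y (Nat.zero_le i)
      (by rw [zero_nsmul]; exact Finset.mem_zero.2 rfl)
  have build : ∀ i : ℕ, 1 ≤ i → i ≤ 4 → 2 * ((2 * i) • Y).card < 3 * (i • Y).card →
      ∃ H : AddSubgroup Δ, Finite H ∧ (∀ x ∈ S, π x ∈ H) ∧
        (K - 8) * Nat.card H ≤ (K + 1) * S.card := by
    intro i h1 h4 hlt
    have hXX : i • Y + i • Y = (2 * i) • Y := by rw [← add_nsmul, two_mul]
    have hadd := s3 (i • Y) (hsn i) (by rw [hXX]; exact hlt)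
    rw [hXX] at hadd
    let H : AddSubgroup Δ :=
      { carrier := (((2 * i) • Y : Finset Δ) : Set Δ)
        zero_mem' := Finset.mem_coe.2 (h0n _)
        add_mem' := fun {a b} ha hb =>
          Finset.mem_coe.2 (hadd a (Finset.mem_coe.1 ha) b (Finset.mem_coe.1 hb))
        neg_mem' := fun {a} ha => Finset.mem_coe.2 (hsn _ a (Finset.mem_coe.1 ha)) }
    have hHc : (H : Set Δ) = (((2 * i) • Y : Finset Δ) : Set Δ) := rfl
    have hfin : Finite H := by
      have : Finite (H : Set Δ) := by rw [hHc]; exact Finset.finite_toSet _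
      exact this
    have hcard : Nat.card H = ((2 * i) • Y).card := by
      have h5 : Nat.card ((((2 * i) • Y : Finset Δ) : Set Δ)) = ((2 * i) • Y).card :=
        (Nat.card_coe_set_eq _).trans (Set.ncard_coe_finset _)
      exact h5
    refine ⟨H, hfin, ?_, ?_⟩
    · intro x hx
      have h5 : π x ∈ 1 • Y := by rw [one_nsmul]; exact Finset.mem_image_of_mem _ hx
      exact Finset.mem_coe.2 (Pool.Agent.Lib.MP_d3cc86_co.nsmul_mono_zero h0Y (by omega) h5)
    · rw [hcard]
      calc (K - 8) * ((2 * i) • Y).card ≤ (K - 8) * (8 • Y).card :=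
            Nat.mul_le_mul_left _ (hmono (by omega))
        _ ≤ (K • S).card := hK8
        _ ≤ _ := h
  by_cases c1 : 2 * ((2 * 1) • Y).card < 3 * (1 • Y).card
  · exact build 1 le_rfl (by norm_num) c1
  by_cases c2 : 2 * ((2 * 2) • Y).card < 3 * (2 • Y).card
  · exact build 2 (by norm_num) (by norm_num) c2
  by_cases c4 : 2 * ((2 * 4) • Y).card < 3 * (4 • Y).card
  · exact build 4 (by norm_num) (by norm_num) c4
  exfalso
  simp only [Nat.reduceMul, one_nsmul] at c1 c2 c4
  have hpos' : 0 < S.card := Finset.card_pos.2 ⟨z, hz⟩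
  have e1 : 27 * Y.card ≤ 8 * (8 • Y).card := by omega
  have e2 : 27 * S.card ≤ 16 * (8 • Y).card := by omega
  have e3 : 27 * ((K - 8) * S.card) ≤ 16 * ((K + 1) * S.card) := by
    calc 27 * ((K - 8) * S.card) = (K - 8) * (27 * S.card) := by ring
      _ ≤ (K - 8) * (16 * (8 • Y).card) := Nat.mul_le_mul_left _ e2
      _ = 16 * ((K - 8) * (8 • Y).card) := by ring
      _ ≤ 16 * ((K + 1) * S.card) := Nat.mul_le_mul_left _ (hK8.trans h)
  have e4 : 27 * (K - 8) * S.card ≤ 16 * (K + 1) * S.card := by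
    calc 27 * (K - 8) * S.card = 27 * ((K - 8) * S.card) := by ring
      _ ≤ _ := e3
      _ = _ := by ring
  have e5 := Nat.le_of_mul_le_mul_right e4 hpos'
  omega

end FX
end

section

set_option autoImplicit false
set_option linter.unusedSectionVars false

open Finset Pointwise

namespace FX

variable {Γ : Type} [AddCommGroup Γ] [DecidableEq Γ]

/-- Apply `s4` with `Δ = Γ ⧸ zmultiples (z + z)`, `π` the quotient map (classical `DecidableEq`), to get
`H`.  `Γ' = H.comap π ∋ z`, `S ⊆ Γ'`.  `ht` maps `Γ'` onto `ℤ d` for some `d > 0` (`Int.subgroup_cyclic`; `ht z ≠ 0`), so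
`ht z = t d` with `t ≥ 1`, and there is `ℓ ∈ Γ'` with `ht ℓ = d`.  `Kr = ker ht ⊓ Γ'`.  `π` is injective on `Kr`
(`Kr ∩ ⟨2 z⟩ = 0` since `ht (j (2 z)) = 2 j ht z`), so `Kr` is finite.  `2 t |Kr| ≤ |H|`: the `2 t |Kr|` elements
`π (κ + i ℓ)`, `κ ∈ Kr`, `0 ≤ i < 2 t` of `H` are pairwise distinct: if `κ - κ' + (i - i') ℓ = j (2 z)` then
`(i - i') d = 2 j t d`, so `2 t ∣ i - i'`, `i = i'`, `j = 0`, `κ = κ'`.  For `s ∈ S ⊆ Γ'`: `ht s = i d` for an integer
`i`, `|i| d ≤ ht z = t d`, so `|i| ≤ t`, and `s - i ℓ ∈ Kr`. -/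
theorem s5 (S : Finset Γ) (z : Γ) (hz : z ∈ S) (h0 : (0 : Γ) ∈ S) (hs : ∀ x ∈ S, -x ∈ S)
    (ht : Γ →+ ℤ) (hpos : 0 < ht z) (hmax : ∀ x ∈ S, |ht x| ≤ ht z) (K : ℕ) (hK : 32 ≤ K)
    (h : (K • S).card ≤ (K + 1) * S.card) :
    ∃ (Kr : AddSubgroup Γ) (l : Γ) (t : ℕ), 1 ≤ t ∧ Finite Kr ∧
      (∀ x ∈ S, ∃ i : ℤ, |i| ≤ t ∧ x - i • l ∈ Kr) ∧
      (K - 8) * (2 * t * Nat.card Kr) ≤ (K + 1) * S.card := by
  classical
  set N : AddSubgroup Γ := AddSubgroup.zmultiples (z + z) with hN
  set π : Γ →+ Γ ⧸ N := QuotientAddGroup.mk' N with hπdef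
  have hπ : ∀ x, π x = 0 ↔ x ∈ N := by
    intro x
    rw [hπdef, QuotientAddGroup.mk'_apply, QuotientAddGroup.eq_zero_iff]
  obtain ⟨H, hfin, hH, hcard⟩ := s4 (Δ := Γ ⧸ N) S z hz h0 hs ht hpos hmax π hπ K hK h
  set G' : AddSubgroup Γ := H.comap π with hG'
  have hSG : ∀ x ∈ S, x ∈ G' := fun x hx => by
    rw [hG', AddSubgroup.mem_comap]; exact hH x hx
  obtain ⟨a, ha⟩ := Int.subgroup_cyclic (G'.map ht)
  have hdiv : ∀ x ∈ G', a ∣ ht x := by
    intro x hx
    have h1 : ht x ∈ G'.map ht := AddSubgroup.mem_map_of_mem ht hx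
    rw [ha, AddSubgroup.mem_closure_singleton] at h1
    obtain ⟨n, hn⟩ := h1
    exact ⟨n, by rw [← hn, smul_eq_mul, mul_comm]⟩
  have hex : ∃ l ∈ G', ht l = a := by
    have h1 : a ∈ G'.map ht := by
      rw [ha]; exact AddSubgroup.subset_closure rfl
    obtain ⟨l, hl, hl2⟩ := AddSubgroup.mem_map.1 h1
    exact ⟨l, hl, hl2⟩
  obtain ⟨d, l, hd, hl, hld, hdv⟩ : ∃ (d : ℤ) (l : Γ), 0 < d ∧ l ∈ G' ∧ ht l = d ∧
      ∀ x ∈ G', d ∣ ht x := by
    obtain ⟨l, hl, hla⟩ := hex
    have ha0 : a ≠ 0 := by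
      rintro rfl
      have := hdiv z (hSG z hz)
      rw [zero_dvd_iff] at this
      omega
    rcases lt_or_gt_of_ne ha0 with h1 | h1
    · exact ⟨-a, -l, by omega, G'.neg_mem hl, by rw [map_neg, hla],
        fun x hx => by rw [neg_dvd]; exact hdiv x hx⟩
    · exact ⟨a, l, h1, hl, hla, hdiv⟩
  obtain ⟨t0, ht0⟩ := hdv z (hSG z hz)
  have ht0pos : 0 < t0 := by
    by_contra hcon
    have : d * t0 ≤ 0 := mul_nonpos_of_nonneg_of_nonpos hd.le (not_lt.1 hcon)
    omega
  obtain ⟨t, rfl⟩ : ∃ t : ℕ, (t : ℤ) = t0 := ⟨t0.toNat, Int.toNat_of_nonneg ht0pos.le⟩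
  have ht1 : 1 ≤ t := by exact_mod_cast ht0pos
  set Kr : AddSubgroup Γ := G' ⊓ ht.ker with hKr
  have hKr1 : ∀ x, x ∈ Kr ↔ x ∈ G' ∧ ht x = 0 := by
    intro x
    rw [hKr, AddSubgroup.mem_inf, AddMonoidHom.mem_ker]
  let f : Kr × Fin (2 * t) → H := fun p => ⟨π ((p.1 : Γ) + (p.2 : ℕ) • l), by
    have h1 : (p.1 : Γ) + (p.2 : ℕ) • l ∈ G' :=
      G'.add_mem ((hKr1 _).1 p.1.2).1 (G'.nsmul_mem hl _)
    rw [hG', AddSubgroup.mem_comap] at h1
    exact h1⟩
  have hf : Function.Injective f := by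
    rintro ⟨⟨x, hx⟩, i⟩ ⟨⟨y, hy⟩, j⟩ hxy
    have h1 : π (x + (i : ℕ) • l) = π (y + (j : ℕ) • l) := congrArg Subtype.val hxy
    have h2 : π (x + (i : ℕ) • l - (y + (j : ℕ) • l)) = 0 := by
      rw [map_sub, h1, sub_self]
    rw [hπ, hN, AddSubgroup.mem_zmultiples_iff] at h2
    obtain ⟨m, hm⟩ := h2
    have h3 := congrArg ht hm
    have hx0 := ((hKr1 x).1 hx).2
    have hy0 := ((hKr1 y).1 hy).2
    rw [map_zsmul, map_add, map_sub, map_add, map_add, map_nsmul, map_nsmul, hx0, hy0, hld, ht0,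
      zero_add, zero_add, smul_eq_mul, nsmul_eq_mul, nsmul_eq_mul] at h3
    have h4 : d * (2 * m * t) = d * ((i : ℕ) - (j : ℕ) : ℤ) := by linarith
    have h5 : 2 * m * (t : ℤ) = ((i : ℕ) : ℤ) - ((j : ℕ) : ℤ) := mul_left_cancel₀ hd.ne' h4
    have hi := i.2
    have hj := j.2
    have hm0 : m = 0 := by
      by_contra hne
      rcases lt_or_gt_of_ne hne with h6 | h6
      · have : 2 * m * (t : ℤ) ≤ 2 * (-1) * (t : ℤ) := by
          have : m ≤ -1 := by omega
          nlinarith
        have hi' : ((i : ℕ) : ℤ) < 2 * t := by exact_mod_cast hi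
        have hj' : ((j : ℕ) : ℤ) < 2 * t := by exact_mod_cast hj
        omega
      · have : 2 * 1 * (t : ℤ) ≤ 2 * m * (t : ℤ) := by
          have : 1 ≤ m := by omega
          nlinarith
        have hi' : ((i : ℕ) : ℤ) < 2 * t := by exact_mod_cast hi
        have hj' : ((j : ℕ) : ℤ) < 2 * t := by exact_mod_cast hj
        omega
    subst hm0
    have hij : (i : ℕ) = (j : ℕ) := by
      have : ((i : ℕ) : ℤ) = ((j : ℕ) : ℤ) := by linarith
      exact_mod_cast this
    have hij' : i = j := Fin.ext hij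
    subst hij'
    rw [zero_smul] at hm
    have hxy' : x = y := by
      have : x + (i : ℕ) • l - (y + (i : ℕ) • l) = x - y := by abel
      rw [this] at hm
      exact (sub_eq_zero.1 hm.symm)
    subst hxy'
    rfl
  have hne : 0 < 2 * t := by omega
  have hfinK : Finite Kr :=
    Finite.of_injective (fun x : Kr => f (x, ⟨0, hne⟩)) (fun x y hxy => by
      have := hf hxy
      exact (Prod.mk.inj this).1)
  refine ⟨Kr, l, t, ht1, hfinK, ?_, ?_⟩
  · intro x hx
    obtain ⟨i, hi⟩ := hdv x (hSG x hx)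
    refine ⟨i, ?_, ?_⟩
    · have h1 := hmax x hx
      rw [hi, ht0, abs_mul, abs_of_pos hd] at h1
      exact le_of_mul_le_mul_left h1 hd
    · rw [hKr1]
      refine ⟨G'.sub_mem (hSG x hx) (G'.zsmul_mem hl _), ?_⟩
      rw [map_sub, map_zsmul, hld, hi, smul_eq_mul, mul_comm, sub_self]
  · have h1 : Nat.card (Kr × Fin (2 * t)) ≤ Nat.card H := Nat.card_le_card_of_injective f hf
    rw [Nat.card_prod, Nat.card_eq_fintype_card (α := Fin (2 * t)), Fintype.card_fin] at h1
    refine le_trans (Nat.mul_le_mul_left _ ?_) hcard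
    rw [mul_comm]
    exact h1

end FX
end

section

set_option autoImplicit false

open Finset

namespace FX

/-- Pairs.  `J = {j : max 1 (i - T1) ≤ j, 2 j < i}`.  If every `j ∈ J` had `j ∈ B` or `i - j ∈ B` then
`j ↦ j` or `i - j` would be an injection `J → B` (the pairs `{j, i - j}`, `2 j < i`, are disjoint), so `|J| ≤ |B| = b`; but
`|J| = (i-1)/2 ≥ b + 1` if `i ≤ T1 + 1` and `|J| = (i-1)/2 - (i - T1) + 1 ≥ b + 1` if `i > T1`, since
`i + 2 b + 1 ≤ 2 T1`. -/
theorem comb (B : Finset ℕ) (T1 i : ℕ) (h1 : 2 * B.card + 3 ≤ i)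
    (h2 : i + 2 * B.card + 1 ≤ 2 * T1) :
    ∃ j, 1 ≤ j ∧ 2 * j < i ∧ i - j ≤ T1 ∧ j ∉ B ∧ i - j ∉ B := by
  by_contra hcon
  push Not at hcon
  set J := Finset.Ico (max 1 (i - T1)) ((i + 1) / 2) with hJ
  have hJc : B.card + 1 ≤ J.card := by
    rw [hJ, Nat.card_Ico]
    omega
  have hmem : ∀ j ∈ J, 1 ≤ j ∧ 2 * j < i ∧ i - j ≤ T1 := by
    intro j hj
    rw [hJ, Finset.mem_Ico] at hj
    omega
  have hmap : J.card ≤ B.card := by
    refine Finset.card_le_card_of_injOn (fun j => if j ∈ B then j else i - j) ?_ ?_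
    · intro j hj
      obtain ⟨a1, a2, a3⟩ := hmem j hj
      dsimp only
      by_cases hB : j ∈ B
      · rw [if_pos hB]; exact hB
      · rw [if_neg hB]; exact hcon j a1 a2 a3 hB
    · intro j hj k hk hjk
      obtain ⟨a1, a2, a3⟩ := hmem j hj
      obtain ⟨b1, b2, b3⟩ := hmem k hk
      dsimp only at hjk
      split_ifs at hjk <;> omega
  omega

end FX
end

section

set_option autoImplicit false
set_option linter.unusedSectionVars false

open Finset Pointwise

namespace FX

open RG (stb mem_stb gg ph)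
open SPR (T)
open AM
open Pool.Agent.Lib.MP_d3cc86_co (lam Asym symz)

variable {G : Type} [AddCommGroup G] [Fintype G] [DecidableEq G] (K : AddSubgroup G) (l : G)

/-- `SM (ν + single x 1) = SM ν ∪ (x + SM ν)` (`SM_add`, `SM_single`).  For `a ≤ i ≤ b` clear; for
`b < i ≤ b + π` we have `a ≤ i - π ≤ b` (`a + π ≤ b + 1`), and `κ + i l = x + (κ' + (i - π) l)` with
`κ' = κ - (x - π l) ∈ K`. -/
theorem full_add (ν : G → ℕ) (x : G) (π a b : ℕ) (h : Full K l (SM ν) a b) (hx : x - π • l ∈ K)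
    (hπ : a + π ≤ b + 1) : Full K l (SM (ν + Pi.single x 1)) a (b + π) := by
  intro i hi1 hi2 κ hκ
  rw [SM_add, Finset.mem_add]
  by_cases hib : i ≤ b
  · exact ⟨κ + i • l, h i hi1 hib κ hκ, 0, zero_mem_SM _, by simp⟩
  · push Not at hib
    have h1 : κ - (x - π • l) ∈ K := K.sub_mem hκ hx
    refine ⟨κ - (x - π • l) + (i - π) • l, h (i - π) (by omega) (by omega) _ h1, x, ?_, ?_⟩
    · rw [SM_single]; simp
    · have h2 : i • l = (i - π) • l + π • l := by
        rw [← add_nsmul]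
        congr 1
        omega
      rw [h2]
      abel

/-- Induction on `tot ρ`, `full_add` with `π = ps x` (`ps_spec`). -/
theorem full_many (ν ρ : G → ℕ) (a b : ℕ) (h : Full K l (SM ν) a b)
    (hρ : ∀ x, ρ x ≠ 0 → x ∈ Dd K l ∧ a + ps K l x ≤ b + 1) :
    Full K l (SM (ν + ρ)) a (b + wt K l ρ) := by
  induction hn : tot ρ generalizing ρ with
  | zero =>
    have h0 : ρ = 0 := by
      funext x
      unfold tot at hn
      exact Finset.sum_eq_zero_iff.1 hn x (Finset.mem_univ x)
    subst h0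
    have h1 : wt K l (0 : G → ℕ) = 0 := by
      unfold wt
      simp
    rw [h1, add_zero, add_zero]
    exact h
  | succ n ih =>
    obtain ⟨x, hx⟩ : ∃ x, ρ x ≠ 0 := by
      by_contra hcon
      push Not at hcon
      unfold tot at hn
      rw [Finset.sum_eq_zero fun x _ => hcon x] at hn
      omega
    have h1 : tot (del ρ x) = n := by
      have := tot_del ρ x hx
      omega
    have h2 := ih (del ρ x) (fun y hy => hρ y (by
      have := del_le ρ x y
      omega)) h1
    have h3 := full_add K l (ν + del ρ x) x (ps K l x) a (b + wt K l (del ρ x)) h2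
      (ps_spec K l (hρ x hx).1) (by
        have := (hρ x hx).2
        omega)
    have h4 : wt K l (Pi.single x 1 : G → ℕ) = ps K l x := by
      unfold wt
      rw [Finset.sum_eq_single x]
      · rw [Pi.single_eq_same, one_mul]
      · intro y _ hy
        rw [Pi.single_eq_of_ne hy, zero_mul]
      · intro hx'
        exact absurd (Finset.mem_univ x) hx'
    have h5 : wt K l ρ = wt K l (del ρ x) + ps K l x := by
      conv_lhs => rw [← del_add_single ρ x hx]
      rw [wt_add, h4]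
    rw [add_assoc, del_add_single ρ x hx, add_assoc, ← h5] at h3
    exact h3

/-- `SM ν = σ - SM ν`, `σ = ∑ ν x • x`: `t = ∑ j x • x` gives `σ - t = ∑ (ν x - j x) • x`. -/
theorem SM_refl (ν : G → ℕ) : ∀ t ∈ SM ν, (∑ x, ν x • x) - t ∈ SM ν := by
  intro t ht
  obtain ⟨j, h1, rfl⟩ := (mem_SM ν t).1 ht
  refine (mem_SM ν _).2 ⟨fun x => ν x - j x, fun x => Nat.sub_le _ _, ?_⟩
  rw [← Finset.sum_sub_distrib]
  refine Finset.sum_congr rfl fun x _ => ?_
  rw [eq_sub_iff_add_eq, ← add_nsmul, Nat.sub_add_cancel (h1 x)]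

/-- Reflection.  Let `Π = wt ν`, `σ = ∑ ν x • x`, `σ - Π l ∈ K` (`wt_spec`).  Let `a ≤ i ≤ Π - a`.  If `i ≤ b` clear.
Otherwise `Π - i ≤ Π - b - 1 ≤ b` and `Π - i ≥ a` (`i ≤ Π - a` and `i > b`; if `Π < a` then `i = 0`, so `b < 0`, impossible; so
`a ≤ Π`), so `κ' + (Π - i) l ∈ SM ν` for `κ' = (σ - Π l) - κ`, and `σ` minus this is `κ + i l` (`SM_refl`). -/
theorem full_refl (ν : G → ℕ) (hν : ∀ x, ν x ≠ 0 → x ∈ Dd K l) (a b : ℕ)
    (h : Full K l (SM ν) a b) (hb : wt K l ν ≤ 2 * b + 1) :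
    Full K l (SM ν) a (wt K l ν - a) := by
  intro i hi1 hi2 κ hκ
  by_cases hib : i ≤ b
  · exact h i hi1 hib κ hκ
  · push Not at hib
    have h1 := wt_spec K l ν hν
    have h2 : (∑ x, ν x • x) - wt K l ν • l - κ ∈ K := K.sub_mem h1 hκ
    have h3 := SM_refl ν _ (h (wt K l ν - i) (by omega) (by omega) _ h2)
    have h4 : wt K l ν • l = (wt K l ν - i) • l + i • l := by
      rw [← add_nsmul]
      congr 1
      omega
    have h5 : (∑ x, ν x • x) - ((∑ x, ν x • x) - wt K l ν • l - κ + (wt K l ν - i) • l) =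
        κ + i • l := by
      rw [h4]
      abel
    rw [h5] at h3
    exact h3

end FX
end

section

set_option autoImplicit false
set_option linter.unusedSectionVars false

open Finset Pointwise

namespace FX

open RG (stb mem_stb gg ph)
open SPR (T)
open AM
open Pool.Agent.Lib.MP_d3cc86_co (lam Asym symz card_symz)

private lemma s6_neg {N K : ℕ} [NeZero N] (hK : 1 ≤ K) (a : ZMod N)
    (h : 4 * (K : ℤ) * |a.valMinAbs| < N) : (-a).valMinAbs = -a.valMinAbs := by
  apply ZMod.valMinAbs_neg_of_ne_half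
  intro hc
  have h1 : a.valMinAbs = (a.val : ℤ) := by
    rw [ZMod.valMinAbs_def_pos, if_pos (by omega)]
  have h2 : (0 : ℤ) < N := by
    have := NeZero.pos N
    exact_mod_cast this
  have h3 : (2 : ℤ) * (a.val : ℤ) = N := by exact_mod_cast hc
  rw [h1, abs_of_nonneg (by positivity)] at h
  have h4 : (1 : ℤ) ≤ K := by exact_mod_cast hK
  nlinarith

/-- the elements of the lifted sumset -/
private lemma s6_mem {N : ℕ} [NeZero N] (S : Finset (ZMod N)) (k : ZMod N) (K : ℕ)
    (hS : ∀ x ∈ S, 4 * (K : ℤ) * |(k * x).valMinAbs| < N) (n : ℕ) :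
    ∀ p ∈ n • (S.image (fun x => ((x, (k * x).valMinAbs) : ZMod N × ℤ))),
      ((p.2 : ℤ) : ZMod N) = k * p.1 ∧ 4 * (K : ℤ) * |p.2| ≤ n * ((N : ℤ) - 1) := by
  induction n with
  | zero =>
    intro p hp
    rw [zero_nsmul, Finset.mem_zero] at hp
    subst hp
    simp
  | succ n ih =>
    intro p hp
    rw [succ_nsmul, Finset.mem_add] at hp
    obtain ⟨q, hq, r, hr, rfl⟩ := hp
    rw [Finset.mem_image] at hr
    obtain ⟨x, hx, rfl⟩ := hr
    obtain ⟨h1, h2⟩ := ih q hq
    have h3 := hS x hx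
    constructor
    · simp only [Prod.snd_add, Prod.fst_add]
      push_cast
      rw [h1, mul_add]
    · simp only [Prod.snd_add]
      have h4 : |q.2 + (k * x).valMinAbs| ≤ |q.2| + |(k * x).valMinAbs| := abs_add_le _ _
      have h5 : (0 : ℤ) ≤ 4 * (K : ℤ) := by positivity
      have h6 : 4 * (K : ℤ) * |q.2 + (k * x).valMinAbs| ≤
          4 * (K : ℤ) * (|q.2| + |(k * x).valMinAbs|) := mul_le_mul_of_nonneg_left h4 h5
      push_cast
      nlinarith

/-- The lift.  `Γ = ZMod N × ℤ`, `φ x = (x, valMinAbs (k x))`, `S = symz V`, `Ŝ = S.image φ`, `ht = snd`.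
`|valMinAbs (k x)| ≤ B` for `x ∈ S` where `4 K B < N`: for `x ∈ V` by `hk`; for `-x` by
`ZMod.valMinAbs_neg_of_ne_half` (`k x` is not the half, its `valMinAbs` is small), which also gives `φ (-x) = - φ x`;
`φ 0 = 0`.  So `0 ∈ Ŝ`, `Ŝ = -Ŝ`, `|Ŝ| = |S|` (`φ` injective).  `fst` is injective on `K • Ŝ`: every `(x, a) ∈ K • Ŝ` has
`a ≡ k x` mod `N` (true for `Ŝ`, additive: `(a : ZMod N) = k x`) and `|a| ≤ K B < N / 4`, so `(x, a), (x, b) ∈ K • Ŝ` have
`N ∣ a - b`, `|a - b| < N`, `a = b`.  `fst (K • Ŝ) = K • S`.  So `|K • Ŝ| = |K • S| ≤ (K+1) |S| = (K+1) |Ŝ|`.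
There is `x ∈ V` with `k x ≠ 0`: otherwise `k y = 0` for all `y ∈ closure V = ⊤`, `k = k · 1 = 0`.  So an element
`z ∈ Ŝ` of maximal height has `ht z > 0`, and `|ht x| ≤ ht z` on `Ŝ` (symmetry).  `s5` gives `Kr, l, t`.
`K1 = Kr.map fst`, `ℓ = l.1`: `|K1| ≤ |Kr|`; for `x ∈ V`, `φ x - i l ∈ Kr` gives `x - i ℓ ∈ K1`, `|i| ≤ t`; write `i = ± |i|`.
`(K - 8) 2 t |K1| ≤ (K+1) |S| = (K+1)(2 |V| + 1)` (`card_symz`). -/
theorem s6 {N : ℕ} [NeZero N] (V : Finset (ZMod N)) (hV : Asym V)
    (hcl : AddSubgroup.closure (V : Set (ZMod N)) = ⊤) (k : ZMod N) (hk0 : k ≠ 0) (K : ℕ)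
    (hK : 32 ≤ K) (hk : ∀ x ∈ V, 4 * (K : ℤ) * |(k * x).valMinAbs| < N)
    (h : (K • symz V).card ≤ (K + 1) * (symz V).card) :
    ∃ (K1 : AddSubgroup (ZMod N)) (l : ZMod N) (t : ℕ), 1 ≤ t ∧
      (∀ x ∈ V, ∃ i : ℕ, i ≤ t ∧ (x - i • l ∈ K1 ∨ x + i • l ∈ K1)) ∧
      (K - 8) * (2 * t * Nat.card K1) ≤ (K + 1) * (2 * V.card + 1) := by
  classical
  have hN : (0 : ℤ) < N := by
    have := NeZero.pos N
    exact_mod_cast this
  set f : ZMod N → ZMod N × ℤ := fun x => (x, (k * x).valMinAbs) with hf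
  have hfinj : Function.Injective f := fun x y hxy => (Prod.ext_iff.1 hxy).1
  -- smallness and symmetry on `S`
  have hS : ∀ x ∈ symz V, 4 * (K : ℤ) * |(k * x).valMinAbs| < N := by
    intro x hx
    simp only [symz, Finset.mem_insert, Finset.mem_union, Finset.mem_neg'] at hx
    rcases hx with rfl | hx | hx
    · simpa using hN
    · exact hk x hx
    · have h1 := hk _ hx
      have h2 := s6_neg (by omega : 1 ≤ K) _ h1
      have h3 : k * x = -(k * -x) := by ring
      rw [h3, h2, abs_neg]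
      exact h1
  have hsymm : ∀ x ∈ symz V, -x ∈ symz V := by
    intro x hx
    simp only [symz, Finset.mem_insert, Finset.mem_union, Finset.mem_neg'] at hx ⊢
    rcases hx with rfl | hx | hx
    · left; simp
    · right; right; simpa using hx
    · right; left; exact hx
  have hfneg : ∀ x ∈ symz V, f (-x) = -f x := by
    intro x hx
    rw [hf]
    simp only [Prod.neg_mk]
    rw [mul_neg, s6_neg (by omega : 1 ≤ K) _ (hS x hx)]
  set Sh : Finset (ZMod N × ℤ) := (symz V).image f with hSh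
  have hcardS : Sh.card = (symz V).card := Finset.card_image_of_injective _ hfinj
  have h0S : (0 : ZMod N) ∈ symz V := by simp [symz]
  have h0 : (0 : ZMod N × ℤ) ∈ Sh := by
    rw [hSh, Finset.mem_image]
    refine ⟨0, h0S, ?_⟩
    rw [hf]
    simp
  have hneg : ∀ p ∈ Sh, -p ∈ Sh := by
    intro p hp
    rw [hSh, Finset.mem_image] at hp ⊢
    obtain ⟨x, hx, rfl⟩ := hp
    exact ⟨-x, hsymm x hx, hfneg x hx⟩
  -- the first projection
  have himg : Sh.image (AddMonoidHom.fst (ZMod N) ℤ) = symz V := by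
    rw [hSh, Finset.image_image]
    ext x
    simp [hf]
  have hKimg : (K • Sh).image (AddMonoidHom.fst (ZMod N) ℤ) = K • symz V := by
    rw [Finset.image_nsmul, himg]
  have hinj : Set.InjOn (AddMonoidHom.fst (ZMod N) ℤ) ((K • Sh : Finset (ZMod N × ℤ)) : Set _) := by
    intro p hp q hq hpq
    obtain ⟨h1, h2⟩ := s6_mem (symz V) k K hS K p hp
    obtain ⟨h3, h4⟩ := s6_mem (symz V) k K hS K q hq
    simp only [AddMonoidHom.coe_fst] at hpq
    refine Prod.ext hpq ?_
    have hKpos : (0 : ℤ) < K := by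
      have : 0 < K := by omega
      exact_mod_cast this
    have h5 : 4 * |p.2| ≤ (N : ℤ) - 1 := by
      refine le_of_mul_le_mul_left ?_ hKpos
      calc (K : ℤ) * (4 * |p.2|) = 4 * (K : ℤ) * |p.2| := by ring
        _ ≤ _ := h2
    have h6 : 4 * |q.2| ≤ (N : ℤ) - 1 := by
      refine le_of_mul_le_mul_left ?_ hKpos
      calc (K : ℤ) * (4 * |q.2|) = 4 * (K : ℤ) * |q.2| := by ring
        _ ≤ _ := h4
    have h7 : (N : ℤ) ∣ p.2 - q.2 := by
      rw [← ZMod.intCast_zmod_eq_zero_iff_dvd]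
      push_cast
      rw [h1, h3, hpq, sub_self]
    have h8 : |p.2 - q.2| < N := by
      have := abs_sub p.2 q.2
      omega
    have h9 := Int.eq_zero_of_abs_lt_dvd h7 h8
    omega
  have hcardK : (K • Sh).card = (K • symz V).card := by
    rw [← hKimg, Finset.card_image_of_injOn hinj]
  -- an element of positive height
  obtain ⟨x0, hx0, hkx0⟩ : ∃ x ∈ V, k * x ≠ 0 := by
    by_contra hcon
    push Not at hcon
    apply hk0
    have h1 : AddSubgroup.closure (V : Set (ZMod N)) ≤ (AddMonoidHom.mulLeft k).ker := by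
      rw [AddSubgroup.closure_le]
      intro x hx
      simp only [SetLike.mem_coe, AddMonoidHom.mem_ker, AddMonoidHom.coe_mulLeft]
      exact hcon x hx
    rw [hcl] at h1
    have h2 : (1 : ZMod N) ∈ (AddMonoidHom.mulLeft k).ker := h1 (AddSubgroup.mem_top _)
    simpa using h2
  obtain ⟨z, hz, hzmax⟩ := Finset.exists_max_image Sh (fun p => p.2) ⟨0, h0⟩
  have hx0S : x0 ∈ symz V := by
    simp only [symz, Finset.mem_insert, Finset.mem_union]
    right; left; exact hx0
  have hfx0 : f x0 ∈ Sh := Finset.mem_image_of_mem _ hx0S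
  have hzpos : 0 < z.2 := by
    have h1 := hzmax _ hfx0
    have h2 := hzmax _ (hneg _ hfx0)
    have h3 : (f x0).2 ≠ 0 := by
      rw [hf]
      simp only
      rw [Ne, ZMod.valMinAbs_eq_zero]
      exact hkx0
    simp only [Prod.snd_neg] at h2
    omega
  have habs : ∀ p ∈ Sh, |(AddMonoidHom.snd (ZMod N) ℤ) p| ≤ (AddMonoidHom.snd (ZMod N) ℤ) z := by
    intro p hp
    have h1 := hzmax p hp
    have h2 := hzmax _ (hneg p hp)
    simp only [Prod.snd_neg] at h2
    simp only [AddMonoidHom.coe_snd]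
    rw [abs_le]
    constructor <;> linarith
  obtain ⟨Kr, l, t, ht1, hfin, hcov, hle⟩ := s5 Sh z hz h0 hneg (AddMonoidHom.snd (ZMod N) ℤ)
    hzpos habs K hK (by rw [hcardK, hcardS]; exact h)
  refine ⟨Kr.map (AddMonoidHom.fst (ZMod N) ℤ), l.1, t, ht1, ?_, ?_⟩
  · intro x hx
    have hxS : x ∈ symz V := by
      simp only [symz, Finset.mem_insert, Finset.mem_union]
      right; left; exact hx
    obtain ⟨i, hi, hmem⟩ := hcov (f x) (Finset.mem_image_of_mem _ hxS)
    have h1 : x - i • l.1 ∈ Kr.map (AddMonoidHom.fst (ZMod N) ℤ) := by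
      rw [AddSubgroup.mem_map]
      refine ⟨_, hmem, ?_⟩
      simp [hf]
    have hi2 := abs_le.1 hi
    refine ⟨i.natAbs, by omega, ?_⟩
    rcases Int.natAbs_eq i with hi' | hi'
    · left
      rw [← natCast_zsmul, ← hi']
      exact h1
    · right
      rw [← natCast_zsmul]
      rw [hi', neg_smul, sub_neg_eq_add] at h1
      exact h1
  · have h1 : Nat.card (Kr.map (AddMonoidHom.fst (ZMod N) ℤ)) ≤ Nat.card Kr :=
      Nat.card_le_card_of_surjective _
        (AddMonoidHom.addSubgroupMap_surjective (AddMonoidHom.fst (ZMod N) ℤ) Kr)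
    rw [hcardS, card_symz hV] at hle
    refine le_trans ?_ hle
    exact Nat.mul_le_mul_left _ (Nat.mul_le_mul_left _ h1)

end FX
end

section

set_option autoImplicit false
set_option linter.unusedSectionVars false

open Finset Pointwise

namespace FX

open RG (stb mem_stb gg ph)
open SPR (T)
open AM
open Pool.Agent.Lib.MP_d3cc86_co (lam Asym symz)

variable {G : Type} [AddCommGroup G] [Fintype G] [DecidableEq G] (K : AddSubgroup G) (l : G)

open Classical in
/-- the union of the good columns `1, …, T1` -/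
noncomputable def core (μ : G → ℕ) (T1 : ℕ) : Finset G :=
  univ.filter (fun x => x ∈ Dd K l ∧ 1 ≤ ps K l x ∧ ps K l x ≤ T1 ∧ gc K l μ (ps K l x))

private theorem mem_core {μ : G → ℕ} {T1 : ℕ} {x : G} : x ∈ core K l μ T1 ↔
    x ∈ Dd K l ∧ 1 ≤ ps K l x ∧ ps K l x ≤ T1 ∧ gc K l μ (ps K l x) := by
  classical
  simp [core]

private theorem mem_core_of {μ : G → ℕ} {T1 : ℕ} (hT : T1 < per K l) {j : ℕ} (h1 : 1 ≤ j)
    (h2 : j ≤ T1) (hg : gc K l μ j) {κ : G} (hκ : κ ∈ K) :
    κ + j • l ∈ core K l μ T1 ∧ ps K l (κ + j • l) = j := by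
  have h3 : κ + j • l - j • l ∈ K := by rwa [add_sub_cancel_right]
  have h4 : ps K l (κ + j • l) = j := ps_eq K l h3 (by omega)
  refine ⟨?_, h4⟩
  rw [mem_core, h4]
  exact ⟨mem_Dd_of K l h3, h1, h2, hg⟩

open Classical in
/-- column `j` -/
private noncomputable def col (j : ℕ) : Finset G := (sf K).image fun κ => κ + j • l

private theorem card_col (j : ℕ) : (col K l j).card = Nat.card K := by
  classical
  unfold col
  rw [Finset.card_image_of_injective _ (add_left_injective _), card_sf]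

private theorem mem_col {j : ℕ} {x : G} : x ∈ col K l j ↔ x - j • l ∈ K := by
  classical
  unfold col
  rw [Finset.mem_image]
  constructor
  · rintro ⟨κ, hκ, rfl⟩
    rw [add_sub_cancel_right]
    exact (mem_sf K κ).1 hκ
  · intro h
    exact ⟨x - j • l, (mem_sf K _).2 h, sub_add_cancel _ _⟩

private theorem ps_col {j : ℕ} (hj : j < per K l) {x : G} (h : x ∈ col K l j) :
    ps K l x = j ∧ x ∈ Dd K l :=
  ⟨ps_eq K l ((mem_col K l).1 h) hj, mem_Dd_of K l ((mem_col K l).1 h)⟩

/-- `B` = bad columns in `[1, T1]`, `|B| = nb T1`.  For `i` in the range `comb` gives good columns `j < i - j`; then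
`κ + i l = (κ + j l) + (i - j) l` is the sum of two different elements of `core` (`ps_eq`), so it is in
`(core).subsetSum = SM (ind core)` (`SM_ind`). -/
theorem core_full (μ : G → ℕ) (T1 : ℕ) (hT : T1 < per K l) :
    Full K l (SM (ind (core K l μ T1))) (2 * nb K l μ T1 + 3) (2 * T1 - 2 * nb K l μ T1 - 1) := by
  classical
  intro i h1 h2 κ hκ
  set B : Finset ℕ := (Icc 1 T1).filter (fun i => ¬ gc K l μ i) with hB
  have hBc : B.card = nb K l μ T1 := by
    unfold nb
    rw [hB]
  obtain ⟨j, hj1, hj2, hj3, hj4, hj5⟩ := comb B T1 i (by omega) (by omega)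
  have hg : ∀ a, 1 ≤ a → a ≤ T1 → a ∉ B → gc K l μ a := by
    intro a ha1 ha2 ha3
    by_contra hc
    exact ha3 (by rw [hB, Finset.mem_filter, Finset.mem_Icc]; exact ⟨⟨ha1, ha2⟩, hc⟩)
  obtain ⟨hx1, hp1⟩ := mem_core_of K l hT hj1 (by omega) (hg j hj1 (by omega) hj4) hκ
  obtain ⟨hx2, hp2⟩ := mem_core_of K l hT (j := i - j) (by omega) hj3
    (hg (i - j) (by omega) hj3 hj5) K.zero_mem
  have hne : κ + j • l ≠ 0 + (i - j) • l := by
    intro h
    rw [h, hp2] at hp1
    omega
  rw [SM_ind, Finset.mem_subsetSum_iff]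
  refine ⟨{κ + j • l, 0 + (i - j) • l}, ?_, ?_⟩
  · intro x hx
    rw [Finset.mem_insert, Finset.mem_singleton] at hx
    rcases hx with rfl | rfl
    · exact hx1
    · exact hx2
  · rw [Finset.sum_pair hne, zero_add, add_assoc, ← add_nsmul]
    congr 2
    omega

/-- `core_full` with `nb = 0` gives the columns `3, …, 2 T1 - 1`; the columns `1`, `2` are in `core` (`2 ≤ T1`). -/
theorem core_full0 (μ : G → ℕ) (T1 : ℕ) (h2 : 2 ≤ T1) (hT : T1 < per K l)
    (h0 : ∀ i, 1 ≤ i → i ≤ T1 → gc K l μ i) :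
    Full K l (SM (ind (core K l μ T1))) 1 (2 * T1 - 1) := by
  classical
  have hnb : nb K l μ T1 = 0 := by
    unfold nb
    rw [Finset.card_eq_zero, Finset.filter_eq_empty_iff]
    intro i hi
    rw [Finset.mem_Icc] at hi
    rw [not_not]
    exact h0 i hi.1 hi.2
  intro i h1 h3 κ hκ
  by_cases hi : 3 ≤ i
  · have h4 := core_full K l μ T1 hT
    rw [hnb] at h4
    exact h4 i (by omega) (by omega) κ hκ
  · obtain ⟨hx1, -⟩ := mem_core_of K l hT h1 (by omega) (h0 i h1 (by omega)) hκ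
    rw [SM_ind, Finset.mem_subsetSum_iff]
    refine ⟨{κ + i • l}, ?_, ?_⟩
    · intro x hx
      rw [Finset.mem_singleton] at hx
      rw [hx]
      exact hx1
    · rw [Finset.sum_singleton]

/-- The weight of the core: at most `h ∑_{j ≤ T1} j = h T1 (T1+1)/2`.  The rest of `low μ T`:
`low K l μ T - ind core` has weight `≥ h ∑ j` over the good columns `j` in `(T1, T]`; there are at least
`T - T1 - nb T` of them, each with `j ≥ T1 + 1`.  (`ρ` is the rest.) -/
theorem core_wt (μ ρ : G → ℕ) (T1 T : ℕ) (h1 : T1 ≤ T) (hT : T < per K l)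
    (hρ : ind (core K l μ T1) + ρ = low K l μ T) :
    2 * wt K l (ind (core K l μ T1)) ≤ Nat.card K * (T1 * (T1 + 1)) ∧
      Nat.card K * ((T - T1 - nb K l μ T) * (T1 + 1)) ≤ wt K l ρ := by
  classical
  constructor
  · have h2 : wt K l (ind (core K l μ T1)) = ∑ x ∈ core K l μ T1, ps K l x := by
      unfold wt ind
      rw [← Finset.sum_filter_add_sum_filter_not univ (fun x => x ∈ core K l μ T1)]
      rw [Finset.sum_eq_zero (s := univ.filter fun x => ¬ x ∈ core K l μ T1), add_zero,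
        Finset.filter_mem_eq_inter, Finset.univ_inter]
      · refine Finset.sum_congr rfl fun x hx => ?_
        rw [if_pos hx, one_mul]
      · intro x hx
        rw [if_neg (Finset.mem_filter.1 hx).2, zero_mul]
    have h3 : ∀ x ∈ core K l μ T1, ps K l x ∈ Icc 1 T1 := by
      intro x hx
      rw [mem_core] at hx
      rw [Finset.mem_Icc]
      exact ⟨hx.2.1, hx.2.2.1⟩
    have h4 : ∑ x ∈ core K l μ T1, ps K l x ≤ ∑ j ∈ Icc 1 T1, Nat.card K * j := by
      rw [← Finset.sum_fiberwise_of_maps_to h3]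
      refine Finset.sum_le_sum fun j hj => ?_
      have h5 : ∑ x ∈ (core K l μ T1).filter (fun x => ps K l x = j), ps K l x =
          ((core K l μ T1).filter (fun x => ps K l x = j)).card * j := by
        rw [Finset.sum_congr rfl (fun x hx => (Finset.mem_filter.1 hx).2), Finset.sum_const,
          smul_eq_mul]
      rw [h5]
      refine Nat.mul_le_mul_right _ ?_
      rw [← card_col K l j]
      refine Finset.card_le_card fun x hx => ?_
      rw [Finset.mem_filter, mem_core] at hx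
      rw [mem_col, ← hx.2]
      exact ps_spec K l hx.1.1
    have h6 : ∀ m : ℕ, 2 * ∑ j ∈ Icc 1 m, Nat.card K * j = Nat.card K * (m * (m + 1)) := by
      intro m
      induction m with
      | zero => simp
      | succ m ih =>
        rw [Finset.sum_Icc_succ_top (by omega), Nat.mul_add, ih]
        ring
    rw [h2, ← h6 T1]
    exact Nat.mul_le_mul_left _ h4
  · set Gd : Finset ℕ := (Icc (T1 + 1) T).filter (fun j => gc K l μ j) with hGd
    have hcard : T - T1 - nb K l μ T ≤ Gd.card := by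
      have h2 := Finset.card_filter_add_card_filter_not (s := Icc (T1 + 1) T) (fun j => gc K l μ j)
      rw [Nat.card_Icc] at h2
      have h3 : ((Icc (T1 + 1) T).filter (fun j => ¬ gc K l μ j)).card ≤ nb K l μ T := by
        unfold nb
        refine Finset.card_le_card (Finset.filter_subset_filter _ ?_)
        exact Finset.Icc_subset_Icc (by omega) le_rfl
      have h4 : Gd.card = ((Icc (T1 + 1) T).filter (fun j => gc K l μ j)).card := rfl
      omega
    have hdis : ∀ i ∈ Gd, ∀ j ∈ Gd, i ≠ j → Disjoint (col K l i) (col K l j) := by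
      intro i hi j hj hij
      rw [Finset.mem_filter, Finset.mem_Icc] at hi hj
      rw [Finset.disjoint_left]
      intro x hx hx'
      exact hij ((ps_col K l (by omega) hx).1.symm.trans (ps_col K l (by omega) hx').1)
    have hcb : (Gd.biUnion (col K l)).card = Gd.card * Nat.card K := by
      rw [Finset.card_biUnion hdis, Finset.sum_congr rfl (fun j _ => card_col K l j),
        Finset.sum_const, smul_eq_mul]
    calc Nat.card K * ((T - T1 - nb K l μ T) * (T1 + 1))
        ≤ Nat.card K * (Gd.card * (T1 + 1)) :=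
          Nat.mul_le_mul_left _ (Nat.mul_le_mul_right _ hcard)
      _ = ∑ _x ∈ Gd.biUnion (col K l), (T1 + 1) := by
          rw [Finset.sum_const, hcb, smul_eq_mul]
          ring
      _ ≤ ∑ x ∈ Gd.biUnion (col K l), ρ x * ps K l x := by
          refine Finset.sum_le_sum fun x hx => ?_
          rw [Finset.mem_biUnion] at hx
          obtain ⟨j, hj, hx⟩ := hx
          rw [hGd, Finset.mem_filter, Finset.mem_Icc] at hj
          obtain ⟨hp, hD⟩ := ps_col K l (by omega) hx
          have h5 := congrFun hρ x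
          rw [Pi.add_apply] at h5
          have h6 : ind (core K l μ T1) x = 0 := by
            unfold ind
            rw [if_neg]
            intro hc
            rw [mem_core, hp] at hc
            omega
          have h7 : low K l μ T x = μ x := by
            unfold low
            rw [if_pos ⟨hD, by rw [hp]; exact hj.1.2⟩]
          have h8 : μ x ≠ 0 := by
            have h9 := hj.2 (x - j • l) ((mem_col K l).1 hx)
            rwa [sub_add_cancel] at h9
          have h10 : 1 ≤ ρ x := by omega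
          rw [hp]
          calc T1 + 1 ≤ j := hj.1.1
            _ = 1 * j := (one_mul j).symm
            _ ≤ ρ x * j := Nat.mul_le_mul_right _ h10
      _ ≤ ∑ x, ρ x * ps K l x :=
          Finset.sum_le_sum_of_subset (Finset.subset_univ _)
      _ = wt K l ρ := rfl

end FX
end

section

set_option autoImplicit false
set_option linter.unusedSectionVars false

open Finset Pointwise

namespace FX

open RG (stb mem_stb gg ph)
open SPR (T)
open AM
open Pool.Agent.Lib.MP_d3cc86_co (lam Asym symz)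

variable {G : Type} [AddCommGroup G] [Fintype G] [DecidableEq G] (K : AddSubgroup G) (l : G)

private theorem mem_core4 {μ : G → ℕ} {T1 : ℕ} {x : G} : x ∈ core K l μ T1 ↔
    x ∈ Dd K l ∧ 1 ≤ ps K l x ∧ ps K l x ≤ T1 ∧ gc K l μ (ps K l x) := by
  classical
  simp [core]

private theorem nb_mono (μ : G → ℕ) {T1 T2 : ℕ} (h : T1 ≤ T2) : nb K l μ T1 ≤ nb K l μ T2 := by
  classical
  unfold nb
  exact Finset.card_le_card (Finset.filter_subset_filter _ (Finset.Icc_subset_Icc le_rfl h))

/-- `T1 = T / 2`, `β = nb T`, `nb T1 ≤ β`, `64 β ≤ T`; `core = core K l μ T1`.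
First `Full (SM (ind core)) a b0` with `b0 = 2 T1 - 2 β - 1`: from `core_full` (it is monotone: `2 nb T1 + 3 ≤ a`,
`b0 ≤ 2 T1 - 2 nb T1 - 1`) or `core_full0`.  `b0 ≥ T - 2 β - 2`.
There is a good column `j` with `T1 < j`, `8 j ≤ 7 T` (there are at least `3 T / 8 - 1 > β` integers in this range); let
`x1 = j l`, `ps x1 = j`, `μ x1 ≠ 0`, `x1 ∉ core`.  `a + j ≤ b0 + 1` because `2 β + 3 + 7 T / 8 ≤ T - 2 β - 1`
(`4 β + 4 ≤ T / 8`).  `full_add`: `Full (SM (ind core + single x1 1)) a (b0 + j)`.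
`low K l μ T = ind core + single x1 1 + ρ'` (`ind core + single x1 1 ≤ low`), the elements of `ρ'` have position `≤ T` and
`a + T ≤ b0 + j + 1` (`j ≥ T / 2`, `4 β + 4 ≤ T / 2`); `full_many`: `Full (SM low) a b` with
`b = b0 + j + wt ρ'`.  `wt low = wt (ind core) + j + wt ρ'`, and `j + wt ρ' = wt ρ` for `ρ = single x1 1 + ρ'`.  By
`core_wt`, `wt (ind core) ≤ h T1 (T1+1) / 2 ≤ h (T - T1 - β)(T1 + 1) ≤ wt ρ` (`T1 ≤ T / 2`,
`T - T1 - β ≥ T/2 - T/64 ≥ T / 4`), hence `wt low ≤ 2 wt ρ ≤ 2 b + 1`, and `full_refl`. -/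
theorem low_full (μ : G → ℕ) (T a : ℕ) (hT : T < per K l) (hT1 : 1000 ≤ T)
    (hβ : 64 * nb K l μ T ≤ T)
    (ha : a = 2 * nb K l μ T + 3 ∨ (a = 1 ∧ ∀ i, 1 ≤ i → i ≤ T / 2 → gc K l μ i)) :
    Full K l (SM (low K l μ T)) a (wt K l (low K l μ T) - a) := by
  classical
  set β : ℕ := nb K l μ T with hβd
  set T1 : ℕ := T / 2 with hT1d
  have hT1T : T1 ≤ T := by omega
  have hnb : nb K l μ T1 ≤ β := nb_mono K l μ hT1T
  have hper1 : T1 < per K l := by omega
  set C : Finset G := core K l μ T1 with hC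
  have haβ : a ≤ 2 * β + 3 := by
    rcases ha with h | ⟨h, -⟩ <;> omega
  -- the core
  have hfull0 : Full K l (SM (ind C)) a (2 * T1 - 2 * β - 1) := by
    intro i h1 h2 κ hκ
    rcases ha with h | ⟨h, hg⟩
    · exact core_full K l μ T1 hper1 i (by omega) (by omega) κ hκ
    · exact core_full0 K l μ T1 (by omega) hper1 hg i (by omega) (by omega) κ hκ
  -- a good column
  obtain ⟨j, hj1, hj2, hjg⟩ : ∃ j, T1 < j ∧ 8 * j ≤ 7 * T ∧ gc K l μ j := by
    by_contra hcon
    push Not at hcon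
    have h1 : Icc (T1 + 1) (7 * T / 8) ⊆ (Icc 1 T).filter (fun i => ¬ gc K l μ i) := by
      intro j hj
      rw [Finset.mem_Icc] at hj
      rw [Finset.mem_filter, Finset.mem_Icc]
      exact ⟨⟨by omega, by omega⟩, hcon j (by omega) (by omega)⟩
    have h2 := Finset.card_le_card h1
    rw [Nat.card_Icc] at h2
    have h3 : ((Icc 1 T).filter (fun i => ¬ gc K l μ i)).card = β := by
      rw [hβd]
      unfold nb
      congr 1
    rw [h3] at h2
    omega
  have hjT : j ≤ T := by omega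
  have hx0 : j • l - j • l ∈ K := by rw [sub_self]; exact K.zero_mem
  have hps : ps K l (j • l) = j := ps_eq K l hx0 (by omega)
  have hxD : j • l ∈ Dd K l := mem_Dd_of K l hx0
  have hμx : μ (j • l) ≠ 0 := by
    have := hjg 0 K.zero_mem
    rwa [zero_add] at this
  have hxC : j • l ∉ C := by
    intro h
    rw [hC, mem_core4, hps] at h
    omega
  have hfull1 : Full K l (SM (ind C + Pi.single (j • l) 1)) a (2 * T1 - 2 * β - 1 + j) :=
    full_add K l (ind C) (j • l) j a _ hfull0 hx0 (by omega)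
  -- the rest
  have hle : ∀ x, (ind C + Pi.single (j • l) 1 : G → ℕ) x ≤ low K l μ T x := by
    intro x
    rw [Pi.add_apply]
    by_cases hx : x = j • l
    · rw [hx, Pi.single_eq_same]
      have h1 : ind C (j • l) = 0 := by
        unfold ind
        rw [if_neg hxC]
      have h2 : low K l μ T (j • l) = μ (j • l) := by
        unfold low
        rw [if_pos ⟨hxD, by rw [hps]; exact hjT⟩]
      rw [h1, h2]
      omega
    · rw [Pi.single_eq_of_ne hx, add_zero]
      by_cases hxc : x ∈ C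
      · have h1 : ind C x = 1 := by
          unfold ind
          rw [if_pos hxc]
        rw [hC, mem_core4] at hxc
        have h2 : low K l μ T x = μ x := by
          unfold low
          rw [if_pos ⟨hxc.1, by omega⟩]
        have h3 := hxc.2.2.2 _ (ps_spec K l hxc.1)
        rw [sub_add_cancel] at h3
        rw [h1, h2]
        omega
      · have h1 : ind C x = 0 := by
          unfold ind
          rw [if_neg hxc]
        rw [h1]
        exact Nat.zero_le _
  set ρ' : G → ℕ := fun x => low K l μ T x - (ind C + Pi.single (j • l) 1 : G → ℕ) x with hρ'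
  have hsum : ind C + Pi.single (j • l) 1 + ρ' = low K l μ T := by
    funext x
    have := hle x
    rw [Pi.add_apply, hρ']
    show _ + (low K l μ T x - _) = _
    omega
  have hlow : ∀ x, low K l μ T x ≠ 0 → x ∈ Dd K l ∧ ps K l x ≤ T := by
    intro x hx
    by_contra hcon
    apply hx
    unfold low
    rw [if_neg hcon]
  have hfull2 : Full K l (SM (low K l μ T)) a (2 * T1 - 2 * β - 1 + j + wt K l ρ') := by
    rw [← hsum]
    refine full_many K l _ ρ' a _ hfull1 ?_
    intro x hx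
    have h1 : low K l μ T x ≠ 0 := by
      intro h
      apply hx
      rw [hρ']
      show low K l μ T x - _ = 0
      rw [h, Nat.zero_sub]
    obtain ⟨h2, h3⟩ := hlow x h1
    exact ⟨h2, by omega⟩
  refine full_refl K l _ (fun x hx => (hlow x hx).1) a _ hfull2 ?_
  -- the weights
  have hs : ind C + (Pi.single (j • l) 1 + ρ') = low K l μ T := by
    rw [← add_assoc]
    exact hsum
  have hw := core_wt K l μ (Pi.single (j • l) 1 + ρ') T1 T hT1T hT hs
  have hw1 : 2 * wt K l (ind C) ≤ Nat.card K * (T1 * (T1 + 1)) := hw.1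
  have hw2 : Nat.card K * ((T - T1 - β) * (T1 + 1)) ≤ wt K l (Pi.single (j • l) 1 + ρ') := hw.2
  have hwx : wt K l (Pi.single (j • l) 1 : G → ℕ) = j := by
    unfold wt
    rw [Finset.sum_eq_single (j • l)]
    · rw [Pi.single_eq_same, one_mul, hps]
    · intro y _ hy
      rw [Pi.single_eq_of_ne hy, zero_mul]
    · intro hx'
      exact absurd (Finset.mem_univ _) hx'
  have hwρ : wt K l (Pi.single (j • l) 1 + ρ') = j + wt K l ρ' := by
    rw [wt_add, hwx]
  have hwl : wt K l (low K l μ T) = wt K l (ind C) + wt K l (Pi.single (j • l) 1 + ρ') := by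
    rw [← hs, wt_add]
  have hcmp : wt K l (ind C) ≤ wt K l (Pi.single (j • l) 1 + ρ') := by
    have h1 : T1 * (T1 + 1) ≤ 2 * ((T - T1 - β) * (T1 + 1)) := by
      rw [← mul_assoc]
      exact Nat.mul_le_mul_right _ (by omega)
    have h2 : Nat.card K * (T1 * (T1 + 1)) ≤ 2 * (Nat.card K * ((T - T1 - β) * (T1 + 1))) := by
      calc Nat.card K * (T1 * (T1 + 1)) ≤ Nat.card K * (2 * ((T - T1 - β) * (T1 + 1))) :=
            Nat.mul_le_mul_left _ h1
        _ = 2 * (Nat.card K * ((T - T1 - β) * (T1 + 1))) := by ring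
    omega
  rw [hwl]
  omega

end FX
end
end
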