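import Pool.Agent.Lib.MP_d3cc86_co.AM.U1
import Pool.Agent.Lib.MP_d3cc86_co.RG.A2
import Pool.Agent.Lib.MP_d3cc86_co.FX.Defs

section

section

set_option autoImplicit false
set_option linter.unusedSectionVars false

open Finset Pointwise

namespace FX

open RG (stb mem_stb gg ph)
open SPR (T)
open AM
open Pool.Agent.Lib.MP_d3cc86_co (lam Asym symz)

variable {G : Type} [AddCommGroup G] [Fintype G] [DecidableEq G] (K : AddSubgroup G) (l : G)

open Classical in
/-- the union of the columns `i ∈ S` -/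
private noncomputable def cols (S : Finset ℕ) : Finset G :=
  ((univ.filter (fun x : G => x ∈ K)) ×ˢ S).image (fun p => p.1 + p.2 • l)

private lemma mem_cols {S : Finset ℕ} {x : G} :
    x ∈ cols K l S ↔ ∃ i ∈ S, x - i • l ∈ K := by
  classical
  unfold cols
  rw [mem_image]
  constructor
  · rintro ⟨⟨κ, i⟩, h, rfl⟩
    rw [mem_product, mem_filter] at h
    refine ⟨i, h.2, ?_⟩
    simpa using h.1.2
  · rintro ⟨i, hi, hx⟩
    refine ⟨(x - i • l, i), ?_, ?_⟩
    · rw [mem_product, mem_filter]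
      exact ⟨⟨mem_univ _, hx⟩, hi⟩
    · simp

private lemma dvd_of_two {x : G} {i j : ℕ} (hij : i ≤ j) (hi : x - i • l ∈ K)
    (hj : x - j • l ∈ K) : per K l ∣ j - i := by
  rw [← nsmul_mem_iff]
  have h5 : j • l = (j - i) • l + i • l := by
    rw [← add_nsmul, Nat.sub_add_cancel hij]
  have h4 : (j - i) • l = (x - i • l) - (x - j • l) := by
    rw [h5]
    abel
  rw [h4]
  exact K.sub_mem hi hj

private lemma card_cols (S : Finset ℕ) (h : ∀ i ∈ S, ∀ j ∈ S, i < j → ¬ per K l ∣ j - i) :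
    (cols K l S).card = Nat.card K * S.card := by
  classical
  unfold cols
  rw [card_image_of_injOn, card_product]
  · congr 1
    rw [Nat.card_eq_fintype_card, Fintype.card_subtype]
  · rintro ⟨κ, i⟩ hp ⟨κ', j⟩ hq hpq
    rw [mem_coe, mem_product, mem_filter] at hp hq
    obtain ⟨⟨_, hκ⟩, hi⟩ := hp
    obtain ⟨⟨_, hκ'⟩, hj⟩ := hq
    change κ + i • l = κ' + j • l at hpq
    have hi' : (κ + i • l) - i • l ∈ K := by
      rw [add_sub_cancel_right]
      exact hκ
    have hj' : (κ + i • l) - j • l ∈ K := by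
      rw [hpq, add_sub_cancel_right]
      exact hκ'
    have hij : i = j := by
      rcases lt_trichotomy i j with h1 | h1 | h1
      · exact absurd (dvd_of_two K l h1.le hi' hj') (h i hi j hj h1)
      · exact h1
      · exact absurd (dvd_of_two K l h1.le hj' hi') (h j hj i hi h1)
    subst hij
    have hk : κ = κ' := add_right_cancel hpq
    rw [hk]

private lemma not_dvd_of_lt {m n : ℕ} (h0 : 0 < n) (h1 : n < m) : ¬ m ∣ n := by
  intro h
  have := Nat.le_of_dvd h0 h
  omega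

/-- The elements `κ + i l`, `κ ∈ K`, `a ≤ i ≤ b` are pairwise distinct: `(i - i') l ∈ K` implies
`per ∣ i - i'`, `i - i' < per`. -/
theorem full_card (Y : Finset G) (a b : ℕ) (h : Full K l Y a b) (hper : b + 1 - a ≤ per K l) :
    Nat.card K * (b + 1 - a) ≤ Y.card := by
  have h1 := card_cols K l (Icc a b) (by
    intro i hi j hj hij
    rw [mem_Icc] at hi hj
    exact not_dvd_of_lt (by omega) (by omega))
  rw [Nat.card_Icc] at h1
  rw [← h1]
  apply card_le_card
  intro x hx
  obtain ⟨i, hi, hx⟩ := (mem_cols K l).1 hx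
  rw [mem_Icc] at hi
  have := h i hi.1 hi.2 _ hx
  rwa [sub_add_cancel] at this

/-- Every `x ∈ Dd` is `κ + i l` with `a ≤ i ≤ b`: choose `i ≡ ps x` modulo `per` in the interval `[a, b]` of length
`≥ per`. -/
theorem full_wrap (Y : Finset G) (a b : ℕ) (h : Full K l Y a b) (hper : per K l ≤ b + 1 - a) :
    ∀ x ∈ Dd K l, x ∈ Y := by
  intro x hx
  have h1 := ps_spec K l hx
  have h2 := ps_lt K l hx
  have hp := per_pos K l
  have hpK : per K l • l ∈ K := (nsmul_mem_iff K l _).2 dvd_rfl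
  -- choose `i = ps x + t per` in `[a, a + per - 1]`
  have key : ∃ t : ℕ, a ≤ ps K l x + t * per K l ∧ ps K l x + t * per K l < a + per K l := by
    by_cases hc : a ≤ ps K l x
    · refine ⟨0, by omega, by omega⟩
    · push Not at hc
      refine ⟨(a - ps K l x + per K l - 1) / per K l, ?_, ?_⟩
      · have h3 := Nat.div_add_mod (a - ps K l x + per K l - 1) (per K l)
        have h4 := Nat.mod_lt (a - ps K l x + per K l - 1) hp
        rw [mul_comm] at h3
        omega
      · have h3 := Nat.div_mul_le_self (a - ps K l x + per K l - 1) (per K l)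
        omega
  obtain ⟨t, ht1, ht2⟩ := key
  have h3 : x - (ps K l x + t * per K l) • l ∈ K := by
    have h4 : x - (ps K l x + t * per K l) • l = (x - ps K l x • l) - t • (per K l • l) := by
      rw [add_nsmul, mul_nsmul']
      abel
    rw [h4]
    exact K.sub_mem h1 (K.nsmul_mem hpK _)
  have h4 := h _ ht1 (by omega) _ h3
  rwa [sub_add_cancel] at h4

/-- The elements `κ + i l` with `i ∈ [a, b]` or `i ∈ [a + π, b + π]` (the latter are `x + (κ' + (i - π) l)`) lie in
`Y ∪ (x +ᵥ Y)` and are pairwise distinct: with `Λ = b + 1 - a`, for `i ∈ [a, b]`, `j ∈ [a + π, b + π]` we have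
`0 < π - (Λ - 1) ≤ j - i ≤ π + Λ - 1 < 2 π ≤ per`, so `(j - i) l ∉ K`. -/
theorem full_double (Y : Finset G) (a b π : ℕ) (x : G) (h : Full K l Y a b)
    (hx : x - π • l ∈ K) (h1 : b + 1 - a ≤ π) (h2 : 2 * π ≤ per K l) :
    2 * (Nat.card K * (b + 1 - a)) ≤ (Y ∪ (x +ᵥ Y)).card := by
  have hc := card_cols K l (Icc a b ∪ Icc (a + π) (b + π)) (by
    intro i hi j hj hij
    rw [mem_union, mem_Icc, mem_Icc] at hi hj
    exact not_dvd_of_lt (by omega) (by omega))
  have hd : (Icc a b ∪ Icc (a + π) (b + π)).card = 2 * (b + 1 - a) := by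
    rw [card_union_of_disjoint, Nat.card_Icc, Nat.card_Icc]
    · omega
    · rw [disjoint_left]
      intro i hi hj
      rw [mem_Icc] at hi hj
      omega
  rw [hd] at hc
  have he : 2 * (Nat.card K * (b + 1 - a)) = Nat.card K * (2 * (b + 1 - a)) := by ring
  rw [he, ← hc]
  apply card_le_card
  intro y hy
  obtain ⟨i, hi, hy⟩ := (mem_cols K l).1 hy
  rw [mem_union, mem_Icc, mem_Icc] at hi
  rw [mem_union]
  rcases hi with hi | hi
  · left
    have := h i hi.1 hi.2 _ hy
    rwa [sub_add_cancel] at this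
  · right
    rw [mem_vadd_finset]
    have h5 : i • l = (i - π) • l + π • l := by
      rw [← add_nsmul, Nat.sub_add_cancel (by omega)]
    have h4 : (y - i • l) - (x - π • l) = (y - x) - (i - π) • l := by
      rw [h5]
      abel
    have h6 := K.sub_mem hy hx
    rw [h4] at h6
    have h7 := h (i - π) (by omega) (by omega) _ h6
    rw [sub_add_cancel] at h7
    refine ⟨y - x, h7, ?_⟩
    rw [vadd_eq_add]
    abel

/-- Two columns more: if the columns `1, …, Π - 1` are in `Y`, `F0 ⊆ Y` has `f` elements in `K` and `F1 ⊆ Y` has `f`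
elements in `Π l + K`, and `1 ≤ Π < per`, then `|Y| ≥ h (Π - 1) + 2 f`: these `Π + 1` columns are different. -/
theorem full_ends (Y F0 F1 : Finset G) (P : ℕ) (h : Full K l Y 1 (P - 1)) (h0 : F0 ⊆ Y)
    (h0K : ∀ x ∈ F0, x ∈ K) (h1 : F1 ⊆ Y) (h1K : ∀ x ∈ F1, x - P • l ∈ K) (hP : 1 ≤ P)
    (hper : P < per K l) : Nat.card K * (P - 1) + F0.card + F1.card ≤ Y.card := by
  have hc := card_cols K l (Icc 1 (P - 1)) (by
    intro i hi j hj hij
    rw [mem_Icc] at hi hj
    exact not_dvd_of_lt (by omega) (by omega))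
  rw [Nat.card_Icc, Nat.add_sub_cancel] at hc
  rw [← hc]
  have h0K' : ∀ x ∈ F0, x - 0 • l ∈ K := by
    intro x hx
    rw [zero_nsmul, sub_zero]
    exact h0K x hx
  have hd1 : Disjoint (cols K l (Icc 1 (P - 1))) F0 := by
    rw [disjoint_left]
    intro x hx hx0
    obtain ⟨i, hi, hx⟩ := (mem_cols K l).1 hx
    rw [mem_Icc] at hi
    exact not_dvd_of_lt (by omega) (by omega) (dvd_of_two K l (Nat.zero_le i) (h0K' x hx0) hx)
  have hd2 : Disjoint (cols K l (Icc 1 (P - 1)) ∪ F0) F1 := by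
    rw [disjoint_left]
    intro x hx hx1
    rw [mem_union] at hx
    rcases hx with hx | hx
    · obtain ⟨i, hi, hx⟩ := (mem_cols K l).1 hx
      rw [mem_Icc] at hi
      exact not_dvd_of_lt (by omega) (by omega)
        (dvd_of_two K l (show i ≤ P by omega) hx (h1K x hx1))
    · exact not_dvd_of_lt (by omega) (by omega)
        (dvd_of_two K l (Nat.zero_le P) (h0K' x hx) (h1K x hx1))
  rw [← card_union_of_disjoint hd1, ← card_union_of_disjoint hd2]
  apply card_le_card
  intro x hx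
  rw [mem_union, mem_union] at hx
  rcases hx with (hx | hx) | hx
  · obtain ⟨i, hi, hx⟩ := (mem_cols K l).1 hx
    rw [mem_Icc] at hi
    have := h i hi.1 hi.2 _ hx
    rwa [sub_add_cancel] at this
  · exact h0 hx
  · exact h1 hx

end FX
end

section

set_option autoImplicit false
set_option linter.unusedSectionVars false

open Finset Pointwise

namespace FX

open RG (stb mem_stb gg ph)
open SPR (T)
open AM
open Pool.Agent.Lib.MP_d3cc86_co (lam Asym symz)

variable {G : Type} [AddCommGroup G] [Fintype G]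

/-- The local situation.  `h = |K|`. -/
structure LAH (w : ℕ) (μ : G → ℕ) (K : AddSubgroup G) (l : G) (T p : ℕ) : Prop where
  hyp : Hyp w μ
  ori : ∀ x ∈ Dd K l, μ x ≠ 0 → 2 * ps K l x ≤ per K l
  big : 2 * T < per K l
  mass : p * tot μ ≤ p * tot (low K l μ T) + tot μ
  cov : p * (w * (T * Nat.card K)) ≤ (p + 1) * tot μ
  p1 : 1000 * Nat.card K ≤ p
  T1 : 1000 * Nat.card K ≤ T
  s1 : 1000000 * (w * Nat.card K ^ 2) ≤ tot μ

variable (K : AddSubgroup G) (l : G)

/-- A full range of `per` columns contradicts aperiodicity: by `full_wrap` `SM ν ⊇ Dd`, and `SM ν ⊆ Dd` (`SM_sub`), so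
`SM ν = sf (Dd K l)`, and every element of `Dd` stabilizes it; `stb (SM ν) ≤ stb (SM μ) = ⊥`, so `Dd = ⊥`, but
`|Dd| = per |K| ≥ 2` (`card_Dd`). -/
theorem no_wrap (μ ν : G → ℕ) (hle : ∀ x, ν x ≤ μ x) (hst : stb (SM μ) = ⊥)
    (hD : ∀ x, ν x ≠ 0 → x ∈ Dd K l) (h2 : 2 ≤ per K l) (a b : ℕ)
    (h : Full K l (SM ν) a b) : b + 1 - a < per K l := by
  classical
  by_contra hcon
  push Not at hcon
  have h1 := full_wrap K l (SM ν) a b h hcon
  have h3 := SM_sub hD
  have h4 : ∀ g ∈ Dd K l, g = 0 := by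
    intro g hg
    have h5 : g ∈ stb (SM ν) := by
      rw [mem_stb]
      intro x
      constructor
      · intro hx
        have h6 : x = (x + g) - g := by abel
        rw [h6]
        exact h1 _ ((Dd K l).sub_mem (h3 _ hx) hg)
      · intro hx
        exact h1 _ ((Dd K l).add_mem (h3 _ hx) hg)
    have h7 := stb_mono hle h5
    rw [hst] at h7
    exact AddSubgroup.mem_bot.1 h7
  have h8 : Dd K l = ⊥ := by
    rw [eq_bot_iff]
    intro g hg
    exact AddSubgroup.mem_bot.2 (h4 g hg)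
  have h9 := card_Dd K l
  rw [h8] at h9
  have h10 : Nat.card (⊥ : AddSubgroup G) = 1 := AddSubgroup.card_bot
  rw [h10] at h9
  have h11 : 1 ≤ Nat.card K := Nat.card_pos
  nlinarith

/-- `8 w gg w s ≤ 8 w + (2 s + w)^2` (`RG.gg_upper`) and `X + 1 ≤ gg w s`: `8 w X ≤ (2 s + w)^2`, so
`8 · 9 s^2 ≤ 80 w X ≤ 10 (2 s + w)^2 = 40 s^2 + 40 s w + 10 w^2 ≤ 41 s^2` when `1000 w ≤ s`: a contradiction. -/
theorem num6 (w s X : ℕ) (hw : 1 ≤ w) (h1 : 1000 * w ≤ s) (h2 : 9 * s ^ 2 ≤ 10 * (w * X))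
    (h3 : X < gg w s) : False := by
  have h4 := RG.gg_upper w s hw
  have h5 : 8 * w * (X + 1) ≤ 8 * w * gg w s := Nat.mul_le_mul_left _ h3
  have h6 : w * (1000 * w) ≤ w * s := Nat.mul_le_mul_left _ h1
  have h7 : s * (1000 * w) ≤ s * s := Nat.mul_le_mul_left _ h1
  have h8 : 1 ≤ s := by omega
  have h9 : 1 ≤ s * s := Nat.mul_pos h8 h8
  nlinarith

end FX
end
end

section

section

set_option autoImplicit false
set_option linter.unusedSectionVars false

open Finset Pointwise

namespace FX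

open RG (stb mem_stb gg ph)
open SPR (T)
open AM
open Pool.Agent.Lib.MP_d3cc86_co (lam Asym symz)

/-- Composition of the two steps.  Unfold `ph`: the left side is
`q h gg(w q h) (m - w ⌊(q h - 1)/2⌋)`, the right side `q h gg(w q h) (σ - w q ⌊(h - 1)/2⌋)`.  By
`gg_mono` it is enough that `m - w ⌊(qh-1)/2⌋ ≤ σ - w q ⌊(h-1)/2⌋`; this follows from `hm` and
`⌊(q-1)/2⌋ + q ⌊(h-1)/2⌋ ≤ ⌊(qh-1)/2⌋` (twice the left side is `≤ q - 1 + q (h-1) = q h - 1`). -/
theorem ph_comp (w q h σ m : ℕ) (hw : 1 ≤ w) (hq : 1 ≤ q) (hh : 1 ≤ h)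
    (hm : m ≤ σ + w * ((q - 1) / 2)) : ph w (q * h) m ≤ q * ph (w * q) h σ := by
  unfold ph
  rw [← mul_assoc q h, ← mul_assoc w q h]
  have hwqh : 1 ≤ w * q * h := Nat.one_le_iff_ne_zero.mpr (by positivity)
  refine Nat.mul_le_mul_left _ (RG.gg_mono _ hwqh ?_)
  have h1 : (q - 1) / 2 + q * ((h - 1) / 2) ≤ (q * h - 1) / 2 := by
    rw [Nat.le_div_iff_mul_le (by norm_num)]
    have h2 : (q - 1) / 2 * 2 ≤ q - 1 := Nat.div_mul_le_self _ _
    have h3 : (h - 1) / 2 * 2 ≤ h - 1 := Nat.div_mul_le_self _ _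
    have h4 : q * ((h - 1) / 2 * 2) ≤ q * (h - 1) := Nat.mul_le_mul_left _ h3
    have h5 : q * (h - 1) + q = q * h := by
      obtain ⟨h', rfl⟩ : ∃ h', h = h' + 1 := ⟨h - 1, by omega⟩
      simp [Nat.mul_add]
    have h6 : q * ((h - 1) / 2 * 2) = q * ((h - 1) / 2) * 2 := by ring
    omega
  have h7 := Nat.mul_le_mul_left w h1
  rw [Nat.mul_add, ← mul_assoc w q ((h - 1) / 2)] at h7
  omega

/-- The inductive step for the periodic case.  From `Red`: `Q, k, ν`.  `|Q| < |G|` as `k ≥ 2` and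
`|Q| ≥ 1`.  `1 ≤ w k`.  `M₀ ≤ w k + tot ν`: as `w ⌊(k-1)/2⌋ + w ≤ w k`, we have
`w + tot μ ≤ w k + tot ν`.  So `IH` gives `Concl Q (w k) ν`.
First alternative, `h ∣ |Q|`, `ph (w k) h (tot ν) ≤ |SM ν|`: take `k h ∣ k |Q| = |G|`, `ph_comp`
(`1 ≤ h` since `h ∣ |Q|`, `|Q| > 0`) gives `ph w (k h) (tot μ) ≤ k ph (w k) h (tot ν) ≤ k |SM ν| ≤ |SM μ|`.
Second alternative: `w k = 1` is impossible. -/
theorem concl_up {G : Type} [AddCommGroup G] [Fintype G] (w : ℕ) (hw : 1 ≤ w) (μ : G → ℕ) (M₀ : ℕ)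
    (hM : M₀ ≤ w + tot μ) (h : Red w μ)
    (IH : ∀ (Q : Type) [AddCommGroup Q] [Fintype Q] (w' : ℕ) (ν : Q → ℕ),
      Nat.card Q < Nat.card G → IsAddCyclic Q → 1 ≤ w' → AS ν → (∀ x, ν x ≤ w') →
      M₀ ≤ w' + tot ν → Concl Q w' ν) : Concl G w μ := by
  obtain ⟨Q, iQ, fQ, k, ν, hk, hcyc, hcard, has, hcap, htot, hsm⟩ := h
  have hQ : 0 < Nat.card Q := Nat.card_pos
  have hlt : Nat.card Q < Nat.card G := by
    rw [← hcard]
    nlinarith
  have hwk : 1 ≤ w * k := Nat.one_le_iff_ne_zero.mpr (by positivity)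
  have hM' : M₀ ≤ w * k + tot ν := by
    have h1 : (k - 1) / 2 + 1 ≤ k := by omega
    have h2 := Nat.mul_le_mul_left w h1
    rw [Nat.mul_add, Nat.mul_one] at h2
    omega
  rcases IH Q (w * k) ν hlt hcyc hwk has hcap hM' with ⟨h, hdvd, hph⟩ | ⟨h1, -, -⟩
  · left
    refine ⟨k * h, ?_, ?_⟩
    · rw [← hcard]
      exact Nat.mul_dvd_mul_left k hdvd
    · have hh : 1 ≤ h := Nat.pos_of_dvd_of_pos hdvd hQ
      calc ph w (k * h) (tot μ) ≤ k * ph (w * k) h (tot ν) :=
            ph_comp w k h (tot ν) (tot μ) hw (by omega) hh htot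
        _ ≤ k * (SM ν).card := Nat.mul_le_mul_left _ hph
        _ ≤ _ := hsm
  · exfalso
    nlinarith

end FX
end

section

set_option autoImplicit false
set_option linter.unusedSectionVars false

open Finset Pointwise

namespace FX

open RG (stb mem_stb gg ph)
open SPR (T)
open AM
open Pool.Agent.Lib.MP_d3cc86_co (lam Asym symz)

/-- Transport of the context to `ℤ/N`.  `H = closure V` is a subgroup of the cyclic group `G`, so it is cyclic:
`e : ZMod N ≃+ H`, `N = |H|` (`zmodAddCyclicAddEquiv`), `f = H.subtype ∘ e`, an injective homomorphism with range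
`H`.  `V' = univ.filter (f x ∈ V)`, `C' = univ.filter (f x ∈ C)` (preimages); `V'.image f = V` (`V ⊆ H`),
`C'.image f = C` (`sub`).  `closure V' = ⊤`: its image under `f` is the closure of `V`, i.e. `H`, the whole range.
`lam C' x = lam C (f x)` because `f` is injective and maps `x + C'` to `f x + C` (`Finset.card_image_of_injective`,
`image_vadd`-like).  Sparse: for `H' ≤ ZMod N` take `H'.map f`: `|H'.map f| = |H'|` and
`|off V (H'.map f)| = |off V' H'|`.  `|V'| = |V|`, `|C'| = |C|`, `|closure V'| = N = |closure V|`. -/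
theorem transport {G : Type} [AddCommGroup G] [Fintype G] [DecidableEq G] (hG : IsAddCyclic G)
    (V C : Finset G) (q : ℕ) (h : Ctx V C q) :
    ∃ (N : ℕ) (_ : NeZero N) (f : ZMod N →+ G) (V' C' : Finset (ZMod N)),
      Function.Injective f ∧ V'.image f = V ∧ AddSubgroup.closure (V' : Set (ZMod N)) = ⊤ ∧
      Ctx V' C' q := by
  have hcyc : IsAddCyclic (AddSubgroup.closure (V : Set G)) := inferInstance
  have hN0 : NeZero (Nat.card (AddSubgroup.closure (V : Set G))) := ⟨Nat.card_pos.ne'⟩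
  obtain ⟨e⟩ : Nonempty (ZMod (Nat.card (AddSubgroup.closure (V : Set G))) ≃+
      (AddSubgroup.closure (V : Set G))) := ⟨zmodAddCyclicAddEquiv hcyc⟩
  generalize hN : Nat.card (AddSubgroup.closure (V : Set G)) = N at hN0 e
  have hf0 : ∃ f : ZMod N →+ G, Function.Injective f ∧ (∀ x, f x ∈ AddSubgroup.closure (V : Set G)) ∧
      (∀ y ∈ AddSubgroup.closure (V : Set G), ∃ x, f x = y) := by
    refine ⟨(AddSubgroup.closure (V : Set G)).subtype.comp e.toAddMonoidHom, ?_, ?_, ?_⟩
    · intro a b hab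
      exact e.injective (Subtype.ext hab)
    · intro x
      exact (e x).2
    · intro y hy
      refine ⟨e.symm ⟨y, hy⟩, ?_⟩
      show ((e (e.symm ⟨y, hy⟩) : AddSubgroup.closure (V : Set G)) : G) = y
      rw [e.apply_symm_apply]
  obtain ⟨f, hinj, hmem, hsurj⟩ := hf0
  have hVimg : (univ.filter (fun x => f x ∈ V)).image f = V := by
    ext y
    rw [Finset.mem_image]
    constructor
    · rintro ⟨x, hx, rfl⟩
      exact (Finset.mem_filter.1 hx).2
    · intro hy
      obtain ⟨x, hx⟩ := hsurj y (AddSubgroup.subset_closure hy)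
      exact ⟨x, Finset.mem_filter.2 ⟨Finset.mem_univ _, by rw [hx]; exact hy⟩, hx⟩
  have hCimg : (univ.filter (fun x => f x ∈ C)).image f = C := by
    ext y
    rw [Finset.mem_image]
    constructor
    · rintro ⟨x, hx, rfl⟩
      exact (Finset.mem_filter.1 hx).2
    · intro hy
      obtain ⟨x, hx⟩ := hsurj y (h.sub y hy)
      exact ⟨x, Finset.mem_filter.2 ⟨Finset.mem_univ _, by rw [hx]; exact hy⟩, hx⟩
  have hVcard : (univ.filter (fun x => f x ∈ V)).card = V.card := by
    conv_rhs => rw [← hVimg]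
    rw [Finset.card_image_of_injective _ hinj]
  have hCcard : (univ.filter (fun x => f x ∈ C)).card = C.card := by
    conv_rhs => rw [← hCimg]
    rw [Finset.card_image_of_injective _ hinj]
  have hcl : AddSubgroup.closure ((univ.filter (fun x => f x ∈ V) : Finset (ZMod N)) : Set (ZMod N)) = ⊤ := by
    rw [eq_top_iff]
    intro x _
    have h1 : f x ∈ AddSubgroup.closure (f '' ((univ.filter (fun x => f x ∈ V) : Finset (ZMod N)) : Set (ZMod N))) := by
      rw [← Finset.coe_image, hVimg]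
      exact hmem x
    rw [← AddMonoidHom.map_closure] at h1
    obtain ⟨y, hy, hxy⟩ := h1
    rw [← hinj hxy]
    exact hy
  have hlam : ∀ x, lam (univ.filter (fun x => f x ∈ C)) x = lam C (f x) := by
    intro x
    unfold lam
    rw [← Finset.card_image_of_injective _ hinj]
    congr 1
    ext y
    rw [Finset.mem_image, Finset.mem_sdiff, Finset.mem_vadd_finset]
    constructor
    · rintro ⟨z, hz, rfl⟩
      rw [Finset.mem_sdiff, Finset.mem_vadd_finset] at hz
      obtain ⟨⟨c, hc, hcz⟩, hz2⟩ := hz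
      refine ⟨⟨f c, (Finset.mem_filter.1 hc).2, ?_⟩, ?_⟩
      · rw [← hcz, vadd_eq_add, vadd_eq_add, map_add]
      · intro hzC
        exact hz2 (Finset.mem_filter.2 ⟨Finset.mem_univ _, hzC⟩)
    · rintro ⟨⟨c, hc, hcy⟩, hy⟩
      obtain ⟨c', hc'⟩ := hsurj c (h.sub c hc)
      refine ⟨x + c', ?_, ?_⟩
      · rw [Finset.mem_sdiff, Finset.mem_vadd_finset]
        refine ⟨⟨c', Finset.mem_filter.2 ⟨Finset.mem_univ _, by rw [hc']; exact hc⟩, rfl⟩, ?_⟩
        intro hm
        apply hy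
        have h2 := (Finset.mem_filter.1 hm).2
        rw [map_add, hc'] at h2
        rw [← hcy, vadd_eq_add]
        exact h2
      · rw [map_add, hc', ← hcy, vadd_eq_add]
  have hoff : ∀ K : AddSubgroup (ZMod N), (off V (K.map f)).card = (off (univ.filter (fun x => f x ∈ V)) K).card := by
    intro K
    rw [← Finset.card_image_of_injective _ hinj]
    congr 1
    ext y
    rw [mem_off, Finset.mem_image]
    constructor
    · rintro ⟨hy, hyK⟩
      obtain ⟨x, hx⟩ := hsurj y (AddSubgroup.subset_closure hy)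
      refine ⟨x, ?_, hx⟩
      rw [mem_off]
      refine ⟨Finset.mem_filter.2 ⟨Finset.mem_univ _, by rw [hx]; exact hy⟩, ?_⟩
      intro hxK
      exact hyK ⟨x, hxK, hx⟩
    · rintro ⟨x, hx, rfl⟩
      rw [mem_off] at hx
      refine ⟨(Finset.mem_filter.1 hx.1).2, ?_⟩
      rintro ⟨z, hz, hzx⟩
      rw [hinj hzx] at hz
      exact hx.2 hz
  refine ⟨N, hN0, f, univ.filter (fun x => f x ∈ V), univ.filter (fun x => f x ∈ C), hinj, hVimg, hcl, ?_⟩
  refine ⟨?_, ?_, ?_, ?_, ?_, ?_, ?_⟩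
  · intro a ha hna
    have h1 := (Finset.mem_filter.1 ha).2
    have h2 := (Finset.mem_filter.1 hna).2
    rw [map_neg] at h2
    exact h.asym _ h1 h2
  · rw [hVcard]; exact h.big
  · rw [hVcard, hCcard]; exact h.wide
  · intro x _
    rw [hcl]
    exact AddSubgroup.mem_top x
  · rw [hCcard, hcl]
    have h1 : Nat.card (⊤ : AddSubgroup (ZMod N)) = N := by
      rw [AddSubgroup.card_top, Nat.card_zmod]
    rw [h1, ← hN]
    exact h.half
  · intro x hx
    rw [hlam, hVcard]
    exact h.flat _ (Finset.mem_filter.1 hx).2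
  · intro K
    rw [hVcard, ← hoff]
    have h1 := h.sparse (K.map f)
    have h2 : Nat.card (K.map f) = Nat.card K := by
      rw [← SetLike.coe_sort_coe, ← SetLike.coe_sort_coe, AddSubgroup.coe_map]
      exact Nat.card_image_of_injective hinj _
    rw [h2] at h1
    exact h1

end FX
end

section

set_option autoImplicit false
set_option linter.unusedSectionVars false

open Finset Pointwise

namespace FX

open RG (stb mem_stb gg ph)
open SPR (T)
open AM
open Pool.Agent.Lib.MP_d3cc86_co (lam Asym symz)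

/-- `s = 3 Q + 1 + r`, `r < 3`: `3 gg 3 (s - 1) = 3 (1 + 3 T Q + r (Q+1))` and `T s` are explicit polynomials:
the difference is `2` for `r = 0`, `3` for `r = 1, 2`. -/
theorem fa3 (s : ℕ) (hs : 1 ≤ s) :
    (s % 3 = 1 ∧ 3 * gg 3 (s - 1) = T s + 2) ∨ 3 * gg 3 (s - 1) = T s + 3 := by
  obtain ⟨Q, r, hr, rfl⟩ : ∃ Q r, r < 3 ∧ s = 3 * Q + 1 + r :=
    ⟨(s - 1) / 3, (s - 1) % 3, Nat.mod_lt _ (by omega), by omega⟩
  have h1 : (3 * Q + 1 + r - 1) / 3 = Q := by omega
  have h2 : (3 * Q + 1 + r - 1) % 3 = r := by omega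
  have hT1 := SPR.two_T Q
  have hT2 := SPR.two_T (3 * Q + 1 + r)
  unfold gg
  rw [h1, h2]
  interval_cases r
  · left
    refine ⟨by omega, ?_⟩
    nlinarith
  · right
    nlinarith
  · right
    nlinarith

/-- `s = 5 Q + 2 + r`, `r < 5`: `5 gg 5 (s - 2) - T s = 2, 4, 5, 5, 4` for `r = 0, …, 4`. -/
theorem fa5 (s : ℕ) (hs : 2 ≤ s) :
    (s % 5 = 2 ∧ 5 * gg 5 (s - 2) = T s + 2) ∨ T s + 4 ≤ 5 * gg 5 (s - 2) := by
  obtain ⟨Q, r, hr, rfl⟩ : ∃ Q r, r < 5 ∧ s = 5 * Q + 2 + r :=
    ⟨(s - 2) / 5, (s - 2) % 5, Nat.mod_lt _ (by omega), by omega⟩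
  have h1 : (5 * Q + 2 + r - 2) / 5 = Q := by omega
  have h2 : (5 * Q + 2 + r - 2) % 5 = r := by omega
  have hT1 := SPR.two_T Q
  have hT2 := SPR.two_T (5 * Q + 2 + r)
  unfold gg
  rw [h1, h2]
  interval_cases r
  · left
    refine ⟨by omega, ?_⟩
    nlinarith
  all_goals
    right
    nlinarith

end FX
end

section

set_option autoImplicit false
set_option linter.unusedSectionVars false

open Finset Pointwise

namespace FX

open RG (stb mem_stb gg ph)
open SPR (T)
open AM
open Pool.Agent.Lib.MP_d3cc86_co (lam Asym symz)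

open Classical in
/-- A dense coset.  `n1 = |K1| ≥ 10000`, `v = |V|`.  Suppose every coset has `3 |V ∩ (x + K1)| < n1`.  `V` is covered by
`K1` and the `2 t` cosets `i l + K1`, `-i l + K1`, `1 ≤ i ≤ t`, and `|V ∩ K1|^2 < 25 n1`, so
`3 v ≤ 3 · 5 √n1 + 2 t n1`.  `10 (2 t n1) ≤ 11 (2 v + 1)`.  So `30 v ≤ 150 √n1 + 22 v + 11`, `8 v ≤ 150 √n1 + 11`.  On the
other hand `22 v + 11 ≥ 20 t n1 ≥ 20 n1`, so `v ≥ (20 n1 - 11)/22 ≥ 0.9 n1`, `7.2 n1 ≤ 150 √n1 + 11`, false for
`n1 ≥ 10000`. -/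
theorem densecoset {G : Type} [AddCommGroup G] [Fintype G] [DecidableEq G] (V : Finset G)
    (K1 : AddSubgroup G) (l : G) (t : ℕ) (ht : 1 ≤ t) (hn : 10000 ≤ Nat.card K1)
    (hsp : (V.card - (off V K1).card) ^ 2 < 25 * Nat.card K1)
    (hcov : ∀ x ∈ V, ∃ i : ℕ, i ≤ t ∧ (x - i • l ∈ K1 ∨ x + i • l ∈ K1))
    (hc : 10 * (2 * t * Nat.card K1) ≤ 11 * (2 * V.card + 1)) :
    ∃ x : G, Nat.card K1 ≤ 3 * (V.filter (fun y => y - x ∈ K1)).card := by
  by_contra hcon
  push Not at hcon
  have hsub : off V K1 ⊆ (Icc 1 t).biUnion (fun i => V.filter (fun y => y - i • l ∈ K1) ∪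
      V.filter (fun y => y - (-(i • l)) ∈ K1)) := by
    intro x hx
    rw [mem_off] at hx
    obtain ⟨i, hi, h⟩ := hcov x hx.1
    have hi1 : 1 ≤ i := by
      by_contra h0
      have : i = 0 := by omega
      rw [this, zero_smul, sub_zero, add_zero, or_self] at h
      exact hx.2 h
    rw [Finset.mem_biUnion]
    refine ⟨i, Finset.mem_Icc.2 ⟨hi1, hi⟩, ?_⟩
    rw [Finset.mem_union, Finset.mem_filter, Finset.mem_filter]
    rcases h with h | h
    · exact Or.inl ⟨hx.1, h⟩
    · refine Or.inr ⟨hx.1, ?_⟩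
      rw [sub_neg_eq_add]; exact h
  have h1 : 3 * (off V K1).card ≤ 2 * t * Nat.card K1 := by
    have h2 := (Finset.card_le_card hsub).trans Finset.card_biUnion_le
    have h3 : ∀ i ∈ Icc 1 t, 3 * (V.filter (fun y => y - i • l ∈ K1) ∪
        V.filter (fun y => y - (-(i • l)) ∈ K1)).card ≤ 2 * Nat.card K1 := by
      intro i _
      have h4 := Finset.card_union_le (V.filter (fun y => y - i • l ∈ K1))
        (V.filter (fun y => y - (-(i • l)) ∈ K1))
      have h5 := hcon (i • l)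
      have h6 := hcon (-(i • l))
      omega
    calc 3 * (off V K1).card ≤ 3 * ∑ i ∈ Icc 1 t, (V.filter (fun y => y - i • l ∈ K1) ∪
          V.filter (fun y => y - (-(i • l)) ∈ K1)).card := Nat.mul_le_mul_left 3 h2
      _ = ∑ i ∈ Icc 1 t, 3 * (V.filter (fun y => y - i • l ∈ K1) ∪
          V.filter (fun y => y - (-(i • l)) ∈ K1)).card := Finset.mul_sum _ _ _
      _ ≤ ∑ i ∈ Icc 1 t, 2 * Nat.card K1 := Finset.sum_le_sum h3
      _ = 2 * t * Nat.card K1 := by
        rw [Finset.sum_const, Nat.card_Icc, smul_eq_mul]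
        have : t + 1 - 1 = t := by omega
        rw [this]; ring
  have hoff : (off V K1).card ≤ V.card := by
    refine Finset.card_le_card ?_
    intro x hx
    exact ((mem_off _ _ _).1 hx).1
  generalize hN : Nat.card K1 = N at *
  generalize hv : V.card = v at *
  generalize ho : (off V K1).card = o at *
  obtain ⟨r, rfl⟩ := Nat.exists_eq_add_of_le hoff
  have hr : o + r - o = r := by omega
  rw [hr] at hsp
  have h2 : N ≤ t * N := Nat.le_mul_of_pos_left N (by omega)
  have h3 : 2 * t * N = 2 * (t * N) := by ring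
  rw [h3] at h1 hc
  generalize t * N = P at *
  have h4 : 16 * N ≤ 66 * r + 33 := by omega
  nlinarith

end FX
end

section

set_option autoImplicit false
set_option linter.unusedSectionVars false

open Finset Pointwise

namespace FX

open RG (stb mem_stb gg ph)
open SPR (T)
open AM
open Pool.Agent.Lib.MP_d3cc86_co (lam Asym symz)

/-- Let `K` be a subgroup of maximal order among those of order `< 4 t` (`⊥` is one).  Let `p` be a
prime dividing `|G ⧸ K|`.  By Cauchy there is an element of order `p` in `G ⧸ K`; the preimage `H` of the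
subgroup it generates has order `p |K| > |K|` (`AddSubgroup.comap`, Lagrange), so not `< 4 t` by
maximality, hence `b < p |K|`.  Suppose `p ≤ b`.  `p ∣ |G|`, so `G` has a subgroup of order `p ≤ b`; by `hd`
`p < 4 t`; so `p |K| < 16 t^2 ≤ b`, a contradiction. -/
theorem x1 {G : Type} [AddCommGroup G] [Fintype G] (t b : ℕ) (ht : 1 ≤ t) (hb : 16 * t ^ 2 ≤ b)
    (hd : ∀ H : AddSubgroup G, b < Nat.card H ∨ Nat.card H < 4 * t) :
    ∃ K : AddSubgroup G, Nat.card K < 4 * t ∧ ∀ p : ℕ, p.Prime → p ∣ Nat.card (G ⧸ K) → b < p := by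
  obtain ⟨K, hK, hmax⟩ := Set.exists_max_image {H : AddSubgroup G | Nat.card H < 4 * t}
    (fun H => Nat.card H) (Set.toFinite _) ⟨⊥, by
      rw [Set.mem_ofPred_eq, AddSubgroup.card_bot]
      omega⟩
  refine ⟨K, hK, ?_⟩
  intro p hp hpd
  haveI : Fact p.Prime := ⟨hp⟩
  obtain ⟨y, hy⟩ := exists_prime_addOrderOf_dvd_card' (G := G ⧸ K) p hpd
  set H : AddSubgroup G := (AddSubgroup.zmultiples y).comap (QuotientAddGroup.mk' K) with hH
  have h1 : H.index = (AddSubgroup.zmultiples y).index :=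
    AddSubgroup.index_comap_of_surjective _ (QuotientAddGroup.mk'_surjective K)
  have h2 : Nat.card (AddSubgroup.zmultiples y) = p := by rw [Nat.card_zmultiples, hy]
  have h3 := (AddSubgroup.zmultiples y).card_mul_index
  have h4 := H.card_mul_index
  have h5 := AddSubgroup.card_eq_card_quotient_mul_card_addSubgroup K
  have h6 : 0 < (AddSubgroup.zmultiples y).index := Nat.pos_of_ne_zero AddSubgroup.index_ne_zero_of_finite
  have h7 : Nat.card H = p * Nat.card K := by
    rw [h2] at h3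
    rw [h1, h5, ← h3] at h4
    apply Nat.eq_of_mul_eq_mul_right h6
    rw [h4]
    ring
  have hKpos : 0 < Nat.card K := Nat.card_pos
  have h8 : Nat.card K < Nat.card H := by
    rw [h7]
    nlinarith [hp.two_le]
  have h9 : b < Nat.card H := by
    rcases hd H with h | h
    · exact h
    · exact absurd (hmax H h) (not_le.2 h8)
  by_contra hc
  push Not at hc
  have hpG : p ∣ Nat.card G := hpd.trans ⟨_, h5⟩
  obtain ⟨g, hg⟩ := exists_prime_addOrderOf_dvd_card' (G := G) p hpG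
  have h10 : Nat.card (AddSubgroup.zmultiples g) = p := by rw [Nat.card_zmultiples, hg]
  have h11 : p < 4 * t := by
    rcases hd (AddSubgroup.zmultiples g) with h | h
    · rw [h10] at h
      omega
    · rwa [h10] at h
  have h12 : Nat.card K < 4 * t := hK
  have h13 : p * Nat.card K ≤ (4 * t) * (4 * t) := Nat.mul_le_mul h11.le h12.le
  nlinarith [h13, h9, h7, hb]

end FX
end

section

set_option autoImplicit false
set_option linter.unusedSectionVars false

open Finset Pointwise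

namespace FX

open RG (stb mem_stb gg ph)
open SPR (T)
open AM
open Pool.Agent.Lib.MP_d3cc86_co (lam Asym symz)

/-- an element outside the stabilizer moves some element of `X` out of `X` -/
private lemma exists_new {G : Type} [AddCommGroup G] [Fintype G] [DecidableEq G] {X : Finset G}
    {κ : G} (h : κ ∉ stb X) : ∃ x ∈ X, x + κ ∉ X := by
  by_contra hcon
  push Not at hcon
  apply h
  rw [mem_stb]
  have h1 : X.image (fun x => x + κ) = X := by
    apply Finset.eq_of_subset_of_card_le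
    · intro y hy
      obtain ⟨x, hx, rfl⟩ := Finset.mem_image.1 hy
      exact hcon x hx
    · rw [Finset.card_image_of_injective _ (add_left_injective κ)]
  intro x
  constructor
  · intro hx
    rw [← h1] at hx
    obtain ⟨x', hx', he⟩ := Finset.mem_image.1 hx
    rwa [← add_right_cancel he]
  · exact hcon x

/-- the collected configurations -/
private def Coll {G : Type} [AddCommGroup G] [Fintype G] (K : AddSubgroup G) (μ U ν : G → ℕ)
    (X : Finset G) (z : G) : Prop :=
  U + ν = μ ∧ X.Nonempty ∧ (∀ x ∈ X, x ∈ K) ∧ (∀ x ∈ X, z + x ∈ SM U) ∧ tot U + 2 ≤ 2 * X.card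

/-- one step of the greedy collection -/
private lemma coll_step {G : Type} [AddCommGroup G] [Fintype G] [DecidableEq G]
    {K : AddSubgroup G} {μ U ν : G → ℕ} {X : Finset G} {z : G} (h : Coll K μ U ν X z) {κ : G}
    (hκ : κ ∈ K) (hκX : κ ∉ stb X) {U' ν' : G → ℕ} {z' : G} (h1 : U' + ν' = μ)
    (h2 : tot U' ≤ tot U + 2) (h3 : ∀ x ∈ X, z' + x ∈ SM U')
    (h4 : ∀ x ∈ X, z' + (x + κ) ∈ SM U') :
    ∃ X' : Finset G, Coll K μ U' ν' X' z' ∧ X.card < X'.card := by
  obtain ⟨a1, a2, a3, a4, a5⟩ := h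
  obtain ⟨x, hx, hx'⟩ := exists_new hκX
  have hcard : X.card + 1 ≤ (X ∪ X.image (fun x => x + κ)).card := by
    rw [← Finset.card_insert_of_notMem hx']
    apply Finset.card_le_card
    intro y hy
    rcases Finset.mem_insert.1 hy with rfl | hy
    · exact Finset.mem_union_right _ (Finset.mem_image_of_mem _ hx)
    · exact Finset.mem_union_left _ hy
  refine ⟨X ∪ X.image (fun x => x + κ), ⟨h1, ?_, ?_, ?_, ?_⟩, hcard⟩
  · exact a2.mono Finset.subset_union_left
  · intro y hy
    rcases Finset.mem_union.1 hy with hy | hy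
    · exact a3 y hy
    · obtain ⟨w, hw, rfl⟩ := Finset.mem_image.1 hy
      exact K.add_mem (a3 w hw) hκ
  · intro y hy
    rcases Finset.mem_union.1 hy with hy | hy
    · exact h3 y hy
    · obtain ⟨w, hw, rfl⟩ := Finset.mem_image.1 hy
      exact h4 w hw
  · omega

/-- Greedy collection of the relations modulo `K`.  Consider all `(U, ν, X, z)` with `U + ν = μ`,
`X ⊆ K` nonempty, `z + X ⊆ SM U`, `tot U + 2 ≤ 2 |X|` (for instance `U = 0`, `X = {0}`, `z = 0`), and take one
with `|X|` maximal (`|X| ≤ |G|`).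
Remark (*): if `κ ∈ K`, `κ ∉ stb X` then `X' = X ∪ (κ +ᵥ X)` has `|X'| ≥ |X| + 1` (otherwise `κ +ᵥ X ⊆ X`, so
`κ +ᵥ X = X` by cardinality and `κ ∈ stb X`); and `X' ⊆ K`.
* `x, y ∈ sp ν` with `x - y ∈ K`, `x - y ∉ stb X`: then `x ≠ y`.  `U' = U + single x 1 + single y 1`,
  `ν' = del (del ν x) y`, `z' = z + y`, `X' = X ∪ ((x - y) +ᵥ X)`: `z' + X' ⊆ SM U'` since `z + X ⊆ SM U` and
  `x, y ∈ SM (single x 1 + single y 1)`.  `tot U' + 2 = tot U + 4 ≤ 2 |X| + 2 ≤ 2 |X'|`: contradiction.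
* `x, y ∈ sp ν` with `x + y ∈ K`, `x + y ∉ stb X`.  If `x = y` then `x ∈ K` (`hodd`) and `x ∉ stb X`: see the
  last case.  If `x ≠ y` then `U'`, `ν'` as before, `z' = z`, `X' = X ∪ ((x + y) +ᵥ X)` (`0, x + y ∈ SM`).
* `x ∈ sp ν ∩ K`, `x ∉ stb X`: `U' = U + single x 1`, `z' = z`, `X' = X ∪ (x +ᵥ X)`. -/
theorem x3 {G : Type} [AddCommGroup G] [Fintype G] [DecidableEq G] (K : AddSubgroup G)
    (hodd : ∀ x, x + x ∈ K → x ∈ K) (μ : G → ℕ) :
    ∃ (U ν : G → ℕ) (X : Finset G) (z : G), U + ν = μ ∧ X.Nonempty ∧ (∀ x ∈ X, x ∈ K) ∧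
      (∀ x ∈ X, z + x ∈ SM U) ∧ tot U + 2 ≤ 2 * X.card ∧
      (∀ x y, ν x ≠ 0 → ν y ≠ 0 → x - y ∈ K → x - y ∈ stb X) ∧
      (∀ x y, ν x ≠ 0 → ν y ≠ 0 → x + y ∈ K → x + y ∈ stb X) ∧
      (∀ x, ν x ≠ 0 → x ∈ K → x ∈ stb X) := by
  classical
  let P : ℕ → Prop := fun k => ∃ (U ν : G → ℕ) (X : Finset G) (z : G), Coll K μ U ν X z ∧ X.card = k
  have hP1 : P 1 := by
    refine ⟨0, μ, {0}, 0, ⟨zero_add μ, Finset.singleton_nonempty 0, ?_, ?_, ?_⟩,
      Finset.card_singleton 0⟩
    · intro x hx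
      rw [Finset.mem_singleton.1 hx]
      exact K.zero_mem
    · intro x hx
      rw [Finset.mem_singleton.1 hx, add_zero]
      exact zero_mem_SM 0
    · rw [Finset.card_singleton]
      have : tot (0 : G → ℕ) = 0 := by simp [tot]
      omega
  have hb : 1 ≤ Fintype.card G := Fintype.card_pos
  obtain ⟨U, ν, X, z, hc, hk⟩ := Nat.findGreatest_spec (P := P) hb hP1
  have hmax : ∀ (U' ν' : G → ℕ) (X' : Finset G) (z' : G), Coll K μ U' ν' X' z' → ¬ X.card < X'.card := by
    intro U' ν' X' z' h' hlt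
    rw [hk] at hlt
    exact Nat.findGreatest_is_greatest hlt (Finset.card_le_univ X') ⟨U', ν', X', z', h', rfl⟩
  obtain ⟨a1, a2, a3, a4, a5⟩ := hc
  -- the third property
  have c3 : ∀ x, ν x ≠ 0 → x ∈ K → x ∈ stb X := by
    intro x hx hxK
    by_contra hxX
    have hstep := coll_step (U' := U + Pi.single x 1) (ν' := del ν x) (z' := z)
      (⟨a1, a2, a3, a4, a5⟩ : Coll K μ U ν X z) hxK hxX ?_ ?_ ?_ ?_
    · obtain ⟨X', h1, h2⟩ := hstep
      exact hmax _ _ _ _ h1 h2
    · rw [← a1, add_assoc, add_comm (Pi.single x 1 : G → ℕ), del_add_single ν x hx]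
    · rw [tot_add, tot_single]
      omega
    · intro y hy
      rw [SM_add, SM_single]
      exact Finset.mem_add.2 ⟨z + y, a4 y hy, 0, Finset.mem_insert_self _ _, add_zero _⟩
    · intro y hy
      rw [SM_add, SM_single]
      exact Finset.mem_add.2 ⟨z + y, a4 y hy, x,
        Finset.mem_insert_of_mem (Finset.mem_singleton_self _), add_assoc _ _ _⟩
  -- two different elements
  have two : ∀ x y, ν x ≠ 0 → ν y ≠ 0 → x ≠ y →
      (U + Pi.single x 1 + Pi.single y 1) + del (del ν x) y = μ ∧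
      tot (U + Pi.single x 1 + Pi.single y 1) ≤ tot U + 2 ∧
      ∀ a b c : G, a ∈ SM U → (b = 0 ∨ b = x) → (c = 0 ∨ c = y) →
        a + b + c ∈ SM (U + Pi.single x 1 + Pi.single y 1) := by
    intro x y hx hy hxy
    refine ⟨?_, ?_, ?_⟩
    · have h1 : del ν x y ≠ 0 := by
        unfold del
        rw [if_neg (Ne.symm hxy)]
        exact hy
      have h2 := del_add_single (del ν x) y h1
      have h3 := del_add_single ν x hx
      calc (U + Pi.single x 1 + Pi.single y 1) + del (del ν x) y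
          = U + ((del (del ν x) y + Pi.single y 1) + Pi.single x 1) := by abel
        _ = μ := by rw [h2, h3, a1]
    · rw [tot_add, tot_add, tot_single, tot_single]
    · intro a b c ha hb' hc'
      rw [SM_add, SM_add, SM_single, SM_single]
      refine Finset.mem_add.2 ⟨a + b, Finset.mem_add.2 ⟨a, ha, b, ?_, rfl⟩, c, ?_, rfl⟩
      · rw [Finset.mem_insert, Finset.mem_singleton]
        exact hb'
      · rw [Finset.mem_insert, Finset.mem_singleton]
        exact hc'
  refine ⟨U, ν, X, z, a1, a2, a3, a4, a5, ?_, ?_, c3⟩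
  · intro x y hx hy hK
    by_contra hX
    have hxy : x ≠ y := by
      rintro rfl
      rw [sub_self] at hX
      exact hX (stb X).zero_mem
    obtain ⟨b1, b2, b3⟩ := two x y hx hy hxy
    obtain ⟨X', h1, h2⟩ := coll_step (z' := z + y) (⟨a1, a2, a3, a4, a5⟩ : Coll K μ U ν X z) hK hX
      b1 b2 (fun w hw => by
        have h := b3 (z + w) 0 y (a4 w hw) (Or.inl rfl) (Or.inr rfl)
        have he : z + w + 0 + y = z + y + w := by abel
        rwa [he] at h) (fun w hw => by
        have h := b3 (z + w) x 0 (a4 w hw) (Or.inr rfl) (Or.inl rfl)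
        have he : z + w + x + 0 = z + y + (w + (x - y)) := by abel
        rwa [he] at h)
    exact hmax _ _ _ _ h1 h2
  · intro x y hx hy hK
    by_cases hxy : x = y
    · subst hxy
      have h1 := c3 x hx (hodd x hK)
      exact (stb X).add_mem h1 h1
    · by_contra hX
      obtain ⟨b1, b2, b3⟩ := two x y hx hy hxy
      obtain ⟨X', h1, h2⟩ := coll_step (z' := z) (⟨a1, a2, a3, a4, a5⟩ : Coll K μ U ν X z) hK hX
        b1 b2 (fun w hw => by
          have h := b3 (z + w) 0 0 (a4 w hw) (Or.inl rfl) (Or.inl rfl)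
          have he : z + w + 0 + 0 = z + w := by abel
          rwa [he] at h) (fun w hw => by
          have h := b3 (z + w) x y (a4 w hw) (Or.inr rfl) (Or.inr rfl)
          have he : z + w + x + y = z + (w + (x + y)) := by abel
          rwa [he] at h)
      exact hmax _ _ _ _ h1 h2

end FX
end

section

set_option autoImplicit false
set_option linter.unusedSectionVars false

open Finset Pointwise

namespace FX

open RG (stb mem_stb gg ph)
open SPR (T)
open AM
open Pool.Agent.Lib.MP_d3cc86_co (lam Asym symz)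

private lemma mem_FS' {Q : Type} [AddCommGroup Q] [Fintype Q] {ι : Type} [Fintype ι] (f : ι → Q) (x : Q) :
    x ∈ FS f ↔ ∃ B : Finset ι, ∑ i ∈ B, f i = x := by
  unfold FS
  simp

/-- Half systems of a cyclic group of odd order `h = 2 v + 1 ≥ 7`.  Let `g` generate `K` (a subgroup of a cyclic group
is cyclic).  The elements `± j g`, `1 ≤ j ≤ v`, are all nonzero elements of `K`, without repetition, and `A`
contains exactly one of `j g`, `- j g` for each `j` (`A` is asymmetric, so at most one, and `|A| = v`).  Let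
`A' = {j g : 1 ≤ j ≤ v}`.  `A.subsetSum` is a translate of `A'.subsetSum` (`FS_flip` with index type `Fin v` /
`{j // j ∈ Icc 1 v}`, or a direct argument; the sums of `A`: replacing `x` by `-x` translates the set by `x`), and
`A'.subsetSum` contains `j g` for all `0 ≤ j ≤ v (v + 1)/2`, and `v (v+1)/2 ≥ 2 v` as `v ≥ 3`, i.e. all of `K`. -/
theorem halfsys {G : Type} [AddCommGroup G] [Fintype G] [DecidableEq G] (hG : IsAddCyclic G)
    (K : AddSubgroup G) (A : Finset G) (hA : Asym A) (hK : ∀ x ∈ A, x ∈ K)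
    (h : 2 * A.card + 1 = Nat.card K) (h7 : 7 ≤ Nat.card K) : ∀ x ∈ K, x ∈ A.subsetSum := by
  classical
  have := hG
  set v := A.card with hv
  have hv3 : 3 ≤ v := by omega
  have : IsAddCyclic K := inferInstance
  obtain ⟨g0, hg0⟩ := IsAddCyclic.exists_generator (α := K)
  have hord0 : addOrderOf g0 = Nat.card K := addOrderOf_eq_card_of_forall_mem_zmultiples hg0
  set g : G := (g0 : G) with hg
  have hord : addOrderOf g = 2 * v + 1 := by
    rw [hg, AddSubgroup.addOrderOf_coe, hord0, h]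
  have hgK : g ∈ K := g0.2
  -- every element of `K` is `m • g` with `m ≤ 2 v`
  have hrep : ∀ x ∈ K, ∃ m : ℕ, m ≤ 2 * v ∧ m • g = x := by
    intro x hx
    have h1 := hg0 ⟨x, hx⟩
    rw [(isOfFinAddOrder_of_finite g0).mem_zmultiples_iff_mem_range_addOrderOf] at h1
    obtain ⟨m, hm, hmx⟩ := Finset.mem_image.1 h1
    rw [Finset.mem_range, hord0, ← h] at hm
    refine ⟨m, by omega, ?_⟩
    have h2 := congrArg (fun z : K => (z : G)) hmx
    simpa using h2
  -- `A ∪ -A` is `K` without zero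
  have hcov : ∀ x ∈ K, x ≠ 0 → x ∈ A ∨ -x ∈ A := by
    intro x hx hx0
    by_contra hcon
    push Not at hcon
    have h0 : (0 : G) ∉ A := Pool.Agent.Lib.MP_d3cc86_co.Asym.zero_notMem hA
    have hdis : Disjoint A (A.image (fun a => -a)) := by
      rw [Finset.disjoint_left]
      intro a ha hb
      obtain ⟨b, hb2, rfl⟩ := Finset.mem_image.1 hb
      exact hA b hb2 ha
    have hc1 : (A ∪ A.image (fun a => -a)).card = 2 * v := by
      rw [Finset.card_union_of_disjoint hdis, Finset.card_image_of_injective _ neg_injective]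
      omega
    have hx1 : x ∉ A ∪ A.image (fun a => -a) := by
      rw [Finset.mem_union, Finset.mem_image]
      rintro (h1 | ⟨a, ha, h1⟩)
      · exact hcon.1 h1
      · apply hcon.2
        rw [← h1, neg_neg]
        exact ha
    have h01 : (0 : G) ∉ insert x (A ∪ A.image (fun a => -a)) := by
      rw [Finset.mem_insert, Finset.mem_union, Finset.mem_image]
      rintro (h1 | h1 | ⟨a, ha, h1⟩)
      · exact hx0 h1.symm
      · exact h0 h1
      · rw [neg_eq_zero] at h1
        rw [h1] at ha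
        exact h0 ha
    have hc2 : (insert (0 : G) (insert x (A ∪ A.image (fun a => -a)))).card = 2 * v + 2 := by
      rw [Finset.card_insert_of_notMem h01, Finset.card_insert_of_notMem hx1, hc1]
    have hsub : ∀ y ∈ insert (0 : G) (insert x (A ∪ A.image (fun a => -a))), y ∈ K := by
      intro y hy
      rw [Finset.mem_insert, Finset.mem_insert, Finset.mem_union, Finset.mem_image] at hy
      rcases hy with h1 | h1 | h1 | ⟨a, ha, h1⟩
      · rw [h1]; exact K.zero_mem
      · rw [h1]; exact hx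
      · exact hK y h1
      · rw [← h1]; exact K.neg_mem (hK a ha)
    have hc3 : (insert (0 : G) (insert x (A ∪ A.image (fun a => -a)))).card ≤ Nat.card K := by
      have h5 : Nat.card K = (Finset.univ.filter (fun y : G => y ∈ K)).card := by
        rw [Nat.card_eq_fintype_card]
        exact Fintype.card_subtype _
      rw [h5]
      exact Finset.card_le_card fun y hy => Finset.mem_filter.2 ⟨Finset.mem_univ y, hsub y hy⟩
    omega
  -- the families
  let f : Fin v → G := fun i => (i.1 + 1) • g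
  let f' : Fin v → G := fun i => if (i.1 + 1) • g ∈ A then (i.1 + 1) • g else -((i.1 + 1) • g)
  have hor : ∀ i, f' i = f i ∨ f' i = - f i := by
    intro i
    by_cases h1 : (i.1 + 1) • g ∈ A
    · left; simp only [f', f, if_pos h1]
    · right; simp only [f', f, if_neg h1]
  have hne0 : ∀ m : ℕ, 1 ≤ m → m ≤ 2 * v → m • g ≠ 0 := by
    intro m h1 h2 h3
    have h4 := addOrderOf_dvd_of_nsmul_eq_zero h3
    rw [hord] at h4
    have := Nat.le_of_dvd (by omega) h4
    omega
  have hf'A : ∀ i, f' i ∈ A := by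
    intro i
    by_cases h1 : (i.1 + 1) • g ∈ A
    · simp only [f', if_pos h1]; exact h1
    · simp only [f', if_neg h1]
      rcases hcov ((i.1 + 1) • g) (K.nsmul_mem hgK _) (hne0 _ (by omega) (by have := i.2; omega)) with h2 | h2
      · exact absurd h2 h1
      · exact h2
  have hfinj : ∀ i j : Fin v, f i = f j → i = j := by
    intro i j hij
    have h1 : (i.1 + 1) • g = (j.1 + 1) • g := hij
    rw [nsmul_eq_nsmul_iff_modEq, hord] at h1
    have h2 := i.2
    have h3 := j.2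
    have h4 := Nat.ModEq.eq_of_lt_of_lt h1 (by omega) (by omega)
    exact Fin.ext (by omega)
  have hfneg : ∀ i j : Fin v, f i ≠ - f j := by
    intro i j hij
    have h1 : (i.1 + 1) • g = -((j.1 + 1) • g) := hij
    have h2 : (i.1 + 1 + (j.1 + 1)) • g = 0 := by
      rw [add_nsmul, h1, neg_add_cancel]
    have h3 := i.2
    have h4 := j.2
    exact hne0 _ (by omega) (by omega) h2
  have hf'inj : Function.Injective f' := by
    intro i j hij
    rcases hor i with h1 | h1 <;> rcases hor j with h2 | h2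
    · exact hfinj i j (by rw [← h1, ← h2, hij])
    · exact absurd (by rw [← h1, hij, h2]) (hfneg i j)
    · exact absurd (by rw [← h2, ← hij, h1]) (hfneg j i)
    · exact hfinj i j (neg_injective (by rw [← h1, ← h2, hij]))
  have hFS' : ∀ x ∈ FS f', x ∈ A.subsetSum := by
    intro x hx
    rw [mem_FS'] at hx
    obtain ⟨B, rfl⟩ := hx
    rw [Finset.mem_subsetSum_iff]
    refine ⟨B.image f', ?_, ?_⟩
    · intro a ha
      obtain ⟨i, -, rfl⟩ := Finset.mem_image.1 ha
      exact hf'A i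
    · rw [Finset.sum_image (fun i _ j _ hij => hf'inj hij)]
  have hfk : ∀ k (hk : k < v), f ⟨k, hk⟩ = (k + 1) • g := fun k hk => rfl
  have hFS : ∀ m : ℕ, m ≤ 2 * v → m • g ∈ FS f := by
    intro m hm
    rw [mem_FS']
    rcases Nat.eq_zero_or_pos m with h1 | h1
    · refine ⟨∅, ?_⟩
      rw [h1, Finset.sum_empty, zero_nsmul]
    rcases le_or_gt m v with h2 | h2
    · refine ⟨{⟨m - 1, by omega⟩}, ?_⟩
      rw [Finset.sum_singleton, hfk, show m - 1 + 1 = m by omega]
    rcases lt_or_ge m (2 * v) with h3 | h3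
    · refine ⟨{⟨v - 1, by omega⟩, ⟨m - v - 1, by omega⟩}, ?_⟩
      rw [Finset.sum_pair, hfk, hfk, ← add_nsmul]
      · congr 1; omega
      · intro h4
        have := congrArg Fin.val h4
        simp only at this
        omega
    · refine ⟨{⟨v - 1, by omega⟩, ⟨v - 2, by omega⟩, ⟨0, by omega⟩}, ?_⟩
      rw [Finset.sum_insert, Finset.sum_pair, hfk, hfk, hfk, ← add_nsmul, ← add_nsmul]
      · congr 1; omega
      · intro h4
        have := congrArg Fin.val h4
        simp only at this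
        omega
      · rw [Finset.mem_insert, Finset.mem_singleton]
        rintro (h4 | h4)
        · have := congrArg Fin.val h4
          simp only at this
          omega
        · have := congrArg Fin.val h4
          simp only at this
          omega
  obtain ⟨c, hc⟩ := FS_flip f f' hor
  have hFSK : ∀ y ∈ FS f, y ∈ K := by
    intro y hy
    rw [mem_FS'] at hy
    obtain ⟨B, rfl⟩ := hy
    exact K.sum_mem fun i _ => K.nsmul_mem hgK _
  have hcK : c ∈ K := by
    have h1 : (0 : G) ∈ FS f' := by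
      rw [mem_FS']
      exact ⟨∅, Finset.sum_empty⟩
    rw [hc, Finset.mem_vadd_finset] at h1
    obtain ⟨y, hy, hy2⟩ := h1
    rw [vadd_eq_add] at hy2
    rw [eq_neg_of_add_eq_zero_left hy2]
    exact K.neg_mem (hFSK y hy)
  intro x hx
  obtain ⟨m, hm, hmx⟩ := hrep (x - c) (K.sub_mem hx hcK)
  apply hFS'
  rw [hc, Finset.mem_vadd_finset]
  refine ⟨x - c, ?_, by rw [vadd_eq_add]; abel⟩
  rw [← hmx]
  exact hFS m hm

end FX
end

section

set_option autoImplicit false
set_option linter.unusedSectionVars false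

open Finset Pointwise

namespace FX

open RG (stb mem_stb gg ph)
open SPR (T)
open AM
open Pool.Agent.Lib.MP_d3cc86_co (lam Asym symz)

variable {G : Type} [AddCommGroup G] [Fintype G] [DecidableEq G] (K : AddSubgroup G) (l : G)

/-- The half system used to orient `μ`: elements of `Dd` go to the positions `≤ per / 2`; ties and all other elements are
decided by `P0`. -/
def ornt (P0 : G → Prop) (x : G) : Prop :=
  (x ∈ Dd K l ∧ ps K l x ≠ 0 ∧ 2 * ps K l x < per K l) ∨
    (¬ (x ∈ Dd K l ∧ ps K l x ≠ 0 ∧ 2 * ps K l x ≠ per K l) ∧ P0 x)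

/-- Let `x + x ≠ 0`.  If `x ∈ Dd`, `i = ps x ≠ 0`, `2 i ≠ per`: then `-x ∈ Dd`, `ps (-x) = per - i` (`ps_neg`) is not `0`
(`ps_lt`), `2 (per - i) ≠ per`, so `ornt x ↔ 2 i < per` and `ornt (-x) ↔ 2 (per - i) < per`.  Otherwise `-x` is also in
the second case (if `ps x = 0` then `x ∈ K`, `-x ∈ K`, `ps (-x) = 0`; if `2 ps x = per ≠ 0` then `ps (-x) = per - ps x`,
`2 ps (-x) = per`; `-x ∈ Dd ↔ x ∈ Dd`), and `ornt x ↔ P0 x`, `ornt (-x) ↔ P0 (-x)`. -/
theorem ornt_half (P0 : G → Prop) (hP : ∀ x, x + x ≠ 0 → (P0 x ↔ ¬ P0 (-x))) :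
    ∀ x, x + x ≠ 0 → (ornt K l P0 x ↔ ¬ ornt K l P0 (-x)) := by
  intro x hx
  have hcond : ∀ y : G, (y ∈ Dd K l ∧ ps K l y ≠ 0 ∧ 2 * ps K l y ≠ per K l) →
      (-y ∈ Dd K l ∧ ps K l (-y) ≠ 0 ∧ 2 * ps K l (-y) ≠ per K l) := by
    rintro y ⟨h1, h2, h3⟩
    have h4 := ps_neg K l h1 h2
    have h5 := ps_lt K l h1
    refine ⟨(Dd K l).neg_mem h1, ?_, ?_⟩
    · rw [h4]; omega
    · rw [h4]; omega
  by_cases hc : x ∈ Dd K l ∧ ps K l x ≠ 0 ∧ 2 * ps K l x ≠ per K l
  · have hc' := hcond x hc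
    obtain ⟨h1, h2, h3⟩ := hc
    have h4 := ps_neg K l h1 h2
    have h5 := ps_lt K l h1
    unfold ornt
    constructor
    · rintro (⟨-, -, h6⟩ | ⟨h6, -⟩)
      · rintro (⟨-, -, h7⟩ | ⟨h7, -⟩)
        · rw [h4] at h7
          omega
        · exact h7 hc'
      · exact absurd ⟨h1, h2, h3⟩ h6
    · intro h6
      left
      refine ⟨h1, h2, ?_⟩
      by_contra h7
      apply h6
      left
      refine ⟨hc'.1, hc'.2.1, ?_⟩
      rw [h4]
      omega
  · have hc' : ¬ (-x ∈ Dd K l ∧ ps K l (-x) ≠ 0 ∧ 2 * ps K l (-x) ≠ per K l) := by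
      intro h
      have h1 := hcond (-x) h
      rw [neg_neg] at h1
      exact hc h1
    have key : ∀ y : G, ¬ (y ∈ Dd K l ∧ ps K l y ≠ 0 ∧ 2 * ps K l y ≠ per K l) →
        (ornt K l P0 y ↔ P0 y) ∨ (y ∈ Dd K l ∧ ps K l y ≠ 0 ∧ 2 * ps K l y < per K l) := by
      intro y hy
      by_cases h1 : y ∈ Dd K l ∧ ps K l y ≠ 0 ∧ 2 * ps K l y < per K l
      · exact Or.inr h1
      · left
        unfold ornt
        constructor
        · rintro (h2 | h2)
          · exact absurd h2 h1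
          · exact h2.2
        · intro h2
          exact Or.inr ⟨hy, h2⟩
    have key2 : ∀ y : G, ¬ (y ∈ Dd K l ∧ ps K l y ≠ 0 ∧ 2 * ps K l y ≠ per K l) →
        (ornt K l P0 y ↔ P0 y) := by
      intro y hy
      rcases key y hy with h1 | ⟨h1, h2, h3⟩
      · exact h1
      · exact absurd ⟨h1, h2, by omega⟩ hy
    rw [key2 x hc, key2 (-x) hc']
    exact hP x hx

/-- `ornt x`, `x ∈ Dd` imply `2 ps x ≤ per`. -/
theorem ornt_le (P0 : G → Prop) (x : G) (hx : x ∈ Dd K l) (h : ornt K l P0 x) :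
    2 * ps K l x ≤ per K l := by
  rcases h with ⟨-, -, h1⟩ | ⟨h1, -⟩
  · exact h1.le
  · by_contra h2
    apply h1
    refine ⟨hx, ?_, ?_⟩
    · omega
    · omega

end FX
end

section

set_option autoImplicit false
set_option linter.unusedSectionVars false

open Finset Pointwise

namespace FX

open RG (stb mem_stb gg ph)
open SPR (T)
open AM
open Pool.Agent.Lib.MP_d3cc86_co (lam Asym symz)

private lemma sum_tri' (Q : ℕ) : ∑ i ∈ Icc 1 Q, (Q + 1 - i) = T Q := by
  induction Q with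
  | zero => rfl
  | succ Q ih =>
    rw [Finset.sum_Icc_succ_top (by omega), SPR.T_succ]
    have h : ∑ i ∈ Icc 1 Q, (Q + 1 + 1 - i) = ∑ i ∈ Icc 1 Q, ((Q + 1 - i) + 1) := by
      refine Finset.sum_congr rfl fun i hi => ?_
      rw [Finset.mem_Icc] at hi
      omega
    rw [h, Finset.sum_add_distrib, ih, Finset.sum_const, Nat.card_Icc, smul_eq_mul]
    omega

private lemma sum_tri (Q B : ℕ) : ∑ i ∈ Icc 1 B, (Q + 1 - i) ≤ T Q := by
  rw [← sum_tri' Q]
  refine Finset.sum_le_sum_of_ne_zero fun i hi h => ?_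
  rw [Finset.mem_Icc] at hi ⊢
  omega

/-- Rearrangement.  `t = ∑ f i = Q u + r`.  `(Q+1) t = ∑ (Q + 1) f i ≤ ∑ i f i + ∑_{i ≤ Q} (Q + 1 - i) f i ≤ ∑ i f i + u T Q`
(`∑_{i=1}^{Q} (Q + 1 - i) = T Q`), and `(Q+1)(Q u + r) - u T Q = u T Q + (Q + 1) r = gg u t - 1`. -/
theorem rearr (f : ℕ → ℕ) (B u : ℕ) (hu : 1 ≤ u) (hf : ∀ i ∈ Icc 1 B, f i ≤ u) :
    gg u (∑ i ∈ Icc 1 B, f i) ≤ 1 + ∑ i ∈ Icc 1 B, i * f i := by
  set t := ∑ i ∈ Icc 1 B, f i with ht
  unfold gg
  set Q := t / u with hQ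
  have h1 : ∀ i ∈ Icc 1 B, (Q + 1) * f i ≤ i * f i + u * (Q + 1 - i) := by
    intro i hi
    have hfi := hf i hi
    rcases Nat.le_total i (Q + 1) with h | h
    · obtain ⟨c, hc⟩ := Nat.exists_eq_add_of_le h
      rw [hc, Nat.add_mul, Nat.add_sub_cancel_left]
      have := Nat.mul_le_mul_left c hfi
      nlinarith
    · have := Nat.mul_le_mul_right (f i) h
      omega
  have h2 : (Q + 1) * t ≤ (∑ i ∈ Icc 1 B, i * f i) + u * T Q := by
    rw [ht, Finset.mul_sum]
    refine (Finset.sum_le_sum h1).trans ?_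
    rw [Finset.sum_add_distrib, ← Finset.mul_sum]
    refine Nat.add_le_add_left (Nat.mul_le_mul_left _ (sum_tri Q B)) _
  have h3 : u * Q + t % u = t := Nat.div_add_mod t u
  have h4 : T Q * 2 = Q * (Q + 1) := Nat.div_mul_cancel (Nat.even_mul_succ_self Q).two_dvd
  have h5 : (Q + 1) * t = u * (T Q * 2) + t % u * (Q + 1) := by
    conv_lhs => rw [← h3]
    rw [h4]
    ring
  rw [h5] at h2
  nlinarith

end FX
end

section

set_option autoImplicit false
set_option linter.unusedSectionVars false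

open Finset Pointwise

namespace FX

open RG (stb mem_stb gg ph)
open SPR (T)
open AM
open Pool.Agent.Lib.MP_d3cc86_co (lam Asym symz)

/-- `c0 < c = w ⌊(h-1)/2⌋`.  `gg (w h) (s - c0) ≥ gg (w h) (s - c + 1) = gg (w h) (s - c) + (s - c)/(w h) + 1 ≥ gg (w h) (s - c) + 2`
(`gg_mono`, `gg_succ`; `s - c ≥ w h`), so `ph w h s + 2 h ≤ h gg (w h) (s - c0)`. -/
theorem fa1 (w h s c0 : ℕ) (hw : 1 ≤ w) (hh : 1 ≤ h) (hs : 1000000 * (w * h ^ 2) ≤ s)
    (hc : c0 < w * ((h - 1) / 2)) : ph w h s + 2 * h ≤ h * gg (w * h) (s - c0) := by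
  have hu : 1 ≤ w * h := Nat.mul_pos hw hh
  have h1 : w * ((h - 1) / 2) ≤ w * h := Nat.mul_le_mul_left _ (by omega)
  have h2 : w * h ≤ w * h ^ 2 := by
    rw [pow_two, ← mul_assoc]
    exact Nat.le_mul_of_pos_right _ hh
  have h3 : w * h ≤ s - w * ((h - 1) / 2) := by omega
  have h4 : 1 ≤ (s - w * ((h - 1) / 2)) / (w * h) := (Nat.one_le_div_iff hu).mpr h3
  have h5 : gg (w * h) (s - w * ((h - 1) / 2) + 1) ≤ gg (w * h) (s - c0) :=
    RG.gg_mono _ hu (by omega)
  rw [RG.gg_succ _ _ hu] at h5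
  have h6 : gg (w * h) (s - w * ((h - 1) / 2)) + 2 ≤ gg (w * h) (s - c0) := by omega
  calc ph w h s + 2 * h = h * (gg (w * h) (s - w * ((h - 1) / 2)) + 2) := by
        unfold ph
        ring
    _ ≤ _ := Nat.mul_le_mul_left _ h6

/-- `h` even, `c0 = w ⌊(h-1)/2⌋ = w (h - 2)/2 = d`, `t = s - d`.  `gg_quad`: `t^2 + w h t + 2 w h ≤ 2 w h gg`, so
`4 (t^2 + w h t + 2 w h) ≤ 8 w (h gg)`; `gg_upper`: `8 w gg w s ≤ 8 w + (2 s + w)^2`.  Enough:
`8 w + 4 s^2 + 4 s w + w^2 + 16 w h ≤ 4 t^2 + 4 w h t + 8 w h`.  With `t = s - d`, `2 d = w (h - 2)` the right side is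
`4 s^2 - 8 s d + 4 d^2 + 4 w h s - 4 w h d + 8 w h = 4 s^2 + 8 s w + 4 d^2 - 4 w h d + 8 w h`, and
`4 s w ≥ 4 w h d + 8 w h + 8 w + w^2` since `s ≥ 10^6 w h^2` (and `s w ≥ w^2 h^2 10^6`). -/
theorem fa2 (w h s : ℕ) (hw : 1 ≤ w) (hh : 2 ≤ h) (he : h % 2 = 0)
    (hs : 1000000 * (w * h ^ 2) ≤ s) :
    gg w s + 2 * h ≤ h * gg (w * h) (s - w * ((h - 1) / 2)) := by
  obtain ⟨e, rfl⟩ : ∃ e, h = 2 * e + 2 := ⟨(h - 2) / 2, by omega⟩
  have hee : (2 * e + 2 - 1) / 2 = e := by omega
  rw [hee]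
  have hu : 1 ≤ w * (2 * e + 2) := Nat.mul_pos hw (by omega)
  have h1 : w * e ≤ w * (2 * e + 2) ^ 2 := Nat.mul_le_mul_left _ (by nlinarith)
  obtain ⟨t, rfl⟩ : ∃ t, s = t + w * e := ⟨s - w * e, by omega⟩
  rw [Nat.add_sub_cancel]
  have hq := RG.gg_quad (w * (2 * e + 2)) t hu
  have hup := RG.gg_upper w (t + w * e) hw
  generalize gg w (t + w * e) = A at *
  generalize gg (w * (2 * e + 2)) t = B at *
  have h2 : 999999 * (w * (2 * e + 2) ^ 2) ≤ t := by omega
  have h3 : w * (999999 * (w * (2 * e + 2) ^ 2)) ≤ w * t := Nat.mul_le_mul_left _ h2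
  have h4 : w ≤ w ^ 2 * (2 * e + 2) ^ 2 := by
    calc w = w * 1 := (mul_one w).symm
      _ ≤ w * (w * (2 * e + 2) ^ 2) := Nat.mul_le_mul_left _ (Nat.mul_pos hw (by positivity))
      _ = _ := by ring
  have h5 : w * (2 * e + 2) ≤ w ^ 2 * (2 * e + 2) ^ 2 := by
    calc w * (2 * e + 2) = w * (2 * e + 2) * 1 := (mul_one _).symm
      _ ≤ w * (2 * e + 2) * (w * (2 * e + 2)) := Nat.mul_le_mul_left _ hu
      _ = _ := by ring
  have h6 : (2 * (w * e) + w) ^ 2 ≤ w ^ 2 * (2 * e + 2) ^ 2 := by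
    calc (2 * (w * e) + w) ^ 2 = w ^ 2 * (2 * e + 1) ^ 2 := by ring
      _ ≤ _ := Nat.mul_le_mul_left _ (Nat.pow_le_pow_left (by omega) 2)
  have h7 : 8 * w * (A + 2 * (2 * e + 2)) ≤ 8 * w * ((2 * e + 2) * B) := by
    have e1 : 8 * w * (A + 2 * (2 * e + 2)) = 8 * w * A + 16 * (w * (2 * e + 2)) := by ring
    have e2 : 8 * w * ((2 * e + 2) * B) = 4 * (2 * (w * (2 * e + 2)) * B) := by ring
    rw [e1, e2]
    nlinarith
  exact Nat.le_of_mul_le_mul_left h7 (by positivity)

end FX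
end

section

set_option autoImplicit false
set_option linter.unusedSectionVars false

open Finset Pointwise

namespace FX

open RG (stb mem_stb gg ph)
open SPR (T)
open AM
open Pool.Agent.Lib.MP_d3cc86_co (lam Asym symz)

variable {G : Type} [AddCommGroup G] [Fintype G] (K : AddSubgroup G) (l : G)

/-- the mass of column `i` -/
private noncomputable def colm (ν : G → ℕ) (i : ℕ) : ℕ := ∑ x, if ps K l x = i then ν x else 0

private lemma colm_sum (ν : G → ℕ) (hD : ∀ x, ν x ≠ 0 → x ∈ Dd K l) :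
    ∑ i ∈ Icc 1 (per K l), colm K l ν i = tot (out K ν) := by
  classical
  unfold colm tot
  rw [Finset.sum_comm]
  refine Finset.sum_congr rfl fun x _ => ?_
  rw [Finset.sum_ite_eq]
  unfold out
  by_cases h0 : ν x = 0
  · simp [h0]
  · have hx := hD x h0
    have hz := ps_zero_iff K l hx
    have hlt := ps_lt K l hx
    by_cases hK : x ∈ K
    · have := hz.2 hK
      rw [if_pos hK, if_neg]
      rw [Finset.mem_Icc]
      omega
    · have : ps K l x ≠ 0 := fun h => hK (hz.1 h)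
      rw [if_neg hK, if_pos]
      rw [Finset.mem_Icc]
      omega

private lemma colm_wt (ν : G → ℕ) (hD : ∀ x, ν x ≠ 0 → x ∈ Dd K l) :
    ∑ i ∈ Icc 1 (per K l), i * colm K l ν i = wt K l ν := by
  classical
  unfold colm wt
  simp_rw [Finset.mul_sum]
  rw [Finset.sum_comm]
  refine Finset.sum_congr rfl fun x _ => ?_
  simp_rw [mul_ite, mul_zero]
  rw [Finset.sum_ite_eq]
  by_cases h0 : ν x = 0
  · simp [h0]
  · have hx := hD x h0
    have hlt := ps_lt K l hx
    by_cases hz : ps K l x = 0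
    · simp [hz]
    · rw [if_pos, mul_comm]
      rw [Finset.mem_Icc]
      omega

private lemma colm_le (ν : G → ℕ) (hD : ∀ x, ν x ≠ 0 → x ∈ Dd K l) (i : ℕ) :
    colm K l ν i ≤ ∑ κ ∈ sf K, ν (κ + i • l) := by
  classical
  have h1 : ∑ κ ∈ sf K, ν (κ + i • l) = ∑ x ∈ (sf K).image (fun κ => κ + i • l), ν x := by
    rw [Finset.sum_image]
    intro a _ b _ h
    exact add_right_cancel h
  rw [h1]
  unfold colm
  rw [← Finset.sum_filter]
  refine Finset.sum_le_sum_of_ne_zero fun x hx h0 => ?_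
  rw [Finset.mem_filter] at hx
  rw [Finset.mem_image]
  refine ⟨x - i • l, ?_, by abel⟩
  rw [mem_sf]
  have := ps_spec K l (hD x h0)
  rw [hx.2] at this
  exact this

private lemma colm_le_w (ν : G → ℕ) (w : ℕ) (hD : ∀ x, ν x ≠ 0 → x ∈ Dd K l)
    (hb : ∀ x, ν x ≤ w) (i : ℕ) : colm K l ν i ≤ w * Nat.card K := by
  classical
  refine (colm_le K l ν hD i).trans ?_
  refine (Finset.sum_le_card_nsmul _ _ w fun κ _ => hb _).trans ?_
  rw [card_sf, smul_eq_mul, mul_comm]

private lemma colm_le_w' (ν : G → ℕ) (w : ℕ) (hD : ∀ x, ν x ≠ 0 → x ∈ Dd K l)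
    (hb : ∀ x, ν x ≤ w) (i : ℕ) (hg : ¬ gc K l ν i) : colm K l ν i + w ≤ w * Nat.card K := by
  classical
  unfold gc at hg
  push Not at hg
  obtain ⟨κ, hκ, h0⟩ := hg
  have h1 := colm_le K l ν hD i
  have hm : κ ∈ sf K := (mem_sf K κ).2 hκ
  have h2 : ∑ κ ∈ sf K, ν (κ + i • l) = ∑ κ ∈ (sf K).erase κ, ν (κ + i • l) := by
    rw [← Finset.add_sum_erase _ _ hm, h0, zero_add]
  have h3 : ∑ κ ∈ (sf K).erase κ, ν (κ + i • l) ≤ ((sf K).erase κ).card * w :=
    Finset.sum_le_card_nsmul _ _ w fun κ _ => hb _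
  have h4 : ((sf K).erase κ).card + 1 = Nat.card K := by
    rw [← card_sf]
    exact Finset.card_erase_add_one hm
  rw [← h4]
  nlinarith

/-- `f i = ∑_{x ∈ Dd, ps x = i} ν x ≤ w |K|` (the `x ∈ Dd` with `ps x = i` lie in the coset `i l + K`), `B = per`;
`∑_{i ≥ 1} f i = tot (out K ν)` (`ps_zero_iff`), `wt ν = ∑ i f i`; `rearr` with `u = w |K|`. -/
theorem wt_ge (ν : G → ℕ) (w : ℕ) (hw : 1 ≤ w) (hD : ∀ x, ν x ≠ 0 → x ∈ Dd K l)
    (hb : ∀ x, ν x ≤ w) : gg (w * Nat.card K) (tot (out K ν)) ≤ 1 + wt K l ν := by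
  have hK : 1 ≤ Nat.card K := Nat.card_pos
  rw [← colm_sum K l ν hD, ← colm_wt K l ν hD]
  exact rearr (colm K l ν) (per K l) (w * Nat.card K) (Nat.mul_pos hw hK)
    fun i _ => colm_le_w K l ν w hD hb i

/-- As `wt_ge`, for `f' i = f i + [i = i0]`: column `i0` is not full (`¬ gc`), so `f i0 ≤ w (|K| - 1)` and
`f' i0 ≤ w |K|`. -/
theorem wt_ge' (ν : G → ℕ) (w i0 : ℕ) (hw : 1 ≤ w) (hD : ∀ x, ν x ≠ 0 → x ∈ Dd K l)
    (hb : ∀ x, ν x ≤ w) (h0 : 1 ≤ i0) (h1 : i0 < per K l) (hg : ¬ gc K l ν i0) :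
    gg (w * Nat.card K) (tot (out K ν) + 1) ≤ 1 + wt K l ν + i0 := by
  classical
  have hK : 1 ≤ Nat.card K := Nat.card_pos
  have hi0 : i0 ∈ Icc 1 (per K l) := by
    rw [Finset.mem_Icc]
    omega
  have h2 : ∑ i ∈ Icc 1 (per K l), (colm K l ν i + if i = i0 then 1 else 0) =
      tot (out K ν) + 1 := by
    rw [Finset.sum_add_distrib, colm_sum K l ν hD, Finset.sum_ite_eq', if_pos hi0]
  have h3 : ∑ i ∈ Icc 1 (per K l), i * (colm K l ν i + if i = i0 then 1 else 0) =
      wt K l ν + i0 := by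
    simp_rw [mul_add, mul_ite, mul_one, mul_zero]
    rw [Finset.sum_add_distrib, colm_wt K l ν hD, Finset.sum_ite_eq', if_pos hi0]
  rw [add_assoc, ← h3, ← h2]
  refine rearr (fun i => colm K l ν i + if i = i0 then 1 else 0) (per K l) (w * Nat.card K)
    (Nat.mul_pos hw hK) fun i _ => ?_
  show colm K l ν i + (if i = i0 then 1 else 0) ≤ w * Nat.card K
  split_ifs with h
  · subst h
    have := colm_le_w' K l ν w hD hb i hg
    omega
  · rw [add_zero]
    exact colm_le_w K l ν w hD hb i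

end FX
end

section

set_option autoImplicit false
set_option linter.unusedSectionVars false

open Finset Pointwise

namespace FX

open RG (stb mem_stb gg ph)
open SPR (T)
open AM
open Pool.Agent.Lib.MP_d3cc86_co (lam Asym symz)

/-- Case analysis.  `c = w ⌊(h-1)/2⌋`.
`h = 1`: `c0 = 0`, `gg w s + 2 ≤ X + 2`, against `hX`.  Let `h ≥ 2`; `1 + c0 ≤ f0 ≤ h - 1`.
`c0 < c`: `fa1`: `ph w h s ≤ X`.
`c0 = c`, `h` even: `fa2`: `gg w s ≤ X`, against `hX`.
`c0 = c`, `h` odd, `h ≥ 3`: `w (h-1)/2 + 1 ≤ h - 1` forces `w = 1` (for `w ≥ 2`: `h - 1 + 1 ≤ h - 1`).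
`h = 3`: `c0 = 1`, `f0 = 2`: `fa3`: `X ≥ 3 gg 3 (s-1) - 2`, which is `T s` (`s % 3 = 1`) or `T s + 1 = gg 1 s` (`RG.gg_one`).
`h = 5`: `c0 = 2`, `f0 ≥ 4`: `fa5`: `X ≥ 5 gg 5 (s - 2) - 2`: `T s` or `≥ T s + 2`.
`h ≥ 7`: excluded by `h7`. -/
theorem fa (w h s c0 f0 X : ℕ) (hw : 1 ≤ w) (hh : 1 ≤ h) (hs : 1000000 * (w * h ^ 2) ≤ s)
    (hc : c0 ≤ w * ((h - 1) / 2)) (hf : 1 + c0 ≤ f0) (hf2 : 2 ≤ h → f0 < h)
    (hX : X < gg w s) (hC : h * gg (w * h) (s - c0) + 2 * f0 ≤ X + 2 * h)
    (h5 : w = 1 → h = 5 → c0 = 2 → 4 ≤ f0)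
    (h7 : w = 1 → 7 ≤ h → h % 2 = 1 → c0 ≠ (h - 1) / 2) :
    ph w h s ≤ X ∨ (w = 1 ∧ ((h = 3 ∧ s % 3 = 1) ∨ (h = 5 ∧ s % 5 = 2)) ∧ T s ≤ X) := by
  rcases Nat.lt_or_ge 1 h with h2 | h2
  · have hf3 := hf2 h2
    rcases Nat.lt_or_ge c0 (w * ((h - 1) / 2)) with hlt | hge
    · left
      have h3 := fa1 w h s c0 hw hh hs hlt
      omega
    · have hceq : c0 = w * ((h - 1) / 2) := le_antisymm hc hge
      rcases Nat.mod_two_eq_zero_or_one h with he | ho
      · exfalso
        have h3 := fa2 w h s hw h2 he hs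
        rw [← hceq] at h3
        omega
      · obtain ⟨k, rfl⟩ : ∃ k, h = 2 * k + 1 := ⟨h / 2, by omega⟩
        have hk : (2 * k + 1 - 1) / 2 = k := by omega
        rw [hk] at hceq h7
        have hw1 : w = 1 := by
          by_contra hne
          have h4 : 2 * k ≤ w * k := Nat.mul_le_mul_right _ (by omega)
          omega
        subst hw1
        rw [one_mul] at hceq
        have hg1 := RG.gg_one s
        rcases Nat.lt_or_ge k 3 with hk3 | hk3
        · have hk12 : k = 1 ∨ k = 2 := by omega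
          rcases hk12 with rfl | rfl
          · -- `h = 3`
            have hc1 : c0 = 1 := by omega
            subst hc1
            have hC' : 3 * gg 3 (s - 1) + 2 * f0 ≤ X + 2 * 3 := by simpa using hC
            have hs1 : 1 ≤ s := by omega
            rcases fa3 s hs1 with ⟨h4, h6⟩ | h6
            · right
              refine ⟨rfl, Or.inl ⟨rfl, h4⟩, by omega⟩
            · omega
          · -- `h = 5`
            have hc2 : c0 = 2 := by omega
            subst hc2
            have hC' : 5 * gg 5 (s - 2) + 2 * f0 ≤ X + 2 * 5 := by simpa using hC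
            have hf4 := h5 rfl rfl rfl
            have hs2 : 2 ≤ s := by omega
            rcases fa5 s hs2 with ⟨h4, h6⟩ | h6
            · right
              refine ⟨rfl, Or.inr ⟨rfl, h4⟩, by omega⟩
            · omega
        · exact absurd hceq (h7 rfl (by omega) ho)
  · exfalso
    have h1 : h = 1 := by omega
    subst h1
    have hc0 : c0 = 0 := by simpa using hc
    subst hc0
    rw [mul_one, Nat.sub_zero, one_mul] at hC
    omega

end FX
end

section

set_option autoImplicit false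
set_option linter.unusedSectionVars false

open Finset Pointwise

namespace FX

open RG (stb mem_stb gg ph)
open SPR (T)
open AM
open Pool.Agent.Lib.MP_d3cc86_co (lam Asym symz)

variable {G : Type} [AddCommGroup G] [Fintype G] [DecidableEq G] (K : AddSubgroup G) (l : G)

/-- Orientation of the multiset.  `P0` from `half G`, `P = ornt K l P0`, `μ' = orient P μ`.  `μ x ≠ 0 → x + x ≠ 0` by `AS`.
`AS_orient`, `tot_orient`, `SM_orient` (`SM μ' = c +ᵥ SM μ`, so `|SM μ'| = |SM μ|`, `stb (SM μ') = stb (SM μ)` by `stb_vadd`),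
`μ' x ≤ μ x + μ (-x) ≤ w` by `AS`; so `Hyp w μ'`.  `ori`: `μ' x ≠ 0` implies `P x`; `ornt_le`.
The mass: let `ν' = orient P ν`; `ν' ≤ μ'`, `tot ν' = tot ν`, and `ν' x ≠ 0` implies `P x` and (`ν x ≠ 0` or `ν (-x) ≠ 0`), so
`x - i l ∈ K` or `x + i l ∈ K` for some `i ≤ T'`; then `x ∈ Dd` (`mem_Dd_of`, `mem_Dd_of'`), `2 ps x ≤ per`; if `x - i l ∈ K` then
`ps x = i` (`i ≤ T' < per`, `ps_eq`); if `x + i l ∈ K`: `-x - i l ∈ K`, `ps (-x) = i`; if `i = 0` then `ps x = 0`, and if `i ≥ 1` then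
`ps x = per - i` (`ps_neg` for `-x`), `2 ps x = 2 per - 2 i > per` as `2 i ≤ 2 T' < per`: impossible.  So
`ν' ≤ low K l μ' T'` and `tot ν ≤ tot (low K l μ' T')`. -/
theorem orient_ex (w T' : ℕ) (μ ν : G → ℕ) (H : Hyp w μ) (hle : ∀ x, ν x ≤ μ x)
    (hν : ∀ x, ν x ≠ 0 → ∃ i : ℕ, i ≤ T' ∧ (x - i • l ∈ K ∨ x + i • l ∈ K))
    (hbig : 2 * T' < per K l) :
    ∃ μ' : G → ℕ, Hyp w μ' ∧ tot μ' = tot μ ∧ (SM μ').card = (SM μ).card ∧
      (∀ x ∈ Dd K l, μ' x ≠ 0 → 2 * ps K l x ≤ per K l) ∧ tot ν ≤ tot (low K l μ' T') := by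
  classical
  obtain ⟨P0, hP0⟩ := half G
  have hP : ∀ x, x + x ≠ 0 → (ornt K l P0 x ↔ ¬ ornt K l P0 (-x)) := ornt_half K l P0 hP0
  have h0 : ∀ x, μ x ≠ 0 → x + x ≠ 0 := by
    intro x hx he
    have h1 := H.as x hx
    rw [← eq_neg_iff_add_eq_zero.2 he] at h1
    exact hx h1
  have h0ν : ∀ x, ν x ≠ 0 → x + x ≠ 0 := by
    intro x hx
    refine h0 x ?_
    have := hle x
    omega
  obtain ⟨c, hc⟩ := SM_orient (ornt K l P0) μ hP h0
  have htot : tot (orient (ornt K l P0) μ) = tot μ := tot_orient _ _ hP h0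
  have hcard : (SM (orient (ornt K l P0) μ)).card = (SM μ).card := by
    rw [hc, Finset.card_vadd_finset]
  have hor : ∀ (κ : G → ℕ) z, orient (ornt K l P0) κ z =
      if ornt K l P0 z then κ z + κ (-z) else 0 := by
    intro κ z
    unfold orient
    congr!
  have hori : ∀ x, orient (ornt K l P0) μ x ≠ 0 → ornt K l P0 x := by
    intro x hx
    by_contra hn
    rw [hor, if_neg hn] at hx
    exact hx rfl
  refine ⟨orient (ornt K l P0) μ, ⟨H.w1, AS_orient _ _ hP h0, ?_, ?_, ?_, ?_⟩, htot, hcard, ?_, ?_⟩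
  · intro x
    rw [hor]
    split_ifs
    · by_cases hx : μ x = 0
      · rw [hx, zero_add]
        exact H.cap _
      · rw [H.as x hx, add_zero]
        exact H.cap _
    · exact Nat.zero_le _
  · rw [hc, stb_vadd]
    exact H.ap
  · rw [hcard, htot]
    exact H.small
  · rw [hcard, htot]
    exact H.nosub
  · intro x hx hμ
    exact ornt_le K l P0 x hx (hori x hμ)
  · rw [← tot_orient (ornt K l P0) ν hP h0ν]
    refine tot_mono ?_
    intro x
    by_cases hx : orient (ornt K l P0) ν x = 0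
    · rw [hx]
      exact Nat.zero_le _
    · have hPx : ornt K l P0 x := by
        by_contra hn
        rw [hor, if_neg hn] at hx
        exact hx rfl
      have hex : ν x ≠ 0 ∨ ν (-x) ≠ 0 := by
        rw [hor, if_pos hPx] at hx
        omega
      have hpos : ∃ i : ℕ, i ≤ T' ∧ (x - i • l ∈ K ∨ x + i • l ∈ K) := by
        rcases hex with h1 | h1
        · exact hν x h1
        · obtain ⟨i, hi, h2⟩ := hν (-x) h1
          refine ⟨i, hi, ?_⟩
          rcases h2 with h2 | h2
          · right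
            have := K.neg_mem h2
            rw [neg_sub, sub_neg_eq_add, add_comm] at this
            exact this
          · left
            have := K.neg_mem h2
            rw [neg_add, neg_neg, ← sub_eq_add_neg] at this
            exact this
      obtain ⟨i, hi, h2⟩ := hpos
      have hD : x ∈ Dd K l := by
        rcases h2 with h2 | h2
        · exact mem_Dd_of K l h2
        · exact mem_Dd_of' K l h2
      have hle2 : 2 * ps K l x ≤ per K l := ornt_le K l P0 x hD hPx
      have hps : ps K l x ≤ T' := by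
        rcases h2 with h2 | h2
        · rw [ps_eq K l h2 (by omega)]
          exact hi
        · have h3 : (-x) - i • l ∈ K := by
            have := K.neg_mem h2
            rw [neg_add] at this
            rw [sub_eq_add_neg]
            exact this
          have h4 : ps K l (-x) = i := ps_eq K l h3 (by omega)
          rcases Nat.eq_zero_or_pos i with h5 | h5
          · rw [h5] at h2
            rw [zero_smul, add_zero] at h2
            rw [(ps_zero_iff K l hD).2 h2]
            exact Nat.zero_le _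
          · have h6 : ps K l (- -x) = per K l - ps K l (-x) :=
              ps_neg K l ((Dd K l).neg_mem hD) (by omega)
            rw [neg_neg, h4] at h6
            omega
      have hlow : low K l (orient (ornt K l P0) μ) T' x = orient (ornt K l P0) μ x := by
        unfold low
        rw [if_pos ⟨hD, hps⟩]
      rw [hlow, hor, hor, if_pos hPx, if_pos hPx]
      exact Nat.add_le_add (hle x) (hle (-x))

end FX
end

section

set_option autoImplicit false
set_option linter.unusedSectionVars false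

open Finset Pointwise

namespace FX

open RG (stb mem_stb gg ph)
open SPR (T)
open AM
open Pool.Agent.Lib.MP_d3cc86_co (lam Asym symz)

variable {G : Type} [AddCommGroup G] [Fintype G] [DecidableEq G] (K : AddSubgroup G) (l : G)

/-- A subgroup of `Dd`, if `|K| ≥ 2`: `Dd K l` is cyclic of order `n = per h`; `r` the least prime factor of `h`;
there is a subgroup of order `n / r` (if `g` generates `Dd`, take `zmultiples (r • g)`).
`2 (n / r) ≤ n`, `h (n / r) ≥ n`, i.e. `per ≤ n / r` (`r ≤ h`). -/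
theorem subDd (hG : IsAddCyclic G) (h2 : 2 ≤ Nat.card K) :
    ∃ H : AddSubgroup G, 2 * Nat.card H ≤ per K l * Nat.card K ∧ per K l ≤ Nat.card H := by
  obtain ⟨g, hg⟩ := IsAddCyclic.exists_ofOrder_eq_natCard (α := Dd K l)
  rw [card_Dd] at hg
  have hg' : addOrderOf (g : G) = per K l * Nat.card K := by
    rw [← hg]
    exact AddSubgroup.addOrderOf_coe g
  have hr : (Nat.card K).minFac.Prime := Nat.minFac_prime (by omega)
  obtain ⟨m, hm⟩ := Nat.minFac_dvd (Nat.card K)
  have hm0 : 1 ≤ m := by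
    rcases Nat.eq_zero_or_pos m with h | h
    · rw [h, mul_zero] at hm
      omega
    · exact h
  have hcard : Nat.card (AddSubgroup.zmultiples ((Nat.card K).minFac • (g : G))) = per K l * m := by
    rw [Nat.card_zmultiples]
    have hd : (Nat.card K).minFac ∣ addOrderOf (g : G) := by
      rw [hg']
      exact (Nat.minFac_dvd _).mul_left _
    rw [addOrderOf_nsmul_of_dvd hr.pos.ne' hd, hg']
    nth_rewrite 1 [hm]
    rw [mul_left_comm]
    exact Nat.mul_div_cancel_left _ hr.pos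
  refine ⟨AddSubgroup.zmultiples ((Nat.card K).minFac • (g : G)), ?_, ?_⟩
  · rw [hcard]
    calc 2 * (per K l * m) ≤ (Nat.card K).minFac * (per K l * m) :=
          Nat.mul_le_mul_right _ hr.two_le
      _ = per K l * ((Nat.card K).minFac * m) := by ring
      _ = per K l * Nat.card K := by rw [← hm]
  · rw [hcard]
    exact Nat.le_mul_of_pos_right _ hm0

end FX
end
end
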