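import Pool.Agent.Lib.MP_d3cc86_co.FX.L7c
import Pool.Agent.Lib.MP_d3cc86_co.FX.L4
import Pool.Agent.Lib.MP_d3cc86_co.AM.C2b
import Pool.Agent.Lib.MP_d3cc86_co.FX.F7
import Pool.Agent.Lib.MP_d3cc86_co.AM.U1
import Pool.Agent.Lib.MP_d3cc86_co.FX.E5
import Pool.Agent.Lib.MP_d3cc86_co.FX.Defs
import Pool.Agent.Lib.MP_d3cc86_co.RG.Main

section

set_option autoImplicit false
set_option linter.unusedSectionVars false

open Finset Pointwise

namespace FX

open RG (stb mem_stb gg ph)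
open SPR (T)
open AM
open Pool.Agent.Lib.MP_d3cc86_co (lam Asym symz)

variable {G : Type} [AddCommGroup G] [Fintype G] (K : AddSubgroup G) (l : G)

private lemma lenb_num (s m r h w T p a P : ℕ) (hh : 1 ≤ h) (hw : 1 ≤ w)
    (ha : 64 * a ≤ 2 * T + 192) (hr : r + 1 ≤ h) (hmass : p * s ≤ p * (r + m) + s)
    (hcov : p * (w * (T * h)) ≤ (p + 1) * s) (hp1 : 1000 * h ≤ p) (hT1 : 1000 * h ≤ T)
    (hs1 : 1000000 * (w * h ^ 2) ≤ s) (hq : m * m ≤ 2 * (w * h) * (1 + P)) :
    9 * s ^ 2 ≤ 10 * (2 * (w * h) * (P + 1 - 2 * a)) := by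
  have hp : 1000 ≤ p := by omega
  have hwh : w * h ≤ w * h ^ 2 := Nat.mul_le_mul_left _ (by nlinarith)
  have hh2 : h ≤ w * h := Nat.le_mul_of_pos_left h hw
  have hs : 1000000 * (w * h) ≤ s := by omega
  have hs0 : 1000000 ≤ s := by
    have : 1 ≤ w * h := hh.trans hh2
    omega
  have hm : 999 * s ≤ 1000 * (r + m) := by
    have h1 : p * (999 * s) ≤ p * (1000 * (r + m)) := by
      have h2 := Nat.mul_le_mul_right s hp
      nlinarith
    exact Nat.le_of_mul_le_mul_left h1 (by omega)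
  have hm2 : 998 * s ≤ 1000 * m := by omega
  have hT : 1000 * (w * (T * h)) ≤ 1001 * s := by
    have h1 : p * (1000 * (w * (T * h))) ≤ p * (1001 * s) := by
      have h2 := Nat.mul_le_mul_right s hp
      nlinarith
    exact Nat.le_of_mul_le_mul_left h1 (by omega)
  have ha2 : 2 * (w * h) * (2 * a) ≤ s := by
    have h1 := Nat.mul_le_mul_left (w * h) ha
    have h2 : w * (T * h) = w * h * T := by ring
    rw [h2] at hT
    have h3 : w * h * (64 * a) = 16 * (2 * (w * h) * (2 * a)) := by ring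
    have h4 : w * h * (2 * T + 192) = 2 * (w * h * T) + 192 * (w * h) := by ring
    rw [h3, h4] at h1
    omega
  have hY : 2 * (w * h) * (P + 1) ≤ 2 * (w * h) * (P + 1 - 2 * a) + 2 * (w * h) * (2 * a) := by
    rw [← Nat.mul_add]
    exact Nat.mul_le_mul_left _ (by omega)
  have h7 : m * m ≤ 2 * (w * h) * (P + 1 - 2 * a) + s := by
    rw [Nat.add_comm 1 P] at hq
    omega
  have h8 : (998 * s) * (998 * s) ≤ (1000 * m) * (1000 * m) := Nat.mul_le_mul hm2 hm2
  have h9 : 1000000 * s ≤ s * s := Nat.mul_le_mul_right s hs0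
  nlinarith

/-- The length of the full range.  `m = tot (out K (low μ T))`, `Π = wt (low μ T)`, `h = |K|`.  `tot (low) ≤ m + h`
(`tot_split`; `tot (res K low) ≤ tot (res K μ) ≤ h - 1` by `AM.mass`).  So `p s ≤ p m + p h + s`, and with `p ≥ 1000`, `s ≥ 10^6 h`:
`1000 m ≥ 998 s`.  `wt_ge` for `low` (its support is in `Dd`): `gg (w h) m ≤ 1 + Π`; `RG.gg_quad`: `m^2 ≤ 2 w h (1 + Π)`.
`2 a ≤ 4 β + 6 ≤ T / 16 + 6`, and `w T h ≤ 1.001 s`, so `2 w h · 2 a ≤ s / 4 · … + 12 w h ≤ s`.  Therefore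
`2 w h (Π + 1 - 2 a) ≥ m^2 - s ≥ 0.99 s^2`, which is more than `(9/10) s^2`. -/
theorem lenb {w : ℕ} {μ : G → ℕ} {T p : ℕ} (H : LAH w μ K l T p) (a : ℕ)
    (ha : 64 * a ≤ 2 * T + 192) :
    9 * tot μ ^ 2 ≤ 10 * (2 * (w * Nat.card K) * (wt K l (low K l μ T) + 1 - 2 * a)) := by
  have hh : 1 ≤ Nat.card K := Nat.card_pos
  have hw : 1 ≤ w := H.hyp.w1
  have hlow : ∀ x, low K l μ T x ≤ μ x := by
    classical
    intro x
    unfold low
    split_ifs
    · exact le_rfl
    · exact Nat.zero_le _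
  have hD : ∀ x, low K l μ T x ≠ 0 → x ∈ Dd K l := by
    classical
    intro x hx
    unfold low at hx
    by_contra hc
    apply hx
    rw [if_neg]
    exact fun h => hc h.1
  have h1 : gg (w * Nat.card K) (tot (out K (low K l μ T))) ≤ 1 + wt K l (low K l μ T) :=
    wt_ge K l _ w hw hD fun x => (hlow x).trans (H.hyp.cap x)
  have h2 := RG.gg_quad (w * Nat.card K) (tot (out K (low K l μ T)))
    (Nat.one_le_iff_ne_zero.mpr (by positivity))
  have h3 : tot (res K (low K l μ T)) + 1 ≤ Nat.card K := by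
    have h4 : tot (res K (low K l μ T)) ≤ tot (res K μ) := by
      classical
      refine tot_mono fun x => ?_
      unfold res
      split_ifs
      · exact hlow x
      · exact le_rfl
    have h5 := AM.mass K μ H.hyp.as.zero H.hyp.ap
    omega
  have h6 := tot_split K (low K l μ T)
  have hmass := H.mass
  have hcov := H.cov
  have hp1 := H.p1
  have hT1 := H.T1
  have hs1 := H.s1
  rw [h6] at hmass
  exact lenb_num (tot μ) (tot (out K (low K l μ T))) (tot (res K (low K l μ T))) (Nat.card K) w T p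
    a (wt K l (low K l μ T)) hh hw ha h3 hmass hcov hp1 hT1 hs1
    (by
      have h7 := h2.trans (Nat.mul_le_mul_left (2 * (w * Nat.card K)) h1)
      rw [Nat.add_assoc] at h7
      exact (Nat.le_add_right _ _).trans h7)

end FX
end

section

set_option autoImplicit false
set_option linter.unusedSectionVars false

open Finset Pointwise

namespace FX

open RG (stb mem_stb gg ph)
open SPR (T)
open AM
open Pool.Agent.Lib.MP_d3cc86_co (lam Asym symz)

variable {G : Type} [AddCommGroup G] [Fintype G] [DecidableEq G] (K : AddSubgroup G) (l : G)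

private lemma SM_add_single7 (ν : G → ℕ) (x : G) :
    SM (ν + Pi.single x 1) = SM ν ∪ (x +ᵥ SM ν) := by
  rw [SM_add, SM_single]
  ext z
  rw [Finset.mem_add, Finset.mem_union, Finset.mem_vadd_finset]
  constructor
  · rintro ⟨a, ha, b, hb, rfl⟩
    rw [Finset.mem_insert, Finset.mem_singleton] at hb
    rcases hb with rfl | rfl
    · left; rwa [add_zero]
    · right; exact ⟨a, ha, by rw [vadd_eq_add, add_comm]⟩
  · rintro (h | ⟨a, ha, rfl⟩)
    · exact ⟨z, h, 0, by simp, add_zero z⟩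
    · exact ⟨a, ha, x, by simp, by rw [vadd_eq_add, add_comm]⟩

private lemma low_le7 (μ : G → ℕ) (T : ℕ) : ∀ x, low K l μ T x ≤ μ x := by
  intro x
  unfold low
  split_ifs
  · exact le_rfl
  · exact Nat.zero_le _

private lemma low_Dd7 {μ : G → ℕ} {T : ℕ} {x : G} (h : low K l μ T x ≠ 0) :
    x ∈ Dd K l ∧ ps K l x ≤ T := by
  unfold low at h
  by_contra hc
  rw [if_neg hc] at h
  exact h rfl

/-- All of `μ` lies in `Dd`, and `SM μ` is full in the middle.  `ν = low K l μ T`, `Π' = wt ν`, `β = nb T`, `64 β ≤ T`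
(`bad_le`), so `64 a ≤ 2 T + 192`.  `low_full`: `Full (SM ν) a (Π' - a)`; `Λ = Π' - a + 1 - a = Π' + 1 - 2 a` (`a ≤ Π'` by
`lenb`).  `no_wrap`: `Λ < per`.  `full_card`: `h Λ ≤ |SM ν|`.  `lenb`: `9 s^2 ≤ 10 w (2 h Λ)`.
* `μ x ≠ 0` with `x ∉ Dd` is impossible: `coset_double (Dd K l) ν μ` gives `2 |SM ν| ≤ |SM μ|`, so `9 s^2 ≤ 10 w |SM μ|`,
  against `num6` (`small`).
* `μ x ≠ 0` implies `ps x ≤ Λ`: if `ps x > Λ` then (as `Λ ≥ T`, by `lenb` and `cov`: `2 w h Λ ≥ 0.9 s^2`, `w h T ≤ 1.001 s`)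
  `ps x > T`, so `ν x = 0` and `ν + single x 1 ≤ μ`, `SM (ν + single x 1) = SM ν ∪ (x +ᵥ SM ν)` has at least `2 h Λ` elements
  (`full_double` with `π = ps x`, `2 ps x ≤ per` by `ori`), again against `num6`.
* `μ = ν + ρ`; the elements of `ρ` have position `≤ Λ`, i.e. `a + ps x ≤ (Π' - a) + 1`; `full_many`:
  `Full (SM μ) a (Π' - a + wt ρ)` and `wt μ = Π' + wt ρ` (`wt_add`).
* `wt μ + 1 < per + 2 a` by `no_wrap`. -/
theorem full_all {w : ℕ} {μ : G → ℕ} {T p : ℕ} (H : LAH w μ K l T p) (a : ℕ)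
    (ha : a = 2 * nb K l μ T + 3 ∨ (a = 1 ∧ ∀ i, 1 ≤ i → i ≤ T / 2 → gc K l μ i)) :
    (∀ x, μ x ≠ 0 → x ∈ Dd K l) ∧ Full K l (SM μ) a (wt K l μ - a) ∧
      wt K l μ + 1 < per K l + 2 * a ∧ 2 * a ≤ wt K l μ := by
  have hh : 1 ≤ Nat.card K := Nat.card_pos
  have hw := H.hyp.w1
  have hT1 := H.T1
  have hTbig := H.big
  have hTper : T < per K l := by omega
  have hbad : 64 * nb K l μ T ≤ T :=
    bad_le K l μ w T p hw H.hyp.cap hTper H.p1 H.T1 H.mass H.cov
  have h64 : 64 * a ≤ 2 * T + 192 := by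
    rcases ha with h | ⟨h, -⟩
    · omega
    · omega
  have hTT : 1000 ≤ T := by omega
  have hF := low_full K l μ T a hTper hTT hbad ha
  have hlen := lenb K l H a h64
  set ν := low K l μ T with hν
  set P := wt K l ν with hP
  set s := tot μ with hs
  set h := Nat.card K with hhdef
  have hs1 : 1000000 * (w * h ^ 2) ≤ s := H.s1
  have hwh : 1 ≤ w * h ^ 2 := Nat.one_le_iff_ne_zero.2 (by positivity)
  have hs2 : 1000000 ≤ s := by omega
  have hL0 : 0 < P + 1 - 2 * a := by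
    by_contra hc
    have h0 : P + 1 - 2 * a = 0 := by omega
    rw [h0] at hlen
    have : 0 < s ^ 2 := by positivity
    omega
  have h2a : 2 * a ≤ P := by omega
  obtain ⟨L, hL⟩ : ∃ L, P + 1 - 2 * a = L := ⟨_, rfl⟩
  rw [hL] at hlen hL0
  have hLe : P - a + 1 - a = L := by omega
  have hle : ∀ x, ν x ≤ μ x := low_le7 K l μ T
  have hD : ∀ x, ν x ≠ 0 → x ∈ Dd K l := fun x hx => (low_Dd7 K l hx).1
  have hper2 : 2 ≤ per K l := by omega
  have hLper : L < per K l := by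
    have := no_wrap K l μ ν hle H.hyp.ap hD hper2 a (P - a) hF
    omega
  have hcard : h * L ≤ (SM ν).card := by
    have := full_card K l (SM ν) a (P - a) hF (by omega)
    rwa [hLe] at this
  have hsw : 1000 * w ≤ s := by
    have h1 : 1 ≤ h ^ 2 := Nat.one_le_iff_ne_zero.2 (by positivity)
    have h2 : w ≤ w * h ^ 2 := Nat.le_mul_of_pos_right _ h1
    omega
  -- the basic contradiction
  have key : ¬ (2 * (h * L) ≤ (SM μ).card) := by
    intro hc
    refine num6 w s (SM μ).card hw hsw ?_ H.hyp.small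
    calc 9 * s ^ 2 ≤ 10 * (2 * (w * h) * L) := hlen
      _ = 10 * (w * (2 * (h * L))) := by ring
      _ ≤ 10 * (w * (SM μ).card) :=
        Nat.mul_le_mul_left _ (Nat.mul_le_mul_left _ hc)
  have hTL : T ≤ L := by
    by_contra hc
    have h1 : L ≤ T := by omega
    have h2 : 9 * s ^ 2 ≤ 20 * (w * (T * h)) := by
      calc 9 * s ^ 2 ≤ 10 * (2 * (w * h) * L) := hlen
        _ = 20 * (w * (L * h)) := by ring
        _ ≤ 20 * (w * (T * h)) :=
          Nat.mul_le_mul_left _ (Nat.mul_le_mul_left _ (Nat.mul_le_mul_right _ h1))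
    have hc' := H.cov
    have hp1 : 1 ≤ p := by have := H.p1; omega
    have h3 : p * (w * (T * h)) ≤ p * (2 * s) := by
      calc p * (w * (T * h)) ≤ (p + 1) * s := hc'
        _ ≤ (p + p) * s := Nat.mul_le_mul_right _ (by omega)
        _ = p * (2 * s) := by ring
    have h4 : w * (T * h) ≤ 2 * s := Nat.le_of_mul_le_mul_left h3 (by omega)
    have h5 : 9 * s ^ 2 ≤ 40 * s := by omega
    have h6 : 9 * s ^ 2 = (9 * s) * s := by ring
    rw [h6] at h5
    have h7 := Nat.le_of_mul_le_mul_right h5 (by omega)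
    omega
  have hDmu : ∀ x, μ x ≠ 0 → x ∈ Dd K l := by
    intro x hx
    by_contra hc
    have h1 := coset_double (Dd K l) ν μ hD hle x hc hx
    apply key
    have h2 := Nat.mul_le_mul_left 2 hcard
    exact h2.trans h1
  have hpsL : ∀ x, μ x ≠ 0 → ps K l x ≤ L := by
    intro x hx
    by_contra hc
    have hxD := hDmu x hx
    have h0 : ν x = 0 := by
      by_contra hne
      have := (low_Dd7 K l hne).2
      omega
    have h1 : ∀ y, (ν + Pi.single x 1 : G → ℕ) y ≤ μ y := by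
      intro y
      rw [Pi.add_apply]
      rcases eq_or_ne y x with rfl | hne
      · rw [Pi.single_eq_same, h0]; omega
      · rw [Pi.single_eq_of_ne hne, add_zero]; exact hle y
    have h2 := Finset.card_le_card (SM_mono h1)
    rw [SM_add_single7] at h2
    have h3 := full_double K l (SM ν) a (P - a) (ps K l x) x hF (ps_spec K l hxD)
      (by omega) (H.ori x hxD hx)
    rw [hLe] at h3
    exact key (h3.trans h2)
  obtain ⟨ρ, hρ⟩ : ∃ ρ : G → ℕ, ν + ρ = μ := by
    refine ⟨fun x => μ x - ν x, ?_⟩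
    funext x
    rw [Pi.add_apply]
    have := hle x
    omega
  have hρD : ∀ x, ρ x ≠ 0 → x ∈ Dd K l ∧ a + ps K l x ≤ P - a + 1 := by
    intro x hx
    have h1 : μ x ≠ 0 := by
      rw [← hρ, Pi.add_apply]
      omega
    have h2 := hpsL x h1
    exact ⟨hDmu x h1, by omega⟩
  have hmany := full_many K l ν ρ a (P - a) hF hρD
  have hwt : wt K l μ = P + wt K l ρ := by
    rw [← hρ, wt_add]
  have hFull : Full K l (SM μ) a (wt K l μ - a) := by
    rw [hρ] at hmany
    have : P - a + wt K l ρ = wt K l μ - a := by omega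
    rwa [this] at hmany
  have hfin := no_wrap K l μ μ (fun x => le_rfl) H.hyp.ap hDmu hper2 a (wt K l μ - a) hFull
  refine ⟨hDmu, hFull, ?_, ?_⟩
  · omega
  · omega

end FX
end

section

set_option autoImplicit false
set_option linter.unusedSectionVars false

open Finset Pointwise

namespace FX

open RG (stb mem_stb gg ph)
open SPR (T)
open AM
open Pool.Agent.Lib.MP_d3cc86_co (lam Asym symz)

variable {G : Type} [AddCommGroup G] [Fintype G] [DecidableEq G] (K : AddSubgroup G) (l : G)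

private lemma good_num (s t h w P : ℕ) (hh : 1 ≤ h) (hw : 1 ≤ w) (ht : s + 1 ≤ t + h)
    (hs : 1000000 * (w * h ^ 2) ≤ s) (hq : t * t ≤ 2 * (w * h) * (1 + P)) : 4 * s ≤ w * P := by
  have h1 : h ≤ w * h ^ 2 := by
    have h2 : h ≤ h ^ 2 := by nlinarith
    exact h2.trans (Nat.le_mul_of_pos_left _ hw)
  have h3 : 9 * s ≤ 10 * t := by omega
  have h4 : (9 * s) * (9 * s) ≤ (10 * t) * (10 * t) := Nat.mul_le_mul h3 h3
  have h5 : 81 * (s * s) ≤ 200 * (w * h) * (1 + P) := by nlinarith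
  have h6 : s * (1000000 * (w * h ^ 2)) ≤ s * s := Nat.mul_le_mul_left s hs
  have h7 : (w * h) * (81000000 * (h * s)) ≤ (w * h) * (200 * (1 + P)) := by nlinarith
  have hwh : 0 < w * h := Nat.mul_pos hw hh
  have h8 : 81000000 * (h * s) ≤ 200 * (1 + P) := Nat.le_of_mul_le_mul_left h7 hwh
  have h9 : s ≤ h * s := Nat.le_mul_of_pos_left _ hh
  have h10 : 1 ≤ s := by
    have : 1 ≤ w * h ^ 2 := hh.trans h1
    omega
  have h11 : 4 * s ≤ P := by omega
  exact h11.trans (Nat.le_mul_of_pos_left _ hw)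

/-- No bad column `≤ T / 2`.  `a = 1`: `Full (SM μ) 1 (Π - 1)`, `Π = wt μ ≤ per` (`full_all`), `Π ≥ 2`.  `wt_ge`:
`gg (w h) t ≤ 1 + Π`, `t = tot (out K μ)`.
If `Π < per`: `full_ends` with `F0 = SM (res K μ) ⊆ SM μ` (in `K`, `SM_sub`) and `F1 = {σ - y : y ∈ F0}`,
`σ = ∑ μ x • x`, `σ - Π l ∈ K` (`wt_spec`), `F1 ⊆ SM μ` (`SM_refl`): `h (Π - 1) + 2 f0 ≤ |SM μ|`, so
`h gg + 2 f0 ≤ h (1 + Π) + 2 f0 ≤ |SM μ| + 2 h`.
If `Π = per`: `|SM μ| ≥ h (per - 1) + f0` (the column `0` contains `F0`; e.g. `full_ends` with `F1 = ∅` and `P = per - 1`, or directly).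
If `h = 1` then `|SM μ| ≥ per = |Dd|` (`f0 ≥ 1`), `SM μ ⊆ Dd`, so `SM μ = Dd`, contradicting `ap` as in `no_wrap`.
If `h ≥ 2`: `subDd` gives `H` with `2 |H| ≤ per h`, so `|H| ≤ h (per - 1) ≤ |SM μ|` (`per ≥ 2`), and
`w |H| ≥ w per = w Π ≥ 4 s` because `2 w h (1 + Π) ≥ t^2`, `t ≥ s - h ≥ 0.9 s`, `s ≥ 10^6 w h^2`; this contradicts `nosub`. -/
theorem caseGood {w : ℕ} {μ : G → ℕ} {T p : ℕ} (hG : IsAddCyclic G) (H : LAH w μ K l T p)
    (hg : ∀ i, 1 ≤ i → i ≤ T / 2 → gc K l μ i) :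
    Nat.card K * gg (w * Nat.card K) (tot (out K μ)) + 2 * (SM (res K μ)).card ≤
      (SM μ).card + 2 * Nat.card K := by
  classical
  obtain ⟨hD, hF, hlt, h2a⟩ := full_all K l H 1 (Or.inr ⟨rfl, hg⟩)
  have hh : 1 ≤ Nat.card K := Nat.card_pos
  have hw : 1 ≤ w := H.hyp.w1
  have hgg : gg (w * Nat.card K) (tot (out K μ)) ≤ 1 + wt K l μ :=
    wt_ge K l μ w hw hD H.hyp.cap
  set P := wt K l μ with hP
  rcases Nat.lt_or_ge P (per K l) with hlt2 | hge
  · have h0 : SM (res K μ) ⊆ SM μ := SM_mono fun x => res_le K μ x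
    have h0K : ∀ x ∈ SM (res K μ), x ∈ K := SM_sub fun x hx => (res_ne hx).1
    have hinj : Function.Injective (fun y : G => (∑ x, μ x • x) - y) := sub_right_injective
    have hsub : (SM (res K μ)).image (fun y : G => (∑ x, μ x • x) - y) ⊆ SM μ := by
      intro z hz
      obtain ⟨y, hy, rfl⟩ := Finset.mem_image.1 hz
      exact SM_refl μ y (h0 hy)
    have h1K : ∀ x ∈ (SM (res K μ)).image (fun y : G => (∑ x, μ x • x) - y), x - P • l ∈ K := by
      intro z hz
      obtain ⟨y, hy, rfl⟩ := Finset.mem_image.1 hz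
      have h3 := K.sub_mem (wt_spec K l μ hD) (h0K y hy)
      have h4 : (∑ x, μ x • x) - y - P • l = (∑ x, μ x • x) - wt K l μ • l - y := by
        rw [hP]
        abel
      rw [h4]
      exact h3
    have h5 := full_ends K l (SM μ) (SM (res K μ)) _ P hF h0 h0K hsub h1K (by omega) hlt2
    rw [Finset.card_image_of_injective _ hinj] at h5
    have h6 : Nat.card K * gg (w * Nat.card K) (tot (out K μ)) ≤ Nat.card K * (1 + P) :=
      Nat.mul_le_mul_left _ hgg
    have h7 : Nat.card K * (1 + P) = Nat.card K * (P - 1) + 2 * Nat.card K := by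
      obtain ⟨c, hc⟩ := Nat.exists_eq_add_of_le (show 1 ≤ P by omega)
      rw [hc, Nat.add_sub_cancel_left]
      ring
    omega
  · exfalso
    have hPe : P = per K l := by omega
    rcases Nat.lt_or_ge (Nat.card K) 2 with h1 | h2
    · have hK : ∀ κ ∈ K, κ = 0 := by
        intro κ hκ
        have h3 : Nat.card K = 1 := by omega
        have h4 := AddSubgroup.eq_bot_of_card_eq K h3
        rw [h4] at hκ
        exact AddSubgroup.mem_bot.1 hκ
      have hF2 : Full K l (SM μ) 0 (per K l - 1) := by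
        intro i _ hi κ hκ
        rcases Nat.eq_zero_or_pos i with h5 | h5
        · rw [h5, hK κ hκ, zero_smul, add_zero]
          exact zero_mem_SM μ
        · exact hF i h5 (by omega) κ hκ
      have h6 := no_wrap K l μ μ (fun _ => le_rfl) H.hyp.ap hD (by omega) 0 (per K l - 1) hF2
      omega
    · obtain ⟨H', h3, h4⟩ := subDd K l hG h2
      refine H.hyp.nosub ⟨H', ?_, ?_⟩
      · have h5 := full_card K l (SM μ) 1 (P - 1) hF (by omega)
        have h6 : Nat.card K * (P - 1 + 1 - 1) = Nat.card K * (per K l - 1) := by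
          congr 1
          omega
        rw [h6] at h5
        refine le_trans ?_ h5
        have h7 : per K l * Nat.card K ≤ 2 * (Nat.card K * (per K l - 1)) := by
          obtain ⟨c, hc⟩ := Nat.exists_eq_add_of_le (show 2 ≤ per K l by omega)
          have h8 : 2 + c - 1 = c + 1 := by omega
          rw [hc, h8]
          nlinarith
        omega
      · have h5 := RG.gg_quad (w * Nat.card K) (tot (out K μ)) (Nat.mul_pos hw hh)
        have h6 := AM.mass K μ H.hyp.as.zero H.hyp.ap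
        have h7 := tot_split K μ
        have h8 : 4 * tot μ ≤ w * P := by
          refine good_num (tot μ) (tot (out K μ)) (Nat.card K) w P hh hw (by omega) H.s1 ?_
          have h9 := Nat.mul_le_mul_left (2 * (w * Nat.card K)) hgg
          have h10 : tot (out K μ) * tot (out K μ) ≤
              2 * (w * Nat.card K) * gg (w * Nat.card K) (tot (out K μ)) := by
            omega
          exact h10.trans h9
        refine h8.trans (Nat.mul_le_mul_left w ?_)
        rw [hPe]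
        exact h4

end FX
end

section

set_option autoImplicit false
set_option linter.unusedSectionVars false

open Finset Pointwise

namespace FX

open RG (stb mem_stb gg ph)
open SPR (T)
open AM
open Pool.Agent.Lib.MP_d3cc86_co (lam Asym symz)

variable {G : Type} [AddCommGroup G] [Fintype G] [DecidableEq G] (K : AddSubgroup G) (l : G)

/-- A bad column `i0 ≤ T / 2`.  `a = 2 β + 3`, `Π = wt μ`; `full_all`, `full_card`: `h (Π + 1 - 2 a) ≤ |SM μ|`.  `t = tot (out K μ)`,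
`s = t + c0`, `c0 = tot (res K μ) ≤ h - 1` (`AM.mass`), `c0 ≤ w ⌊(h-1)/2⌋` (`in_mass`).  `wt_ge'`: `gg (w h) (t + 1) ≤ 1 + Π + i0`
and `gg (w h) (t+1) = gg (w h) t + t / (w h) + 1` (`RG.gg_succ`).  So `Π + 1 - 2 a ≥ gg (w h) t + t/(wh) + 1 - i0 - 2 a ≥ gg (w h) t`:
indeed `t / (w h) + 1 ≥ 0.99 T - 1` (`p w T h ≤ (p+1) s`, `t ≥ s - h`), `i0 ≤ T / 2`, `2 a ≤ T / 16 + 6`.
`gg (w h) t ≥ gg (w h) (s - w ⌊(h-1)/2⌋)` (`gg_mono`), so `ph w h s ≤ |SM μ|`. -/
theorem caseBad {w : ℕ} {μ : G → ℕ} {T p : ℕ} (H : LAH w μ K l T p) (i0 : ℕ) (h1 : 1 ≤ i0)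
    (h2 : i0 ≤ T / 2) (hg : ¬ gc K l μ i0) : ph w (Nat.card K) (tot μ) ≤ (SM μ).card := by
  have hw := H.hyp.w1
  have hb := H.hyp.cap
  have hbig := H.big
  have hT1 := H.T1
  have hp1 := H.p1
  have hh : 1 ≤ Nat.card K := Nat.card_pos
  have hnb : 64 * nb K l μ T ≤ T :=
    bad_le K l μ w T p hw hb (by omega) hp1 hT1 H.mass H.cov
  obtain ⟨D, F, W, A⟩ := full_all K l H (2 * nb K l μ T + 3) (Or.inl rfl)
  set a := 2 * nb K l μ T + 3 with ha
  have hc := full_card K l (SM μ) a (wt K l μ - a) F (by omega)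
  have hwt := wt_ge' K l μ w i0 hw D hb h1 (by omega) hg
  have hwh : 1 ≤ w * Nat.card K := Nat.one_le_iff_ne_zero.2 (Nat.mul_ne_zero (by omega) (by omega))
  rw [RG.gg_succ _ _ hwh] at hwt
  have hsplit := tot_split K μ
  have hmass := AM.mass K μ (AS.zero H.hyp.as) H.hyp.ap
  have hin := in_mass K μ w H.hyp.as hb
  have hcov : 1000 * (w * (T * Nat.card K)) ≤ 1001 * tot μ := by
    have h3 : 0 < p := by omega
    refine Nat.le_of_mul_le_mul_left ?_ h3
    have h4 := Nat.mul_le_mul_left 1000 H.cov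
    have h5 : 1000 * (p + 1) * tot μ ≤ 1001 * p * tot μ := Nat.mul_le_mul_right _ (by omega)
    calc p * (1000 * (w * (T * Nat.card K))) = 1000 * (p * (w * (T * Nat.card K))) := by ring
      _ ≤ 1000 * ((p + 1) * tot μ) := h4
      _ = 1000 * (p + 1) * tot μ := by ring
      _ ≤ 1001 * p * tot μ := h5
      _ = p * (1001 * tot μ) := by ring
  have key : i0 + 2 * a ≤ tot (out K μ) / (w * Nat.card K) + 1 := by
    by_contra hcon
    push Not at hcon
    have h3 : tot (out K μ) < w * Nat.card K * (tot (out K μ) / (w * Nat.card K) + 1) :=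
      Nat.lt_mul_div_succ _ hwh
    have h4 : w * Nat.card K * (tot (out K μ) / (w * Nat.card K) + 1) ≤
        w * Nat.card K * (i0 + 2 * a) := Nat.mul_le_mul_left _ (by omega)
    have h5 : 16 * (i0 + 2 * a) ≤ 10 * T := by omega
    have h6 : w * Nat.card K * (16 * (i0 + 2 * a)) ≤ w * Nat.card K * (10 * T) :=
      Nat.mul_le_mul_left _ h5
    have h7 : Nat.card K * 1000 ≤ w * (T * Nat.card K) := by
      calc Nat.card K * 1000 = 1 * (1000 * Nat.card K) := by ring
        _ ≤ w * (T * Nat.card K) := Nat.mul_le_mul hw (Nat.mul_le_mul_right _ (by omega))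
    have e1 : w * Nat.card K * (16 * (i0 + 2 * a)) = 16 * (w * Nat.card K * (i0 + 2 * a)) := by ring
    have e2 : w * Nat.card K * (10 * T) = 10 * (w * (T * Nat.card K)) := by ring
    rw [e1, e2] at h6
    omega
  have hle : RG.gg (w * Nat.card K) (tot (out K μ)) ≤ wt K l μ - a + 1 - a := by omega
  unfold RG.ph
  refine le_trans (Nat.mul_le_mul_left _ ?_) hc
  exact le_trans (RG.gg_mono _ hwh (by omega)) hle

end FX
end

section

set_option autoImplicit false
set_option linter.unusedSectionVars false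

open Finset Pointwise

namespace FX

open RG (stb mem_stb gg ph)
open SPR (T)
open AM
open Pool.Agent.Lib.MP_d3cc86_co (lam Asym symz)

/-- Structure.  `K = 9 p + 32`; `q` is at least `10^6`, the constant of `d1 K`, and `32 K`.  `transport` gives `N, f, V', C'`.
`d1 K` in `ZMod N` (with `Ctx.mono`): `|K • symz V'| ≤ (K+1) |symz V'|`.  `charex`: `k ≠ 0` and `q |valMinAbs (k x)| ≤ 4 N` on `V'`, so
`4 K |valMinAbs| < N` (if `valMinAbs = 0` clear as `N > 0`; `8 K · 4 · …`: `16 K N ≤ q N / 2`).  `s6` gives `K1', l', t`.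
`K1 = K1'.map f`, `l = f l'`; `|K1| = |K1'|` (`f` injective), `|V| = |V'|`.  For `x ∈ V`, `x = f x'`.
`p (K+1) ≤ (p+1)(K-8)` (`K - 8 ≥ 9 p`), so from `(K-8) Y ≤ (K+1) Z` (`Y = 2 t |K1|`, `Z = 2 |V| + 1`):
`p (K - 8) Y ≤ p (K+1) Z ≤ (p+1)(K-8) Z`, and cancel `K - 8 > 0`. -/
theorem structure_thm (p : ℕ) (hp : 1 ≤ p) : ∃ q : ℕ, ∀ (G : Type) [AddCommGroup G] [Fintype G]
    [DecidableEq G] (V C : Finset G), IsAddCyclic G → Ctx V C q →
    ∃ (K1 : AddSubgroup G) (l : G) (t : ℕ), 1 ≤ t ∧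
      (∀ x ∈ V, ∃ i : ℕ, i ≤ t ∧ (x - i • l ∈ K1 ∨ x + i • l ∈ K1)) ∧
      p * (2 * t * Nat.card K1) ≤ (p + 1) * (2 * V.card + 1) := by
  obtain ⟨K, hKdef⟩ : ∃ K, K = 9 * p + 32 := ⟨_, rfl⟩
  obtain ⟨q1, hd⟩ := d1 K (by omega)
  refine ⟨1000000 + q1 + 32 * K, ?_⟩
  intro G _ _ _ V C hG h
  obtain ⟨N, _, f, V', C', hf, him, hcl, hctx⟩ := transport hG V C _ h
  have hctx1 : Ctx V' C' q1 := by
    rcases Nat.eq_zero_or_pos q1 with h0 | h0
    · rw [h0]
      exact ⟨hctx.asym, Nat.zero_le _, by rw [Nat.zero_mul]; exact Nat.zero_le _, hctx.sub,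
        hctx.half, fun x _ => by rw [Nat.zero_mul]; exact Nat.zero_le _, hctx.sparse⟩
    · exact hctx.mono h0 (by omega)
  have hd1 := hd (ZMod N) V' C' hctx1
  obtain ⟨k, hk0, hk⟩ := charex V' C' _ (by omega) hctx hcl
  have hN : (0 : ℤ) < N := by exact_mod_cast Nat.pos_of_ne_zero (NeZero.ne N)
  have hk' : ∀ x ∈ V', 4 * (K : ℤ) * |(k * x).valMinAbs| < N := by
    intro x hx
    have h1 := hk x hx
    have h2 : (0 : ℤ) ≤ |(k * x).valMinAbs| := abs_nonneg _
    obtain ⟨a, ha⟩ : ∃ a : ℤ, a = |(k * x).valMinAbs| := ⟨_, rfl⟩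
    rw [← ha] at h1 h2 ⊢
    push_cast at h1
    have h3 : (0 : ℤ) ≤ 1000000 * a := by positivity
    have h4 : (0 : ℤ) ≤ (q1 : ℤ) * a := by positivity
    have hK1 : (1 : ℤ) ≤ K := by exact_mod_cast (by omega : 1 ≤ K)
    have h5 : 32 * ((K : ℤ) * a) ≤ 4 * N := by nlinarith
    rcases h2.eq_or_lt with h6 | h6
    · rw [← h6]
      simpa using hN
    · have h7 : (0 : ℤ) < (K : ℤ) * a := by positivity
      nlinarith
  obtain ⟨K1', l', t, ht, hx, hineq⟩ := s6 V' hctx.asym hcl k hk0 K (by omega) hk' hd1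
  have hcard : Nat.card (K1'.map f) = Nat.card K1' :=
    (Nat.card_congr (AddSubgroup.equivMapOfInjective K1' f hf).toEquiv).symm
  have hVc : V.card = V'.card := by
    rw [← him]
    exact Finset.card_image_of_injective _ hf
  refine ⟨K1'.map f, f l', t, ht, ?_, ?_⟩
  · intro x hxV
    rw [← him, Finset.mem_image] at hxV
    obtain ⟨x', hx'V, rfl⟩ := hxV
    obtain ⟨i, hi, hor⟩ := hx x' hx'V
    refine ⟨i, hi, ?_⟩
    rcases hor with h1 | h1
    · left
      have := AddSubgroup.mem_map_of_mem f h1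
      rwa [map_sub, map_nsmul] at this
    · right
      have := AddSubgroup.mem_map_of_mem f h1
      rwa [map_add, map_nsmul] at this
  · rw [hcard, hVc]
    obtain ⟨Y, hY⟩ : ∃ Y, Y = 2 * t * Nat.card K1' := ⟨_, rfl⟩
    obtain ⟨Z, hZ⟩ : ∃ Z, Z = 2 * V'.card + 1 := ⟨_, rfl⟩
    rw [← hY, ← hZ] at hineq ⊢
    have h8 : K - 8 = 9 * p + 24 := by omega
    have h9 : K + 1 = 9 * p + 33 := by omega
    rw [h8, h9] at hineq
    have h10 : (9 * p + 24) * (p * Y) ≤ (9 * p + 24) * ((p + 1) * Z) := by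
      have h11 := Nat.mul_le_mul_left p hineq
      have h12 : p * ((9 * p + 33) * Z) ≤ (9 * p + 24) * ((p + 1) * Z) := by
        have : (9 * p + 24) * ((p + 1) * Z) = p * ((9 * p + 33) * Z) + 24 * Z := by ring
        omega
      calc (9 * p + 24) * (p * Y) = p * ((9 * p + 24) * Y) := by ring
        _ ≤ p * ((9 * p + 33) * Z) := h11
        _ ≤ _ := h12
    exact Nat.le_of_mul_le_mul_left h10 (by omega)

end FX
end

section

set_option autoImplicit false
set_option linter.unusedSectionVars false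

open Finset Pointwise

namespace FX

open RG (stb mem_stb gg ph)
open SPR (T)
open AM
open Pool.Agent.Lib.MP_d3cc86_co (lam Asym symz)

section
variable {G : Type} [AddCommGroup G] [Fintype G] [DecidableEq G] (K : AddSubgroup G) (l : G)

/-- The local theorem, oriented form.  `h = |K|`, `s = tot μ`, `X = |SM μ|`.
If some column `i0 ≤ T / 2` is bad, `caseBad` gives the first alternative with `h ∣ |G|`.
Otherwise `caseGood`: `h gg (w h) t + 2 f0 ≤ X + 2 h`, `t = tot (out K μ) = s - c0`, `c0 = tot (res K μ)`, `f0 = |SM (res K μ)|`.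
Apply `fa`: `c0 ≤ w ⌊(h-1)/2⌋` (`in_mass`); `1 + c0 ≤ f0` (`one_add_tot_le`; `stb (SM (res K μ)) = ⊥` by `ap_mono`);
`2 ≤ h → f0 < h`: `SM (res K μ) ⊆ K`; if `f0 ≥ h` then `SM (res K μ) = sf K`, so `K ≤ stb (SM (res K μ)) = ⊥`.
`h5`: `w = 1`, `h = 5`, `c0 = 2`: `res K μ = ind A` for a set `A` with two elements (`μ ≤ 1`), `AM.pair` (`Asym A` by `AS`): `f0 ≥ 4`.
`h7`: `w = 1`, `h ≥ 7` odd, `c0 = (h-1)/2`: `res K μ = ind A`, `halfsys`: `K ⊆ A.subsetSum = SM (res K μ)`, so `f0 ≥ h`, a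
contradiction with `f0 < h`.
The conclusion of `fa`: `ph w h s ≤ X` with `h ∣ |G|` (first alternative), or `w = 1` and (`h = 3`, `s % 3 = 1` or `h = 5`, `s % 5 = 2`) and
`T s ≤ X` (second alternative, `h ∣ |G|`: `AddSubgroup.card_addSubgroup_dvd_card`). -/
theorem local_or {w : ℕ} {μ : G → ℕ} {T' p : ℕ} (hG : IsAddCyclic G) (H : LAH w μ K l T' p) :
    Concl G w μ := by
  classical
  have hK1 : 1 ≤ Nat.card K := Nat.card_pos
  have hdvd : Nat.card K ∣ Nat.card G := AddSubgroup.card_addSubgroup_dvd_card K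
  by_cases hbad : ∃ i0, 1 ≤ i0 ∧ i0 ≤ T' / 2 ∧ ¬ gc K l μ i0
  · obtain ⟨i0, h1, h2, h3⟩ := hbad
    exact Or.inl ⟨Nat.card K, hdvd, caseBad K l H i0 h1 h2 h3⟩
  have hgood : ∀ i, 1 ≤ i → i ≤ T' / 2 → gc K l μ i := by
    intro i h1 h2
    by_contra h3
    exact hbad ⟨i, h1, h2, h3⟩
  have hmain := caseGood K l hG H hgood
  have hsplit := tot_split K μ
  have hc := in_mass K μ w H.hyp.as H.hyp.cap
  have hμ0 : μ 0 = 0 := by
    by_contra h0
    have h1 := H.hyp.as 0 h0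
    rw [neg_zero] at h1
    exact h0 h1
  have hr0 : res K μ 0 = 0 := by
    have := res_le K μ 0
    omega
  have hap : stb (SM (res K μ)) = ⊥ := ap_mono (res_le K μ) H.hyp.ap
  have hf := one_add_tot_le (res K μ) hr0 hap
  have hsub : SM (res K μ) ⊆ sf K := by
    intro t ht
    rw [mem_sf]
    exact SM_sub (fun x hx => (res_ne hx).1) t ht
  have hf2 : 2 ≤ Nat.card K → (SM (res K μ)).card < Nat.card K := by
    intro h2
    by_contra hge
    have hge' : (sf K).card ≤ (SM (res K μ)).card := by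
      rw [card_sf]
      omega
    have heq : SM (res K μ) = sf K := Finset.eq_of_subset_of_card_le hsub hge'
    have hle : K ≤ stb (SM (res K μ)) := by
      intro g hg
      rw [heq, mem_stb]
      intro z
      rw [mem_sf, mem_sf]
      exact K.add_mem_cancel_right hg
    rw [hap, le_bot_iff] at hle
    rw [hle] at h2
    simp at h2
  have hind : w = 1 → ∃ A : Finset G, res K μ = ind A ∧ A.card = tot (res K μ) ∧ Asym A ∧
      (∀ x ∈ A, x ∈ K) := by
    intro hw
    refine ⟨sp (res K μ), ?_, ?_, ?_, ?_⟩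
    · funext x
      unfold ind
      have h1 : res K μ x ≤ 1 := by
        have h2 := res_le K μ x
        have h3 := H.hyp.cap x
        omega
      by_cases hx : res K μ x = 0
      · rw [if_neg (fun h => (mem_sp _ _).1 h hx), hx]
      · rw [if_pos ((mem_sp _ _).2 hx)]
        omega
    · unfold tot
      rw [Finset.card_eq_sum_ones]
      unfold sp
      rw [Finset.sum_filter]
      refine Finset.sum_congr rfl fun x _ => ?_
      have h1 : res K μ x ≤ 1 := by
        have h2 := res_le K μ x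
        have h3 := H.hyp.cap x
        omega
      by_cases hx : res K μ x = 0
      · rw [if_neg (fun h => h hx), hx]
      · rw [if_pos hx]
        omega
    · intro a ha hna
      have h1 := (mem_sp _ _).1 ha
      have h2 := (mem_sp _ _).1 hna
      exact (res_ne h2).2 (H.hyp.as a (res_ne h1).2)
    · intro x hx
      exact (res_ne ((mem_sp _ _).1 hx)).1
  have h5 : w = 1 → Nat.card K = 5 → tot (res K μ) = 2 → 4 ≤ (SM (res K μ)).card := by
    intro hw _ h2
    obtain ⟨A, hA1, hA2, hA3, -⟩ := hind hw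
    rw [hA1, SM_ind]
    exact pair A hA3 (by rw [hA2, h2])
  have h7 : w = 1 → 7 ≤ Nat.card K → Nat.card K % 2 = 1 →
      tot (res K μ) ≠ (Nat.card K - 1) / 2 := by
    intro hw h7 hodd heq
    obtain ⟨A, hA1, hA2, hA3, hA4⟩ := hind hw
    have h8 := halfsys hG K A hA3 hA4 (by omega) h7
    have h9 : sf K ⊆ SM (res K μ) := by
      intro x hx
      rw [hA1, SM_ind]
      exact h8 x ((mem_sf K x).1 hx)
    have h10 := Finset.card_le_card h9
    rw [card_sf] at h10
    have h11 := hf2 (by omega)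
    omega
  have htot : tot (out K μ) = tot μ - tot (res K μ) := by omega
  rw [htot] at hmain
  rcases fa w (Nat.card K) (tot μ) (tot (res K μ)) (SM (res K μ)).card (SM μ).card H.hyp.w1 hK1
      H.s1 hc hf hf2 H.hyp.small hmain h5 h7 with h | ⟨h1, h2, h3⟩
  · exact Or.inl ⟨Nat.card K, hdvd, h⟩
  · refine Or.inr ⟨h1, ?_, h3⟩
    rcases h2 with ⟨h4, h6⟩ | ⟨h4, h6⟩
    · left
      exact ⟨h4 ▸ hdvd, h6⟩
    · right
      exact ⟨h4 ▸ hdvd, h6⟩

end

end FX
end

section

set_option autoImplicit false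
set_option linter.unusedSectionVars false

open Finset Pointwise

namespace FX

open RG (stb mem_stb gg ph)
open SPR (T)
open AM
open Pool.Agent.Lib.MP_d3cc86_co (lam Asym symz)

/-- The local theorem.  `p = 1000 (k0 + 1)`, `t = 10^6 (k0+1)^2`, `M` from `AM.need2 8` (for `tot ν ≥ s / 2`) and `≥ 1`.
`h = |K| ≤ k0`, `h ≥ 1`, `s = tot μ ≥ t w`.  `tot ν ≥ (1 - 1/p) s ≥ s/2`.
`2 T' < per`: `ν` lives on `Dd` (`mem_Dd_of`, `mem_Dd_of'`), so `|SM ν| ≤ |Dd| = per h` (`SM_sub`, `card_Dd`), and `need2`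
(for `ν`; `ν ≤ μ`) gives `8 qq 0 w (tot ν) + 1 ≤ |SM ν|`, `w qq 0 w (tot ν) ≥ tot ν`; so `w per h ≥ 8 tot ν ≥ 4 s`, while
`p w T' h ≤ (p+1) s` gives `2 w T' h ≤ 3 s`.
`orient_ex` gives `μ'`.  `T' ≥ 1000 h`: `p s ≤ p tot (low μ' T') + s` and `low_mass`: `tot (low) ≤ w h (T' + 1)`, so
`s / 2 ≤ w h (T' + 1)`, `s ≥ 10^6 (k0+1)^2 w`.  So `LAH w μ' K l T' p`, and `local_or` gives `Concl G w μ'`, which is
`Concl G w μ` (only `tot` and `|SM|` occur). -/
theorem local_thm (k0 : ℕ) : ∃ p t M : ℕ, 1 ≤ p ∧ ∀ (G : Type) [AddCommGroup G] [Fintype G]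
    [DecidableEq G] (w : ℕ) (μ ν : G → ℕ) (K : AddSubgroup G) (l : G) (T' : ℕ), IsAddCyclic G →
    Hyp w μ → Nat.card K ≤ k0 → M ≤ tot μ → t * w ≤ tot μ → (∀ x, ν x ≤ μ x) →
    p * tot μ ≤ p * tot ν + tot μ →
    (∀ x, ν x ≠ 0 → ∃ i : ℕ, i ≤ T' ∧ (x - i • l ∈ K ∨ x + i • l ∈ K)) →
    p * (w * (T' * Nat.card K)) ≤ (p + 1) * tot μ → Concl G w μ := by
  obtain ⟨J, hJ⟩ := need2 8
  refine ⟨1000 * (k0 + 1), 1000000 * (k0 + 1) ^ 2, 2 * J + 1, by omega, ?_⟩
  intro G _ _ _ w μ ν K l T' hG H hK hM ht hle hmass hν hcov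
  have hw := H.w1
  have hh : 1 ≤ Nat.card K := Nat.card_pos
  obtain ⟨h, hhd⟩ : ∃ h, h = Nat.card K := ⟨_, rfl⟩
  rw [← hhd] at hK hh hcov
  obtain ⟨p, hp⟩ : ∃ p, p = 1000 * (k0 + 1) := ⟨_, rfl⟩
  rw [← hp] at hmass hcov
  have hpp : 1000 ≤ p := by omega
  have hph : 1000 * h ≤ p := by omega
  have hs1 : 1000000 * (w * h ^ 2) ≤ tot μ := by
    refine le_trans ?_ ht
    have h1 : h ^ 2 ≤ (k0 + 1) ^ 2 := Nat.pow_le_pow_left (by omega) 2
    calc 1000000 * (w * h ^ 2) = 1000000 * h ^ 2 * w := by ring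
      _ ≤ 1000000 * (k0 + 1) ^ 2 * w := by gcongr
  have hs2 : tot μ ≤ 2 * tot ν := by
    by_contra hc
    push Not at hc
    have h1 : p * (2 * tot ν + 1) ≤ p * tot μ := Nat.mul_le_mul_left _ hc
    have h2 : 1000 * tot μ ≤ p * tot μ := Nat.mul_le_mul_right _ hpp
    nlinarith
  have hsub : ∀ x, ν x ≠ 0 → x ∈ Dd K l := by
    intro x hx
    obtain ⟨i, -, hi | hi⟩ := hν x hx
    · exact mem_Dd_of K l hi
    · exact mem_Dd_of' K l hi
  have hcard : (SM ν).card ≤ per K l * h := by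
    have h1 : SM ν ⊆ sf (Dd K l) := by
      intro t ht
      rw [mem_sf]
      exact SM_sub hsub t ht
    have h2 := Finset.card_le_card h1
    rw [card_sf, card_Dd, ← hhd] at h2
    exact h2
  have hn := hJ G w ν hw (H.as.mono hle) (fun x => (hle x).trans (H.cap x)) (ap_mono hle H.ap)
    (by omega)
  have hq : tot ν ≤ w * qq 0 w (tot ν) := by
    unfold qq
    have h1 := Nat.div_add_mod (tot ν - 0 + w - 1) w
    have h2 := Nat.mod_lt (tot ν - 0 + w - 1) hw
    omega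
  have hper : 4 * tot μ ≤ w * (per K l * h) := by
    have h1 : w * (8 * qq 0 w (tot ν)) ≤ w * (per K l * h) := Nat.mul_le_mul_left _ (by omega)
    have h2 : w * (8 * qq 0 w (tot ν)) = 8 * (w * qq 0 w (tot ν)) := by ring
    omega
  have hT3 : 2 * (w * (T' * h)) ≤ 3 * tot μ := by
    by_contra hc
    push Not at hc
    have h1 : p * (3 * tot μ + 1) ≤ p * (2 * (w * (T' * h))) := Nat.mul_le_mul_left _ hc
    have h2 : 1000 * tot μ ≤ p * tot μ := Nat.mul_le_mul_right _ hpp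
    nlinarith
  have hbig : 2 * T' < per K l := by
    by_contra hc
    push Not at hc
    have h1 : w * (per K l * h) ≤ w * (2 * T' * h) := by gcongr
    have h2 : w * (2 * T' * h) = 2 * (w * (T' * h)) := by ring
    omega
  obtain ⟨μ', H', htot, hSM, hori, hlow⟩ := orient_ex K l w T' μ ν H hle hν hbig
  have hlm := low_mass K l μ' w T' H'.cap (by omega)
  rw [← hhd] at hlm
  have hT1 : 1000 * h ≤ T' := by
    by_contra hc
    push Not at hc
    have h1 : w * (h * (T' + 1)) ≤ w * (h * (1000 * h)) := by gcongr; omega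
    have h2 : w * (h * (1000 * h)) = 1000 * (w * h ^ 2) := by ring
    have h3 : 1 ≤ w * h ^ 2 := Nat.mul_pos hw (Nat.pow_pos hh)
    omega
  have hL : LAH w μ' K l T' p := by
    refine ⟨H', hori, hbig, ?_, ?_, ?_, ?_, ?_⟩
    · rw [htot]
      exact hmass.trans (Nat.add_le_add_right (Nat.mul_le_mul_left _ hlow) _)
    · rw [htot, ← hhd]
      exact hcov
    · rw [← hhd]
      exact hph
    · rw [← hhd]
      exact hT1
    · rw [← hhd, htot]
      exact hs1
  have hC := local_or K l hG hL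
  unfold Concl at hC ⊢
  rw [htot, hSM] at hC
  exact hC

end FX
end

section

set_option autoImplicit false
set_option linter.unusedSectionVars false

open Finset Pointwise

namespace FX

open RG (stb mem_stb gg ph)
open SPR (T)
open AM
open Pool.Agent.Lib.MP_d3cc86_co (lam Asym symz)

private lemma x2_mem {G ι : Type} [AddCommGroup G] [Fintype ι] (c : ι → G) (x : G) (k : ι)
    (h : k ∈ RG.cls c x) : c k = x ∨ c k = -x := by
  classical
  simpa [RG.cls] using h

/-- `n = |Q|`, `e : Q ≃+ ZMod n` (`zmodAddCyclicAddEquiv` or similar; `Fintype`, cyclic).  `n` is `Rough`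
(every prime factor is `≥ 10000`; `n > 0`).  `RG.main_rg n _ w (Or.inr hw)` gives `CC n w`; apply it to
`ι = {y : Q // y ≠ 0}`, `c k = e k.1`, `a k = ν k.1`.  `Bdd w c a`: `c k ≠ 0`, and the class of `x` consists of
the `k` with `e k = x` or `e k = -x`, i.e. of (at most) two elements `y`, `-y`, `y ≠ 0`, and
`ν y + ν (-y) ≤ w` by `AS` (one of them is `0`; if `y = -y` there is just one element).
`∑ a k = tot ν` (`ν 0 = 0`, `AS.zero`), `|R c a 0| = |SM ν|` (`RG.mem_R`, `e` is a bijection; `mem_SM`).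
So there is `h ∣ n` with `ph w h (tot ν) ≤ |SM ν|`.  If `h = 1` use `RG.ph_h_one`.  If `h > 1` then a prime `p ∣ h`
has `p > |SM ν| ≥ ph w h _ ≥ h ≥ p` (`RG.ph_ge`), a contradiction. -/
theorem x2 {Q : Type} [AddCommGroup Q] [Fintype Q] (hQ : IsAddCyclic Q) (w : ℕ) (hw : 4 ≤ w)
    (ν : Q → ℕ) (hAS : AS ν) (hb : ∀ x, ν x ≤ w)
    (hp : ∀ p : ℕ, p.Prime → p ∣ Nat.card Q → (SM ν).card < p ∧ 10000 ≤ p) :
    gg w (tot ν) ≤ (SM ν).card := by
  classical
  have hn0 : 0 < Nat.card Q := Nat.card_pos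
  have : NeZero (Nat.card Q) := ⟨hn0.ne'⟩
  have hrough : RG.Rough (Nat.card Q) := ⟨hn0, fun p h1 h2 => (hp p h1 h2).2⟩
  let e : Q ≃+ ZMod (Nat.card Q) := (zmodAddCyclicAddEquiv hQ).symm
  have hCC : RG.CC (Nat.card Q) w := (RG.main_rg (Nat.card Q) hrough w (Or.inr hw)).1
  have hB : RG.Bdd w (fun k : {y : Q // y ≠ 0} => e k.1) (fun k => ν k.1) := by
    refine ⟨fun k h => k.2 (by
      have h' : e k.1 = e 0 := by rw [map_zero]; exact h
      exact e.injective h'), fun x => ?_⟩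
    by_cases hex : ∃ k ∈ RG.cls (fun k : {y : Q // y ≠ 0} => e k.1) x, ν k.1 ≠ 0
    · obtain ⟨k, hk, hk0⟩ := hex
      have hs : ∑ k ∈ RG.cls (fun k : {y : Q // y ≠ 0} => e k.1) x, ν k.1 = ν k.1 := by
        refine Finset.sum_eq_single_of_mem k hk fun k' hk' hne => ?_
        have hk1 : e k.1 = x ∨ e k.1 = -x := x2_mem _ _ k hk
        have hk2 : e k'.1 = x ∨ e k'.1 = -x := x2_mem _ _ k' hk'
        have h1 : e k'.1 = e k.1 ∨ e k'.1 = e (-k.1) := by
          rw [map_neg]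
          rcases hk1 with h | h <;> rcases hk2 with h' | h'
          · exact Or.inl (h'.trans h.symm)
          · right
            rw [h, h']
          · right
            rw [h, h', neg_neg]
          · exact Or.inl (h'.trans h.symm)
        rcases h1 with h1 | h1
        · exact absurd (Subtype.ext (e.injective h1)) hne
        · rw [e.injective h1]
          exact hAS _ hk0
      rw [hs]
      exact hb _
    · push Not at hex
      rw [Finset.sum_eq_zero hex]
      exact Nat.zero_le _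
  obtain ⟨h, hhn, hh⟩ := hCC {y : Q // y ≠ 0} (fun k => e k.1) (fun k => ν k.1) hB
  have htot : ∑ k : {y : Q // y ≠ 0}, ν k.1 = tot ν := by
    have h1 := Fintype.sum_subtype_add_sum_subtype (fun y : Q => y ≠ 0) ν
    have h2 : ∑ k : {y : Q // ¬ y ≠ 0}, ν k.1 = 0 := by
      refine Finset.sum_eq_zero fun k _ => ?_
      have : k.1 = 0 := not_not.1 k.2
      rw [this]
      exact hAS.zero
    unfold tot
    rw [← h1, h2, add_zero]
  have hcard : (RG.R (fun k : {y : Q // y ≠ 0} => e k.1) (fun k => ν k.1) 0).card ≤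
      (SM ν).card := by
    have hsub : RG.R (fun k : {y : Q // y ≠ 0} => e k.1) (fun k => ν k.1) 0 ⊆
        (SM ν).image e := by
      intro t ht
      obtain ⟨j, hj1, hj2, -⟩ := RG.mem_R.1 ht
      rw [Finset.mem_image]
      refine ⟨∑ k : {y : Q // y ≠ 0}, j k • k.1, (mem_SM _ _).2
        ⟨fun x => if hx : x ≠ 0 then j ⟨x, hx⟩ else 0, fun x => ?_, ?_⟩, ?_⟩
      · dsimp only
        split_ifs with hx
        · exact hj1 ⟨x, hx⟩
        · exact Nat.zero_le _
      · have h1 := Fintype.sum_subtype_add_sum_subtype (fun y : Q => y ≠ 0)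
          (fun x => (if hx : x ≠ 0 then j ⟨x, hx⟩ else 0) • x)
        have h2 : ∑ k : {y : Q // ¬ y ≠ 0},
            (if hx : k.1 ≠ 0 then j ⟨k.1, hx⟩ else 0) • k.1 = 0 := by
          refine Finset.sum_eq_zero fun k _ => ?_
          have : k.1 = 0 := not_not.1 k.2
          rw [this, smul_zero]
        rw [← h1, h2, add_zero]
        refine Finset.sum_congr rfl fun k _ => ?_
        rw [dif_pos k.2]
      · rw [map_sum, ← hj2]
        unfold RG.pos
        exact Finset.sum_congr rfl fun k _ => map_nsmul _ _ _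
    exact (Finset.card_le_card hsub).trans Finset.card_image_le
  rw [htot] at hh
  have hfin := hh.trans hcard
  by_cases h1 : h = 1
  · rw [h1, RG.ph_h_one] at hfin
    exact hfin
  · exfalso
    obtain ⟨p, hpp, hph⟩ := Nat.exists_prime_and_dvd h1
    have h2 := (hp p hpp (hph.trans hhn)).1
    have h3 : 1 ≤ h := Nat.pos_of_dvd_of_pos hhn hn0
    have h4 := Nat.le_of_dvd h3 hph
    have h5 := RG.ph_ge w h (tot ν) (by omega) h3
    omega

end FX
end

section

set_option autoImplicit false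
set_option linter.unusedSectionVars false

open Finset Pointwise

namespace FX

open RG (stb mem_stb gg ph)
open SPR (T)
open AM
open Pool.Agent.Lib.MP_d3cc86_co (lam Asym symz)

/-- `2 ξ w gg w s`-computation.  By `RG.gg_anti` `gg (ξ w) s' ≤ gg (k w) s'`.  By `RG.gg_quad`
`s' s' + ξ w s' + 2 ξ w ≤ 2 ξ w gg (ξ w) s'`, so `8 (s'^2 + ξ w s' + 2 ξ w) ≤ 8 w · 2 (ξ gg (k w) s')`.  By
`RG.gg_upper` `8 w gg w s ≤ 8 w + (2 s + w)^2`.  So it is enough that
`2 (8 w + 4 s^2 + 4 s w + w^2) ≤ 8 s'^2 + 8 ξ w s' + 16 ξ w`.  With `s' ≥ s - 12 t ≥ 0` (over `ℤ`),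
`s'^2 ≥ s^2 - 24 t s`, `ξ ≥ 2`: the right side is `≥ 8 s^2 - 192 t s + 16 w (s - 12 t) + 32 w`; the difference is
`≥ 8 s w - 2 w^2 - 192 t s - 192 t w ≥ 6 s w - 192 t s - 192 t w`, and `s ≤ t w`, `200 t^2 ≤ s`, `w ≤ s` give
`192 t s ≤ 192 t^2 w ≤ 0.96 s w·`... (indeed `192 t s ≤ 192 t · t w = 192 t^2 w ≤ s w`) and `192 t w ≤ s w`. -/
theorem x4 (t ξ k w s s' : ℕ) (ht : 1 ≤ t) (hk : 1 ≤ k) (hkξ : k ≤ ξ) (hξ : 2 ≤ ξ) (hw : 1 ≤ w)
    (h1 : w ≤ s) (h2 : s ≤ t * w) (h3 : s ≤ s' + 12 * t) (h4 : 200 * t ^ 2 ≤ s) :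
    gg w s ≤ ξ * gg (k * w) s' := by
  have hkw : 1 ≤ k * w := Nat.mul_pos hk hw
  have hξw : 1 ≤ ξ * w := Nat.mul_pos (by omega) hw
  have a1 : gg (ξ * w) s' ≤ gg (k * w) s' := RG.gg_anti s' hkw (Nat.mul_le_mul_right w hkξ)
  have a2 := RG.gg_quad (ξ * w) s' hξw
  have a3 := RG.gg_upper w s hw
  have hG : gg w s ≤ ξ * gg (ξ * w) s' := by
    set G := gg (ξ * w) s' with hGd
    set F := gg w s with hFd
    clear_value G F
    -- key inequality
    have key : 8 * w + (2 * s + w) ^ 2 ≤ 4 * (s' * s' + ξ * w * s' + 2 * (ξ * w)) := by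
      have b1 : t * s ≤ t ^ 2 * w := by
        calc t * s ≤ t * (t * w) := Nat.mul_le_mul_left _ h2
          _ = t ^ 2 * w := by ring
      have b2 : 200 * (t ^ 2 * w) ≤ s * w := by
        calc 200 * (t ^ 2 * w) = (200 * t ^ 2) * w := by ring
          _ ≤ s * w := Nat.mul_le_mul_right _ h4
      have b3 : t * w ≤ t ^ 2 * w := by
        apply Nat.mul_le_mul_right
        nlinarith
      have b4 : w * w ≤ s * w := Nat.mul_le_mul_right _ h1
      have b5 : 2 * w * s' ≤ ξ * w * s' := by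
        apply Nat.mul_le_mul_right
        exact Nat.mul_le_mul_right _ hξ
      have b6 : 2 * w ≤ ξ * w := Nat.mul_le_mul_right _ hξ
      have b7 : 12 * t ≤ s := by nlinarith
      obtain ⟨a, rfl⟩ : ∃ a, s = a + 12 * t := ⟨s - 12 * t, by omega⟩
      have b8 : a ≤ s' := by omega
      have b9 : a * a ≤ s' * s' := Nat.mul_le_mul b8 b8
      have b10 : w * a ≤ w * s' := Nat.mul_le_mul_left _ b8
      nlinarith
    have h8 : 8 * w * F ≤ 8 * w * (ξ * G) := by
      calc 8 * w * F ≤ 8 * w + (2 * s + w) ^ 2 := a3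
        _ ≤ 4 * (s' * s' + ξ * w * s' + 2 * (ξ * w)) := key
        _ ≤ 4 * (2 * (ξ * w) * G) := Nat.mul_le_mul_left _ a2
        _ = 8 * w * (ξ * G) := by ring
    exact Nat.le_of_mul_le_mul_left h8 (by omega)
  exact hG.trans (Nat.mul_le_mul_left _ a1)

end FX
end

section

set_option autoImplicit false
set_option linter.unusedSectionVars false

open Finset Pointwise

namespace FX

open RG (stb mem_stb gg ph)
open SPR (T)
open AM
open Pool.Agent.Lib.MP_d3cc86_co (lam Asym symz)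

/-- The case `w ≤ s ≤ t w`, `s = tot μ`.  `M = 100000 t^2`.  Let `b = |SM μ| ≥ 1 + s` (`one_add_tot_le`,
`AS.zero`).  For every subgroup `H`: `b < |H|` or `|H| < 4 t` (otherwise `|H| ≤ b` and `4 s ≤ 4 t w ≤ w |H|`,
against `nosub`).  `x1` gives `K`.  All primes `p ∣ |G ⧸ K|` are `> b ≥ 10000`; so `|G ⧸ K|` is odd and `hodd` holds
(`2 mk x = 0` implies `mk x = 0` in a group of odd order).  `x3` gives `U, ν, X, z`; `ξ = |X| ≤ |K| < 4 t`,
`H1 = stb X ≤ K` (`X` nonempty, `X ⊆ K`), `k = |H1|` divides `ξ` (`RG.card_stb_dvd`), so `k ≤ ξ`.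
Let `ν0 = out K ν`.  If `ν0 x ≠ 0` then `x ∉ K`, so `x + x ∉ K`; and `cm K ν0 x ≤ cm H1 ν x ≤ w k`
(`class_mass`): for `y` with `ν0 y ≠ 0` and `y - x ∈ K` (`y + x ∈ K`) we have `y - x ∈ H1` (`y + x ∈ H1`), and
`x + x ∉ H1`.  `push K ν0 (w k)` gives `ν'` on `Q = G ⧸ K`.  `star_count` with `M = K`, `ν = ν0`:
`ξ |SM ν'| ≤ |SM μ| = b`; so the primes `p ∣ |Q|` satisfy `|SM ν'| ≤ b < p`, `10000 ≤ p`; `w k ≥ w ≥ 4` since
`4 t ≤ s ≤ t w`; `x2`: `gg (w k) (tot ν') ≤ |SM ν'|`.  `Q` is cyclic.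
`tot μ = tot U + tot (res K ν) + tot ν0`.
Case `ξ = 1`: `tot U = 0`, `H1 = ⊥`, `k = 1`, `res K ν = 0` (an element of `ν` in `K` is in `stb X = ⊥`, so it is `0`, but
`μ 0 = 0`), so `tot ν' = s` and `gg w s ≤ |SM ν'| ≤ |SM μ|`, contradicting `small`.
Case `ξ ≥ 2`: `tot U ≤ 2 ξ - 2 ≤ 8 t`, `tot (res K ν) + 1 ≤ |K| ≤ 4 t` (`AM.mass` for `ν ≤ μ`, `ap_mono`), so
`s ≤ tot ν' + 12 t`, and `x4` gives `gg w s ≤ ξ gg (k w) (tot ν') ≤ ξ |SM ν'| ≤ |SM μ|`, a contradiction. -/
theorem xprime (t : ℕ) (ht : 1 ≤ t) : ∃ M : ℕ, ∀ (G : Type) [AddCommGroup G] [Fintype G] (w : ℕ)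
    (μ : G → ℕ), IsAddCyclic G → Hyp w μ → M ≤ tot μ → w ≤ tot μ → tot μ ≤ t * w → False := by
  refine ⟨100000 * t ^ 2, ?_⟩
  intro G _ _ w μ hG hyp hM hws hst
  classical
  have ht2 : 1 ≤ t ^ 2 := Nat.one_le_pow _ _ ht
  have hbs : 1 + tot μ ≤ (SM μ).card := one_add_tot_le μ hyp.as.zero hyp.ap
  have hd : ∀ H : AddSubgroup G, (SM μ).card < Nat.card H ∨ Nat.card H < 4 * t := by
    intro H
    by_contra hcon
    push Not at hcon
    apply hyp.nosub
    refine ⟨H, hcon.1, ?_⟩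
    calc 4 * tot μ ≤ 4 * (t * w) := Nat.mul_le_mul_left _ hst
      _ = w * (4 * t) := by ring
      _ ≤ w * Nat.card H := Nat.mul_le_mul_left _ hcon.2
  obtain ⟨K, hK, hKp⟩ := x1 t (SM μ).card ht (by nlinarith) hd
  have hw4 : 4 ≤ w := by
    by_contra hcon
    have h1 : w ≤ 3 := by omega
    have h2 : tot μ ≤ t * 3 := hst.trans (Nat.mul_le_mul_left _ h1)
    have h3 : t ≤ t ^ 2 := by nlinarith
    omega
  -- the quotient has odd order
  have hodd : ∀ x, x + x ∈ K → x ∈ K := by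
    intro x hx
    have h1 : (QuotientAddGroup.mk x : G ⧸ K) + QuotientAddGroup.mk x = 0 :=
      (QuotientAddGroup.eq_zero_iff (x + x)).2 hx
    have h2 : addOrderOf (QuotientAddGroup.mk x : G ⧸ K) ∣ 2 :=
      addOrderOf_dvd_of_nsmul_eq_zero (by rw [two_nsmul]; exact h1)
    have h3 : addOrderOf (QuotientAddGroup.mk x : G ⧸ K) ∣ Nat.card (G ⧸ K) :=
      addOrderOf_dvd_natCard _
    rcases (Nat.dvd_prime Nat.prime_two).1 h2 with h4 | h4
    · exact (QuotientAddGroup.eq_zero_iff x).1 (AddMonoid.addOrderOf_eq_one_iff.1 h4)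
    · rw [h4] at h3
      have := hKp 2 Nat.prime_two h3
      omega
  obtain ⟨U, ν, X, z, hUν, hX, hXK, hzX, hU, hdiff, hsum, hmem⟩ := x3 K hodd μ
  have hνμ : ∀ x, ν x ≤ μ x := by
    intro x
    rw [← hUν, Pi.add_apply]
    exact Nat.le_add_left _ _
  have hνAS : AS ν := hyp.as.mono hνμ
  have hH1K : ∀ κ, κ ∈ stb X → κ ∈ K := by
    intro κ hκ
    obtain ⟨x, hx⟩ := hX
    have h1 : x + κ ∈ X := ((mem_stb X κ).1 hκ x).2 hx
    have h2 : (x + κ) - x ∈ K := K.sub_mem (hXK _ h1) (hXK _ hx)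
    rwa [add_sub_cancel_left] at h2
  have hξ1 : 1 ≤ X.card := hX.card_pos
  have hkdvd : Nat.card (stb X) ∣ X.card := RG.card_stb_dvd X
  have hk1 : 1 ≤ Nat.card (stb X) := Nat.card_pos
  have hkξ : Nat.card (stb X) ≤ X.card := Nat.le_of_dvd hξ1 hkdvd
  have hξK : X.card ≤ Nat.card K := by
    rw [← card_sf K]
    exact Finset.card_le_card fun x hx => (mem_sf K x).2 (hXK x hx)
  have hout2 : ∀ x, out K ν x ≠ 0 → x + x ∉ K := fun x hx h => (out_ne hx).1 (hodd x h)
  have hcm : ∀ x, out K ν x ≠ 0 → cm K (out K ν) x ≤ w * Nat.card (stb X) := by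
    intro x hx
    have h1 : x + x ∉ stb X := fun h => hout2 x hx (hH1K _ h)
    refine le_trans ?_ (class_mass (stb X) ν w hνAS (fun y => (hνμ y).trans (hyp.cap y)) x h1)
    unfold cm
    refine Finset.sum_le_sum fun y _ => ?_
    by_cases hy : out K ν y = 0
    · rw [hy]
      split_ifs <;> exact Nat.zero_le _
    · by_cases h2 : y - x ∈ K ∨ y + x ∈ K
      · rw [if_pos h2]
        have h3 : y - x ∈ stb X ∨ y + x ∈ stb X := by
          rcases h2 with h2 | h2
          · exact Or.inl (hdiff y x (out_ne hy).2 (out_ne hx).2 h2)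
          · exact Or.inr (hsum y x (out_ne hy).2 (out_ne hx).2 h2)
        rw [if_pos h3]
        exact out_le K ν y
      · rw [if_neg h2]
        exact Nat.zero_le _
  obtain ⟨ν', hAS', hb', htot', hcard'⟩ := push K (out K ν) (w * Nat.card (stb X)) hout2 hcm
  have hstar : X.card * (SM ν').card ≤ (SM μ).card := by
    rw [hcard']
    refine star_count K U (out K ν) μ ?_ X hXK z hzX
    intro x
    have h1 := out_le K ν x
    have h2 : U x + ν x = μ x := by rw [← hUν, Pi.add_apply]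
    omega
  have hle' : (SM ν').card ≤ (SM μ).card :=
    le_trans (Nat.le_mul_of_pos_left _ hξ1) hstar
  have hcyc : IsAddCyclic (G ⧸ K) :=
    isAddCyclic_of_surjective (QuotientAddGroup.mk' K) (QuotientAddGroup.mk'_surjective K)
  have hgg : gg (w * Nat.card (stb X)) (tot ν') ≤ (SM ν').card := by
    refine x2 hcyc (w * Nat.card (stb X)) (by nlinarith) ν' hAS' hb' ?_
    intro p hp hpd
    have h1 := hKp p hp hpd
    constructor
    · omega
    · omega
  have htsplit : tot μ = tot U + (tot (res K ν) + tot (out K ν)) := by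
    rw [← tot_split, ← tot_add, hUν]
  have hν0 : ν 0 = 0 := by
    have := hνμ 0
    rw [hyp.as.zero] at this
    omega
  by_cases hξ : X.card = 1
  · -- the case ξ = 1
    have hk : Nat.card (stb X) = 1 := by omega
    have hres : tot (res K ν) = 0 := by
      unfold tot
      refine Finset.sum_eq_zero fun x _ => ?_
      by_contra hx
      obtain ⟨h1, h2⟩ := res_ne hx
      have h3 := hmem x h2 h1
      have h4 : stb X = ⊥ := AddSubgroup.card_eq_one.1 hk
      rw [h4, AddSubgroup.mem_bot] at h3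
      rw [h3] at h2
      exact h2 hν0
    have hU0 : tot U = 0 := by omega
    rw [hk, mul_one] at hgg
    have h5 : tot ν' = tot μ := by omega
    rw [h5] at hgg
    have := hyp.small
    omega
  · have hξ2 : 2 ≤ X.card := by omega
    have hmass : tot (res K ν) + 1 ≤ Nat.card K := mass K ν hν0 (ap_mono hνμ hyp.ap)
    have h3 : tot μ ≤ tot ν' + 12 * t := by omega
    have h4 := x4 t X.card (Nat.card (stb X)) w (tot μ) (tot ν') ht hk1 hkξ hξ2 (by omega) hws hst h3
      (by nlinarith)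
    rw [mul_comm (Nat.card (stb X)) w] at h4
    have h5 : X.card * gg (w * Nat.card (stb X)) (tot ν') ≤ X.card * (SM ν').card :=
      Nat.mul_le_mul_left _ hgg
    have := hyp.small
    omega

end FX
end

section

set_option autoImplicit false
set_option linter.unusedSectionVars false

open Finset Pointwise

namespace FX

open RG (stb mem_stb gg ph)
open SPR (T)
open AM
open Pool.Agent.Lib.MP_d3cc86_co (lam Asym symz)

private lemma fin_ar (p q t w v s X : ℕ) (hp : 1 ≤ p) (hq : 4 * p + 10 ≤ q) (ht : 8 * p + 100 ≤ t)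
    (h1 : (4 * p + 10) * (2 * X) ≤ (4 * p + 11) * (2 * (w * v) + w))
    (h2 : q * (w * v) ≤ (q + 1) * s) (h3 : t * w ≤ s) : p * X ≤ (p + 1) * s := by
  obtain ⟨a, ha⟩ : ∃ a, a = w * v := ⟨_, rfl⟩
  rw [← ha] at h1 h2
  have e1 : 4 * p * a ≤ (4 * p + 1) * s := by
    rcases Nat.le_total a s with h | h
    · nlinarith [Nat.zero_le s]
    · obtain ⟨d, rfl⟩ := Nat.exists_eq_add_of_le h
      have h4 : q * d ≤ s := by nlinarith
      have h5 : 4 * p * d ≤ q * d := Nat.mul_le_mul_right _ (by omega)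
      nlinarith
  have e2 : 8 * p * w ≤ s := le_trans (Nat.mul_le_mul_right _ (by omega)) h3
  have e3 : 4 * p * (2 * X) ≤ (4 * p + 1) * (2 * a + w) := by
    rcases Nat.le_total (2 * X) (2 * a + w) with h | h
    · nlinarith [Nat.zero_le a, Nat.zero_le w]
    · obtain ⟨d, hd⟩ := Nat.exists_eq_add_of_le h
      rw [hd] at h1 ⊢
      have h4 : (4 * p + 10) * d ≤ 2 * a + w := by nlinarith
      have h5 : 4 * p * d ≤ (4 * p + 10) * d := Nat.mul_le_mul_right _ (by omega)
      nlinarith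
  have e4 : 8 * p * (2 * a + w) ≤ (16 * p + 5) * s := by nlinarith
  have e5 : 64 * p * (p * X) ≤ 64 * p * ((p + 1) * s) := by
    have h6 : 8 * p * (4 * p * (2 * X)) ≤ (4 * p + 1) * ((16 * p + 5) * s) := by
      calc 8 * p * (4 * p * (2 * X)) ≤ 8 * p * ((4 * p + 1) * (2 * a + w)) :=
            Nat.mul_le_mul_left _ e3
        _ = (4 * p + 1) * (8 * p * (2 * a + w)) := by ring
        _ ≤ (4 * p + 1) * ((16 * p + 5) * s) := Nat.mul_le_mul_left _ e4
    have h7 : (4 * p + 1) * ((16 * p + 5) * s) ≤ 64 * p * ((p + 1) * s) := by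
      have h8 : (4 * p + 1) * (16 * p + 5) ≤ 64 * p * (p + 1) := by nlinarith
      calc (4 * p + 1) * ((16 * p + 5) * s) = (4 * p + 1) * (16 * p + 5) * s := by ring
        _ ≤ 64 * p * (p + 1) * s := Nat.mul_le_mul_right _ h8
        _ = 64 * p * ((p + 1) * s) := by ring
    calc 64 * p * (p * X) = 8 * p * (4 * p * (2 * X)) := by ring
      _ ≤ _ := h6.trans h7
  exact Nat.le_of_mul_le_mul_left e5 (by omega)

private lemma mono_le {p q a b : ℕ} (hpq : p ≤ q) (hab : b ≤ a) (h : q * a ≤ q * b + a) :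
    p * a ≤ p * b + a := by
  obtain ⟨d, rfl⟩ := Nat.exists_eq_add_of_le hab
  have h1 : q * d ≤ b + d := by nlinarith
  have h2 : p * d ≤ q * d := Nat.mul_le_mul_right _ hpq
  nlinarith

private lemma ctx_mono' {G : Type} [AddCommGroup G] [Fintype G] [DecidableEq G] {V C : Finset G}
    {q q' : ℕ} (h : Ctx V C q) (hqq : q' ≤ q) : Ctx V C q' := by
  rcases Nat.eq_zero_or_pos q' with h0 | h0
  · subst h0
    exact ⟨h.asym, Nat.zero_le _, by simp, h.sub, h.half, by simp, h.sparse⟩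
  · exact h.mono h0 hqq


/-- The aperiodic case.  Constants: `k` from `fillmain`, `k0 = max k 10000`; `p, t1, M1'` from `local_thm k0`; `q1` from
`structure_thm (p' := 4 p + 10)`; `q = max (q1, 4 p + 10, 2)`; `t2, M2` from `context q`; `t = max (t1, t2, 8 p, 100, 1)`; `M3` from
`xprime t`; `M = 3 (M1' + M2 + M3 + 100)` or so.
Let `s = tot μ`.  If `gg w s ≤ |SM μ|` the first alternative holds with `h = 1` (`RG.ph_h_one`).  If there is a subgroup `H` with
`|H| ≤ |SM μ|`, `4 s ≤ w |H|`: first alternative with `h = |H|`: `ph w h s = h` by `RG.ph_small` (`s ≤ w ⌊(h-1)/2⌋` since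
`4 s ≤ w h`: if `h ≥ 2` then `h / 4 ≤ (h - 1)/2` with floors: `h ≤ 4 ⌊(h-1)/2⌋ + …`; for `h ≥ 3` `h ≤ 4 ⌊(h-1)/2⌋`; for `h ≤ 2`:
`4 s ≤ 2 w`, but then `s ≤ 2 w` and `exact2` gives `gg w s ≤ |SM μ|`).  If `s ≤ 2 w`: `exact2`.  So we have `Hyp w μ`, `s > 2 w`,
`3 s ≥ 2 (w + s)`-ish, so `s` is large.
If `s ≤ t w`: `xprime t` gives `False`.  Let `s > t w`.  `context q` gives `ν, C`; `V = sp ν`; `structure_thm` gives `K1, l, T'` (`= t` there),
`p' (2 T' |K1|) ≤ (p'+1)(2 |V| + 1)`.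
Case `|K1| ≥ k0`: `densecoset` (`sparse` from `Ctx`; `10 Y ≤ 11 Z` follows from `p' Y ≤ (p'+1) Z`, `p' ≥ 10`) gives `x` with
`|K1| ≤ 3 |V ∩ (x + K1)| ≤ 3 ncard {y | μ y ≠ 0 ∧ y - x ∈ K1}`, and `fillmain` gives `Red w μ`.
Case `|K1| ≤ k0`: `local_thm k0` with `ν`: `p s ≤ p tot ν + s` since `q s ≤ q tot ν + s` and `q ≥ p`; the elements of `ν` are in `V`;
`p w T' h ≤ (p+1) s`: `w · p' (2 T' h) ≤ (p'+1)(2 w |V| + w)`, `q w |V| ≤ (q+1) tot ν ≤ (q+1) s`, `w ≤ s / t`, so
`2 w T' h ≤ (1 + 1/p') (2 (1 + 1/q) + 1/t) s ≤ 2 (1 + 1/p) s` as `p' , q ≥ 4 p`, `t ≥ 8 p`. -/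
theorem aperiodic : ∃ M : ℕ, ∀ (G : Type) [AddCommGroup G] [Fintype G] [DecidableEq G] (w : ℕ)
    (μ : G → ℕ), IsAddCyclic G → 1 ≤ w → AS μ → (∀ x, μ x ≤ w) → stb (SM μ) = ⊥ →
    M ≤ w + tot μ → Concl G w μ ∨ Red w μ := by
  obtain ⟨k, hk⟩ := fillmain
  obtain ⟨k0, hk0⟩ : ∃ k0, k0 = max k 10000 := ⟨_, rfl⟩
  obtain ⟨p, t1, M1, hp, hloc⟩ := local_thm k0
  obtain ⟨q1, hstr⟩ := structure_thm (4 * p + 10) (by omega)
  obtain ⟨q, hq⟩ : ∃ q, q = max q1 (4 * p + 10) := ⟨_, rfl⟩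
  have hqq1 : q1 ≤ q := by omega
  have hqp : 4 * p + 10 ≤ q := by omega
  obtain ⟨t2, M2, hctx⟩ := context q (by omega)
  obtain ⟨t, ht⟩ : ∃ t, t = max (max t1 t2) (8 * p + 100) := ⟨_, rfl⟩
  have ht1 : t1 ≤ t := by omega
  have ht2 : t2 ≤ t := by omega
  have htp : 8 * p + 100 ≤ t := by omega
  obtain ⟨M3, hxp⟩ := xprime t (by omega)
  refine ⟨3 * (M1 + M2 + M3 + 100), ?_⟩
  intro G _ _ _ w μ hG hw hAS hb hst hM
  by_cases h1 : gg w (tot μ) ≤ (SM μ).card
  · left
    left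
    exact ⟨1, one_dvd _, by rw [RG.ph_h_one]; exact h1⟩
  have h3 : 2 * w < tot μ := by
    by_contra hc
    exact h1 (exact2 w hw μ hAS hb hst (by omega))
  by_cases h2 : ∃ H : AddSubgroup G, Nat.card H ≤ (SM μ).card ∧ 4 * tot μ ≤ w * Nat.card H
  · obtain ⟨H, hH1, hH2⟩ := h2
    left
    left
    refine ⟨Nat.card H, AddSubgroup.card_addSubgroup_dvd_card H, ?_⟩
    rw [RG.ph_small]
    · exact hH1
    · have h8 : 8 ≤ Nat.card H := by
        by_contra hc
        have h9 : w * Nat.card H ≤ w * 8 := Nat.mul_le_mul_left _ (by omega)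
        omega
      have h9 : Nat.card H ≤ 4 * ((Nat.card H - 1) / 2) := by omega
      have h10 : w * Nat.card H ≤ w * (4 * ((Nat.card H - 1) / 2)) := Nat.mul_le_mul_left _ h9
      have h11 : w * (4 * ((Nat.card H - 1) / 2)) = 4 * (w * ((Nat.card H - 1) / 2)) := by ring
      omega
  have hyp : Hyp w μ := ⟨hw, hAS, hb, hst, not_le.1 h1, h2⟩
  have hs : M1 + M2 + M3 + 100 ≤ tot μ := by omega
  rcases Nat.le_total (tot μ) (t * w) with h4 | h4
  · exact (hxp G w μ hG hyp (by omega) (by omega) h4).elim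
  obtain ⟨ν, C, hν, hq1, hq2, hC⟩ := hctx G w μ hyp (by omega)
    (le_trans (Nat.mul_le_mul_right _ ht2) h4)
  obtain ⟨K1, l, T', hT', hcov, hcard⟩ := hstr G (sp ν) C hG (ctx_mono' hC hqq1)
  have hτ : tot ν ≤ tot μ := Finset.sum_le_sum fun x _ => hν x
  rcases Nat.le_total k0 (Nat.card K1) with h5 | h5
  · right
    classical
    obtain ⟨x, hx⟩ := densecoset (sp ν) K1 l T' hT' (by omega) (hC.sparse K1) hcov (by
      have h6 : (4 * p + 10) * (10 * (2 * T' * Nat.card K1)) ≤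
          (4 * p + 10) * (11 * (2 * (sp ν).card + 1)) := by
        calc (4 * p + 10) * (10 * (2 * T' * Nat.card K1))
            = 10 * ((4 * p + 10) * (2 * T' * Nat.card K1)) := by ring
          _ ≤ 10 * ((4 * p + 10 + 1) * (2 * (sp ν).card + 1)) := Nat.mul_le_mul_left _ hcard
          _ = (10 * (4 * p + 10 + 1)) * (2 * (sp ν).card + 1) := by ring
          _ ≤ ((4 * p + 10) * 11) * (2 * (sp ν).card + 1) := Nat.mul_le_mul_right _ (by omega)
          _ = (4 * p + 10) * (11 * (2 * (sp ν).card + 1)) := by ring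
      exact Nat.le_of_mul_le_mul_left h6 (by omega))
    refine hk G w μ K1 x hG hw hAS hb hst (by omega) (hx.trans (Nat.mul_le_mul_left _ ?_))
    rw [← Set.ncard_coe_finset]
    refine Set.ncard_le_ncard ?_ (Set.toFinite _)
    intro y hy
    rw [Finset.mem_coe, Finset.mem_filter] at hy
    refine ⟨?_, hy.2⟩
    intro h0
    have h6 := hν y
    exact (mem_sp ν y).1 hy.1 (by omega)
  · left
    refine hloc G w μ ν K1 l T' hG hyp h5 (by omega) (le_trans (Nat.mul_le_mul_right _ ht1) h4) hν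
      (mono_le (by omega) hτ hq1) (fun x hx => hcov x ((mem_sp ν x).2 hx)) ?_
    refine fin_ar p q t w (sp ν).card (tot μ) (w * (T' * Nat.card K1)) hp hqp htp ?_
      (hq2.trans (Nat.mul_le_mul_left _ hτ)) h4
    calc (4 * p + 10) * (2 * (w * (T' * Nat.card K1)))
        = w * ((4 * p + 10) * (2 * T' * Nat.card K1)) := by ring
      _ ≤ w * ((4 * p + 10 + 1) * (2 * (sp ν).card + 1)) := Nat.mul_le_mul_left _ hcard
      _ = (4 * p + 11) * (2 * (w * (sp ν).card) + w) := by ring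

end FX
end

section

set_option autoImplicit false
set_option linter.unusedSectionVars false

open Finset Pointwise

namespace FX

open RG (stb mem_stb gg ph)
open SPR (T)
open AM
open Pool.Agent.Lib.MP_d3cc86_co (lam Asym symz)

theorem main_fx : ∃ M : ℕ, ∀ (G : Type) [AddCommGroup G] [Fintype G] (w : ℕ) (μ : G → ℕ),
    IsAddCyclic G → 1 ≤ w → AS μ → (∀ x, μ x ≤ w) → M ≤ w + tot μ → Concl G w μ := by
  classical
  obtain ⟨M, hM⟩ := aperiodic
  refine ⟨M, ?_⟩
  have key : ∀ (N : ℕ) (G : Type) [AddCommGroup G] [Fintype G] (w : ℕ) (μ : G → ℕ),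
      Nat.card G ≤ N → IsAddCyclic G → 1 ≤ w → AS μ → (∀ x, μ x ≤ w) → M ≤ w + tot μ →
      Concl G w μ := by
    intro N
    induction N with
    | zero =>
      intro G _ _ w μ hN
      have : 0 < Nat.card G := Nat.card_pos
      omega
    | succ N ih =>
      intro G _ _ w μ hN hG hw hAS hb hm
      have IH : ∀ (Q : Type) [AddCommGroup Q] [Fintype Q] (w' : ℕ) (ν : Q → ℕ),
          Nat.card Q < Nat.card G → IsAddCyclic Q → 1 ≤ w' → AS ν → (∀ x, ν x ≤ w') →
          M ≤ w' + tot ν → Concl Q w' ν := by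
        intro Q _ _ w' ν hQ
        exact ih Q w' ν (by omega)
      by_cases hst : stb (SM μ) = ⊥
      · rcases hM G w μ hG hw hAS hb hst hm with h | h
        · exact h
        · exact concl_up w hw μ M hm h IH
      · exact concl_up w hw μ M hm (periodic_step hG w μ hAS hb hst) IH
  intro G _ _ w μ hG hw hAS hb hm
  exact key (Nat.card G) G w μ le_rfl hG hw hAS hb hm

theorem lower_fx : ∃ M : ℕ, ∀ (n : ℕ) [NeZero n] (A : Finset (ZMod n)), (∀ a ∈ A, -a ∉ A) →
    M ≤ A.card →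
      (∃ h, h ∣ n ∧ SPR.phi h A.card ≤ A.subsetSum.card) ∨
      (((3 ∣ n ∧ A.card % 3 = 1) ∨ (5 ∣ n ∧ A.card % 5 = 2)) ∧ T A.card ≤ A.subsetSum.card) := by
  classical
  obtain ⟨M, hM⟩ := main_fx
  refine ⟨M, fun n _ A hA hm => ?_⟩
  have h1 : AS (ind A) := by
    intro x hx
    unfold ind at hx ⊢
    by_cases h : x ∈ A
    · rw [if_neg (hA x h)]
    · rw [if_neg h] at hx
      exact absurd rfl hx
  have h2 : ∀ x, ind A x ≤ 1 := by
    intro x
    unfold ind
    split_ifs <;> omega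
  have h3 := hM (ZMod n) 1 (ind A) inferInstance le_rfl h1 h2 (by rw [tot_ind]; omega)
  unfold Concl at h3
  rw [tot_ind, SM_ind, Nat.card_zmod] at h3
  rcases h3 with ⟨h, hd, h4⟩ | ⟨_, h4, h5⟩
  · left
    exact ⟨h, hd, by rw [← RG.ph_one_eq]; exact h4⟩
  · right
    exact ⟨h4, h5⟩

end FX
end

section

set_option autoImplicit false
set_option linter.unusedSectionVars false

open Finset Pointwise

namespace FX

open RG (stb mem_stb gg ph)
open SPR (T)
open AM
open Pool.Agent.Lib.MP_d3cc86_co (lam Asym symz)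

end FX
end
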